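import Mathlib
import Pool.Agent.SWT85.Merge

/-!
# Words of elementary pieces

A word is a list of letters; it is read from the left to the right and describes a diagram which is
built along the circle. At every moment there are `k` open edges, the rails `0, ..., k - 1`.
-/

set_option autoImplicit false

namespace Pool.Agent.SWW54

open Pool.Agent.Jac70 Pool.Agent.SWT85

/-- The letters: `a i` puts a leg on the rail `i`, `b i j` a rung between the rails `i` and `j`,
`Y i j` splits the rail `i` into the rails `i` and `j`, `M i j` merges the rails `i` and `j` into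
the rail `i`, `P i j` exchanges the rails `i` and `j`, `E i` is a new leg which becomes the rail
`i`, `A i` lets the rail `i` end on the circle, `o i` puts a bubble on the rail `i`, `F i` is a new
leg before all the others which becomes the rail `i`. -/
inductive Lt : Type
  | a (i : ℕ)
  | b (i j : ℕ)
  | Y (i j : ℕ)
  | M (i j : ℕ)
  | P (i j : ℕ)
  | E (i : ℕ)
  | A (i : ℕ)
  | o (i : ℕ)
  | F (i : ℕ)
  deriving DecidableEq

/-- A piece: the labels of the rails at its end, the next free label, the labels of its legs, its
vertices, the labels of the legs before all the others. -/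
structure Pc : Type where
  ra : ℕ → ℕ
  n : ℕ
  L : List ℕ
  V : List Tri
  B : List ℕ

/-- The piece of a letter. -/
def stp : Lt → (ℕ → ℕ) → ℕ → Pc
  | .a i, ra, n => ⟨Function.update ra i (n + 1), n + 2, [n], [(n, ra i, n + 1)], []⟩
  | .b i j, ra, n => ⟨Function.update (Function.update ra i (n + 1)) j (n + 2), n + 3, [],
      [(n, ra i, n + 1), (n, ra j, n + 2)], []⟩
  | .Y i j, ra, n => ⟨Function.update (Function.update ra i n) j (n + 1), n + 2, [],
      [(ra i, n, n + 1)], []⟩
  | .M i j, ra, n => ⟨Function.update ra i n, n + 1, [], [(n, ra i, ra j)], []⟩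
  | .P i j, ra, n => ⟨fun s => ra (Equiv.swap i j s), n, [], [], []⟩
  | .E i, ra, n => ⟨Function.update ra i n, n + 1, [n], [], []⟩
  | .A i, ra, n => ⟨ra, n, [ra i], [], []⟩
  | .o i, ra, n => ⟨Function.update ra i (n + 2), n + 3, [],
      [(ra i, n, n + 1), (n + 2, n, n + 1)], []⟩
  | .F i, ra, n => ⟨Function.update ra i n, n + 1, [], [], [n]⟩

/-- The number of rails after a letter, if the letter is legal. -/
def tl : Lt → ℕ → Option ℕ
  | .a i, k => if i < k then some k else none
  | .b i j, k => if i < k ∧ j < k ∧ i ≠ j then some k else none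
  | .Y i j, k => if i < k ∧ j = k then some (k + 1) else none
  | .M i j, k => if i < j ∧ j + 1 = k then some j else none
  | .P i j, k => if i < k ∧ j < k then some k else none
  | .E i, k => if i = k then some (k + 1) else none
  | .A i, k => if i + 1 = k then some i else none
  | .o i, k => if i < k then some k else none
  | .F i, k => if i = k then some (k + 1) else none

/-- The number of rails after a word. -/
def ty : List Lt → ℕ → Option ℕ
  | [], k => some k
  | l :: w, k => (tl l k).bind (ty w)

/-- The piece of a word. -/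
def run : List Lt → (ℕ → ℕ) → ℕ → Pc
  | [], ra, n => ⟨ra, n, [], [], []⟩
  | l :: w, ra, n => ⟨(run w (stp l ra n).ra (stp l ra n).n).ra,
      (run w (stp l ra n).ra (stp l ra n).n).n,
      (stp l ra n).L ++ (run w (stp l ra n).ra (stp l ra n).n).L,
      (stp l ra n).V ++ (run w (stp l ra n).ra (stp l ra n).n).V,
      (run w (stp l ra n).ra (stp l ra n).n).B ++ (stp l ra n).B⟩

/-- The class of the diagram of a word without rails at the beginning and at the end; the circle is
a line closed at infinity. -/
noncomputable def ev (H : Type) [DecidableEq H] (w : List Lt) : A H :=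
  cls H ((run w (fun _ => 0) 0).B ++ (run w (fun _ => 0) 0).L) (run w (fun _ => 0) 0).V

theorem ty_cons {l : Lt} {w : List Lt} {k k' : ℕ} (h : ty (l :: w) k = some k') :
    ∃ m, tl l k = some m ∧ ty w m = some k' := by
  unfold ty at h
  exact Option.bind_eq_some_iff.1 h

theorem ty_append {v w : List Lt} {k k' : ℕ} :
    ty (v ++ w) k = some k' ↔ ∃ m, ty v k = some m ∧ ty w m = some k' := by
  induction v generalizing k with
  | nil => simp [ty]
  | cons l v ih =>
    show (tl l k).bind (ty (v ++ w)) = some k' ↔ ∃ m, (tl l k).bind (ty v) = some m ∧ _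
    constructor
    · intro h
      obtain ⟨m, hm, h⟩ := Option.bind_eq_some_iff.1 h
      obtain ⟨m', h1, h2⟩ := ih.1 h
      exact ⟨m', Option.bind_eq_some_iff.2 ⟨m, hm, h1⟩, h2⟩
    · rintro ⟨m', h1, h2⟩
      obtain ⟨m, hm, h1⟩ := Option.bind_eq_some_iff.1 h1
      exact Option.bind_eq_some_iff.2 ⟨m, hm, ih.2 ⟨m', h1, h2⟩⟩

theorem run_append (v w : List Lt) (ra : ℕ → ℕ) (n : ℕ) :
    run (v ++ w) ra n = ⟨(run w (run v ra n).ra (run v ra n).n).ra,
      (run w (run v ra n).ra (run v ra n).n).n,
      (run v ra n).L ++ (run w (run v ra n).ra (run v ra n).n).L,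
      (run v ra n).V ++ (run w (run v ra n).ra (run v ra n).n).V,
      (run w (run v ra n).ra (run v ra n).n).B ++ (run v ra n).B⟩ := by
  induction v generalizing ra n with
  | nil => simp [run]
  | cons l v ih =>
    rw [List.cons_append]
    simp only [run]
    rw [ih]
    simp only [List.append_assoc]

/-! ### Renaming -/

/-- `q'` is `q` with the labels renamed by `g`, on `k` rails. -/
structure Rn (g : ℕ → ℕ) (k : ℕ) (q q' : Pc) : Prop where
  ra : ∀ s < k, g (q.ra s) = q'.ra s
  n : ∀ j, g (q.n + j) = q'.n + j
  L : q.L.map g = q'.L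
  V : q.V.map (mp g) = q'.V
  B : q.B.map g = q'.B

theorem stp_map {l : Lt} {k k' : ℕ} (h : tl l k = some k') {g : ℕ → ℕ} {ra ra' : ℕ → ℕ}
    {n n' : ℕ} (h1 : ∀ s < k, g (ra s) = ra' s) (h2 : ∀ j, g (n + j) = n' + j) :
    Rn g k' (stp l ra n) (stp l ra' n') := by
  have h0 : g n = n' := h2 0
  have hn : ∀ m j, g (n + m + j) = n' + m + j := fun m j => by
    rw [Nat.add_assoc, h2, Nat.add_assoc]
  cases l with
  | a i =>
    simp only [tl] at h
    split_ifs at h with hi
    simp only [Option.some.injEq] at h
    subst h
    refine ⟨?_, hn 2, ?_, ?_, rfl⟩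
    · intro s hs
      simp only [stp, Function.update_apply]
      split_ifs
      · exact h2 1
      · exact h1 s hs
    · simp [stp, h0]
    · simp [stp, mp, h0, h1 i hi, h2 1]
  | b i j =>
    simp only [tl] at h
    split_ifs at h with hi
    simp only [Option.some.injEq] at h
    subst h
    refine ⟨?_, hn 3, rfl, ?_, rfl⟩
    · intro s hs
      simp only [stp, Function.update_apply]
      split_ifs
      · exact h2 2
      · exact h2 1
      · exact h1 s hs
    · simp [stp, mp, h0, h1 i hi.1, h1 j hi.2.1, h2 1, h2 2]
  | Y i j =>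
    simp only [tl] at h
    split_ifs at h with hi
    simp only [Option.some.injEq] at h
    subst h
    refine ⟨?_, hn 2, rfl, ?_, rfl⟩
    · intro s hs
      simp only [stp, Function.update_apply]
      split_ifs with h3 h4
      · exact h2 1
      · exact h0
      · exact h1 s (by omega)
    · simp [stp, mp, h0, h1 i hi.1, h2 1]
  | M i j =>
    simp only [tl] at h
    split_ifs at h with hi
    simp only [Option.some.injEq] at h
    subst h
    refine ⟨?_, hn 1, rfl, ?_, rfl⟩
    · intro s hs
      simp only [stp, Function.update_apply]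
      split_ifs with h3
      · exact h0
      · exact h1 s (by omega)
    · simp [stp, mp, h0, h1 i (by omega), h1 j (by omega)]
  | P i j =>
    simp only [tl] at h
    split_ifs at h with hi
    simp only [Option.some.injEq] at h
    subst h
    refine ⟨?_, h2, rfl, rfl, rfl⟩
    intro s hs
    simp only [stp]
    apply h1
    rw [Equiv.swap_apply_def]
    split_ifs
    · exact hi.2
    · exact hi.1
    · exact hs
  | E i =>
    simp only [tl] at h
    split_ifs at h with hi
    simp only [Option.some.injEq] at h
    subst h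
    refine ⟨?_, hn 1, ?_, rfl, rfl⟩
    · intro s hs
      simp only [stp, Function.update_apply]
      split_ifs with h3
      · exact h0
      · exact h1 s (by omega)
    · simp [stp, h0]
  | A i =>
    simp only [tl] at h
    split_ifs at h with hi
    simp only [Option.some.injEq] at h
    subst h
    refine ⟨fun s hs => h1 s (by omega), h2, ?_, rfl, rfl⟩
    simp [stp, h1 i (by omega)]
  | o i =>
    simp only [tl] at h
    split_ifs at h with hi
    simp only [Option.some.injEq] at h
    subst h
    refine ⟨?_, hn 3, rfl, ?_, rfl⟩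
    · intro s hs
      simp only [stp, Function.update_apply]
      split_ifs
      · exact h2 2
      · exact h1 s hs
    · simp [stp, mp, h0, h1 i hi, h2 1, h2 2]
  | F i =>
    simp only [tl] at h
    split_ifs at h with hi
    simp only [Option.some.injEq] at h
    subst h
    refine ⟨?_, hn 1, rfl, rfl, ?_⟩
    · intro s hs
      simp only [stp, Function.update_apply]
      split_ifs with h3
      · exact h0
      · exact h1 s (by omega)
    · simp [stp, h0]

theorem run_map {w : List Lt} {k k' : ℕ} (h : ty w k = some k') {g : ℕ → ℕ} {ra ra' : ℕ → ℕ}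
    {n n' : ℕ} (h1 : ∀ s < k, g (ra s) = ra' s) (h2 : ∀ j, g (n + j) = n' + j) :
    Rn g k' (run w ra n) (run w ra' n') := by
  induction w generalizing k ra ra' n n' with
  | nil =>
    simp only [ty, Option.some.injEq] at h
    subst h
    exact ⟨h1, h2, rfl, rfl, rfl⟩
  | cons l w ih =>
    obtain ⟨m, hm, h⟩ := ty_cons h
    have r1 := stp_map hm h1 h2
    have r2 := ih h r1.ra r1.n
    refine ⟨r2.ra, r2.n, ?_, ?_, ?_⟩
    · simp only [run, List.map_append]
      rw [r1.L, r2.L]
    · simp only [run, List.map_append]
      rw [r1.V, r2.V]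
    · simp only [run, List.map_append]
      rw [r1.B, r2.B]

/-! ### The range of the labels -/

/-- All labels of the piece satisfy `p`. -/
structure Al (p : ℕ → Prop) (k : ℕ) (q : Pc) : Prop where
  ra : ∀ s < k, p (q.ra s)
  L : ∀ z ∈ q.L, p z
  V : ∀ t ∈ q.V, p t.1 ∧ p t.2.1 ∧ p t.2.2
  B : ∀ z ∈ q.B, p z

theorem stp_n (l : Lt) (ra : ℕ → ℕ) (n : ℕ) : n ≤ (stp l ra n).n := by
  cases l <;> simp [stp]

theorem run_n (w : List Lt) (ra : ℕ → ℕ) (n : ℕ) : n ≤ (run w ra n).n := by
  induction w generalizing ra n with
  | nil => exact le_rfl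
  | cons l w ih => exact (stp_n l ra n).trans (ih _ _)

theorem stp_al {l : Lt} {k k' : ℕ} (h : tl l k = some k') {p : ℕ → Prop} {ra : ℕ → ℕ} {n : ℕ}
    (h1 : ∀ s < k, p (ra s)) (h2 : ∀ z, n ≤ z → z < (stp l ra n).n → p z) :
    Al p k' (stp l ra n) := by
  cases l with
  | a i =>
    simp only [tl] at h
    split_ifs at h with hi
    simp only [Option.some.injEq] at h
    subst h
    have q0 : p n := h2 n le_rfl (by simp [stp])
    have q1 : p (n + 1) := h2 _ (by omega) (by simp [stp])
    refine ⟨?_, ?_, ?_, by simp [stp]⟩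
    · intro s hs
      simp only [stp, Function.update_apply]
      split_ifs
      · exact q1
      · exact h1 s hs
    · simpa [stp] using q0
    · simpa [stp] using ⟨q0, h1 i hi, q1⟩
  | b i j =>
    simp only [tl] at h
    split_ifs at h with hi
    simp only [Option.some.injEq] at h
    subst h
    have q0 : p n := h2 n le_rfl (by simp [stp])
    have q1 : p (n + 1) := h2 _ (by omega) (by simp [stp])
    have q2 : p (n + 2) := h2 _ (by omega) (by simp [stp])
    refine ⟨?_, by simp [stp], ?_, by simp [stp]⟩
    · intro s hs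
      simp only [stp, Function.update_apply]
      split_ifs
      · exact q2
      · exact q1
      · exact h1 s hs
    · simpa [stp] using ⟨⟨q0, h1 i hi.1, q1⟩, q0, h1 j hi.2.1, q2⟩
  | Y i j =>
    simp only [tl] at h
    split_ifs at h with hi
    simp only [Option.some.injEq] at h
    subst h
    have q0 : p n := h2 n le_rfl (by simp [stp])
    have q1 : p (n + 1) := h2 _ (by omega) (by simp [stp])
    refine ⟨?_, by simp [stp], ?_, by simp [stp]⟩
    · intro s hs
      simp only [stp, Function.update_apply]
      split_ifs with h3 h4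
      · exact q1
      · exact q0
      · exact h1 s (by omega)
    · simpa [stp] using ⟨h1 i hi.1, q0, q1⟩
  | M i j =>
    simp only [tl] at h
    split_ifs at h with hi
    simp only [Option.some.injEq] at h
    subst h
    have q0 : p n := h2 n le_rfl (by simp [stp])
    refine ⟨?_, by simp [stp], ?_, by simp [stp]⟩
    · intro s hs
      simp only [stp, Function.update_apply]
      split_ifs with h3
      · exact q0
      · exact h1 s (by omega)
    · simpa [stp] using ⟨q0, h1 i (by omega), h1 j (by omega)⟩
  | P i j =>
    simp only [tl] at h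
    split_ifs at h with hi
    simp only [Option.some.injEq] at h
    subst h
    refine ⟨?_, by simp [stp], by simp [stp], by simp [stp]⟩
    intro s hs
    simp only [stp]
    apply h1
    rw [Equiv.swap_apply_def]
    split_ifs
    · exact hi.2
    · exact hi.1
    · exact hs
  | E i =>
    simp only [tl] at h
    split_ifs at h with hi
    simp only [Option.some.injEq] at h
    subst h
    have q0 : p n := h2 n le_rfl (by simp [stp])
    refine ⟨?_, ?_, by simp [stp], by simp [stp]⟩
    · intro s hs
      simp only [stp, Function.update_apply]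
      split_ifs with h3
      · exact q0
      · exact h1 s (by omega)
    · simpa [stp] using q0
  | A i =>
    simp only [tl] at h
    split_ifs at h with hi
    simp only [Option.some.injEq] at h
    subst h
    refine ⟨fun s hs => h1 s (by omega), ?_, by simp [stp], by simp [stp]⟩
    simpa [stp] using h1 i (by omega)
  | o i =>
    simp only [tl] at h
    split_ifs at h with hi
    simp only [Option.some.injEq] at h
    subst h
    have q0 : p n := h2 n le_rfl (by simp [stp])
    have q1 : p (n + 1) := h2 _ (by omega) (by simp [stp])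
    have q2 : p (n + 2) := h2 _ (by omega) (by simp [stp])
    refine ⟨?_, by simp [stp], ?_, by simp [stp]⟩
    · intro s hs
      simp only [stp, Function.update_apply]
      split_ifs
      · exact q2
      · exact h1 s hs
    · simpa [stp] using ⟨⟨h1 i hi, q0, q1⟩, q2, q0, q1⟩
  | F i =>
    simp only [tl] at h
    split_ifs at h with hi
    simp only [Option.some.injEq] at h
    subst h
    have q0 : p n := h2 n le_rfl (by simp [stp])
    refine ⟨?_, by simp [stp], by simp [stp], ?_⟩
    · intro s hs
      simp only [stp, Function.update_apply]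
      split_ifs with h3
      · exact q0
      · exact h1 s (by omega)
    · simpa [stp] using q0

theorem run_al {w : List Lt} {k k' : ℕ} (h : ty w k = some k') {p : ℕ → Prop} {ra : ℕ → ℕ}
    {n : ℕ} (h1 : ∀ s < k, p (ra s)) (h2 : ∀ z, n ≤ z → z < (run w ra n).n → p z) :
    Al p k' (run w ra n) := by
  induction w generalizing k ra n with
  | nil =>
    simp only [ty, Option.some.injEq] at h
    subst h
    exact ⟨h1, by simp [run], by simp [run], by simp [run]⟩
  | cons l w ih =>
    obtain ⟨m, hm, h⟩ := ty_cons h
    have r1 := stp_al hm h1 (fun z hz hz' => h2 z hz (hz'.trans_le (run_n _ _ _)))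
    have r2 := ih h r1.ra (fun z hz hz' => h2 z ((stp_n l ra n).trans hz) hz')
    refine ⟨r2.ra, ?_, ?_, ?_⟩
    · intro z hz
      simp only [run, List.mem_append] at hz
      exact hz.elim (r1.L z) (r2.L z)
    · intro z hz
      simp only [run, List.mem_append] at hz
      exact hz.elim (r1.V z) (r2.V z)
    · intro z hz
      simp only [run, List.mem_append] at hz
      exact hz.elim (r2.B z) (r1.B z)

theorem run_lt {w : List Lt} {k k' : ℕ} (h : ty w k = some k') {ra : ℕ → ℕ} {n : ℕ}
    (h1 : ∀ s < k, ra s < n) : Al (fun z => z < (run w ra n).n) k' (run w ra n) :=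
  run_al h (fun s hs => (h1 s hs).trans_le (run_n _ _ _)) fun _ _ hz => hz

theorem run_ge {w : List Lt} {k k' : ℕ} (h : ty w k = some k') (ra : ℕ → ℕ) (n : ℕ) :
    Al (fun z => (∃ s < k, z = ra s) ∨ n ≤ z) k' (run w ra n) :=
  run_al h (fun s hs => Or.inl ⟨s, hs, rfl⟩) fun _ hz _ => Or.inr hz

/-! ### The tails -/

/-- The state after the prefix. -/
def st (p : List Lt) : Pc := run p (fun _ => 0) 0

/-- The legs after the middle part. -/
def tL (p u : List Lt) (ra : ℕ → ℕ) (n : ℕ) : List ℕ :=
  (run u ra n).L ++ ((run u ra n).B ++ ((st p).B ++ (st p).L))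

/-- The vertices outside the middle part. -/
def tV (p u : List Lt) (ra : ℕ → ℕ) (n : ℕ) : List Tri := (st p).V ++ (run u ra n).V

variable {H : Type} [DecidableEq H]

theorem st_lt {p : List Lt} {k : ℕ} (hp : ty p 0 = some k) :
    Al (fun z => z < (st p).n) k (st p) :=
  run_lt hp (fun _ hs => absurd hs (Nat.not_lt_zero _))

/-- The general standard form. -/
theorem ev_all {p r u : List Lt} {k k' : ℕ} (hp : ty p 0 = some k) (hu : ty u k' = some 0)
    {g : ℕ → ℕ} (hg : Function.Injective g) (h1 : ∀ z < (st p).n, g z = z) {ra : ℕ → ℕ} {n : ℕ}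
    (h2 : ∀ s < k', g ((run r (st p).ra (st p).n).ra s) = ra s)
    (h3 : ∀ j, g ((run r (st p).ra (st p).n).n + j) = n + j) :
    ev H (p ++ r ++ u) =
      cls H ((run u ra n).B ++ ((run r (st p).ra (st p).n).B.map g ++ (st p).B) ++
        ((st p).L ++ ((run r (st p).ra (st p).n).L.map g ++ (run u ra n).L)))
      ((run r (st p).ra (st p).n).V.map (mp g) ++ tV p u ra n) := by
  have hs := st_lt hp
  have hR := run_map hu h2 h3
  have e1 : (st p).L.map g = (st p).L :=
    (List.map_congr_left fun z hz => h1 z (hs.L z hz)).trans (List.map_id _)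
  have e0 : (st p).B.map g = (st p).B :=
    (List.map_congr_left fun z hz => h1 z (hs.B z hz)).trans (List.map_id _)
  have e2 : (st p).V.map (mp g) = (st p).V := by
    refine (List.map_congr_left fun t ht => ?_).trans (List.map_id _)
    obtain ⟨q1, q2, q3⟩ := hs.V t ht
    show (g t.1, g t.2.1, g t.2.2) = _
    rw [h1 _ q1, h1 _ q2, h1 _ q3]
    rfl
  unfold ev
  rw [← cls_relabel g (fun x _ y _ hxy => hg hxy)]
  rw [List.append_assoc, run_append p (r ++ u), run_append r u]
  simp only [List.map_append]
  have e3 : List.map g (run p (fun _ => 0) 0).L = (st p).L := e1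
  have e4 : List.map (mp g) (run p (fun _ => 0) 0).V = (st p).V := e2
  have e8 : List.map g (run p (fun _ => 0) 0).B = (st p).B := e0
  rw [e3, e4, e8]
  have e5 : List.map g (run u (run r (run p (fun _ => 0) 0).ra (run p (fun _ => 0) 0).n).ra
      (run r (run p (fun _ => 0) 0).ra (run p (fun _ => 0) 0).n).n).L = (run u ra n).L := hR.L
  have e6 : List.map (mp g) (run u (run r (run p (fun _ => 0) 0).ra (run p (fun _ => 0) 0).n).ra
      (run r (run p (fun _ => 0) 0).ra (run p (fun _ => 0) 0).n).n).V = (run u ra n).V := hR.V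
  have e7 : List.map g (run u (run r (run p (fun _ => 0) 0).ra (run p (fun _ => 0) 0).n).ra
      (run r (run p (fun _ => 0) 0).ra (run p (fun _ => 0) 0).n).n).B = (run u ra n).B := hR.B
  rw [e5, e6, e7]
  have e9 : (run u ra n).B ++ List.map g (run r (run p (fun _ => 0) 0).ra
      (run p (fun _ => 0) 0).n).B ++ (st p).B ++ ((st p).L ++ (List.map g (run r
      (run p (fun _ => 0) 0).ra (run p (fun _ => 0) 0).n).L ++ (run u ra n).L)) =
      (run u ra n).B ++ ((run r (st p).ra (st p).n).B.map g ++ (st p).B) ++
        ((st p).L ++ ((run r (st p).ra (st p).n).L.map g ++ (run u ra n).L)) := by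
    rw [List.append_assoc (run u ra n).B]
    rfl
  rw [e9]
  refine cls_perm ?_
  show ((st p).V ++ (List.map (mp g) (run r (st p).ra (st p).n).V ++ (run u ra n).V)).Perm _
  unfold tV
  rw [← List.append_assoc, ← List.append_assoc]
  exact List.Perm.append_right _ List.perm_append_comm

theorem ev_mid {p r u : List Lt} {k k' : ℕ} (hp : ty p 0 = some k) (hu : ty u k' = some 0)
    {g : ℕ → ℕ} (hg : Function.Injective g) (h1 : ∀ z < (st p).n, g z = z) {ra : ℕ → ℕ} {n : ℕ}
    (h2 : ∀ s < k', g ((run r (st p).ra (st p).n).ra s) = ra s)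
    (h3 : ∀ j, g ((run r (st p).ra (st p).n).n + j) = n + j)
    (h4 : (run r (st p).ra (st p).n).B = []) :
    ev H (p ++ r ++ u) = cls H ((run r (st p).ra (st p).n).L.map g ++ tL p u ra n)
      ((run r (st p).ra (st p).n).V.map (mp g) ++ tV p u ra n) := by
  rw [ev_all hp hu hg h1 h2 h3, h4, List.map_nil, List.nil_append]
  have e1 : (run u ra n).B ++ (st p).B ++
      ((st p).L ++ ((run r (st p).ra (st p).n).L.map g ++ (run u ra n).L)) =
      ((run u ra n).B ++ ((st p).B ++ (st p).L)) ++
        ((run r (st p).ra (st p).n).L.map g ++ (run u ra n).L) := by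
    simp only [List.append_assoc]
  rw [e1, cls_rot_append, List.append_assoc]
  rfl

/-- A label which is not used by the tails. -/
theorem not_mem_tail {p u : List Lt} {k k' : ℕ} (hp : ty p 0 = some k) (hu : ty u k' = some 0)
    {ra : ℕ → ℕ} {n z : ℕ} (hz : (st p).n ≤ z) (hz' : z < n) (h : ∀ s < k', z ≠ ra s) :
    z ∉ lbs (tL p u ra n) (tV p u ra n) := by
  have hs := st_lt hp
  have hr := run_ge hu ra n
  have key : ∀ y, ((∃ s < k', y = ra s) ∨ n ≤ y) → z ≠ y := by
    rintro y (⟨s, hs, rfl⟩ | hy) rfl
    · exact h s hs rfl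
    · omega
  intro hm
  unfold lbs tL tV at hm
  rw [List.flatMap_append] at hm
  simp only [List.mem_append, List.mem_cons, List.mem_flatMap, List.not_mem_nil, or_false] at hm
  rcases hm with (hm | hm | hm | hm) | ⟨t, ht, hm⟩ | ⟨t, ht, hm⟩
  · exact key z (hr.L z hm) rfl
  · exact key z (hr.B z hm) rfl
  · have := hs.B z hm
    omega
  · have := hs.L z hm
    omega
  · obtain ⟨q1, q2, q3⟩ := hs.V t ht
    rcases hm with rfl | rfl | rfl <;> omega
  · obtain ⟨q1, q2, q3⟩ := hr.V t ht
    rcases hm with rfl | rfl | rfl
    · exact key _ q1 rfl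
    · exact key _ q2 rfl
    · exact key _ q3 rfl

end Pool.Agent.SWW54
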