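import Mathlib
import Pool.Agent.SWW54.Word

/-!
# Renaming of the labels of the middle part
-/

set_option autoImplicit false

namespace Pool.Agent.SWW54

open Pool.Agent.Jac70 Pool.Agent.SWT85

/-- The labels `n + c` with `c < l.length` become `n + l[c]`, the later ones are shifted so that
they begin with `n + d`. -/
def gm (n : ℕ) (l : List ℕ) (d z : ℕ) : ℕ :=
  if z < n then z else if z < n + l.length then n + l.getD (z - n) 0 else z - l.length + d

theorem gm_lt {n : ℕ} {l : List ℕ} {d z : ℕ} (h : z < n) : gm n l d z = z := if_pos h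

theorem gm_add {n : ℕ} {l : List ℕ} {d : ℕ} (c : ℕ) (h : c < l.length) :
    gm n l d (n + c) = n + l.getD c 0 := by
  unfold gm
  rw [if_neg (by omega), if_pos (by omega), Nat.add_sub_cancel_left]

theorem gm_zero {n : ℕ} {l : List ℕ} {d : ℕ} (h : 0 < l.length) :
    gm n l d n = n + l.getD 0 0 := gm_add 0 h

theorem gm_ge {n : ℕ} {l : List ℕ} {d m : ℕ} (h : m = n + l.length) (j : ℕ) :
    gm n l d (m + j) = n + d + j := by
  unfold gm
  rw [if_neg (by omega), if_neg (by omega)]
  omega

theorem gm_inj {n : ℕ} {l : List ℕ} {d : ℕ} (h : l.Nodup) (h' : ∀ x ∈ l, x < d) :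
    Function.Injective (gm n l d) := by
  have hg : ∀ c < l.length, l.getD c 0 < d := by
    intro c hc
    rw [List.getD_eq_getElem _ _ hc]
    exact h' _ (List.getElem_mem hc)
  intro x y hxy
  unfold gm at hxy
  split_ifs at hxy with h1 h2 h3 h4 h5 h6 h7 h8
  · exact hxy
  · omega
  · omega
  · omega
  · have h9 : l.getD (x - n) 0 = l.getD (y - n) 0 := by omega
    rw [List.getD_eq_getElem _ _ (by omega), List.getD_eq_getElem _ _ (by omega)] at h9
    have := (List.Nodup.getElem_inj_iff h).1 h9
    omega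
  · have := hg (x - n) (by omega)
    omega
  · omega
  · have := hg (y - n) (by omega)
    omega
  · omega

variable {H : Type} [DecidableEq H]

/-- The admissible lists. -/
def okl (l : List ℕ) (d : ℕ) : Bool := decide l.Nodup && l.all fun x => x < d

theorem okl_spec {l : List ℕ} {d : ℕ} (h : okl l d = true) : l.Nodup ∧ ∀ x ∈ l, x < d := by
  unfold okl at h
  rw [Bool.and_eq_true, decide_eq_true_eq, List.all_eq_true] at h
  exact ⟨h.1, fun x hx => by simpa using h.2 x hx⟩

theorem ev_gm {p r u : List Lt} {k k' : ℕ} (hp : ty p 0 = some k) (hu : ty u k' = some 0)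
    (l : List ℕ) (d : ℕ) (hl : okl l d = true) {ra : ℕ → ℕ}
    (h2 : ∀ s < k', gm (st p).n l d ((run r (st p).ra (st p).n).ra s) = ra s)
    (h3 : (run r (st p).ra (st p).n).n = (st p).n + l.length)
    (h4 : (run r (st p).ra (st p).n).B = []) :
    ev H (p ++ r ++ u) =
      cls H ((run r (st p).ra (st p).n).L.map (gm (st p).n l d) ++ tL p u ra ((st p).n + d))
      ((run r (st p).ra (st p).n).V.map (mp (gm (st p).n l d)) ++ tV p u ra ((st p).n + d)) :=
  ev_mid hp hu (gm_inj (okl_spec hl).1 (okl_spec hl).2) (fun _ h => gm_lt h) h2 (gm_ge h3)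
    h4

end Pool.Agent.SWW54
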