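import Mathlib
import Pool.Agent.SWW54.Gm
import Pool.Agent.SWT85.Loc

/-!
# A checker for local relations between words

A relation `∑ cᵢ wᵢ = 0` between words with `k` rails at the beginning and `k'` rails at the end is
checked by a list of elementary relations between the pieces of the words.
-/

set_option autoImplicit false

namespace Pool.Agent.SWW54

open Pool.Agent.Jac70 Pool.Agent.SWT85

/-- A piece: the legs and the vertices. -/
abbrev Cd : Type := List ℕ × List Tri

section val

variable {H : Type} [DecidableEq H] (f : ℕ → ℕ) (T : List ℕ) (W : List Tri)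

/-- The class of the piece with the labels renamed by `f` and with the tails `T`, `W`. -/
noncomputable def X (C : Cd) : A H := cls H (C.1.map f ++ T) (C.2.map (mp f) ++ W)

/-- The value of a sum. -/
noncomputable def val (l : List (ℤ × Cd)) : A H := (l.map fun x => x.1 • X f T W x.2).sum

variable {f T W}

theorem val_nil : val (H := H) f T W [] = 0 := rfl

theorem val_cons (x : ℤ × Cd) (l : List (ℤ × Cd)) :
    val (H := H) f T W (x :: l) = x.1 • X f T W x.2 + val f T W l := by
  unfold val
  rw [List.map_cons, List.sum_cons]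

theorem val_append (l l' : List (ℤ × Cd)) :
    val (H := H) f T W (l ++ l') = val f T W l + val f T W l' := by
  unfold val
  rw [List.map_append, List.sum_append]

/-! ### Normal forms -/

/-- The rotation of the triple such that the first label is minimal. -/
def rt (t : Tri) : Tri :=
  match Nat.ble t.1 t.2.1 && Nat.ble t.1 t.2.2 with
  | true => t
  | false => match Nat.ble t.2.1 t.2.2 with
    | true => (t.2.1, t.2.2, t.1)
    | false => (t.2.2, t.1, t.2.1)

/-- The sign. -/
def sg (s : Bool) : ℤ := if s then -1 else 1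

/-- The orientation of a rotated triple. -/
def nt1 (t : Tri) : Bool × Tri :=
  match Nat.ble t.2.1 t.2.2 with
  | true => (false, t)
  | false => (true, (t.1, t.2.2, t.2.1))

/-- The normal form of a triple: `true` means that the sign changes. -/
def nt (t : Tri) : Bool × Tri := nt1 (rt t)

/-- The key of a triple. -/
def kt (t : Tri) : ℕ := (t.1 * 1024 + t.2.1) * 1024 + t.2.2

/-- Ordered insertion; `k` is the key. -/
def ins (k : ℕ) (t : Tri) : List Tri → List Tri
  | [] => [t]
  | s :: l => match Nat.ble k (kt s) with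
    | true => t :: s :: l
    | false => s :: ins k t l

/-- The normal form of a list of triples. -/
def nV : List Tri → Bool × List Tri
  | [] => (false, [])
  | t :: V => (xor (nt t).1 (nV V).1, ins (kt (nt t).2) (nt t).2 (nV V).2)

theorem ins_perm (k : ℕ) (t : Tri) (l : List Tri) : (ins k t l).Perm (t :: l) := by
  induction l with
  | nil => exact List.Perm.refl _
  | cons s l ih =>
    unfold ins
    cases Nat.ble k (kt s) with
    | true => exact List.Perm.refl _
    | false => exact (List.Perm.cons _ ih).trans (List.Perm.swap _ _ _)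

theorem sg_xor (a b : Bool) : sg (xor a b) = sg a * sg b := by
  cases a <;> cases b <;> rfl

variable {ls : List ℕ} {vs : List Tri}

theorem cls_rt (g : ℕ → ℕ) (t : Tri) : cls H ls (mp g (rt t) :: vs) = cls H ls (mp g t :: vs) := by
  obtain ⟨a, b, c⟩ := t
  unfold rt
  cases Nat.ble a b && Nat.ble a c with
  | true => rfl
  | false =>
    cases Nat.ble b c with
    | true => exact (rot1 (g a) (g b) (g c)).symm
    | false => exact ((rot1 (g a) (g b) (g c)).trans (rot1 (g b) (g c) (g a))).symm

theorem cls_nt (g : ℕ → ℕ) (t : Tri) :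
    cls H ls (mp g t :: vs) = sg (nt t).1 • cls H ls (mp g (nt t).2 :: vs) := by
  have key : ∀ u : Tri, cls H ls (mp g u :: vs) = sg (nt1 u).1 • cls H ls (mp g (nt1 u).2 :: vs) := by
    intro u
    unfold nt1
    cases Nat.ble u.2.1 u.2.2 with
    | true =>
      show _ = (1 : ℤ) • _
      rw [one_zsmul]
    | false =>
      show _ = (-1 : ℤ) • _
      rw [neg_one_zsmul]
      exact rev1 _ _ _
  rw [← cls_rt]
  exact key (rt t)

theorem cls_nV (g : ℕ → ℕ) (V : List Tri) (vs : List Tri) :
    cls H ls (V.map (mp g) ++ vs) = sg (nV V).1 • cls H ls ((nV V).2.map (mp g) ++ vs) := by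
  induction V generalizing vs with
  | nil =>
    show _ = (1 : ℤ) • _
    rw [one_zsmul]
    rfl
  | cons t V ih =>
    have e1 : cls H ls ((t :: V).map (mp g) ++ vs) =
        cls H ls (V.map (mp g) ++ mp g t :: vs) :=
      cls_perm List.perm_middle.symm
    have e2 : cls H ls ((nV V).2.map (mp g) ++ mp g t :: vs) =
        cls H ls (mp g t :: ((nV V).2.map (mp g) ++ vs)) := cls_perm List.perm_middle
    have e3 : cls H ls (mp g (nt t).2 :: ((nV V).2.map (mp g) ++ vs)) =
        cls H ls ((nV (t :: V)).2.map (mp g) ++ vs) := by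
      refine cls_perm ?_
      have h1 : (nV (t :: V)).2 = ins (kt (nt t).2) (nt t).2 (nV V).2 := rfl
      rw [h1]
      exact (((ins_perm (kt (nt t).2) (nt t).2 (nV V).2).map (mp g)).append_right vs).symm
    have e4 : (nV (t :: V)).1 = xor (nt t).1 (nV V).1 := rfl
    rw [e1, ih, e2, cls_nt, e3, e4, sg_xor, mul_comm, mul_smul]

/-- The key of a piece. -/
def ky (C : Cd) : ℕ :=
  C.2.foldl (fun n t => n * 1073741824 + kt t) (C.1.foldl (fun n x => n * 1024 + x) 1)

/-- The sum of a list of terms with keys. -/
noncomputable def valk (f : ℕ → ℕ) (T : List ℕ) (W : List Tri) (l : List (ℕ × ℤ × Cd)) : A H :=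
  (l.map fun x => x.2.1 • X f T W x.2.2).sum

theorem valk_cons (x : ℕ × ℤ × Cd) (l : List (ℕ × ℤ × Cd)) :
    valk (H := H) f T W (x :: l) = x.2.1 • X f T W x.2.2 + valk f T W l := by
  unfold valk
  rw [List.map_cons, List.sum_cons]

/-- A term is added to a sum. -/
def addT (k : ℕ) (c : ℤ) (C : Cd) : List (ℕ × ℤ × Cd) → List (ℕ × ℤ × Cd)
  | [] => [(k, c, C)]
  | x :: l => match Nat.beq k x.1 && decide (x.2.2 = C) with
    | true => (k, c + x.2.1, C) :: l
    | false => x :: addT k c C l

theorem val_addT (k : ℕ) (c : ℤ) (C : Cd) (l : List (ℕ × ℤ × Cd)) :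
    valk (H := H) f T W (addT k c C l) = c • X f T W C + valk f T W l := by
  induction l with
  | nil =>
    rw [show addT k c C [] = [(k, c, C)] from rfl, valk_cons]
  | cons x l ih =>
    unfold addT
    cases h : Nat.beq k x.1 && decide (x.2.2 = C) with
    | true =>
      rw [Bool.and_eq_true, decide_eq_true_eq] at h
      show valk f T W ((k, c + x.2.1, C) :: l) = _
      rw [valk_cons, valk_cons, h.2, add_smul, add_assoc]
    | false =>
      show valk f T W (x :: addT k c C l) = _
      rw [valk_cons, valk_cons, ih]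
      abel

/-- A normalised term is added. -/
def addN (c : ℤ) (L : List ℕ) (v : Bool × List Tri) (l : List (ℕ × ℤ × Cd)) :
    List (ℕ × ℤ × Cd) :=
  addT (ky (L, v.2)) (c * sg v.1) (L, v.2) l

/-- Normalisation of a sum. -/
def nrm : List (ℤ × Cd) → List (ℕ × ℤ × Cd)
  | [] => []
  | x :: l => addN x.1 x.2.1 (nV x.2.2) (nrm l)

theorem val_nrm (l : List (ℤ × Cd)) : valk (H := H) f T W (nrm l) = val f T W l := by
  induction l with
  | nil => rfl
  | cons x l ih =>
    have h1 : X (H := H) f T W x.2 = sg (nV x.2.2).1 • X f T W (x.2.1, (nV x.2.2).2) :=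
      cls_nV f x.2.2 W
    unfold nrm addN
    rw [val_addT, val_cons, ih, h1, mul_smul]

/-- The test whether an integer is zero. -/
def iz : ℤ → Bool
  | .ofNat n => Nat.beq n 0
  | .negSucc _ => false

theorem iz_spec {c : ℤ} (h : iz c = true) : c = 0 := by
  cases c with
  | ofNat n =>
    unfold iz at h
    rw [Nat.eq_of_beq_eq_true h]
    rfl
  | negSucc n => exact absurd h (by simp [iz])

/-- All coefficients of the normalised sum vanish. -/
def isZ (l : List (ℤ × Cd)) : Bool := (nrm l).all fun x => iz x.2.1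

theorem val_isZ {l : List (ℤ × Cd)} (h : isZ l = true) : val (H := H) f T W l = 0 := by
  unfold isZ at h
  rw [List.all_eq_true] at h
  rw [← val_nrm]
  generalize nrm l = m at h ⊢
  induction m with
  | nil => rfl
  | cons x m ih =>
    rw [valk_cons, iz_spec (h x (by simp)), zero_smul, zero_add]
    exact ih fun y hy => h y (List.mem_cons_of_mem _ hy)

end val

/-! ### The elementary relations -/

/-- The elementary relations with a coefficient. -/
inductive It : Type
  | ihx (e : ℤ) (x a b c d : ℕ) (L : List ℕ) (V : List Tri)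
  | stu (e : ℤ) (x a b : ℕ) (L₁ L₂ : List ℕ) (V : List Tri)
  | swp (e : ℤ) (a b : ℕ) (L : List ℕ) (V : List Tri)

/-- The exchange of two labels. -/
def sw (a b z : ℕ) : ℕ := if z = a then b else if z = b then a else z

/-- The terms of an elementary relation. -/
def It.terms : It → List (ℤ × Cd)
  | .ihx e x a b c d L V => [(e, (L, (x, a, b) :: (x, c, d) :: V)),
      (-e, (L, (x, b, c) :: (x, d, a) :: V)), (e, (L, (x, a, c) :: (x, d, b) :: V))]
  | .stu e x a b L₁ L₂ V => [(e, (L₁ ++ x :: L₂, (x, a, b) :: V)),
      (-e, (L₁ ++ b :: a :: L₂, V)), (e, (L₁ ++ a :: b :: L₂, V))]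
  | .swp e a b L V => [(e, (L, V)), (-e, (L.map (sw a b), V.map (mp (sw a b))))]

/-- The label is new: it is one of the inner labels. -/
def inn (k d : ℕ) (outs : List ℕ) (x : ℕ) : Bool :=
  decide (k ≤ x) && decide (x < k + d) && !outs.contains x

/-- The elementary relation is legal. -/
def It.ok (k d : ℕ) (outs : List ℕ) : It → Bool
  | .ihx _ _ _ _ _ _ _ _ => true
  | .stu _ x a b L₁ L₂ V => inn k d outs x && !(lbs (L₁ ++ b :: a :: L₂) V).contains x
  | .swp _ a b _ _ => inn k d outs a && inn k d outs b

/-- The data of the tails: `n` is the number of the labels before, `f` is the renaming. -/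
structure Tl (k d : ℕ) (outs : List ℕ) (f : ℕ → ℕ) (n : ℕ) (T : List ℕ) (W : List Tri) :
    Prop where
  lo : ∀ z < k, f z < n
  hi : ∀ z, k ≤ z → f z = n + (z - k)
  nw : ∀ z, inn k d outs z = true → f z ∉ lbs T W

variable {H : Type} [DecidableEq H] {f : ℕ → ℕ} {T : List ℕ} {W : List Tri}
variable {k d n : ℕ} {outs : List ℕ}

theorem inn_spec {x : ℕ} (h : inn k d outs x = true) : k ≤ x ∧ x < k + d ∧ x ∉ outs := by
  unfold inn at h
  simp only [Bool.and_eq_true, decide_eq_true_eq, Bool.not_eq_true'] at h
  refine ⟨h.1.1, h.1.2, fun hx => ?_⟩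
  have := List.contains_iff_mem.2 hx
  rw [h.2] at this
  exact absurd this (by decide)

theorem Tl.inj (t : Tl k d outs f n T W) {x y : ℕ} (hx : k ≤ x) (h : f y = f x) : y = x := by
  have h1 := t.hi x hx
  by_cases hy : k ≤ y
  · have h2 := t.hi y hy
    omega
  · have h2 := t.lo y (by omega)
    omega

theorem mem_lbs_map {L : List ℕ} {V : List Tri} {y : ℕ} (h : y ∈ lbs (L.map f) (V.map (mp f))) :
    ∃ z ∈ lbs L V, f z = y := by
  rw [lbs_map] at h
  obtain ⟨z, hz, rfl⟩ := List.mem_map.1 h
  exact ⟨z, hz, rfl⟩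

theorem lbs_app (L : List ℕ) (V : List Tri) (T : List ℕ) (W : List Tri) (x : ℕ) :
    x ∈ lbs (L ++ T) (V ++ W) ↔ x ∈ lbs L V ∨ x ∈ lbs T W := by
  unfold lbs
  simp only [List.flatMap_append, List.mem_append]
  tauto

theorem Tl.stu (t : Tl k d outs f n T W) {x a b : ℕ} {L₁ L₂ : List ℕ} {V : List Tri}
    (hx : inn k d outs x = true) (h : x ∉ lbs (L₁ ++ b :: a :: L₂) V) :
    X (H := H) f T W (L₁ ++ x :: L₂, (x, a, b) :: V) =
      X f T W (L₁ ++ b :: a :: L₂, V) - X f T W (L₁ ++ a :: b :: L₂, V) := by
  have key : ∀ m : List ℕ, ∀ V' : List Tri,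
      cls H ((L₁ ++ m ++ L₂).map f ++ T) V' = cls H (m.map f ++ (L₂.map f ++ T ++ L₁.map f)) V' := by
    intro m V'
    rw [List.map_append, List.map_append, List.append_assoc, List.append_assoc, cls_rot_append]
    simp only [List.append_assoc]
  have k1 := key [x] (((x, a, b) :: V).map (mp f) ++ W)
  have k2 := key [b, a] (V.map (mp f) ++ W)
  have k3 := key [a, b] (V.map (mp f) ++ W)
  have e1 : L₁ ++ [x] ++ L₂ = L₁ ++ x :: L₂ := by simp
  have e2 : L₁ ++ [b, a] ++ L₂ = L₁ ++ b :: a :: L₂ := by simp
  have e3 : L₁ ++ [a, b] ++ L₂ = L₁ ++ a :: b :: L₂ := by simp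
  rw [e1] at k1
  rw [e2] at k2
  rw [e3] at k3
  unfold X
  rw [k1, k2, k3]
  refine cls_stu (H := H) (x := f x) (a := f a) (b := f b) (ls := L₂.map f ++ T ++ L₁.map f)
    (vs := V.map (mp f) ++ W) fun hm => ?_
  have hk := (inn_spec hx).1
  have hm' : f x ∈ lbs ((L₁ ++ b :: a :: L₂).map f ++ T) (V.map (mp f) ++ W) := by
    unfold lbs at hm ⊢
    simp only [List.map_cons, List.map_append, List.mem_append, List.mem_cons] at hm ⊢
    tauto
  rcases (lbs_app _ _ _ _ _).1 hm' with h1 | h1
  · obtain ⟨z, hz, hzx⟩ := mem_lbs_map h1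
    exact h (t.inj hk hzx ▸ hz)
  · exact t.nw x hx h1

theorem Tl.swp (t : Tl k d outs f n T W) {a b : ℕ} (ha : inn k d outs a = true)
    (hb : inn k d outs b = true) (L : List ℕ) (V : List Tri) :
    X (H := H) f T W (L.map (sw a b), V.map (mp (sw a b))) = X f T W (L, V) := by
  have ka := (inn_spec ha).1
  have kb := (inn_spec hb).1
  have h1 : ∀ z, f (sw a b z) = Equiv.swap (f a) (f b) (f z) := by
    intro z
    unfold sw
    split_ifs with q1 q2
    · rw [q1, Equiv.swap_apply_left]
    · rw [q2, Equiv.swap_apply_right]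
    · rw [Equiv.swap_apply_of_ne_of_ne]
      · exact fun h => q1 (t.inj ka h)
      · exact fun h => q2 (t.inj kb h)
  have h2 := cls_swap (H := H) (ls := T) (vs := W) (L.map f) (V.map (mp f)) (t.nw a ha) (t.nw b hb)
  unfold X
  rw [← h2, List.map_map, List.map_map, List.map_map, List.map_map]
  have e1 : f ∘ sw a b = ⇑(Equiv.swap (f a) (f b)) ∘ f := funext h1
  have e2 : mp f ∘ mp (sw a b) = mp (Equiv.swap (f a) (f b)) ∘ mp f := by
    funext z
    unfold mp
    simp only [Function.comp, h1]
  rw [e1, e2]

theorem Tl.item (t : Tl k d outs f n T W) {i : It} (h : i.ok k d outs = true) :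
    val (H := H) f T W i.terms = 0 := by
  cases i with
  | ihx e x a b c d L V =>
    simp only [It.terms, val_cons, val_nil, add_zero]
    have h1 : X (H := H) f T W (L, (x, a, b) :: (x, c, d) :: V) =
        X f T W (L, (x, b, c) :: (x, d, a) :: V) - X f T W (L, (x, a, c) :: (x, d, b) :: V) :=
      cls_ihx (f x) (f a) (f b) (f c) (f d)
    rw [h1, smul_sub, neg_smul]
    abel
  | stu e x a b L₁ L₂ V =>
    unfold It.ok at h
    rw [Bool.and_eq_true] at h
    have h2 : x ∉ lbs (L₁ ++ b :: a :: L₂) V := by
      intro hx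
      have := List.contains_iff_mem.2 hx
      rw [this] at h
      exact absurd h.2 (by decide)
    simp only [It.terms, val_cons, val_nil, add_zero]
    rw [t.stu h.1 h2, smul_sub, neg_smul]
    abel
  | swp e a b L V =>
    unfold It.ok at h
    rw [Bool.and_eq_true] at h
    simp only [It.terms, val_cons, val_nil, add_zero]
    rw [t.swp h.1 h.2, neg_smul, add_neg_cancel]

/-! ### The relations between the words -/

/-- A term of a relation: the coefficient, the word, the renaming of the labels. -/
abbrev Tm : Type := ℤ × List Lt × List ℕ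

/-- The piece of a term. -/
def pcT (k d : ℕ) (t : Tm) : Cd :=
  ((run t.2.1 id k).L.map (gm k t.2.2 d), (run t.2.1 id k).V.map (mp (gm k t.2.2 d)))

/-- The term is legal. -/
def okT (k d : ℕ) (outs : List ℕ) (t : Tm) : Bool :=
  decide (ty t.2.1 k = some outs.length) && decide ((run t.2.1 id k).n = k + t.2.2.length) &&
    okl t.2.2 d && (run t.2.1 id k).B.isEmpty && (List.range outs.length).all fun s =>
      decide (gm k t.2.2 d ((run t.2.1 id k).ra s) = outs.getD s 0)

/-- The checker. -/
def chk (k d : ℕ) (outs : List ℕ) (ts : List Tm) (is : List It) : Bool :=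
  ts.all (okT k d outs) && is.all (fun i => i.ok k d outs) &&
    isZ (ts.map (fun t => (t.1, pcT k d t)) ++ is.flatMap It.terms)

/-- The renaming from the standard labels. -/
def fr (ra : ℕ → ℕ) (k n z : ℕ) : ℕ := if z < k then ra z else n + (z - k)

theorem fr_gm {ra : ℕ → ℕ} {k n : ℕ} (hra : ∀ s < k, ra s < n) {l : List ℕ} {d : ℕ} (z : ℕ) :
    gm n l d (fr ra k n z) = fr ra k n (gm k l d z) := by
  unfold fr
  by_cases h : z < k
  · rw [if_pos h, gm_lt (hra z h), gm_lt h, if_pos h]
  · rw [if_neg h]
    by_cases h2 : z < k + l.length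
    · have h3 : gm k l d z = k + l.getD (z - k) 0 := by
        unfold gm
        rw [if_neg h, if_pos h2]
      rw [gm_add _ (by omega), h3, if_neg (by omega)]
      omega
    · have h3 : gm k l d z = z - l.length + d := by
        unfold gm
        rw [if_neg h, if_neg h2]
      have h4 : gm n l d (n + (z - k)) = n + (z - k) - l.length + d := by
        unfold gm
        rw [if_neg (by omega), if_neg (by omega)]
      rw [h3, h4, if_neg (by omega)]
      omega

theorem ev_term {p u : List Lt} {k : ℕ} (hp : ty p 0 = some k) {outs : List ℕ}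
    (hu : ty u outs.length = some 0) {d : ℕ} {t : Tm} (h : okT k d outs t = true) :
    ev H (p ++ t.2.1 ++ u) = X (fr (st p).ra k (st p).n)
      (tL p u (fun s => fr (st p).ra k (st p).n (outs.getD s 0)) ((st p).n + d))
      (tV p u (fun s => fr (st p).ra k (st p).n (outs.getD s 0)) ((st p).n + d)) (pcT k d t) := by
  have hs := st_lt hp
  unfold okT at h
  simp only [Bool.and_eq_true, decide_eq_true_eq, List.all_eq_true, List.mem_range] at h
  obtain ⟨⟨⟨⟨h1, h2⟩, h3⟩, hB⟩, h4⟩ := h
  have R : Rn (fr (st p).ra k (st p).n) outs.length (run t.2.1 id k)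
      (run t.2.1 (st p).ra (st p).n) := by
    refine run_map h1 (fun s hs' => ?_) (fun j => ?_)
    · unfold fr
      rw [id, if_pos hs']
    · unfold fr
      rw [if_neg (by omega)]
      omega
  have h5 : (run t.2.1 (st p).ra (st p).n).n = (st p).n + t.2.2.length := by
    have h6 := R.n 0
    rw [Nat.add_zero, Nat.add_zero, h2] at h6
    unfold fr at h6
    rw [if_neg (by omega)] at h6
    omega
  rw [ev_gm hp hu t.2.2 d h3 (ra := fun s => fr (st p).ra k (st p).n (outs.getD s 0)) (fun s hs' => by
    rw [← R.ra s hs', fr_gm hs.ra, h4 s hs']) h5 (by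
    rw [← R.B, List.isEmpty_iff.1 hB]
    rfl)]
  unfold X pcT
  rw [← R.L, ← R.V, List.map_map, List.map_map, List.map_map, List.map_map]
  have e1 : gm (st p).n t.2.2 d ∘ fr (st p).ra k (st p).n =
      fr (st p).ra k (st p).n ∘ gm k t.2.2 d := funext fun z => fr_gm hs.ra z
  have e2 : mp (gm (st p).n t.2.2 d) ∘ mp (fr (st p).ra k (st p).n) =
      mp (fr (st p).ra k (st p).n) ∘ mp (gm k t.2.2 d) := by
    funext z
    unfold mp
    simp only [Function.comp, fr_gm hs.ra]
  rw [e1, e2]

/-- The relation holds after every prefix and before every suffix. -/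
theorem chk_spec {k d : ℕ} {outs : List ℕ} {ts : List Tm} {is : List It}
    (h : chk k d outs ts is = true) {p u : List Lt} (hp : ty p 0 = some k)
    (hu : ty u outs.length = some 0) :
    (ts.map fun t => t.1 • ev H (p ++ t.2.1 ++ u)).sum = 0 := by
  have hs := st_lt hp
  unfold chk at h
  rw [Bool.and_eq_true, Bool.and_eq_true, List.all_eq_true, List.all_eq_true] at h
  obtain ⟨⟨h1, h2⟩, h3⟩ := h
  set f := fr (st p).ra k (st p).n with hf
  set T := tL p u (fun s => f (outs.getD s 0)) ((st p).n + d) with hT
  set W := tV p u (fun s => f (outs.getD s 0)) ((st p).n + d) with hW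
  have t : Tl k d outs f (st p).n T W := by
    refine ⟨fun z hz => ?_, fun z hz => ?_, fun z hz => ?_⟩
    · rw [hf]
      unfold fr
      rw [if_pos hz]
      exact hs.ra z hz
    · rw [hf]
      unfold fr
      rw [if_neg (by omega)]
    · obtain ⟨q1, q2, q3⟩ := inn_spec hz
      have q4 : f z = (st p).n + (z - k) := by
        rw [hf]
        unfold fr
        rw [if_neg (by omega)]
      refine not_mem_tail hp hu (by omega) (by omega) fun s hs' hc => ?_
      have q5 : outs.getD s 0 = outs[s] := List.getD_eq_getElem _ _ hs'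
      have q6 : f (outs.getD s 0) = f z := hc.symm
      have q7 : outs.getD s 0 = z := by
        rw [hf] at q6 q4
        unfold fr at q6 q4
        rw [q4] at q6
        split_ifs at q6 with q8
        · have := hs.ra _ q8
          omega
        · omega
      exact q3 (q7 ▸ q5 ▸ List.getElem_mem hs')
  have e1 : (ts.map fun t => t.1 • ev H (p ++ t.2.1 ++ u)).sum =
      val f T W (ts.map fun t => (t.1, pcT k d t)) := by
    unfold val
    rw [List.map_map]
    congr 1
    refine List.map_congr_left fun t ht => ?_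
    simp only [Function.comp]
    rw [ev_term hp hu (h1 t ht)]
  have e2 : ∀ m : List It, (∀ i ∈ m, i.ok k d outs = true) →
      val (H := H) f T W (m.flatMap It.terms) = 0 := by
    intro m
    induction m with
    | nil => intro _; rfl
    | cons i m ih =>
      intro hm
      rw [List.flatMap_cons, val_append, t.item (hm i (by simp)), zero_add]
      exact ih fun j hj => hm j (List.mem_cons_of_mem _ hj)
  have e3 := val_isZ (H := H) (f := f) (T := T) (W := W) h3
  rw [val_append, e2 is h2, add_zero] at e3
  rw [e1, e3]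

end Pool.Agent.SWW54
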