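import Mathlib
import Pool.Agent.SWW54.Chk

/-!
# Relations which hold in every context

The states are `0` (before the first leg), `1, ..., 4` (the number of the rails) and `9` (closed).
-/

set_option autoImplicit false

namespace Pool.Agent.SWW54

open Pool.Agent.Jac70 Pool.Agent.SWT85

/-- The state after a letter, if the letter is legal. -/
def tc : Lt → ℕ → Option ℕ
  | .a i, k => if i < k ∧ k ≤ 4 then some k else none
  | .b i j, k => if i < j ∧ j < k ∧ k ≤ 4 then some k else none
  | .Y i j, k => if i < k ∧ j = k ∧ k ≤ 3 then some (k + 1) else none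
  | .M i j, k => if i < j ∧ j + 1 = k ∧ k ≤ 4 then some j else none
  | .P i j, k => if i < j ∧ j < k ∧ k ≤ 4 then some k else none
  | .E i, k => if i = 0 ∧ k = 0 then some 1 else none
  | .A i, k => if i = 0 ∧ k = 1 then some 9 else none
  | .o i, k => if i < k ∧ k ≤ 4 then some k else none
  | .F _, _ => none

/-- The state after a letter, if legs at the bottom are allowed. -/
def tu : Lt → ℕ → Option ℕ
  | .F i, k => if i = k ∧ 1 ≤ k ∧ k ≤ 3 then some (k + 1) else none
  | l, k => tc l k

/-- The state after a word. -/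
def tyc : List Lt → ℕ → Option ℕ
  | [], k => some k
  | l :: w, k => (tc l k).bind (tyc w)

/-- The state after a word, if legs at the bottom are allowed. -/
def tyu : List Lt → ℕ → Option ℕ
  | [], k => some k
  | l :: w, k => (tu l k).bind (tyu w)

/-- The number of rails of a state. -/
def rl (k : ℕ) : ℕ := if k = 9 then 0 else k

theorem rl_of {k : ℕ} (h : k ≠ 9) : rl k = k := if_neg h

theorem tc_tl {l : Lt} {k k' : ℕ} (h : tc l k = some k') : k ≤ 4 ∧ tl l k = some (rl k') := by
  cases l with
  | a i =>
    simp only [tc] at h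
    split_ifs at h with hi
    simp only [Option.some.injEq] at h
    subst h
    refine ⟨hi.2, ?_⟩
    rw [rl_of (by omega)]
    exact if_pos hi.1
  | b i j =>
    simp only [tc] at h
    split_ifs at h with hi
    simp only [Option.some.injEq] at h
    subst h
    refine ⟨hi.2.2, ?_⟩
    rw [rl_of (by omega)]
    exact if_pos ⟨by omega, hi.2.1, by omega⟩
  | Y i j =>
    simp only [tc] at h
    split_ifs at h with hi
    simp only [Option.some.injEq] at h
    subst h
    refine ⟨by omega, ?_⟩
    rw [rl_of (by omega)]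
    exact if_pos ⟨hi.1, hi.2.1⟩
  | M i j =>
    simp only [tc] at h
    split_ifs at h with hi
    simp only [Option.some.injEq] at h
    subst h
    refine ⟨hi.2.2, ?_⟩
    rw [rl_of (by omega)]
    exact if_pos ⟨hi.1, hi.2.1⟩
  | P i j =>
    simp only [tc] at h
    split_ifs at h with hi
    simp only [Option.some.injEq] at h
    subst h
    refine ⟨hi.2.2, ?_⟩
    rw [rl_of (by omega)]
    exact if_pos ⟨by omega, hi.2.1⟩
  | E i =>
    simp only [tc] at h
    split_ifs at h with hi
    simp only [Option.some.injEq] at h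
    subst h
    obtain ⟨rfl, rfl⟩ := hi
    exact ⟨by omega, rfl⟩
  | A i =>
    simp only [tc] at h
    split_ifs at h with hi
    simp only [Option.some.injEq] at h
    subst h
    obtain ⟨rfl, rfl⟩ := hi
    exact ⟨by omega, rfl⟩
  | o i =>
    simp only [tc] at h
    split_ifs at h with hi
    simp only [Option.some.injEq] at h
    subst h
    refine ⟨hi.2, ?_⟩
    rw [rl_of (by omega)]
    exact if_pos hi.1
  | F i => simp [tc] at h

theorem tu_of_tc {l : Lt} {k k' : ℕ} (h : tc l k = some k') : tu l k = some k' := by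
  cases l <;> first | exact h | simp [tc] at h

theorem tu_tl {l : Lt} {k k' : ℕ} (h : tu l k = some k') : k ≤ 4 ∧ tl l k = some (rl k') := by
  cases l with
  | F i =>
    simp only [tu] at h
    split_ifs at h with hi
    simp only [Option.some.injEq] at h
    subst h
    refine ⟨by omega, ?_⟩
    rw [rl_of (by omega)]
    exact if_pos hi.1
  | a i => exact tc_tl (l := .a i) h
  | b i j => exact tc_tl (l := .b i j) h
  | Y i j => exact tc_tl (l := .Y i j) h
  | M i j => exact tc_tl (l := .M i j) h
  | P i j => exact tc_tl (l := .P i j) h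
  | E i => exact tc_tl (l := .E i) h
  | A i => exact tc_tl (l := .A i) h
  | o i => exact tc_tl (l := .o i) h

theorem tyc_cons {l : Lt} {w : List Lt} {k k' : ℕ} (h : tyc (l :: w) k = some k') :
    ∃ m, tc l k = some m ∧ tyc w m = some k' := by
  unfold tyc at h
  exact Option.bind_eq_some_iff.1 h

theorem tyc_append {v w : List Lt} {k k' : ℕ} :
    tyc (v ++ w) k = some k' ↔ ∃ m, tyc v k = some m ∧ tyc w m = some k' := by
  induction v generalizing k with
  | nil => simp [tyc]
  | cons l v ih =>
    show (tc l k).bind (tyc (v ++ w)) = some k' ↔ ∃ m, (tc l k).bind (tyc v) = some m ∧ _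
    constructor
    · intro h
      obtain ⟨m, hm, h⟩ := Option.bind_eq_some_iff.1 h
      obtain ⟨m', h1, h2⟩ := ih.1 h
      exact ⟨m', Option.bind_eq_some_iff.2 ⟨m, hm, h1⟩, h2⟩
    · rintro ⟨m', h1, h2⟩
      obtain ⟨m, hm, h1⟩ := Option.bind_eq_some_iff.1 h1
      exact Option.bind_eq_some_iff.2 ⟨m, hm, ih.2 ⟨m', h1, h2⟩⟩

theorem tyc_ty {w : List Lt} {k k' : ℕ} (h : tyc w k = some k') : ty w (rl k) = some (rl k') := by
  induction w generalizing k with
  | nil =>
    simp only [tyc, Option.some.injEq] at h
    subst h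
    rfl
  | cons l w ih =>
    obtain ⟨m, hm, h⟩ := tyc_cons h
    obtain ⟨h1, h2⟩ := tc_tl hm
    have h3 : rl k = k := if_neg (by omega)
    show (tl l (rl k)).bind (ty w) = _
    rw [h3, h2]
    exact ih h

theorem tyu_cons {l : Lt} {w : List Lt} {k k' : ℕ} (h : tyu (l :: w) k = some k') :
    ∃ m, tu l k = some m ∧ tyu w m = some k' := by
  unfold tyu at h
  exact Option.bind_eq_some_iff.1 h

theorem tyu_append {v w : List Lt} {k k' : ℕ} :
    tyu (v ++ w) k = some k' ↔ ∃ m, tyu v k = some m ∧ tyu w m = some k' := by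
  induction v generalizing k with
  | nil => simp [tyu]
  | cons l v ih =>
    show (tu l k).bind (tyu (v ++ w)) = some k' ↔ ∃ m, (tu l k).bind (tyu v) = some m ∧ _
    constructor
    · intro h
      obtain ⟨m, hm, h⟩ := Option.bind_eq_some_iff.1 h
      obtain ⟨m', h1, h2⟩ := ih.1 h
      exact ⟨m', Option.bind_eq_some_iff.2 ⟨m, hm, h1⟩, h2⟩
    · rintro ⟨m', h1, h2⟩
      obtain ⟨m, hm, h1⟩ := Option.bind_eq_some_iff.1 h1
      exact Option.bind_eq_some_iff.2 ⟨m, hm, ih.2 ⟨m', h1, h2⟩⟩

theorem tyu_of_tyc {w : List Lt} {k k' : ℕ} (h : tyc w k = some k') : tyu w k = some k' := by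
  induction w generalizing k with
  | nil => exact h
  | cons l w ih =>
    obtain ⟨m, hm, h⟩ := tyc_cons h
    exact Option.bind_eq_some_iff.2 ⟨m, tu_of_tc hm, ih h⟩

theorem tyu_ty {w : List Lt} {k k' : ℕ} (h : tyu w k = some k') : ty w (rl k) = some (rl k') := by
  induction w generalizing k with
  | nil =>
    simp only [tyu, Option.some.injEq] at h
    subst h
    rfl
  | cons l w ih =>
    obtain ⟨m, hm, h⟩ := tyu_cons h
    obtain ⟨h1, h2⟩ := tu_tl hm
    have h3 : rl k = k := if_neg (by omega)
    show (tl l (rl k)).bind (ty w) = _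
    rw [h3, h2]
    exact ih h

variable {H : Type} [DecidableEq H]

/-- The value of a formal sum of words. -/
noncomputable def sm {V : Type} [AddCommGroup V] (F : List Lt → V) (R : List (ℤ × List Lt)) : V :=
  (R.map fun t => t.1 • F t.2).sum

theorem sm_cons {V : Type} [AddCommGroup V] (F : List Lt → V) (t : ℤ × List Lt)
    (R : List (ℤ × List Lt)) : sm F (t :: R) = t.1 • F t.2 + sm F R := by
  unfold sm
  rw [List.map_cons, List.sum_cons]

theorem sm_append {V : Type} [AddCommGroup V] (F : List Lt → V) (R S : List (ℤ × List Lt)) :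
    sm F (R ++ S) = sm F R + sm F S := by
  unfold sm
  rw [List.map_append, List.sum_append]

/-- The relation holds after every prefix and before every suffix. -/
def Holds (H : Type) [DecidableEq H] (k k' : ℕ) (R : List (ℤ × List Lt)) : Prop :=
  ∀ p u : List Lt, tyc p 0 = some k → tyu u k' = some 9 → sm (fun w => ev H (p ++ w ++ u)) R = 0

/-- A checked relation. -/
theorem chk_holds {k k' d : ℕ} {outs : List ℕ} {ts : List Tm} {is : List It}
    (h : chk k d outs ts is = true) (hk : k ≠ 9) (hk' : rl k' = outs.length) :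
    Holds H k k' (ts.map fun t => (t.1, t.2.1)) := by
  intro p u hp hu
  have h1 : ty p 0 = some k := by
    have := tyc_ty hp
    rwa [show rl 0 = 0 from rfl, show rl k = k from if_neg hk] at this
  have h2 : ty u outs.length = some 0 := by
    have := tyu_ty hu
    rwa [show rl 9 = 0 from rfl, hk'] at this
  unfold sm
  rw [List.map_map]
  exact chk_spec h h1 h2

/-- A formal sum in a context. -/
def cx (q v : List Lt) (R : List (ℤ × List Lt)) : List (ℤ × List Lt) :=
  R.map fun t => (t.1, q ++ t.2 ++ v)

theorem sm_cx {V : Type} [AddCommGroup V] (F : List Lt → V) (q v : List Lt)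
    (R : List (ℤ × List Lt)) : sm F (cx q v R) = sm (fun w => F (q ++ w ++ v)) R := by
  unfold sm cx
  rw [List.map_map]
  rfl

theorem Holds.cx {k₀ k k' k₀' : ℕ} {R : List (ℤ × List Lt)} (h : Holds H k k' R) {q v : List Lt}
    (hq : tyc q k₀ = some k) (hv : tyu v k' = some k₀') : Holds H k₀ k₀' (cx q v R) := by
  intro p u hp hu
  rw [sm_cx]
  have := h (p ++ q) (v ++ u) (tyc_append.2 ⟨k₀, hp, hq⟩) (tyu_append.2 ⟨k₀', hv, hu⟩)
  simpa only [List.append_assoc] using this

theorem Holds.append {k k' : ℕ} {R S : List (ℤ × List Lt)} (h : Holds H k k' R)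
    (h' : Holds H k k' S) : Holds H k k' (R ++ S) := by
  intro p u hp hu
  rw [sm_append, h p u hp hu, h' p u hp hu, add_zero]

end Pool.Agent.SWW54
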