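import Mathlib
import Pool.Agent.SWW54.Hold

/-!
# Formal sums of words with packed words, and lines of a derivation
-/

set_option autoImplicit false

namespace Pool.Agent.SWW54

open Pool.Agent.Jac70 Pool.Agent.SWT85

/-! ### Packed words -/

/-- The letter of a digit. -/
def dl (d : ℕ) : Lt :=
  match d / 64 with
  | 0 => .a (d / 8 % 8)
  | 1 => .b (d / 8 % 8) (d % 8)
  | 2 => .Y (d / 8 % 8) (d % 8)
  | 3 => .M (d / 8 % 8) (d % 8)
  | 4 => .P (d / 8 % 8) (d % 8)
  | 5 => .E (d / 8 % 8)
  | 6 => .A (d / 8 % 8)
  | 7 => .o (d / 8 % 8)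
  | _ => .F (d / 8 % 8)

/-- The word with `l` letters given by the digits of `n` to the base `1024`; the last letter is the
last digit. -/
def dw : ℕ → ℕ → List Lt
  | 0, _ => []
  | l + 1, n => dw l (n / 1024) ++ [dl (n % 1024)]

theorem dw_cat (l m n r : ℕ) (hr : r < 1024 ^ m) :
    dw (l + m) (n * 1024 ^ m + r) = dw l n ++ dw m r := by
  induction m generalizing r with
  | zero =>
    have : r = 0 := by simpa using hr
    subst this
    simp [dw]
  | succ m ih =>
    have h1 : (n * 1024 ^ (m + 1) + r) / 1024 = n * 1024 ^ m + r / 1024 := by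
      rw [pow_succ, ← mul_assoc, Nat.add_comm, Nat.add_mul_div_right _ _ (by norm_num : 0 < 1024),
        Nat.add_comm]
    have h2 : (n * 1024 ^ (m + 1) + r) % 1024 = r % 1024 := by
      rw [pow_succ, ← mul_assoc, Nat.add_comm, Nat.add_mul_mod_self_right]
    have h3 : r / 1024 < 1024 ^ m := by
      rw [Nat.div_lt_iff_lt_mul (by norm_num), ← pow_succ]
      exact hr
    show dw (l + m) ((n * 1024 ^ (m + 1) + r) / 1024) ++ [dl ((n * 1024 ^ (m + 1) + r) % 1024)] =
      dw l n ++ (dw m (r / 1024) ++ [dl (r % 1024)])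
    rw [h1, h2, ih _ h3, List.append_assoc]

/-- A term: coefficient, number of letters, packed word. -/
abbrev T3 : Type := ℤ × ℕ × ℕ

/-- The word of a term is well formed. -/
def wf (t : T3) : Bool := Nat.blt t.2.2 (1024 ^ t.2.1)

/-- The formal sum of a packed sum. -/
def un (R : List T3) : List (ℤ × List Lt) := R.map fun t => (t.1, dw t.2.1 t.2.2)

/-- The value of a packed sum. -/
noncomputable def vl {V : Type} [AddCommGroup V] (F : List Lt → V) (R : List T3) : V :=
  sm F (un R)

section

variable {V : Type} [AddCommGroup V] (F : List Lt → V)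

theorem vl_nil : vl F [] = 0 := rfl

theorem vl_cons (t : T3) (R : List T3) : vl F (t :: R) = t.1 • F (dw t.2.1 t.2.2) + vl F R :=
  sm_cons F (t.1, dw t.2.1 t.2.2) (un R)

/-- The words of the first term are before the words of the second one. -/
def lt3 (s t : T3) : Bool :=
  Nat.blt s.2.1 t.2.1 || (Nat.beq s.2.1 t.2.1 && Nat.blt s.2.2 t.2.2)

/-- The words are equal. -/
def eq3 (s t : T3) : Bool := Nat.beq s.2.1 t.2.1 && Nat.beq s.2.2 t.2.2

/-- The head of a merge. -/
def hd (c : ℤ) (t : T3) (R : List T3) : List T3 :=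
  match iz c with
  | true => R
  | false => (c, t.2) :: R

/-- Auxiliary function for the merge. -/
def mga (x : T3) (f : List T3 → List T3) (R : List T3) : List T3 → List T3
  | [] => x :: R
  | y :: S => match lt3 x y with
    | true => x :: f (y :: S)
    | false => match eq3 x y with
      | true => hd (x.1 + y.1) x (f S)
      | false => y :: mga x f R S

/-- The merge of two sorted sums. -/
def mg : List T3 → List T3 → List T3
  | [], S => S
  | x :: R, S => mga x (mg R) R S

theorem vl_hd (c : ℤ) (t : T3) (R : List T3) :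
    vl F (hd c t R) = c • F (dw t.2.1 t.2.2) + vl F R := by
  unfold hd
  cases h : iz c with
  | true =>
    rw [iz_spec h, zero_smul, zero_add]
  | false => exact vl_cons F (c, t.2) R

theorem vl_mga (x : T3) (f : List T3 → List T3) (R : List T3)
    (hf : ∀ S, vl F (f S) = vl F R + vl F S) (S : List T3) :
    vl F (mga x f R S) = vl F (x :: R) + vl F S := by
  induction S with
  | nil =>
    rw [vl_nil, add_zero]
    rfl
  | cons y S ih =>
    unfold mga
    cases h : lt3 x y with
    | true =>
      show vl F (x :: f (y :: S)) = _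
      rw [vl_cons, hf, vl_cons F x R]
      abel
    | false =>
      cases h' : eq3 x y with
      | true =>
        show vl F (hd (x.1 + y.1) x (f S)) = _
        unfold eq3 at h'
        rw [Bool.and_eq_true] at h'
        have e1 := Nat.eq_of_beq_eq_true h'.1
        have e2 := Nat.eq_of_beq_eq_true h'.2
        rw [vl_hd, hf, vl_cons, vl_cons, ← e1, ← e2, add_smul]
        abel
      | false =>
        show vl F (y :: mga x f R S) = _
        rw [vl_cons, ih, vl_cons, vl_cons]
        abel

theorem vl_mg (R S : List T3) : vl F (mg R S) = vl F R + vl F S := by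
  induction R generalizing S with
  | nil =>
    rw [vl_nil, zero_add]
    rfl
  | cons x R ih => exact vl_mga F x (mg R) R (fun S => ih S) S

/-- Merge of neighbours. -/
def mpr : List (List T3) → List (List T3)
  | R :: S :: l => mg R S :: mpr l
  | l => l

/-- The merge of all sums; the number of the rounds is given. -/
def mal : ℕ → List (List T3) → List T3
  | 0, l => l.foldr mg []
  | n + 1, l => mal n (mpr l)

/-- The value of a list of sums. -/
noncomputable def vls (l : List (List T3)) : V := (l.map (vl F)).sum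

theorem vls_cons (R : List T3) (l : List (List T3)) : vls F (R :: l) = vl F R + vls F l := by
  unfold vls
  rw [List.map_cons, List.sum_cons]

theorem vls_mpr (l : List (List T3)) : vls F (mpr l) = vls F l := by
  induction l using mpr.induct with
  | case1 R S l ih =>
    rw [mpr, vls_cons, vls_cons, vls_cons, vl_mg, ih]
    abel
  | case2 l h =>
    rw [mpr]
    exact h

theorem vl_mal (n : ℕ) (l : List (List T3)) : vl F (mal n l) = vls F l := by
  induction n generalizing l with
  | zero =>
    show vl F (l.foldr mg []) = _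
    induction l with
    | nil => rfl
    | cons R l ih => rw [List.foldr_cons, vl_mg, ih, vls_cons]
  | succ n ih =>
    show vl F (mal n (mpr l)) = _
    rw [ih, vls_mpr]

/-- Multiplication with an integer. -/
def scl (c : ℤ) (R : List T3) : List T3 := R.map fun t => (c * t.1, t.2)

theorem vl_scl (c : ℤ) (R : List T3) : vl F (scl c R) = c • vl F R := by
  induction R with
  | nil => rw [vl_nil, smul_zero]; rfl
  | cons t R ih =>
    show vl F ((c * t.1, t.2) :: scl c R) = _
    rw [vl_cons, vl_cons, ih, smul_add, mul_smul]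

end

/-- A sum between two packed words, multiplied with an integer. -/
def cxp (c : ℤ) (lq q lv v : ℕ) (R : List T3) : List T3 :=
  R.map fun t => (c * t.1, lq + t.2.1 + lv, (q * 1024 ^ t.2.1 + t.2.2) * 1024 ^ lv + v)

theorem vl_cxp {V : Type} [AddCommGroup V] (F : List Lt → V) (c : ℤ) {lq q lv v : ℕ}
    {R : List T3} (hv : v < 1024 ^ lv) (hR : R.all wf = true) :
    vl F (cxp c lq q lv v R) = c • vl (fun w => F (dw lq q ++ w ++ dw lv v)) R := by
  induction R with
  | nil => rw [vl_nil, smul_zero]; rfl
  | cons t R ih =>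
    rw [List.all_cons, Bool.and_eq_true] at hR
    have h1 : t.2.2 < 1024 ^ t.2.1 := by
      have := hR.1
      unfold wf at this
      rwa [Nat.blt_eq] at this
    have h2 : dw (lq + t.2.1 + lv) ((q * 1024 ^ t.2.1 + t.2.2) * 1024 ^ lv + v) =
        dw lq q ++ dw t.2.1 t.2.2 ++ dw lv v := by
      rw [dw_cat _ _ _ _ hv, dw_cat _ _ _ _ h1]
    show vl F ((c * t.1, lq + t.2.1 + lv, (q * 1024 ^ t.2.1 + t.2.2) * 1024 ^ lv + v) ::
      cxp c lq q lv v R) = _
    rw [vl_cons, vl_cons, ih hR.2, smul_add, mul_smul, h2]

/-! ### Relations up to torsion -/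

variable {H : Type} [DecidableEq H]

/-- The relation holds up to torsion after every prefix and before every suffix. -/
def HT (H : Type) [DecidableEq H] (k k' : ℕ) (R : List T3) : Prop :=
  ∀ p u : List Lt, tyc p 0 = some k → tyu u k' = some 9 →
    vl (fun w => ev H (p ++ w ++ u)) R ∈ Submodule.torsion ℤ (A H)

theorem Holds.ht {k k' : ℕ} {R : List T3} (h : Holds H k k' (un R)) : HT H k k' R := by
  intro p u hp hu
  unfold vl
  rw [h p u hp hu]
  exact Submodule.zero_mem _

theorem mem_tors_of_smul {M : Type} [AddCommGroup M] {x : M} {m : ℤ} (hm : m ≠ 0)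
    (h : m • x ∈ Submodule.torsion ℤ M) : x ∈ Submodule.torsion ℤ M := by
  rw [Submodule.mem_torsion_iff] at h ⊢
  obtain ⟨a, ha⟩ := h
  refine ⟨a * ⟨m, mem_nonZeroDivisors_of_ne_zero hm⟩, ?_⟩
  rw [mul_smul]
  exact ha

/-- A statement of a relation. -/
structure Ln : Type where
  k : ℕ
  k' : ℕ
  R : List T3

/-- A summand: the coefficient, the number of the used relation, the left and the right word. -/
structure Su : Type where
  c : ℤ
  i : ℕ
  lq : ℕ
  q : ℕ
  lv : ℕ
  v : ℕ

/-- The summand is legal. -/
def Su.ok (k k' : ℕ) (L : Ln) (s : Su) : Bool :=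
  Nat.blt s.v (1024 ^ s.lv) && decide (tyc (dw s.lq s.q) k = some L.k) &&
    decide (tyu (dw s.lv s.v) L.k' = some k')

/-- All relations of the list are well formed and hold up to torsion. -/
def Env (H : Type) [DecidableEq H] (E : List Ln) : Prop :=
  ∀ L ∈ E, L.R.all wf = true ∧ HT H L.k L.k' L.R

/-- The relation used by a summand. -/
def gt (E : List Ln) (i : ℕ) : Ln := E.getD i ⟨0, 0, []⟩

/-- The check of a new relation: `m` times the relation is the sum of the summands; `n` is the
number of the rounds of the merge. -/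
def stepOk (E : List Ln) (L : Ln) (m : ℤ) (n : ℕ) (ss : List Su) : Bool :=
  !iz m && L.R.all wf && ss.all (fun s => s.ok L.k L.k' (gt E s.i)) &&
    (mal n (scl (-m) L.R :: ss.map fun s => cxp s.c s.lq s.q s.lv s.v (gt E s.i).R)).isEmpty

theorem gt_spec {E : List Ln} (hE : Env H E) (i : ℕ) :
    (gt E i).R.all wf = true ∧ HT H (gt E i).k (gt E i).k' (gt E i).R := by
  unfold gt
  by_cases h : i < E.length
  · rw [List.getD_eq_getElem _ _ h]
    exact hE _ (List.getElem_mem h)
  · rw [List.getD_eq_default _ _ (by omega)]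
    refine ⟨rfl, fun p u _ _ => ?_⟩
    rw [vl_nil]
    exact Submodule.zero_mem _

theorem step_spec {E : List Ln} (hE : Env H E) {L : Ln} {m : ℤ} {n : ℕ} {ss : List Su}
    (h : stepOk E L m n ss = true) : L.R.all wf = true ∧ HT H L.k L.k' L.R := by
  unfold stepOk at h
  simp only [Bool.and_eq_true] at h
  obtain ⟨⟨⟨h1, h2⟩, h3⟩, h4⟩ := h
  refine ⟨h2, fun p u hp hu => ?_⟩
  have hm : m ≠ 0 := by
    rintro rfl
    exact absurd h1 (by decide)
  set F : List Lt → A H := fun w => ev H (p ++ w ++ u) with hF
  have e1 := vl_mal F n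
    (scl (-m) L.R :: ss.map fun s => cxp s.c s.lq s.q s.lv s.v (gt E s.i).R)
  rw [List.isEmpty_iff.1 h4, vl_nil, vls_cons, vl_scl] at e1
  have e2 : vls F (ss.map fun s => cxp s.c s.lq s.q s.lv s.v (gt E s.i).R) ∈
      Submodule.torsion ℤ (A H) := by
    rw [List.all_eq_true] at h3
    clear e1 h4
    induction ss with
    | nil => exact Submodule.zero_mem _
    | cons s ss ih =>
      rw [List.map_cons, vls_cons]
      refine Submodule.add_mem _ ?_ (ih fun x hx => h3 x (List.mem_cons_of_mem _ hx))
      have h5 := h3 s (by simp)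
      unfold Su.ok at h5
      simp only [Bool.and_eq_true, decide_eq_true_eq, Nat.blt_eq] at h5
      obtain ⟨⟨q1, q2⟩, q3⟩ := h5
      have h6 := gt_spec hE s.i
      rw [vl_cxp F s.c q1 h6.1]
      refine Submodule.smul_mem _ _ ?_
      have h7 := h6.2 (p ++ dw s.lq s.q) (dw s.lv s.v ++ u) (tyc_append.2 ⟨L.k, hp, q2⟩)
        (tyu_append.2 ⟨L.k', q3, hu⟩)
      have h8 : (fun w => F (dw s.lq s.q ++ w ++ dw s.lv s.v)) =
          fun w => ev H (p ++ dw s.lq s.q ++ w ++ (dw s.lv s.v ++ u)) := by
        funext w
        rw [hF]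
        simp only [List.append_assoc]
      rw [h8]
      exact h7
  have e3 : m • vl F L.R = vls F (ss.map fun s => cxp s.c s.lq s.q s.lv s.v (gt E s.i).R) := by
    rw [neg_smul] at e1
    exact eq_of_sub_eq_zero (by rw [← neg_sub, sub_eq_neg_add, ← e1, neg_zero])
  exact mem_tors_of_smul hm (e3 ▸ e2)

/-- The environment is enlarged. -/
theorem Env.step {E : List Ln} (hE : Env H E) {L : Ln} (m : ℤ) (n : ℕ) (ss : List Su)
    (h : stepOk E L m n ss = true) : Env H (E ++ [L]) := by
  intro M hM
  rcases List.mem_append.1 hM with h1 | h1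
  · exact hE M h1
  · rw [List.mem_singleton] at h1
    rw [h1]
    exact step_spec hE h

end Pool.Agent.SWW54
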