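import Mathlib
import Pool.Agent.SWW54.Fs

/-!
# Lines with a general table of relations
-/

set_option autoImplicit false

namespace Pool.Agent.SWW54

open Pool.Agent.Jac70 Pool.Agent.SWT85

variable {H : Type} [DecidableEq H]

/-- The relation is well formed and holds. -/
def Hl (H : Type) [DecidableEq H] (L : Ln) : Prop := L.R.all wf = true ∧ HT H L.k L.k' L.R

/-- The check of a new relation with a table `f`. -/
def stepG (f : ℕ → Ln) (L : Ln) (m : ℤ) (n : ℕ) (ss : List Su) : Bool :=
  !iz m && L.R.all wf && ss.all (fun s => s.ok L.k L.k' (f s.i)) &&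
    (mal n (scl (-m) L.R :: ss.map fun s => cxp s.c s.lq s.q s.lv s.v (f s.i).R)).isEmpty

theorem stepG_spec {f : ℕ → Ln} (hf : ∀ i, Hl H (f i)) {L : Ln} {m : ℤ} {n : ℕ} {ss : List Su}
    (h : stepG f L m n ss = true) : Hl H L := by
  have h' : stepOk ((List.range ((ss.map Su.i).foldr max 0 + 1)).map f) L m n ss = true := by
    have hi : ∀ s ∈ ss, gt ((List.range ((ss.map Su.i).foldr max 0 + 1)).map f) s.i = f s.i := by
      intro s hs
      have h1 : s.i ≤ (ss.map Su.i).foldr max 0 := by
        clear h
        induction ss with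
        | nil => exact absurd hs (List.not_mem_nil)
        | cons t ss ih =>
          rw [List.map_cons, List.foldr_cons]
          rcases List.mem_cons.1 hs with rfl | hs
          · exact le_max_left _ _
          · exact (ih hs).trans (le_max_right _ _)
      unfold gt
      rw [List.getD_eq_getElem _ _ (by simpa using by omega)]
      simp
    unfold stepG at h
    unfold stepOk
    simp only [Bool.and_eq_true] at h ⊢
    obtain ⟨⟨⟨h1, h2⟩, h3⟩, h4⟩ := h
    refine ⟨⟨⟨h1, h2⟩, ?_⟩, ?_⟩
    · rw [List.all_eq_true] at h3 ⊢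
      intro s hs
      rw [hi s hs]
      exact h3 s hs
    · have e : (ss.map fun s => cxp s.c s.lq s.q s.lv s.v
          (gt ((List.range ((ss.map Su.i).foldr max 0 + 1)).map f) s.i).R) =
          ss.map fun s => cxp s.c s.lq s.q s.lv s.v (f s.i).R :=
        List.map_congr_left fun s hs => by rw [hi s hs]
      rw [e]
      exact h4
  refine step_spec (H := H) (E := (List.range ((ss.map Su.i).foldr max 0 + 1)).map f) ?_ h'
  intro L hL
  obtain ⟨i, -, rfl⟩ := List.mem_map.1 hL
  exact hf i

/-- The lookup in a table with two levels. -/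
def gtt (E : List (List Ln)) (i : ℕ) : Ln := (E.getD (i / 32) []).getD (i % 32) ⟨0, 0, []⟩

theorem gtt_spec {E : List (List Ln)} (hE : ∀ l ∈ E, Env H l) (i : ℕ) : Hl H (gtt E i) := by
  unfold gtt
  have h0 : Env H (E.getD (i / 32) []) := by
    by_cases h : i / 32 < E.length
    · rw [List.getD_eq_getElem _ _ h]
      exact hE _ (List.getElem_mem h)
    · rw [List.getD_eq_default _ _ (by omega)]
      exact fun L hL => absurd hL (List.not_mem_nil)
  exact gt_spec h0 (i % 32)

/-- A line: the relation, the multiplier, the rounds, the summands. -/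
structure Li : Type where
  L : Ln
  m : ℤ
  n : ℕ
  ss : List Su

/-- The check of a line. -/
def Li.ok (f : ℕ → Ln) (l : Li) : Bool := stepG f l.L l.m l.n l.ss

theorem Env.append {E E' : List Ln} (h : Env H E) (h' : Env H E') : Env H (E ++ E') := by
  intro L hL
  exact (List.mem_append.1 hL).elim (h L) (h' L)

theorem env_li {f : ℕ → Ln} (hf : ∀ i, Hl H (f i)) {ls : List Li}
    (h : ls.all (Li.ok f) = true) : Env H (ls.map Li.L) := by
  intro L hL
  obtain ⟨l, hl, rfl⟩ := List.mem_map.1 hL
  exact stepG_spec hf (List.all_eq_true.1 h l hl)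

end Pool.Agent.SWW54
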