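import Mathlib
import Pool.Agent.SWW54.Lin

/-!
# Checked base relations, and relations which are carried through all letters
-/

set_option autoImplicit false

namespace Pool.Agent.SWW54

open Pool.Agent.Jac70 Pool.Agent.SWT85

/-- The digit of a letter. -/
def el : Lt → ℕ
  | .a i => i * 8
  | .b i j => 64 + i * 8 + j
  | .Y i j => 128 + i * 8 + j
  | .M i j => 192 + i * 8 + j
  | .P i j => 256 + i * 8 + j
  | .E i => 320 + i * 8
  | .A i => 384 + i * 8
  | .o i => 448 + i * 8
  | .F i => 512 + i * 8

/-- The packed word. -/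
def ew (w : List Lt) : ℕ := w.foldl (fun n l => n * 1024 + el l) 0

/-- A base relation with its certificate. -/
structure Bs : Type where
  k : ℕ
  k' : ℕ
  d : ℕ
  outs : List ℕ
  ts : List Tm
  is : List It

/-- The relation. -/
def Bs.R (b : Bs) : List T3 := b.ts.map fun t => (t.1, t.2.1.length, ew t.2.1)

/-- The relation with its states. -/
def Bs.ln (b : Bs) : Ln := ⟨b.k, b.k', b.R⟩

/-- The check of a base relation. -/
def Bs.ok (b : Bs) : Bool :=
  chk b.k b.d b.outs b.ts b.is && !Nat.beq b.k 9 && Nat.beq (rl b.k') b.outs.length &&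
    (b.ts.all fun t => decide (dw t.2.1.length (ew t.2.1) = t.2.1)) && b.R.all wf

variable {H : Type} [DecidableEq H]

theorem Bs.spec {b : Bs} (h : b.ok = true) : b.ln.R.all wf = true ∧ HT H b.ln.k b.ln.k' b.ln.R := by
  unfold Bs.ok at h
  simp only [Bool.and_eq_true, Bool.not_eq_true'] at h
  obtain ⟨⟨⟨⟨h1, h2⟩, h3⟩, h4⟩, h5⟩ := h
  refine ⟨h5, Holds.ht ?_⟩
  have e : un b.ln.R = b.ts.map fun t => (t.1, t.2.1) := by
    show un b.R = _
    unfold un Bs.R
    rw [List.map_map]
    refine List.map_congr_left fun t ht => ?_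
    rw [List.all_eq_true] at h4
    have := h4 t ht
    rw [decide_eq_true_eq] at this
    show (t.1, dw t.2.1.length (ew t.2.1)) = _
    rw [this]
  rw [e]
  refine chk_holds h1 (fun hk => ?_) (Nat.eq_of_beq_eq_true h3)
  have h6 : b.k = 9 := hk
  rw [h6] at h2
  exact absurd h2 (by decide)

theorem env_base {bs : List Bs} (h : bs.all Bs.ok = true) : Env H (bs.map Bs.ln) := by
  intro L hL
  obtain ⟨b, hb, rfl⟩ := List.mem_map.1 hL
  exact Bs.spec (List.all_eq_true.1 h b hb)

theorem vl_append {V : Type} [AddCommGroup V] (F : List Lt → V) (R S : List T3) :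
    vl F (R ++ S) = vl F R + vl F S := by
  unfold vl un
  rw [List.map_append, sm_append]

/-! ### Letters -/

/-- All legal letters. -/
def allL : List Lt :=
  ((List.range 4).flatMap fun i => [.a i, .o i] ++
    (List.range 4).flatMap fun j => [.b i j, .Y i j, .M i j, .P i j]) ++ [.E 0, .A 0]

theorem mem_allL {l : Lt} {k k' : ℕ} (h : tc l k = some k') : l ∈ allL := by
  have h1 := (tc_tl h).1
  unfold allL
  simp only [List.mem_append, List.mem_flatMap, List.mem_range, List.mem_cons, List.not_mem_nil,
    or_false]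
  cases l with
  | a i =>
    simp only [tc] at h
    split_ifs at h with hi
    exact Or.inl ⟨i, by omega, Or.inl (Or.inl rfl)⟩
  | o i =>
    simp only [tc] at h
    split_ifs at h with hi
    exact Or.inl ⟨i, by omega, Or.inl (Or.inr rfl)⟩
  | b i j =>
    simp only [tc] at h
    split_ifs at h with hi
    exact Or.inl ⟨i, by omega, Or.inr ⟨j, by omega, Or.inl rfl⟩⟩
  | Y i j =>
    simp only [tc] at h
    split_ifs at h with hi
    exact Or.inl ⟨i, by omega, Or.inr ⟨j, by omega, Or.inr (Or.inl rfl)⟩⟩
  | M i j =>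
    simp only [tc] at h
    split_ifs at h with hi
    exact Or.inl ⟨i, by omega, Or.inr ⟨j, by omega, Or.inr (Or.inr (Or.inl rfl))⟩⟩
  | P i j =>
    simp only [tc] at h
    split_ifs at h with hi
    exact Or.inl ⟨i, by omega, Or.inr ⟨j, by omega, Or.inr (Or.inr (Or.inr rfl))⟩⟩
  | E i =>
    simp only [tc] at h
    split_ifs at h with hi
    rw [hi.1]
    exact Or.inr (Or.inl rfl)
  | A i =>
    simp only [tc] at h
    split_ifs at h with hi
    rw [hi.1]
    exact Or.inr (Or.inr rfl)
  | F i => simp [tc] at h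

theorem dl_el {l : Lt} (h : l ∈ allL) : dl (el l) = l ∧ el l < 1024 := by
  have h1 : (allL.all fun l => decide (dl (el l) = l ∧ el l < 1024)) = true := by decide
  have := List.all_eq_true.1 h1 l h
  simpa using this

theorem ew_append (w : List Lt) (l : Lt) : ew (w ++ [l]) = ew w * 1024 + el l := by
  unfold ew
  rw [List.foldl_append]
  rfl

/-- A packed word is unpacked. -/
theorem dw_ew {w : List Lt} (h : ∀ l ∈ w, l ∈ allL) :
    dw w.length (ew w) = w ∧ ew w < 1024 ^ w.length := by
  induction w using List.reverseRecOn with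
  | nil => exact ⟨rfl, by decide⟩
  | append_singleton w l ih =>
    obtain ⟨h1, h2⟩ := ih fun x hx => h x (List.mem_append.2 (Or.inl hx))
    obtain ⟨h3, h4⟩ := dl_el (h l (by simp))
    rw [List.length_append, List.length_singleton, ew_append]
    constructor
    · show dw w.length ((ew w * 1024 + el l) / 1024) ++ [dl ((ew w * 1024 + el l) % 1024)] = _
      have e1 : (ew w * 1024 + el l) / 1024 = ew w := by omega
      have e2 : (ew w * 1024 + el l) % 1024 = el l := by omega
      rw [e1, e2, h1, h3]
    · rw [pow_succ]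
      have : ew w * 1024 + el l < (ew w + 1) * 1024 := by omega
      exact this.trans_le (Nat.mul_le_mul_right _ h2)

theorem mem_allL_of {w : List Lt} {k k' : ℕ} (h : tyc w k = some k') : ∀ l ∈ w, l ∈ allL := by
  induction w generalizing k with
  | nil => exact fun l hl => absurd hl (List.not_mem_nil)
  | cons x w ih =>
    obtain ⟨m, hm, h⟩ := tyc_cons h
    intro l hl
    rcases List.mem_cons.1 hl with rfl | hl
    · exact mem_allL hm
    · exact ih h l hl

/-! ### Relations which are carried through all letters -/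

/-- `l R'` minus the sum of the `c R l`. -/
def dif (l : Lt) (R' : List T3) (cs : List (ℤ × List T3)) : List T3 :=
  cxp 1 1 (el l) 0 0 R' ++ cs.flatMap fun y => cxp (-y.1) 0 0 1 (el l) y.2

theorem transport {Fm : List (ℕ × List T3)} (h0 : ∀ x ∈ Fm, x.1 ≠ 0)
    (hw : ∀ x ∈ Fm, x.2.all wf = true)
    (hinv : ∀ x ∈ Fm, ∀ l k, tc l k = some x.1 → ∃ cs : List (ℤ × List T3),
      (∀ y ∈ cs, (k, y.2) ∈ Fm) ∧ HT H k x.1 (dif l x.2 cs)) :
    ∀ x ∈ Fm, HT H x.1 x.1 x.2 := by
  have key : ∀ p : List Lt, ∀ x ∈ Fm, ∀ u : List Lt, tyc p 0 = some x.1 → tyu u x.1 = some 9 →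
      vl (fun w => ev H (p ++ w ++ u)) x.2 ∈ Submodule.torsion ℤ (A H) := by
    intro p
    induction p using List.reverseRecOn with
    | nil =>
      intro x hx u hp _
      simp only [tyc, Option.some.injEq] at hp
      exact absurd hp.symm (h0 x hx)
    | append_singleton p l ih =>
      intro x hx u hp hu
      obtain ⟨k, hk, hl⟩ := tyc_append.1 hp
      obtain ⟨m, hm, hm'⟩ := tyc_cons hl
      simp only [tyc, Option.some.injEq] at hm'
      subst hm'
      obtain ⟨cs, hcs, hD⟩ := hinv x hx l k hm
      have hl2 := dl_el (mem_allL hm)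
      have d1 : dw 1 (el l) = [l] := by
        show [] ++ [dl (el l % 1024)] = [l]
        rw [Nat.mod_eq_of_lt hl2.2, hl2.1]
        rfl
      have hD' := hD p u hk hu
      unfold dif at hD'
      rw [vl_append, vl_cxp _ 1 (by norm_num : 0 < 1024 ^ 0) (hw x hx), one_smul] at hD'
      have e1 : (fun w => ev H (p ++ (dw 1 (el l) ++ w ++ dw 0 0) ++ u)) =
          fun w => ev H (p ++ [l] ++ w ++ u) := by
        funext w
        rw [d1]
        simp [dw]
      rw [e1] at hD'
      have e2 : vl (fun w => ev H (p ++ w ++ u))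
          (cs.flatMap fun y => cxp (-y.1) 0 0 1 (el l) y.2) ∈ Submodule.torsion ℤ (A H) := by
        clear hD hD'
        induction cs with
        | nil => exact Submodule.zero_mem _
        | cons y cs ihc =>
          rw [List.flatMap_cons, vl_append]
          refine Submodule.add_mem _ ?_ (ihc fun z hz => hcs z (List.mem_cons_of_mem _ hz))
          have hy := hcs y (by simp)
          rw [vl_cxp _ _ (by rw [pow_one]; exact hl2.2) (hw _ hy)]
          refine Submodule.smul_mem _ _ ?_
          have := ih (k, y.2) hy (l :: u) hk (by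
            show (tu l k).bind (tyu u) = some 9
            rw [tu_of_tc hm]
            exact hu)
          have e3 : (fun w => ev H (p ++ (dw 0 0 ++ w ++ dw 1 (el l)) ++ u)) =
              fun w => ev H (p ++ w ++ l :: u) := by
            funext w
            rw [d1]
            simp [dw]
          rw [e3]
          exact this
      have e4 := Submodule.sub_mem _ hD' e2
      rwa [add_sub_cancel_right] at e4
  exact fun x hx p u hp hu => key p x hx u hp hu

/-- A datum: the number of the relation in the family, the letter, the state before the letter, the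
coefficients with the numbers of the relations of the family, the summands. -/
structure Dt : Type where
  x : ℕ
  l : Lt
  k : ℕ
  cs : List (ℤ × ℕ)
  ss : List Su

/-- The member of the family. -/
def gf (Fm : List (ℕ × List T3)) (i : ℕ) : ℕ × List T3 := Fm.getD i (0, [])

/-- The required cases. -/
def req (Fm : List (ℕ × List T3)) : List (ℕ × Lt × ℕ) :=
  (List.range Fm.length).flatMap fun x => allL.flatMap fun l => (List.range 5).flatMap fun k =>
    if tc l k = some (gf Fm x).1 then [(x, l, k)] else []

/-- The check of one case. -/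
def Dt.ok (f : ℕ → Ln) (Fm : List (ℕ × List T3)) (n : ℕ) (t : Dt) : Bool :=
  (t.cs.all fun y => decide (y.2 < Fm.length) && decide ((gf Fm y.2).1 = t.k)) &&
    stepG f ⟨t.k, (gf Fm t.x).1, mal n ((dif t.l (gf Fm t.x).2
      (t.cs.map fun y => (y.1, (gf Fm y.2).2))).map fun z => [z])⟩ 1 n t.ss

/-- The check of a family. -/
def famOk (f : ℕ → Ln) (Fm : List (ℕ × List T3)) (n : ℕ) (D : List Dt) : Bool :=
  decide (req Fm = D.map fun t => (t.x, t.l, t.k)) && D.all (Dt.ok f Fm n) &&
    Fm.all fun x => decide (x.1 ≠ 0) && x.2.all wf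

theorem vls_single {V : Type} [AddCommGroup V] (F : List Lt → V) (R : List T3) :
    vls F (R.map fun z => [z]) = vl F R := by
  induction R with
  | nil => rfl
  | cons z R ih => rw [List.map_cons, vls_cons, ih, vl_cons, vl_cons, vl_nil, add_zero]

theorem gf_mem {Fm : List (ℕ × List T3)} {i : ℕ} (h : i < Fm.length) : gf Fm i ∈ Fm := by
  unfold gf
  rw [List.getD_eq_getElem _ _ h]
  exact List.getElem_mem h

theorem famOk_spec {f : ℕ → Ln} (hf : ∀ i, Hl H (f i)) {Fm : List (ℕ × List T3)} {n : ℕ}
    {D : List Dt} (h : famOk f Fm n D = true) : Env H (Fm.map fun x => ⟨x.1, x.1, x.2⟩) := by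
  unfold famOk at h
  simp only [Bool.and_eq_true, decide_eq_true_eq] at h
  obtain ⟨⟨h1, h2⟩, h3⟩ := h
  rw [List.all_eq_true] at h2 h3
  have h3' : ∀ x ∈ Fm, x.1 ≠ 0 ∧ x.2.all wf = true := by
    intro x hx
    have := h3 x hx
    rw [Bool.and_eq_true, decide_eq_true_eq] at this
    exact this
  intro L hL
  obtain ⟨x, hx, rfl⟩ := List.mem_map.1 hL
  refine ⟨(h3' x hx).2, ?_⟩
  refine transport (fun x hx => (h3' x hx).1) (fun x hx => (h3' x hx).2) ?_ x hx
  intro y hy l k hl
  obtain ⟨i, hi, rfl⟩ := List.getElem_of_mem hy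
  have hgi : gf Fm i = Fm[i] := List.getD_eq_getElem _ _ hi
  have hmem : (i, l, k) ∈ req Fm := by
    unfold req
    simp only [List.mem_flatMap, List.mem_range]
    refine ⟨i, hi, l, mem_allL hl, k, ?_, ?_⟩
    · have := (tc_tl hl).1
      omega
    · rw [hgi, if_pos hl]
      simp
  rw [h1] at hmem
  obtain ⟨t, ht, hte⟩ := List.mem_map.1 hmem
  simp only [Prod.mk.injEq] at hte
  obtain ⟨rfl, rfl, rfl⟩ := hte
  have h4 := h2 t ht
  unfold Dt.ok at h4
  rw [Bool.and_eq_true, List.all_eq_true] at h4
  obtain ⟨h5, h6⟩ := h4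
  refine ⟨t.cs.map fun y => (y.1, (gf Fm y.2).2), ?_, ?_⟩
  · intro y hy'
    obtain ⟨z, hz, rfl⟩ := List.mem_map.1 hy'
    have := h5 z hz
    simp only [Bool.and_eq_true, decide_eq_true_eq] at this
    have h7 := gf_mem this.1
    rw [← this.2]
    exact h7
  · have h8 := (stepG_spec hf h6).2
    intro p u hp hu
    have h9 := h8 p u hp (by rw [hgi]; exact hu)
    rw [vl_mal, vls_single, hgi] at h9
    exact h9

end Pool.Agent.SWW54
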