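import Mathlib
import Pool.Agent.SWW54.RelB0

/-!
# The families
-/

set_option autoImplicit false

namespace Pool.Agent.SWW54

open Pool.Agent.Jac70 Pool.Agent.SWT85

/-- The table for the families. -/
def tbA : List (List Ln) := [cb0.map Bs.ln, cb1.map Bs.ln, cb2.map Bs.ln, cb3.map Bs.ln, cb4.map Bs.ln, cb5.map Bs.ln, cb6.map Bs.ln, cb7.map Bs.ln, cb8.map Bs.ln, cb9.map Bs.ln, cb10.map Bs.ln, cb11.map Bs.ln]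

variable {H : Type} [DecidableEq H]

theorem tbA_spec : ∀ l ∈ tbA, Env H l := by
  intro l hl
  unfold tbA at hl
  simp only [List.mem_cons, List.not_mem_nil, or_false] at hl
  rcases hl with rfl | rfl | rfl | rfl | rfl | rfl | rfl | rfl | rfl | rfl | rfl | rfl
  · exact env_base cb0_ok
  · exact env_base cb1_ok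
  · exact env_base cb2_ok
  · exact env_base cb3_ok
  · exact env_base cb4_ok
  · exact env_base cb5_ok
  · exact env_base cb6_ok
  · exact env_base cb7_ok
  · exact env_base cb8_ok
  · exact env_base cb9_ok
  · exact env_base cb10_ok
  · exact env_base cb11_ok

/-- The families. -/
def fm : List (ℕ × List T3) := [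
  (1, [(2, 1, 0), ((-1), 1, 448)]),
  (2, [(2, 1, 0), (2, 1, 8), (2, 1, 65), ((-1), 1, 448), ((-1), 1, 456)]),
  (3, [(2, 1, 0), (2, 1, 8), (2, 1, 16), (2, 1, 65), (2, 1, 66), (2, 1, 74), ((-1), 1, 448), ((-1), 1, 456), ((-1), 1, 464)]),
  (4, [(2, 1, 0), (2, 1, 8), (2, 1, 16), (2, 1, 24), (2, 1, 65), (2, 1, 66), (2, 1, 67), (2, 1, 74), (2, 1, 75), (2, 1, 83), ((-1), 1, 448), ((-1), 1, 456), ((-1), 1, 464), ((-1), 1, 472)]),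
  (2, [((-1), 1, 448), (1, 1, 456)]),
  (3, [((-1), 1, 448), (1, 1, 456)]),
  (3, [((-1), 1, 448), (1, 1, 464)]),
  (4, [((-1), 1, 448), (1, 1, 456)]),
  (4, [((-1), 1, 448), (1, 1, 464)]),
  (4, [((-1), 1, 448), (1, 1, 472)])]

/-- Data. -/
def dt0 : List Dt := [
  ⟨0, .a 0, 1, [(1, 0)], [⟨1, 0, 0, 0, 0, 0⟩]⟩,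
  ⟨0, .o 0, 1, [(1, 0)], [⟨1, 1, 0, 0, 0, 0⟩]⟩,
  ⟨0, .M 0 1, 2, [(1, 1)], [⟨1, 2, 0, 0, 0, 0⟩]⟩,
  ⟨0, .E 0, 0, [], [⟨1, 3, 0, 0, 0, 0⟩]⟩,
  ⟨1, .a 0, 2, [(1, 1)], [⟨1, 4, 0, 0, 0, 0⟩, ⟨1, 5, 0, 0, 0, 0⟩]⟩,
  ⟨1, .o 0, 2, [(1, 1)], [⟨1, 6, 0, 0, 0, 0⟩, ⟨1, 7, 0, 0, 0, 0⟩]⟩,
  ⟨1, .b 0 1, 2, [(1, 1)], [⟨1, 8, 0, 0, 0, 0⟩]⟩,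
  ⟨1, .Y 0 1, 1, [(1, 0)], [⟨1, 9, 0, 0, 0, 0⟩]⟩,
  ⟨1, .P 0 1, 2, [(1, 1)], [⟨1, 10, 0, 0, 0, 0⟩, ⟨1, 11, 0, 0, 0, 0⟩, ⟨1, 12, 0, 0, 0, 0⟩]⟩,
  ⟨1, .M 0 2, 3, [(1, 2)], [⟨1, 13, 0, 0, 0, 0⟩, ⟨1, 14, 0, 0, 0, 0⟩]⟩,
  ⟨1, .a 1, 2, [(1, 1)], [⟨1, 15, 0, 0, 0, 0⟩, ⟨1, 16, 0, 0, 0, 0⟩]⟩,
  ⟨1, .o 1, 2, [(1, 1)], [⟨1, 17, 0, 0, 0, 0⟩, ⟨1, 18, 0, 0, 0, 0⟩]⟩,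
  ⟨1, .M 1 2, 3, [(1, 2)], [⟨1, 19, 0, 0, 0, 0⟩, ⟨1, 20, 0, 0, 0, 0⟩]⟩,
  ⟨2, .a 0, 3, [(1, 2)], [⟨1, 21, 0, 0, 0, 0⟩, ⟨1, 22, 0, 0, 0, 0⟩, ⟨1, 23, 0, 0, 0, 0⟩, ⟨1, 24, 0, 0, 0, 0⟩]⟩,
  ⟨2, .o 0, 3, [(1, 2)], [⟨1, 25, 0, 0, 0, 0⟩, ⟨1, 26, 0, 0, 0, 0⟩, ⟨1, 27, 0, 0, 0, 0⟩, ⟨1, 28, 0, 0, 0, 0⟩]⟩,
  ⟨2, .b 0 1, 3, [(1, 2)], [⟨1, 29, 0, 0, 0, 0⟩, ⟨1, 30, 0, 0, 0, 0⟩]⟩,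
  ⟨2, .P 0 1, 3, [(1, 2)], [⟨1, 31, 0, 0, 0, 0⟩, ⟨1, 32, 0, 0, 0, 0⟩, ⟨1, 33, 0, 0, 0, 0⟩, ⟨1, 34, 0, 0, 0, 0⟩, ⟨1, 35, 0, 0, 0, 0⟩, ⟨1, 36, 0, 0, 0, 0⟩]⟩,
  ⟨2, .b 0 2, 3, [(1, 2)], [⟨1, 37, 0, 0, 0, 0⟩, ⟨1, 38, 0, 0, 0, 0⟩]⟩,
  ⟨2, .Y 0 2, 2, [(1, 1)], [⟨1, 39, 0, 0, 0, 0⟩, ⟨1, 40, 0, 0, 0, 0⟩]⟩,
  ⟨2, .P 0 2, 3, [(1, 2)], [⟨1, 41, 0, 0, 0, 0⟩, ⟨1, 42, 0, 0, 0, 0⟩, ⟨1, 43, 0, 0, 0, 0⟩, ⟨1, 44, 0, 0, 0, 0⟩, ⟨1, 45, 0, 0, 0, 0⟩, ⟨1, 46, 0, 0, 0, 0⟩]⟩,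
  ⟨2, .M 0 3, 4, [(1, 3)], [⟨1, 47, 0, 0, 0, 0⟩, ⟨1, 48, 0, 0, 0, 0⟩, ⟨1, 49, 0, 0, 0, 0⟩, ⟨1, 50, 0, 0, 0, 0⟩]⟩,
  ⟨2, .a 1, 3, [(1, 2)], [⟨1, 51, 0, 0, 0, 0⟩, ⟨1, 52, 0, 0, 0, 0⟩, ⟨1, 53, 0, 0, 0, 0⟩, ⟨1, 54, 0, 0, 0, 0⟩]⟩,
  ⟨2, .o 1, 3, [(1, 2)], [⟨1, 55, 0, 0, 0, 0⟩, ⟨1, 56, 0, 0, 0, 0⟩, ⟨1, 57, 0, 0, 0, 0⟩, ⟨1, 58, 0, 0, 0, 0⟩]⟩,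
  ⟨2, .b 1 2, 3, [(1, 2)], [⟨1, 59, 0, 0, 0, 0⟩, ⟨1, 60, 0, 0, 0, 0⟩]⟩,
  ⟨2, .Y 1 2, 2, [(1, 1)], [⟨1, 61, 0, 0, 0, 0⟩, ⟨1, 62, 0, 0, 0, 0⟩]⟩,
  ⟨2, .P 1 2, 3, [(1, 2)], [⟨1, 63, 0, 0, 0, 0⟩, ⟨1, 64, 0, 0, 0, 0⟩, ⟨1, 65, 0, 0, 0, 0⟩, ⟨1, 66, 0, 0, 0, 0⟩, ⟨1, 67, 0, 0, 0, 0⟩, ⟨1, 68, 0, 0, 0, 0⟩]⟩,
  ⟨2, .M 1 3, 4, [(1, 3)], [⟨1, 69, 0, 0, 0, 0⟩, ⟨1, 70, 0, 0, 0, 0⟩, ⟨1, 71, 0, 0, 0, 0⟩, ⟨1, 72, 0, 0, 0, 0⟩]⟩,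
  ⟨2, .a 2, 3, [(1, 2)], [⟨1, 73, 0, 0, 0, 0⟩, ⟨1, 74, 0, 0, 0, 0⟩, ⟨1, 75, 0, 0, 0, 0⟩, ⟨1, 76, 0, 0, 0, 0⟩]⟩,
  ⟨2, .o 2, 3, [(1, 2)], [⟨1, 77, 0, 0, 0, 0⟩, ⟨1, 78, 0, 0, 0, 0⟩, ⟨1, 79, 0, 0, 0, 0⟩, ⟨1, 80, 0, 0, 0, 0⟩]⟩,
  ⟨2, .M 2 3, 4, [(1, 3)], [⟨1, 81, 0, 0, 0, 0⟩, ⟨1, 82, 0, 0, 0, 0⟩, ⟨1, 83, 0, 0, 0, 0⟩, ⟨1, 84, 0, 0, 0, 0⟩]⟩,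
  ⟨3, .a 0, 4, [(1, 3)], [⟨1, 85, 0, 0, 0, 0⟩, ⟨1, 86, 0, 0, 0, 0⟩, ⟨1, 87, 0, 0, 0, 0⟩, ⟨1, 88, 0, 0, 0, 0⟩, ⟨1, 89, 0, 0, 0, 0⟩, ⟨1, 90, 0, 0, 0, 0⟩, ⟨1, 91, 0, 0, 0, 0⟩]⟩,
  ⟨3, .o 0, 4, [(1, 3)], [⟨1, 92, 0, 0, 0, 0⟩, ⟨1, 93, 0, 0, 0, 0⟩, ⟨1, 94, 0, 0, 0, 0⟩, ⟨1, 95, 0, 0, 0, 0⟩, ⟨1, 96, 0, 0, 0, 0⟩, ⟨1, 97, 0, 0, 0, 0⟩, ⟨1, 98, 0, 0, 0, 0⟩]⟩,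
  ⟨3, .b 0 1, 4, [(1, 3)], [⟨1, 99, 0, 0, 0, 0⟩, ⟨1, 100, 0, 0, 0, 0⟩, ⟨1, 101, 0, 0, 0, 0⟩, ⟨1, 102, 0, 0, 0, 0⟩]⟩,
  ⟨3, .P 0 1, 4, [(1, 3)], [⟨1, 103, 0, 0, 0, 0⟩, ⟨1, 104, 0, 0, 0, 0⟩, ⟨1, 105, 0, 0, 0, 0⟩, ⟨1, 106, 0, 0, 0, 0⟩, ⟨1, 107, 0, 0, 0, 0⟩, ⟨1, 108, 0, 0, 0, 0⟩, ⟨1, 109, 0, 0, 0, 0⟩, ⟨1, 110, 0, 0, 0, 0⟩, ⟨1, 111, 0, 0, 0, 0⟩, ⟨1, 112, 0, 0, 0, 0⟩]⟩,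
  ⟨3, .b 0 2, 4, [(1, 3)], [⟨1, 113, 0, 0, 0, 0⟩, ⟨1, 114, 0, 0, 0, 0⟩, ⟨1, 115, 0, 0, 0, 0⟩, ⟨1, 116, 0, 0, 0, 0⟩]⟩,
  ⟨3, .P 0 2, 4, [(1, 3)], [⟨1, 117, 0, 0, 0, 0⟩, ⟨1, 118, 0, 0, 0, 0⟩, ⟨1, 119, 0, 0, 0, 0⟩, ⟨1, 120, 0, 0, 0, 0⟩, ⟨1, 121, 0, 0, 0, 0⟩, ⟨1, 122, 0, 0, 0, 0⟩, ⟨1, 123, 0, 0, 0, 0⟩, ⟨1, 124, 0, 0, 0, 0⟩, ⟨1, 125, 0, 0, 0, 0⟩, ⟨1, 126, 0, 0, 0, 0⟩]⟩,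
  ⟨3, .b 0 3, 4, [(1, 3)], [⟨1, 127, 0, 0, 0, 0⟩, ⟨1, 128, 0, 0, 0, 0⟩, ⟨1, 129, 0, 0, 0, 0⟩, ⟨1, 130, 0, 0, 0, 0⟩]⟩,
  ⟨3, .Y 0 3, 3, [(1, 2)], [⟨1, 131, 0, 0, 0, 0⟩, ⟨1, 132, 0, 0, 0, 0⟩, ⟨1, 133, 0, 0, 0, 0⟩, ⟨1, 134, 0, 0, 0, 0⟩]⟩,
  ⟨3, .P 0 3, 4, [(1, 3)], [⟨1, 135, 0, 0, 0, 0⟩, ⟨1, 136, 0, 0, 0, 0⟩, ⟨1, 137, 0, 0, 0, 0⟩, ⟨1, 138, 0, 0, 0, 0⟩, ⟨1, 139, 0, 0, 0, 0⟩, ⟨1, 140, 0, 0, 0, 0⟩, ⟨1, 141, 0, 0, 0, 0⟩, ⟨1, 142, 0, 0, 0, 0⟩, ⟨1, 143, 0, 0, 0, 0⟩, ⟨1, 144, 0, 0, 0, 0⟩]⟩,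
  ⟨3, .a 1, 4, [(1, 3)], [⟨1, 145, 0, 0, 0, 0⟩, ⟨1, 146, 0, 0, 0, 0⟩, ⟨1, 147, 0, 0, 0, 0⟩, ⟨1, 148, 0, 0, 0, 0⟩, ⟨1, 149, 0, 0, 0, 0⟩, ⟨1, 150, 0, 0, 0, 0⟩, ⟨1, 151, 0, 0, 0, 0⟩]⟩,
  ⟨3, .o 1, 4, [(1, 3)], [⟨1, 152, 0, 0, 0, 0⟩, ⟨1, 153, 0, 0, 0, 0⟩, ⟨1, 154, 0, 0, 0, 0⟩, ⟨1, 155, 0, 0, 0, 0⟩, ⟨1, 156, 0, 0, 0, 0⟩, ⟨1, 157, 0, 0, 0, 0⟩, ⟨1, 158, 0, 0, 0, 0⟩]⟩,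
  ⟨3, .b 1 2, 4, [(1, 3)], [⟨1, 159, 0, 0, 0, 0⟩, ⟨1, 160, 0, 0, 0, 0⟩, ⟨1, 161, 0, 0, 0, 0⟩, ⟨(-1), 130, 0, 0, 0, 0⟩]⟩]

theorem dt0_ok : dt0.all (Dt.ok (gtt tbA) fm 4) = true := by decide +kernel

/-- Data. -/
def dt1 : List Dt := [
  ⟨3, .P 1 2, 4, [(1, 3)], [⟨1, 162, 0, 0, 0, 0⟩, ⟨1, 163, 0, 0, 0, 0⟩, ⟨1, 164, 0, 0, 0, 0⟩, ⟨1, 165, 0, 0, 0, 0⟩, ⟨1, 166, 0, 0, 0, 0⟩, ⟨1, 167, 0, 0, 0, 0⟩, ⟨1, 168, 0, 0, 0, 0⟩, ⟨1, 169, 0, 0, 0, 0⟩, ⟨1, 170, 0, 0, 0, 0⟩, ⟨1, 171, 0, 0, 0, 0⟩]⟩,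
  ⟨3, .b 1 3, 4, [(1, 3)], [⟨1, 172, 0, 0, 0, 0⟩, ⟨1, 173, 0, 0, 0, 0⟩, ⟨1, 174, 0, 0, 0, 0⟩, ⟨(-1), 116, 0, 0, 0, 0⟩]⟩,
  ⟨3, .Y 1 3, 3, [(1, 2)], [⟨1, 175, 0, 0, 0, 0⟩, ⟨1, 176, 0, 0, 0, 0⟩, ⟨1, 177, 0, 0, 0, 0⟩, ⟨1, 178, 0, 0, 0, 0⟩]⟩,
  ⟨3, .P 1 3, 4, [(1, 3)], [⟨1, 179, 0, 0, 0, 0⟩, ⟨1, 180, 0, 0, 0, 0⟩, ⟨1, 181, 0, 0, 0, 0⟩, ⟨1, 182, 0, 0, 0, 0⟩, ⟨1, 183, 0, 0, 0, 0⟩, ⟨1, 184, 0, 0, 0, 0⟩, ⟨1, 185, 0, 0, 0, 0⟩, ⟨1, 186, 0, 0, 0, 0⟩, ⟨1, 187, 0, 0, 0, 0⟩, ⟨1, 188, 0, 0, 0, 0⟩]⟩,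
  ⟨3, .a 2, 4, [(1, 3)], [⟨1, 189, 0, 0, 0, 0⟩, ⟨1, 190, 0, 0, 0, 0⟩, ⟨1, 191, 0, 0, 0, 0⟩, ⟨1, 192, 0, 0, 0, 0⟩, ⟨1, 193, 0, 0, 0, 0⟩, ⟨1, 194, 0, 0, 0, 0⟩, ⟨1, 195, 0, 0, 0, 0⟩]⟩,
  ⟨3, .o 2, 4, [(1, 3)], [⟨1, 196, 0, 0, 0, 0⟩, ⟨1, 197, 0, 0, 0, 0⟩, ⟨1, 198, 0, 0, 0, 0⟩, ⟨1, 199, 0, 0, 0, 0⟩, ⟨1, 200, 0, 0, 0, 0⟩, ⟨1, 201, 0, 0, 0, 0⟩, ⟨1, 202, 0, 0, 0, 0⟩]⟩,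
  ⟨3, .b 2 3, 4, [(1, 3)], [⟨1, 203, 0, 0, 0, 0⟩, ⟨1, 204, 0, 0, 0, 0⟩, ⟨1, 205, 0, 0, 0, 0⟩, ⟨(-1), 102, 0, 0, 0, 0⟩]⟩,
  ⟨3, .Y 2 3, 3, [(1, 2)], [⟨1, 206, 0, 0, 0, 0⟩, ⟨1, 207, 0, 0, 0, 0⟩, ⟨1, 208, 0, 0, 0, 0⟩, ⟨1, 209, 0, 0, 0, 0⟩]⟩,
  ⟨3, .P 2 3, 4, [(1, 3)], [⟨1, 210, 0, 0, 0, 0⟩, ⟨1, 211, 0, 0, 0, 0⟩, ⟨1, 212, 0, 0, 0, 0⟩, ⟨1, 213, 0, 0, 0, 0⟩, ⟨1, 214, 0, 0, 0, 0⟩, ⟨1, 215, 0, 0, 0, 0⟩, ⟨1, 216, 0, 0, 0, 0⟩, ⟨1, 217, 0, 0, 0, 0⟩, ⟨1, 218, 0, 0, 0, 0⟩, ⟨1, 219, 0, 0, 0, 0⟩]⟩,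
  ⟨3, .a 3, 4, [(1, 3)], [⟨1, 220, 0, 0, 0, 0⟩, ⟨1, 221, 0, 0, 0, 0⟩, ⟨1, 222, 0, 0, 0, 0⟩, ⟨1, 223, 0, 0, 0, 0⟩, ⟨1, 224, 0, 0, 0, 0⟩, ⟨1, 225, 0, 0, 0, 0⟩, ⟨1, 226, 0, 0, 0, 0⟩]⟩,
  ⟨3, .o 3, 4, [(1, 3)], [⟨1, 227, 0, 0, 0, 0⟩, ⟨1, 228, 0, 0, 0, 0⟩, ⟨1, 229, 0, 0, 0, 0⟩, ⟨1, 230, 0, 0, 0, 0⟩, ⟨1, 231, 0, 0, 0, 0⟩, ⟨1, 232, 0, 0, 0, 0⟩, ⟨1, 233, 0, 0, 0, 0⟩]⟩,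
  ⟨4, .a 0, 2, [(1, 4)], [⟨1, 5, 0, 0, 0, 0⟩, ⟨1, 234, 0, 0, 0, 0⟩]⟩,
  ⟨4, .o 0, 2, [(1, 4)], [⟨1, 235, 0, 0, 0, 0⟩]⟩,
  ⟨4, .b 0 1, 2, [], [⟨1, 236, 0, 0, 0, 0⟩]⟩,
  ⟨4, .Y 0 1, 1, [], [⟨1, 237, 0, 0, 0, 0⟩]⟩,
  ⟨4, .P 0 1, 2, [((-1), 4)], [⟨1, 238, 0, 0, 0, 0⟩, ⟨1, 239, 0, 0, 0, 0⟩]⟩,
  ⟨4, .M 0 2, 3, [(1, 5)], [⟨1, 240, 0, 0, 0, 0⟩, ⟨1, 241, 0, 0, 0, 0⟩]⟩,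
  ⟨4, .a 1, 2, [(1, 4)], [⟨1, 242, 0, 0, 0, 0⟩, ⟨(-1), 16, 0, 0, 0, 0⟩]⟩,
  ⟨4, .o 1, 2, [(1, 4)], [⟨1, 235, 0, 0, 0, 0⟩]⟩,
  ⟨4, .M 1 2, 3, [(1, 5)], [⟨1, 243, 0, 0, 0, 0⟩, ⟨1, 244, 0, 0, 0, 0⟩]⟩,
  ⟨5, .a 0, 3, [(1, 5)], [⟨1, 24, 0, 0, 0, 0⟩, ⟨1, 245, 0, 0, 0, 0⟩]⟩,
  ⟨5, .o 0, 3, [(1, 5)], [⟨1, 246, 0, 0, 0, 0⟩]⟩,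
  ⟨5, .b 0 1, 3, [], [⟨1, 247, 0, 0, 0, 0⟩]⟩,
  ⟨5, .P 0 1, 3, [((-1), 5)], [⟨1, 248, 0, 0, 0, 0⟩, ⟨1, 249, 0, 0, 0, 0⟩]⟩,
  ⟨5, .b 0 2, 3, [(1, 5)], [⟨1, 250, 0, 0, 0, 0⟩, ⟨1, 251, 0, 0, 0, 0⟩]⟩,
  ⟨5, .Y 0 2, 2, [(1, 4)], [⟨1, 252, 0, 0, 0, 0⟩, ⟨1, 253, 0, 0, 0, 0⟩]⟩,
  ⟨5, .P 0 2, 3, [(1, 5), ((-1), 6)], [⟨1, 254, 0, 0, 0, 0⟩, ⟨1, 255, 0, 0, 0, 0⟩]⟩,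
  ⟨5, .M 0 3, 4, [(1, 7)], [⟨1, 256, 0, 0, 0, 0⟩, ⟨1, 257, 0, 0, 0, 0⟩]⟩,
  ⟨5, .a 1, 3, [(1, 5)], [⟨1, 258, 0, 0, 0, 0⟩, ⟨(-1), 54, 0, 0, 0, 0⟩]⟩,
  ⟨5, .o 1, 3, [(1, 5)], [⟨1, 246, 0, 0, 0, 0⟩]⟩,
  ⟨5, .b 1 2, 3, [(1, 5)], [⟨1, 259, 0, 0, 0, 0⟩, ⟨1, 260, 0, 0, 0, 0⟩]⟩,
  ⟨5, .Y 1 2, 2, [(1, 4)], [⟨1, 261, 0, 0, 0, 0⟩, ⟨1, 262, 0, 0, 0, 0⟩]⟩,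
  ⟨5, .P 1 2, 3, [(1, 6)], [⟨1, 263, 0, 0, 0, 0⟩, ⟨1, 264, 0, 0, 0, 0⟩]⟩,
  ⟨5, .M 1 3, 4, [(1, 7)], [⟨1, 265, 0, 0, 0, 0⟩, ⟨1, 266, 0, 0, 0, 0⟩]⟩,
  ⟨5, .a 2, 3, [(1, 5)], [⟨1, 267, 0, 0, 0, 0⟩, ⟨1, 268, 0, 0, 0, 0⟩]⟩,
  ⟨5, .o 2, 3, [(1, 5)], [⟨1, 269, 0, 0, 0, 0⟩, ⟨1, 270, 0, 0, 0, 0⟩]⟩,
  ⟨5, .M 2 3, 4, [(1, 7)], [⟨1, 271, 0, 0, 0, 0⟩, ⟨1, 272, 0, 0, 0, 0⟩]⟩,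
  ⟨6, .a 0, 3, [(1, 6)], [⟨1, 24, 0, 0, 0, 0⟩, ⟨1, 273, 0, 0, 0, 0⟩]⟩,
  ⟨6, .o 0, 3, [(1, 6)], [⟨1, 269, 0, 0, 0, 0⟩]⟩,
  ⟨6, .b 0 1, 3, [(1, 6)], [⟨1, 274, 0, 0, 0, 0⟩, ⟨1, 275, 0, 0, 0, 0⟩]⟩,
  ⟨6, .P 0 1, 3, [(1, 6), ((-1), 5)], [⟨1, 248, 0, 0, 0, 0⟩, ⟨1, 276, 0, 0, 0, 0⟩]⟩,
  ⟨6, .b 0 2, 3, [], [⟨1, 277, 0, 0, 0, 0⟩]⟩]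

theorem dt1_ok : dt1.all (Dt.ok (gtt tbA) fm 4) = true := by decide +kernel

/-- Data. -/
def dt2 : List Dt := [
  ⟨6, .Y 0 2, 2, [], [⟨1, 278, 0, 0, 0, 0⟩]⟩,
  ⟨6, .P 0 2, 3, [((-1), 6)], [⟨1, 254, 0, 0, 0, 0⟩, ⟨1, 279, 0, 0, 0, 0⟩]⟩,
  ⟨6, .M 0 3, 4, [(1, 8)], [⟨1, 256, 0, 0, 0, 0⟩, ⟨1, 280, 0, 0, 0, 0⟩]⟩,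
  ⟨6, .a 1, 3, [(1, 6)], [⟨1, 258, 0, 0, 0, 0⟩, ⟨1, 281, 0, 0, 0, 0⟩]⟩,
  ⟨6, .o 1, 3, [(1, 6)], [⟨1, 246, 0, 0, 0, 0⟩, ⟨(-1), 270, 0, 0, 0, 0⟩]⟩,
  ⟨6, .b 1 2, 3, [(1, 5)], [⟨1, 259, 0, 0, 0, 0⟩, ⟨1, 282, 0, 0, 0, 0⟩]⟩,
  ⟨6, .Y 1 2, 2, [(1, 4)], [⟨1, 261, 0, 0, 0, 0⟩, ⟨1, 283, 0, 0, 0, 0⟩]⟩,
  ⟨6, .P 1 2, 3, [(1, 5)], [⟨1, 263, 0, 0, 0, 0⟩, ⟨1, 284, 0, 0, 0, 0⟩]⟩,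
  ⟨6, .M 1 3, 4, [(1, 8)], [⟨1, 265, 0, 0, 0, 0⟩, ⟨1, 285, 0, 0, 0, 0⟩]⟩,
  ⟨6, .a 2, 3, [(1, 6)], [⟨1, 267, 0, 0, 0, 0⟩, ⟨(-1), 76, 0, 0, 0, 0⟩]⟩,
  ⟨6, .o 2, 3, [(1, 6)], [⟨1, 269, 0, 0, 0, 0⟩]⟩,
  ⟨6, .M 2 3, 4, [(1, 8)], [⟨1, 271, 0, 0, 0, 0⟩, ⟨1, 286, 0, 0, 0, 0⟩]⟩,
  ⟨7, .a 0, 4, [(1, 7)], [⟨1, 91, 0, 0, 0, 0⟩, ⟨1, 287, 0, 0, 0, 0⟩]⟩,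
  ⟨7, .o 0, 4, [(1, 7)], [⟨1, 288, 0, 0, 0, 0⟩]⟩,
  ⟨7, .b 0 1, 4, [], [⟨1, 289, 0, 0, 0, 0⟩]⟩,
  ⟨7, .P 0 1, 4, [((-1), 7)], [⟨1, 290, 0, 0, 0, 0⟩, ⟨1, 291, 0, 0, 0, 0⟩]⟩,
  ⟨7, .b 0 2, 4, [(1, 7)], [⟨1, 292, 0, 0, 0, 0⟩, ⟨1, 293, 0, 0, 0, 0⟩]⟩,
  ⟨7, .P 0 2, 4, [(1, 7), ((-1), 8)], [⟨1, 294, 0, 0, 0, 0⟩, ⟨1, 295, 0, 0, 0, 0⟩]⟩,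
  ⟨7, .b 0 3, 4, [(1, 7)], [⟨1, 296, 0, 0, 0, 0⟩, ⟨1, 297, 0, 0, 0, 0⟩]⟩,
  ⟨7, .Y 0 3, 3, [(1, 5)], [⟨1, 298, 0, 0, 0, 0⟩, ⟨1, 299, 0, 0, 0, 0⟩]⟩,
  ⟨7, .P 0 3, 4, [(1, 7), ((-1), 9)], [⟨1, 300, 0, 0, 0, 0⟩, ⟨1, 301, 0, 0, 0, 0⟩]⟩,
  ⟨7, .a 1, 4, [(1, 7)], [⟨1, 302, 0, 0, 0, 0⟩, ⟨(-1), 151, 0, 0, 0, 0⟩]⟩,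
  ⟨7, .o 1, 4, [(1, 7)], [⟨1, 288, 0, 0, 0, 0⟩]⟩,
  ⟨7, .b 1 2, 4, [(1, 7)], [⟨1, 303, 0, 0, 0, 0⟩, ⟨1, 304, 0, 0, 0, 0⟩]⟩,
  ⟨7, .P 1 2, 4, [(1, 8)], [⟨1, 305, 0, 0, 0, 0⟩, ⟨1, 306, 0, 0, 0, 0⟩]⟩,
  ⟨7, .b 1 3, 4, [(1, 7)], [⟨1, 307, 0, 0, 0, 0⟩, ⟨1, 308, 0, 0, 0, 0⟩]⟩,
  ⟨7, .Y 1 3, 3, [(1, 5)], [⟨1, 309, 0, 0, 0, 0⟩, ⟨1, 310, 0, 0, 0, 0⟩]⟩,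
  ⟨7, .P 1 3, 4, [(1, 9)], [⟨1, 311, 0, 0, 0, 0⟩, ⟨1, 312, 0, 0, 0, 0⟩]⟩,
  ⟨7, .a 2, 4, [(1, 7)], [⟨1, 313, 0, 0, 0, 0⟩, ⟨1, 314, 0, 0, 0, 0⟩]⟩,
  ⟨7, .o 2, 4, [(1, 7)], [⟨1, 315, 0, 0, 0, 0⟩, ⟨1, 316, 0, 0, 0, 0⟩]⟩,
  ⟨7, .b 2 3, 4, [(1, 7)], [⟨1, 317, 0, 0, 0, 0⟩, ⟨1, 318, 0, 0, 0, 0⟩]⟩,
  ⟨7, .Y 2 3, 3, [(1, 5)], [⟨1, 319, 0, 0, 0, 0⟩, ⟨1, 320, 0, 0, 0, 0⟩]⟩,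
  ⟨7, .P 2 3, 4, [(1, 7)], [⟨1, 321, 0, 0, 0, 0⟩, ⟨1, 322, 0, 0, 0, 0⟩]⟩,
  ⟨7, .a 3, 4, [(1, 7)], [⟨1, 323, 0, 0, 0, 0⟩, ⟨1, 324, 0, 0, 0, 0⟩]⟩,
  ⟨7, .o 3, 4, [(1, 7)], [⟨1, 325, 0, 0, 0, 0⟩, ⟨1, 326, 0, 0, 0, 0⟩]⟩,
  ⟨8, .a 0, 4, [(1, 8)], [⟨1, 91, 0, 0, 0, 0⟩, ⟨1, 327, 0, 0, 0, 0⟩]⟩,
  ⟨8, .o 0, 4, [(1, 8)], [⟨1, 315, 0, 0, 0, 0⟩]⟩,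
  ⟨8, .b 0 1, 4, [(1, 8)], [⟨1, 328, 0, 0, 0, 0⟩, ⟨1, 329, 0, 0, 0, 0⟩]⟩,
  ⟨8, .P 0 1, 4, [(1, 8), ((-1), 7)], [⟨1, 290, 0, 0, 0, 0⟩, ⟨1, 330, 0, 0, 0, 0⟩]⟩,
  ⟨8, .b 0 2, 4, [], [⟨1, 331, 0, 0, 0, 0⟩]⟩,
  ⟨8, .P 0 2, 4, [((-1), 8)], [⟨1, 294, 0, 0, 0, 0⟩, ⟨1, 332, 0, 0, 0, 0⟩]⟩,
  ⟨8, .b 0 3, 4, [(1, 8)], [⟨1, 296, 0, 0, 0, 0⟩, ⟨1, 333, 0, 0, 0, 0⟩]⟩]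

theorem dt2_ok : dt2.all (Dt.ok (gtt tbA) fm 4) = true := by decide +kernel

/-- Data. -/
def dt3 : List Dt := [
  ⟨8, .Y 0 3, 3, [(1, 6)], [⟨1, 298, 0, 0, 0, 0⟩, ⟨1, 334, 0, 0, 0, 0⟩]⟩,
  ⟨8, .P 0 3, 4, [(1, 8), ((-1), 9)], [⟨1, 300, 0, 0, 0, 0⟩, ⟨1, 335, 0, 0, 0, 0⟩]⟩,
  ⟨8, .a 1, 4, [(1, 8)], [⟨1, 302, 0, 0, 0, 0⟩, ⟨1, 336, 0, 0, 0, 0⟩]⟩,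
  ⟨8, .o 1, 4, [(1, 8)], [⟨1, 288, 0, 0, 0, 0⟩, ⟨(-1), 316, 0, 0, 0, 0⟩]⟩,
  ⟨8, .b 1 2, 4, [(1, 7)], [⟨1, 303, 0, 0, 0, 0⟩, ⟨1, 337, 0, 0, 0, 0⟩]⟩,
  ⟨8, .P 1 2, 4, [(1, 7)], [⟨1, 305, 0, 0, 0, 0⟩, ⟨1, 338, 0, 0, 0, 0⟩]⟩,
  ⟨8, .b 1 3, 4, [(1, 8)], [⟨1, 307, 0, 0, 0, 0⟩, ⟨1, 339, 0, 0, 0, 0⟩]⟩,
  ⟨8, .Y 1 3, 3, [(1, 6)], [⟨1, 309, 0, 0, 0, 0⟩, ⟨1, 340, 0, 0, 0, 0⟩]⟩,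
  ⟨8, .P 1 3, 4, [(1, 8)], [⟨1, 311, 0, 0, 0, 0⟩, ⟨1, 341, 0, 0, 0, 0⟩]⟩,
  ⟨8, .a 2, 4, [(1, 8)], [⟨1, 313, 0, 0, 0, 0⟩, ⟨(-1), 195, 0, 0, 0, 0⟩]⟩,
  ⟨8, .o 2, 4, [(1, 8)], [⟨1, 315, 0, 0, 0, 0⟩]⟩,
  ⟨8, .b 2 3, 4, [(1, 8)], [⟨1, 317, 0, 0, 0, 0⟩, ⟨1, 342, 0, 0, 0, 0⟩]⟩,
  ⟨8, .Y 2 3, 3, [(1, 6)], [⟨1, 319, 0, 0, 0, 0⟩, ⟨1, 343, 0, 0, 0, 0⟩]⟩,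
  ⟨8, .P 2 3, 4, [(1, 9)], [⟨1, 321, 0, 0, 0, 0⟩, ⟨1, 344, 0, 0, 0, 0⟩]⟩,
  ⟨8, .a 3, 4, [(1, 8)], [⟨1, 323, 0, 0, 0, 0⟩, ⟨1, 345, 0, 0, 0, 0⟩]⟩,
  ⟨8, .o 3, 4, [(1, 8)], [⟨1, 325, 0, 0, 0, 0⟩, ⟨1, 346, 0, 0, 0, 0⟩]⟩,
  ⟨9, .a 0, 4, [(1, 9)], [⟨1, 91, 0, 0, 0, 0⟩, ⟨1, 347, 0, 0, 0, 0⟩]⟩,
  ⟨9, .o 0, 4, [(1, 9)], [⟨1, 325, 0, 0, 0, 0⟩]⟩,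
  ⟨9, .b 0 1, 4, [(1, 9)], [⟨1, 328, 0, 0, 0, 0⟩, ⟨1, 348, 0, 0, 0, 0⟩]⟩,
  ⟨9, .P 0 1, 4, [(1, 9), ((-1), 7)], [⟨1, 290, 0, 0, 0, 0⟩, ⟨1, 349, 0, 0, 0, 0⟩]⟩,
  ⟨9, .b 0 2, 4, [(1, 9)], [⟨1, 292, 0, 0, 0, 0⟩, ⟨1, 350, 0, 0, 0, 0⟩]⟩,
  ⟨9, .P 0 2, 4, [(1, 9), ((-1), 8)], [⟨1, 294, 0, 0, 0, 0⟩, ⟨1, 351, 0, 0, 0, 0⟩]⟩,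
  ⟨9, .b 0 3, 4, [], [⟨1, 352, 0, 0, 0, 0⟩]⟩,
  ⟨9, .Y 0 3, 3, [], [⟨1, 353, 0, 0, 0, 0⟩]⟩,
  ⟨9, .P 0 3, 4, [((-1), 9)], [⟨1, 300, 0, 0, 0, 0⟩, ⟨1, 354, 0, 0, 0, 0⟩]⟩,
  ⟨9, .a 1, 4, [(1, 9)], [⟨1, 302, 0, 0, 0, 0⟩, ⟨1, 355, 0, 0, 0, 0⟩]⟩,
  ⟨9, .o 1, 4, [(1, 9)], [⟨1, 288, 0, 0, 0, 0⟩, ⟨(-1), 326, 0, 0, 0, 0⟩]⟩,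
  ⟨9, .b 1 2, 4, [(1, 9)], [⟨1, 303, 0, 0, 0, 0⟩, ⟨1, 356, 0, 0, 0, 0⟩]⟩,
  ⟨9, .P 1 2, 4, [(1, 9)], [⟨1, 305, 0, 0, 0, 0⟩, ⟨1, 357, 0, 0, 0, 0⟩]⟩,
  ⟨9, .b 1 3, 4, [(1, 7)], [⟨1, 307, 0, 0, 0, 0⟩, ⟨1, 358, 0, 0, 0, 0⟩]⟩,
  ⟨9, .Y 1 3, 3, [(1, 5)], [⟨1, 309, 0, 0, 0, 0⟩, ⟨1, 359, 0, 0, 0, 0⟩]⟩,
  ⟨9, .P 1 3, 4, [(1, 7)], [⟨1, 311, 0, 0, 0, 0⟩, ⟨1, 360, 0, 0, 0, 0⟩]⟩,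
  ⟨9, .a 2, 4, [(1, 9)], [⟨1, 313, 0, 0, 0, 0⟩, ⟨1, 361, 0, 0, 0, 0⟩]⟩,
  ⟨9, .o 2, 4, [(1, 9)], [⟨1, 315, 0, 0, 0, 0⟩, ⟨(-1), 346, 0, 0, 0, 0⟩]⟩,
  ⟨9, .b 2 3, 4, [(1, 8)], [⟨1, 317, 0, 0, 0, 0⟩, ⟨1, 362, 0, 0, 0, 0⟩]⟩,
  ⟨9, .Y 2 3, 3, [(1, 6)], [⟨1, 319, 0, 0, 0, 0⟩, ⟨1, 363, 0, 0, 0, 0⟩]⟩,
  ⟨9, .P 2 3, 4, [(1, 8)], [⟨1, 321, 0, 0, 0, 0⟩, ⟨1, 364, 0, 0, 0, 0⟩]⟩,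
  ⟨9, .a 3, 4, [(1, 9)], [⟨1, 323, 0, 0, 0, 0⟩, ⟨(-1), 226, 0, 0, 0, 0⟩]⟩,
  ⟨9, .o 3, 4, [(1, 9)], [⟨1, 325, 0, 0, 0, 0⟩]⟩]

theorem dt3_ok : dt3.all (Dt.ok (gtt tbA) fm 4) = true := by decide +kernel

/-- All data. -/
def dt : List Dt := dt0 ++ (dt1 ++ (dt2 ++ (dt3)))

theorem dt_req : req fm = dt.map fun t => (t.x, t.l, t.k) := by decide +kernel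

theorem fm_ok : (fm.all fun x => decide (x.1 ≠ 0) && x.2.all wf) = true := by decide +kernel

theorem dt_ok : famOk (gtt tbA) fm 4 dt = true := by
  unfold famOk
  rw [fm_ok, Bool.and_true, Bool.and_eq_true, decide_eq_true_eq]
  refine ⟨dt_req, ?_⟩
  unfold dt
  simp only [List.all_append, Bool.and_true, dt0_ok, dt1_ok, dt2_ok, dt3_ok]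

/-- The families as relations. -/
def fmL : List Ln := fm.map fun x => ⟨x.1, x.1, x.2⟩

theorem env_fmL : Env H fmL := famOk_spec (gtt_spec tbA_spec) dt_ok

end Pool.Agent.SWW54
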