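import Mathlib
import Pool.Agent.SWW54.Base

/-!
# The conservation law: a leg before all the others is a leg at the present place plus the splittings
of the rails
-/

set_option autoImplicit false

namespace Pool.Agent.SWW54

open Pool.Agent.Jac70 Pool.Agent.SWT85

variable {H : Type} [DecidableEq H]

/-! ### Equal pieces -/

/-- The term is legal; legs at the bottom are allowed. -/
def okB (k d : ℕ) (outs : List ℕ) (t : List Lt × List ℕ) : Bool :=
  decide (ty t.1 k = some outs.length) && decide ((run t.1 id k).n = k + t.2.length) &&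
    okl t.2 d && (List.range outs.length).all fun s =>
      decide (gm k t.2 d ((run t.1 id k).ra s) = outs.getD s 0)

/-- The legs at the bottom of a term. -/
def pcB (k d : ℕ) (t : List Lt × List ℕ) : List ℕ := (run t.1 id k).B.map (gm k t.2 d)

theorem ev_termB {p u : List Lt} {k : ℕ} (hp : ty p 0 = some k) {outs : List ℕ}
    (hu : ty u outs.length = some 0) {d : ℕ} {t : List Lt × List ℕ} (h : okB k d outs t = true) :
    ev H (p ++ t.1 ++ u) =
      cls H ((run u (fun s => fr (st p).ra k (st p).n (outs.getD s 0)) ((st p).n + d)).B ++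
        ((pcB k d t).map (fr (st p).ra k (st p).n) ++ (st p).B) ++ ((st p).L ++
        ((pcT k d (1, t)).1.map (fr (st p).ra k (st p).n) ++
        (run u (fun s => fr (st p).ra k (st p).n (outs.getD s 0)) ((st p).n + d)).L)))
      ((pcT k d (1, t)).2.map (mp (fr (st p).ra k (st p).n)) ++
        tV p u (fun s => fr (st p).ra k (st p).n (outs.getD s 0)) ((st p).n + d)) := by
  have hs := st_lt hp
  unfold okB at h
  simp only [Bool.and_eq_true, decide_eq_true_eq, List.all_eq_true, List.mem_range] at h
  obtain ⟨⟨⟨h1, h2⟩, h3⟩, h4⟩ := h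
  have R : Rn (fr (st p).ra k (st p).n) outs.length (run t.1 id k)
      (run t.1 (st p).ra (st p).n) := by
    refine run_map h1 (fun s hs' => ?_) (fun j => ?_)
    · unfold fr
      rw [id, if_pos hs']
    · unfold fr
      rw [if_neg (by omega)]
      omega
  have h5 : (run t.1 (st p).ra (st p).n).n = (st p).n + t.2.length := by
    have h6 := R.n 0
    rw [Nat.add_zero, Nat.add_zero, h2] at h6
    unfold fr at h6
    rw [if_neg (by omega)] at h6
    omega
  rw [ev_all hp hu (gm_inj (okl_spec h3).1 (okl_spec h3).2) (fun _ h => gm_lt h)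
    (ra := fun s => fr (st p).ra k (st p).n (outs.getD s 0)) (n := (st p).n + d)
    (fun s hs' => by rw [← R.ra s hs', fr_gm hs.ra, h4 s hs']) (gm_ge h5)]
  unfold pcT pcB
  rw [← R.L, ← R.V, ← R.B, List.map_map, List.map_map, List.map_map, List.map_map, List.map_map,
    List.map_map]
  have e1 : gm (st p).n t.2 d ∘ fr (st p).ra k (st p).n =
      fr (st p).ra k (st p).n ∘ gm k t.2 d := funext fun z => fr_gm hs.ra z
  have e2 : mp (gm (st p).n t.2 d) ∘ mp (fr (st p).ra k (st p).n) =
      mp (fr (st p).ra k (st p).n) ∘ mp (gm k t.2 d) := by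
    funext z
    unfold mp
    simp only [Function.comp, fr_gm hs.ra]
  rw [e1, e2]

/-- The check that two words are equal in every context. -/
def eqB (k d : ℕ) (outs : List ℕ) (t t' : List Lt × List ℕ) : Bool :=
  okB k d outs t && okB k d outs t' && decide (pcB k d t = pcB k d t') &&
    decide ((pcT k d (1, t)).1 = (pcT k d (1, t')).1) &&
    decide (nV (pcT k d (1, t)).2 = nV (pcT k d (1, t')).2)

theorem eqB_spec {p u : List Lt} {k : ℕ} (hp : ty p 0 = some k) {outs : List ℕ}
    (hu : ty u outs.length = some 0) {d : ℕ} {t t' : List Lt × List ℕ}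
    (h : eqB k d outs t t' = true) : ev H (p ++ t.1 ++ u) = ev H (p ++ t'.1 ++ u) := by
  unfold eqB at h
  simp only [Bool.and_eq_true, decide_eq_true_eq] at h
  obtain ⟨⟨⟨⟨h1, h2⟩, h3⟩, h4⟩, h5⟩ := h
  rw [ev_termB hp hu h1, ev_termB hp hu h2, h3, h4, cls_nV, cls_nV _ (pcT k d (1, t')).2, h5]

/-! ### The relations in all typed contexts -/

/-- The relation holds in all typed contexts. -/
def HG (H : Type) [DecidableEq H] (k k' : ℕ) (R : List (ℤ × List Lt)) : Prop :=
  ∀ p u : List Lt, ty p 0 = some k → ty u k' = some 0 → sm (fun w => ev H (p ++ w ++ u)) R = 0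

/-- A group of terms with its certificate. -/
structure Gp : Type where
  d : ℕ
  outs : List ℕ
  ts : List Tm
  is : List It

/-- The formal sum of a group. -/
def Gp.R (g : Gp) : List (ℤ × List Lt) := g.ts.map fun t => (t.1, t.2.1)

/-- The check of a relation with groups. -/
def gpOk (k k' : ℕ) (R : List (ℤ × List Lt)) (gs : List Gp) : Bool :=
  (gs.all fun g => chk k g.d g.outs g.ts g.is && decide (g.outs.length = k')) &&
    decide (R.Perm (gs.flatMap Gp.R))

theorem sm_perm {V : Type} [AddCommGroup V] (F : List Lt → V) {R S : List (ℤ × List Lt)}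
    (h : R.Perm S) : sm F R = sm F S := by
  unfold sm
  exact (h.map _).sum_eq

theorem gpOk_spec {k k' : ℕ} {R : List (ℤ × List Lt)} {gs : List Gp} (h : gpOk k k' R gs = true) :
    HG H k k' R := by
  unfold gpOk at h
  simp only [Bool.and_eq_true, decide_eq_true_eq, List.all_eq_true] at h
  obtain ⟨h1, h2⟩ := h
  intro p u hp hu
  rw [sm_perm _ h2]
  clear h2
  induction gs with
  | nil => rfl
  | cons g gs ih =>
    rw [List.flatMap_cons, sm_append, ih fun x hx => h1 x (List.mem_cons_of_mem _ hx), add_zero]
    obtain ⟨h3, h4⟩ := h1 g (by simp)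
    have h5 := chk_spec (H := H) h3 hp (by rw [h4]; exact hu)
    unfold sm Gp.R
    rw [List.map_map]
    exact h5

/-! ### The conservation law -/

/-- The splittings of the rails and the new leg. -/
def Sk (k : ℕ) : List (List Lt) := [.E k] :: (List.range k).map fun j => [.Y j k]

/-- The formal sum of words with equal coefficients between two words. -/
def fs (c : ℤ) (q v : List Lt) (S : List (List Lt)) : List (ℤ × List Lt) :=
  S.map fun w => (c, q ++ w ++ v)

/-- The letter with an additional last rail. -/
def up : Lt → ℕ → List Lt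
  | .Y i _, k => [.Y i (k + 1), .P k (k + 1)]
  | .M i _, k => [.P (k - 1) k, .M i k]
  | l, _ => [l]

/-- A case. -/
structure Kd : Type where
  l : Lt
  k : ℕ
  d : ℕ
  outs : List ℕ
  s₁ : List ℕ
  s₂ : List ℕ
  gs : List Gp

/-- The state after the letter. -/
def nx (l : Lt) (k : ℕ) : ℕ := (tc l k).getD 0

/-- The check of a case. -/
def Kd.ok (t : Kd) : Bool :=
  decide (t.outs.length = nx t.l t.k + 1) &&
    eqB t.k t.d t.outs ([t.l, .F (nx t.l t.k)], t.s₁) (.F t.k :: up t.l t.k, t.s₂) &&
    decide (ty (up t.l t.k) (t.k + 1) = some (nx t.l t.k + 1)) &&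
    gpOk t.k (nx t.l t.k + 1) (fs 1 [t.l] [] (Sk (nx t.l t.k)) ++ fs (-1) [] (up t.l t.k) (Sk t.k))
      t.gs

/-- The required cases. -/
def reqK : List (Lt × ℕ) :=
  allL.flatMap fun l => (List.range 5).flatMap fun k =>
    if k ≠ 0 ∧ tc l k ≠ none ∧ tc l k ≠ some 9 then [(l, k)] else []

/-- The sum of the values. -/
noncomputable def sk (H : Type) [DecidableEq H] (p u : List Lt) (S : List (List Lt)) : A H :=
  (S.map fun w => ev H (p ++ w ++ u)).sum

theorem sm_fs (p u q v : List Lt) (c : ℤ) (S : List (List Lt)) :
    sm (fun w => ev H (p ++ w ++ u)) (fs c q v S) = c • sk H (p ++ q) (v ++ u) S := by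
  unfold sm fs sk
  rw [List.map_map]
  induction S with
  | nil => simp
  | cons w S ih =>
    rw [List.map_cons, List.sum_cons, List.map_cons, List.sum_cons, ih, smul_add]
    congr 1
    simp only [Function.comp, List.append_assoc]

theorem tyc_zero {p : List Lt} (h : tyc p 0 = some 0) : p = [] := by
  rcases List.eq_nil_or_concat p with h0 | ⟨q, l, rfl⟩
  · exact h0
  · exfalso
    rw [List.concat_eq_append] at h
    obtain ⟨m, hm, h1⟩ := tyc_append.1 h
    obtain ⟨m', h2, h3⟩ := tyc_cons h1
    simp only [tyc, Option.some.injEq] at h3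
    subst h3
    cases l with
    | F i => exact absurd h2 (by simp [tc])
    | _ =>
      simp only [tc] at h2
      split_ifs at h2 with hi
      simp only [Option.some.injEq] at h2
      omega

theorem kirch {D : List Kd} (hD : reqK = D.map fun t => (t.l, t.k)) (hok : D.all Kd.ok = true)
    (hE : ∀ u : List Lt, ty u 2 = some 0 →
      ev H ([.E 0, .F 1] ++ u) = ev H ([.E 0, .E 1] ++ u) + ev H ([.E 0, .Y 0 1] ++ u)) :
    ∀ p : List Lt, ∀ k : ℕ, tyc p 0 = some k → k ≠ 0 → k ≠ 9 → ∀ u : List Lt,
      ty u (k + 1) = some 0 → ev H (p ++ [.F k] ++ u) = sk H p u (Sk k) := by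
  intro p
  induction p using List.reverseRecOn with
  | nil =>
    intro k hp h0 _ _ _
    simp only [tyc, Option.some.injEq] at hp
    exact absurd hp.symm h0
  | append_singleton p l ih =>
    intro k hp h0 h9 u hu
    obtain ⟨k₀, hk, hl⟩ := tyc_append.1 hp
    obtain ⟨m, hm, hm'⟩ := tyc_cons hl
    simp only [tyc, Option.some.injEq] at hm'
    subst hm'
    by_cases hk0 : k₀ = 0
    · subst hk0
      have hp0 : p = [] := tyc_zero hk
      subst hp0
      have hl' : l = .E 0 ∧ m = 1 := by
        cases l with
        | F i => exact absurd hm (by simp [tc])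
        | E i =>
          simp only [tc] at hm
          split_ifs at hm with hi
          simp only [Option.some.injEq] at hm
          exact ⟨by rw [hi.1], hm.symm⟩
        | M i j =>
          exfalso
          have := (tc_tl hm).1
          simp [tc] at hm
        | A i =>
          exfalso
          simp [tc] at hm
        | _ =>
          simp only [tc] at hm
          split_ifs at hm with hi
          simp only [Option.some.injEq] at hm
          omega
      obtain ⟨rfl, rfl⟩ := hl'
      have := hE u hu
      unfold sk Sk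
      simpa using this
    · have h4 := (tc_tl hm).1
      have hmem : (l, k₀) ∈ reqK := by
        unfold reqK
        simp only [List.mem_flatMap, List.mem_range]
        refine ⟨l, mem_allL hm, k₀, by omega, ?_⟩
        rw [if_pos ⟨hk0, by rw [hm]; simp, by rw [hm]; simpa using h9⟩]
        simp
      rw [hD] at hmem
      obtain ⟨t, ht, hte⟩ := List.mem_map.1 hmem
      simp only [Prod.mk.injEq] at hte
      obtain ⟨rfl, rfl⟩ := hte
      have h5 := List.all_eq_true.1 hok t ht
      have hnx : nx t.l t.k = m := by
        unfold nx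
        rw [hm]
        rfl
      unfold Kd.ok at h5
      simp only [Bool.and_eq_true, decide_eq_true_eq, hnx] at h5
      obtain ⟨⟨⟨q1, q2⟩, q3⟩, q4⟩ := h5
      have hp1 : ty p 0 = some t.k := by
        have := tyc_ty hk
        rwa [show rl 0 = 0 from rfl, show rl t.k = t.k from if_neg (by omega)] at this
      have e1 := eqB_spec (H := H) hp1 (by rw [q1]; exact hu) q2
      have e2 := gpOk_spec (H := H) q4 p u hp1 hu
      rw [sm_append, sm_fs, sm_fs, one_smul, neg_one_zsmul, List.nil_append, List.append_nil,
        add_neg_eq_zero] at e2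
      have e3 := ih t.k hk hk0 (by omega) (up t.l t.k ++ u)
        (ty_append.2 ⟨m + 1, q3, hu⟩)
      have e4 : p ++ [t.l] ++ [.F m] ++ u = p ++ [t.l, .F m] ++ u := by simp
      have e5 : p ++ (.F t.k :: up t.l t.k) ++ u = p ++ [.F t.k] ++ (up t.l t.k ++ u) := by simp
      rw [e4, e1, e5, e3, e2]

end Pool.Agent.SWW54
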