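import Mathlib
import Pool.Agent.SWW54.Kir

/-!
# The conservation law: the data
-/

set_option autoImplicit false

namespace Pool.Agent.SWW54

open Pool.Agent.Jac70 Pool.Agent.SWT85

/-- Data. -/
def kd0 : List Kd := [
  ⟨.a 0, 1, 3, [2, 3], [0, 1, 2], [2, 0, 1], [
    ⟨4, [1, 2], [(1, [.a 0, .E 1], [2, 0, 1]), (1, [.a 0, .Y 0 1], [2, 3, 0, 1]), ((-1), [.E 1, .a 0], [1, 2, 0]), ((-1), [.Y 0 1, .a 0], [2, 1, 3, 0])],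
      [.stu 1 4 2 3 [] [] [(0, 1, 3)], .swp 1 3 4 [3] [(0, 3, 4), (1, 2, 4)], .ihx 1 3 0 2 4 1 [4] []]⟩]⟩,
  ⟨.a 0, 2, 3, [3, 1, 4], [0, 1, 2], [2, 0, 1], [
    ⟨4, [2, 1, 3], [(1, [.a 0, .E 2], [2, 0, 1]), (1, [.a 0, .Y 0 2], [2, 3, 0, 1]), ((-1), [.E 2, .a 0], [1, 2, 0]), ((-1), [.Y 0 2, .a 0], [2, 1, 3, 0])],
      [.stu 1 5 3 4 [] [] [(0, 2, 4)], .swp 1 4 5 [4] [(0, 4, 5), (2, 3, 5)], .ihx 1 4 0 3 5 2 [5] []]⟩,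
    ⟨4, [2, 3, 4], [(1, [.a 0, .Y 1 2], [3, 0, 1, 2]), ((-1), [.Y 1 2, .a 0], [1, 2, 3, 0])],
      []⟩]⟩,
  ⟨.a 0, 3, 3, [4, 1, 2, 5], [0, 1, 2], [2, 0, 1], [
    ⟨4, [3, 1, 2, 4], [(1, [.a 0, .E 3], [2, 0, 1]), (1, [.a 0, .Y 0 3], [2, 3, 0, 1]), ((-1), [.E 3, .a 0], [1, 2, 0]), ((-1), [.Y 0 3, .a 0], [2, 1, 3, 0])],
      [.stu 1 6 4 5 [] [] [(0, 3, 5)], .swp 1 5 6 [5] [(0, 5, 6), (3, 4, 6)], .ihx 1 5 0 4 6 3 [6] []]⟩,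
    ⟨4, [3, 4, 2, 5], [(1, [.a 0, .Y 1 3], [3, 0, 1, 2]), ((-1), [.Y 1 3, .a 0], [1, 2, 3, 0])],
      []⟩,
    ⟨4, [3, 1, 4, 5], [(1, [.a 0, .Y 2 3], [3, 0, 1, 2]), ((-1), [.Y 2 3, .a 0], [1, 2, 3, 0])],
      []⟩]⟩,
  ⟨.a 0, 4, 3, [5, 1, 2, 3, 6], [0, 1, 2], [2, 0, 1], [
    ⟨4, [4, 1, 2, 3, 5], [(1, [.a 0, .E 4], [2, 0, 1]), (1, [.a 0, .Y 0 4], [2, 3, 0, 1]), ((-1), [.E 4, .a 0], [1, 2, 0]), ((-1), [.Y 0 4, .a 0], [2, 1, 3, 0])],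
      [.stu 1 7 5 6 [] [] [(0, 4, 6)], .swp 1 6 7 [6] [(0, 6, 7), (4, 5, 7)], .ihx 1 6 0 5 7 4 [7] []]⟩,
    ⟨4, [4, 5, 2, 3, 6], [(1, [.a 0, .Y 1 4], [3, 0, 1, 2]), ((-1), [.Y 1 4, .a 0], [1, 2, 3, 0])],
      []⟩,
    ⟨4, [4, 1, 5, 3, 6], [(1, [.a 0, .Y 2 4], [3, 0, 1, 2]), ((-1), [.Y 2 4, .a 0], [1, 2, 3, 0])],
      []⟩,
    ⟨4, [4, 1, 2, 5, 6], [(1, [.a 0, .Y 3 4], [3, 0, 1, 2]), ((-1), [.Y 3 4, .a 0], [1, 2, 3, 0])],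
      []⟩]⟩,
  ⟨.o 0, 1, 4, [3, 4], [0, 1, 2, 3], [3, 0, 1, 2], [
    ⟨5, [1, 2], [(1, [.o 0, .E 1], [2, 3, 0, 1]), (1, [.o 0, .Y 0 1], [2, 3, 4, 0, 1]), ((-1), [.E 1, .o 0], [1, 2, 3, 0]), ((-1), [.Y 0 1, .o 0], [2, 1, 3, 4, 0])],
      [.ihx (-1) 3 0 2 4 5 [] [(1, 4, 5)], .ihx (-1) 5 1 2 3 4 [] [(0, 3, 4)], .swp (-1) 3 4 [] [(0, 3, 4), (1, 4, 5), (2, 3, 5)], .swp 1 4 5 [] [(0, 3, 4), (1, 4, 5), (2, 3, 5)]]⟩]⟩,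
  ⟨.o 0, 2, 4, [4, 1, 5], [0, 1, 2, 3], [3, 0, 1, 2], [
    ⟨5, [2, 1, 3], [(1, [.o 0, .E 2], [2, 3, 0, 1]), (1, [.o 0, .Y 0 2], [2, 3, 4, 0, 1]), ((-1), [.E 2, .o 0], [1, 2, 3, 0]), ((-1), [.Y 0 2, .o 0], [2, 1, 3, 4, 0])],
      [.ihx (-1) 4 0 3 5 6 [] [(2, 5, 6)], .ihx (-1) 6 2 3 4 5 [] [(0, 4, 5)], .swp (-1) 4 5 [] [(0, 4, 5), (2, 5, 6), (3, 4, 6)], .swp 1 5 6 [] [(0, 4, 5), (2, 5, 6), (3, 4, 6)]]⟩,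
    ⟨5, [2, 3, 4], [(1, [.o 0, .Y 1 2], [3, 4, 0, 1, 2]), ((-1), [.Y 1 2, .o 0], [1, 2, 3, 4, 0])],
      []⟩]⟩,
  ⟨.o 0, 3, 4, [5, 1, 2, 6], [0, 1, 2, 3], [3, 0, 1, 2], [
    ⟨5, [3, 1, 2, 4], [(1, [.o 0, .E 3], [2, 3, 0, 1]), (1, [.o 0, .Y 0 3], [2, 3, 4, 0, 1]), ((-1), [.E 3, .o 0], [1, 2, 3, 0]), ((-1), [.Y 0 3, .o 0], [2, 1, 3, 4, 0])],
      [.ihx (-1) 5 0 4 6 7 [] [(3, 6, 7)], .ihx (-1) 7 3 4 5 6 [] [(0, 5, 6)], .swp (-1) 5 6 [] [(0, 5, 6), (3, 6, 7), (4, 5, 7)], .swp 1 6 7 [] [(0, 5, 6), (3, 6, 7), (4, 5, 7)]]⟩,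
    ⟨5, [3, 4, 2, 5], [(1, [.o 0, .Y 1 3], [3, 4, 0, 1, 2]), ((-1), [.Y 1 3, .o 0], [1, 2, 3, 4, 0])],
      []⟩,
    ⟨5, [3, 1, 4, 5], [(1, [.o 0, .Y 2 3], [3, 4, 0, 1, 2]), ((-1), [.Y 2 3, .o 0], [1, 2, 3, 4, 0])],
      []⟩]⟩,
  ⟨.o 0, 4, 4, [6, 1, 2, 3, 7], [0, 1, 2, 3], [3, 0, 1, 2], [
    ⟨5, [4, 1, 2, 3, 5], [(1, [.o 0, .E 4], [2, 3, 0, 1]), (1, [.o 0, .Y 0 4], [2, 3, 4, 0, 1]), ((-1), [.E 4, .o 0], [1, 2, 3, 0]), ((-1), [.Y 0 4, .o 0], [2, 1, 3, 4, 0])],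
      [.ihx (-1) 6 0 5 7 8 [] [(4, 7, 8)], .ihx (-1) 8 4 5 6 7 [] [(0, 6, 7)], .swp (-1) 6 7 [] [(0, 6, 7), (4, 7, 8), (5, 6, 8)], .swp 1 7 8 [] [(0, 6, 7), (4, 7, 8), (5, 6, 8)]]⟩,
    ⟨5, [4, 5, 2, 3, 6], [(1, [.o 0, .Y 1 4], [3, 4, 0, 1, 2]), ((-1), [.Y 1 4, .o 0], [1, 2, 3, 4, 0])],
      []⟩,
    ⟨5, [4, 1, 5, 3, 6], [(1, [.o 0, .Y 2 4], [3, 4, 0, 1, 2]), ((-1), [.Y 2 4, .o 0], [1, 2, 3, 4, 0])],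
      []⟩,
    ⟨5, [4, 1, 2, 5, 6], [(1, [.o 0, .Y 3 4], [3, 4, 0, 1, 2]), ((-1), [.Y 3 4, .o 0], [1, 2, 3, 4, 0])],
      []⟩]⟩,
  ⟨.b 0 1, 2, 4, [3, 4, 5], [0, 1, 2, 3], [3, 0, 1, 2], [
    ⟨5, [2, 3, 4], [(1, [.b 0 1, .E 2], [3, 0, 1, 2]), (1, [.b 0 1, .Y 0 2], [3, 4, 1, 0, 2]), (1, [.b 0 1, .Y 1 2], [3, 0, 4, 1, 2]), ((-1), [.E 2, .b 0 1], [2, 3, 0, 1]), ((-1), [.Y 0 2, .b 0 1], [3, 2, 4, 0, 1]), ((-1), [.Y 1 2, .b 0 1], [3, 2, 4, 0, 1])],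
      [.swp 1 5 6 [] [(0, 2, 5), (1, 5, 6), (3, 4, 6)], .ihx 1 6 0 5 2 4 [] [(1, 3, 5)], .ihx 1 5 1 4 6 3 [] [(0, 2, 6)], .swp 1 5 6 [] [(0, 4, 5), (1, 3, 6), (2, 5, 6)]]⟩]⟩,
  ⟨.b 0 1, 3, 4, [4, 5, 2, 6], [0, 1, 2, 3], [3, 0, 1, 2], [
    ⟨5, [3, 4, 2, 5], [(1, [.b 0 1, .E 3], [3, 0, 1, 2]), (1, [.b 0 1, .Y 0 3], [3, 4, 1, 0, 2]), (1, [.b 0 1, .Y 1 3], [3, 0, 4, 1, 2]), ((-1), [.E 3, .b 0 1], [2, 3, 0, 1]), ((-1), [.Y 0 3, .b 0 1], [3, 2, 4, 0, 1]), ((-1), [.Y 1 3, .b 0 1], [3, 2, 4, 0, 1])],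
      [.swp 1 6 7 [] [(0, 3, 6), (1, 6, 7), (4, 5, 7)], .ihx 1 6 1 5 7 4 [] [(0, 3, 7)], .ihx 1 7 0 6 3 5 [] [(1, 4, 6)], .swp 1 6 7 [] [(0, 5, 6), (1, 4, 7), (3, 6, 7)]]⟩,
    ⟨5, [3, 4, 5, 6], [(1, [.b 0 1, .Y 2 3], [4, 0, 1, 2, 3]), ((-1), [.Y 2 3, .b 0 1], [2, 3, 4, 0, 1])],
      []⟩]⟩,
  ⟨.b 0 1, 4, 4, [5, 6, 2, 3, 7], [0, 1, 2, 3], [3, 0, 1, 2], [
    ⟨5, [4, 5, 2, 3, 6], [(1, [.b 0 1, .E 4], [3, 0, 1, 2]), (1, [.b 0 1, .Y 0 4], [3, 4, 1, 0, 2]), (1, [.b 0 1, .Y 1 4], [3, 0, 4, 1, 2]), ((-1), [.E 4, .b 0 1], [2, 3, 0, 1]), ((-1), [.Y 0 4, .b 0 1], [3, 2, 4, 0, 1]), ((-1), [.Y 1 4, .b 0 1], [3, 2, 4, 0, 1])],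
      [.swp 1 7 8 [] [(0, 4, 7), (1, 7, 8), (5, 6, 8)], .ihx 1 8 0 7 4 6 [] [(1, 5, 7)], .ihx 1 7 1 6 8 5 [] [(0, 4, 8)], .swp 1 7 8 [] [(0, 6, 7), (1, 5, 8), (4, 7, 8)]]⟩,
    ⟨5, [4, 5, 6, 3, 7], [(1, [.b 0 1, .Y 2 4], [4, 0, 1, 2, 3]), ((-1), [.Y 2 4, .b 0 1], [2, 3, 4, 0, 1])],
      []⟩,
    ⟨5, [4, 5, 2, 6, 7], [(1, [.b 0 1, .Y 3 4], [4, 0, 1, 2, 3]), ((-1), [.Y 3 4, .b 0 1], [2, 3, 4, 0, 1])],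
      []⟩]⟩,
  ⟨.Y 0 1, 1, 3, [1, 2, 3], [0, 1, 2], [2, 0, 1], [
    ⟨4, [1, 2, 3], [(1, [.Y 0 1, .E 2], [0, 1, 2]), (1, [.Y 0 1, .Y 0 2], [3, 1, 0, 2]), (1, [.Y 0 1, .Y 1 2], [0, 3, 1, 2]), ((-1), [.E 1, .Y 0 2, .P 1 2], [2, 0, 1]), ((-1), [.Y 0 1, .Y 0 2, .P 1 2], [3, 2, 0, 1])],
      [.ihx 1 4 0 2 1 3 [] []]⟩]⟩,
  ⟨.M 0 1, 2, 2, [2, 3], [0, 1], [1, 0], [
    ⟨3, [2, 3], [(1, [.M 0 1, .E 1], [0, 1]), (1, [.M 0 1, .Y 0 1], [2, 0, 1]), ((-1), [.E 2, .P 1 2, .M 0 2], [1, 0]), ((-1), [.Y 0 2, .P 1 2, .M 0 2], [2, 1, 0]), ((-1), [.Y 1 2, .P 1 2, .M 0 2], [2, 1, 0])],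
      [.ihx (-1) 4 0 1 2 3 [] []]⟩]⟩]

theorem kd0_ok : kd0.all Kd.ok = true := by decide +kernel

/-- Data. -/
def kd1 : List Kd := [
  ⟨.P 0 1, 2, 1, [1, 0, 2], [0], [0], [
    ⟨1, [1, 0, 2], [(1, [.P 0 1, .E 2], [0]), ((-1), [.E 2, .P 0 1], [0])],
      []⟩,
    ⟨2, [2, 0, 3], [(1, [.P 0 1, .Y 0 2], [0, 1]), ((-1), [.Y 1 2, .P 0 1], [0, 1])],
      []⟩,
    ⟨2, [1, 2, 3], [(1, [.P 0 1, .Y 1 2], [0, 1]), ((-1), [.Y 0 2, .P 0 1], [0, 1])],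
      []⟩]⟩,
  ⟨.P 0 1, 3, 1, [1, 0, 2, 3], [0], [0], [
    ⟨1, [1, 0, 2, 3], [(1, [.P 0 1, .E 3], [0]), ((-1), [.E 3, .P 0 1], [0])],
      []⟩,
    ⟨2, [3, 0, 2, 4], [(1, [.P 0 1, .Y 0 3], [0, 1]), ((-1), [.Y 1 3, .P 0 1], [0, 1])],
      []⟩,
    ⟨2, [1, 3, 2, 4], [(1, [.P 0 1, .Y 1 3], [0, 1]), ((-1), [.Y 0 3, .P 0 1], [0, 1])],
      []⟩,
    ⟨2, [1, 0, 3, 4], [(1, [.P 0 1, .Y 2 3], [0, 1]), ((-1), [.Y 2 3, .P 0 1], [0, 1])],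
      []⟩]⟩,
  ⟨.P 0 1, 4, 1, [1, 0, 2, 3, 4], [0], [0], [
    ⟨1, [1, 0, 2, 3, 4], [(1, [.P 0 1, .E 4], [0]), ((-1), [.E 4, .P 0 1], [0])],
      []⟩,
    ⟨2, [4, 0, 2, 3, 5], [(1, [.P 0 1, .Y 0 4], [0, 1]), ((-1), [.Y 1 4, .P 0 1], [0, 1])],
      []⟩,
    ⟨2, [1, 4, 2, 3, 5], [(1, [.P 0 1, .Y 1 4], [0, 1]), ((-1), [.Y 0 4, .P 0 1], [0, 1])],
      []⟩,
    ⟨2, [1, 0, 4, 3, 5], [(1, [.P 0 1, .Y 2 4], [0, 1]), ((-1), [.Y 2 4, .P 0 1], [0, 1])],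
      []⟩,
    ⟨2, [1, 0, 2, 4, 5], [(1, [.P 0 1, .Y 3 4], [0, 1]), ((-1), [.Y 3 4, .P 0 1], [0, 1])],
      []⟩]⟩,
  ⟨.b 0 2, 3, 4, [4, 1, 5, 6], [0, 1, 2, 3], [3, 0, 1, 2], [
    ⟨5, [3, 1, 4, 5], [(1, [.b 0 2, .E 3], [3, 0, 1, 2]), (1, [.b 0 2, .Y 0 3], [3, 4, 1, 0, 2]), (1, [.b 0 2, .Y 2 3], [3, 0, 4, 1, 2]), ((-1), [.E 3, .b 0 2], [2, 3, 0, 1]), ((-1), [.Y 0 3, .b 0 2], [3, 2, 4, 0, 1]), ((-1), [.Y 2 3, .b 0 2], [3, 2, 4, 0, 1])],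
      [.swp 1 6 7 [] [(0, 3, 6), (2, 6, 7), (4, 5, 7)], .ihx 1 6 2 5 7 4 [] [(0, 3, 7)], .ihx 1 7 0 6 3 5 [] [(2, 4, 6)], .swp 1 6 7 [] [(0, 5, 6), (2, 4, 7), (3, 6, 7)]]⟩,
    ⟨5, [3, 4, 5, 6], [(1, [.b 0 2, .Y 1 3], [4, 0, 2, 1, 3]), ((-1), [.Y 1 3, .b 0 2], [1, 3, 4, 0, 2])],
      []⟩]⟩,
  ⟨.b 0 2, 4, 4, [5, 1, 6, 3, 7], [0, 1, 2, 3], [3, 0, 1, 2], [
    ⟨5, [4, 1, 5, 3, 6], [(1, [.b 0 2, .E 4], [3, 0, 1, 2]), (1, [.b 0 2, .Y 0 4], [3, 4, 1, 0, 2]), (1, [.b 0 2, .Y 2 4], [3, 0, 4, 1, 2]), ((-1), [.E 4, .b 0 2], [2, 3, 0, 1]), ((-1), [.Y 0 4, .b 0 2], [3, 2, 4, 0, 1]), ((-1), [.Y 2 4, .b 0 2], [3, 2, 4, 0, 1])],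
      [.swp 1 7 8 [] [(0, 4, 7), (2, 7, 8), (5, 6, 8)], .ihx 1 8 0 7 4 6 [] [(2, 5, 7)], .ihx 1 7 2 6 8 5 [] [(0, 4, 8)], .swp 1 7 8 [] [(0, 6, 7), (2, 5, 8), (4, 7, 8)]]⟩,
    ⟨5, [4, 5, 6, 3, 7], [(1, [.b 0 2, .Y 1 4], [4, 0, 2, 1, 3]), ((-1), [.Y 1 4, .b 0 2], [1, 3, 4, 0, 2])],
      []⟩,
    ⟨5, [4, 1, 5, 6, 7], [(1, [.b 0 2, .Y 3 4], [4, 0, 1, 2, 3]), ((-1), [.Y 3 4, .b 0 2], [2, 3, 4, 0, 1])],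
      []⟩]⟩,
  ⟨.Y 0 2, 2, 3, [2, 1, 3, 4], [0, 1, 2], [2, 0, 1], [
    ⟨4, [2, 1, 3, 4], [(1, [.Y 0 2, .E 3], [0, 1, 2]), (1, [.Y 0 2, .Y 0 3], [3, 1, 0, 2]), (1, [.Y 0 2, .Y 2 3], [0, 3, 1, 2]), ((-1), [.E 2, .Y 0 3, .P 2 3], [2, 0, 1]), ((-1), [.Y 0 2, .Y 0 3, .P 2 3], [3, 2, 0, 1])],
      [.ihx 1 5 0 3 2 4 [] []]⟩,
    ⟨4, [2, 3, 4, 5], [(1, [.Y 0 2, .Y 1 3], [0, 2, 1, 3]), ((-1), [.Y 1 2, .Y 0 3, .P 2 3], [1, 3, 0, 2])],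
      []⟩]⟩,
  ⟨.M 0 2, 3, 2, [3, 1, 4], [0, 1], [1, 0], [
    ⟨3, [3, 1, 4], [(1, [.M 0 2, .E 2], [0, 1]), (1, [.M 0 2, .Y 0 2], [2, 0, 1]), ((-1), [.E 3, .P 2 3, .M 0 3], [1, 0]), ((-1), [.Y 0 3, .P 2 3, .M 0 3], [2, 1, 0]), ((-1), [.Y 2 3, .P 2 3, .M 0 3], [2, 1, 0])],
      [.ihx (-1) 5 0 2 3 4 [] []]⟩,
    ⟨3, [3, 4, 5], [(1, [.M 0 2, .Y 1 2], [0, 1, 2]), ((-1), [.Y 1 3, .P 2 3, .M 0 3], [1, 2, 0])],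
      []⟩]⟩,
  ⟨.P 0 2, 3, 1, [2, 1, 0, 3], [0], [0], [
    ⟨1, [2, 1, 0, 3], [(1, [.P 0 2, .E 3], [0]), ((-1), [.E 3, .P 0 2], [0])],
      []⟩,
    ⟨2, [3, 1, 0, 4], [(1, [.P 0 2, .Y 0 3], [0, 1]), ((-1), [.Y 2 3, .P 0 2], [0, 1])],
      []⟩,
    ⟨2, [2, 3, 0, 4], [(1, [.P 0 2, .Y 1 3], [0, 1]), ((-1), [.Y 1 3, .P 0 2], [0, 1])],
      []⟩,
    ⟨2, [2, 1, 3, 4], [(1, [.P 0 2, .Y 2 3], [0, 1]), ((-1), [.Y 0 3, .P 0 2], [0, 1])],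
      []⟩]⟩,
  ⟨.P 0 2, 4, 1, [2, 1, 0, 3, 4], [0], [0], [
    ⟨1, [2, 1, 0, 3, 4], [(1, [.P 0 2, .E 4], [0]), ((-1), [.E 4, .P 0 2], [0])],
      []⟩,
    ⟨2, [4, 1, 0, 3, 5], [(1, [.P 0 2, .Y 0 4], [0, 1]), ((-1), [.Y 2 4, .P 0 2], [0, 1])],
      []⟩,
    ⟨2, [2, 4, 0, 3, 5], [(1, [.P 0 2, .Y 1 4], [0, 1]), ((-1), [.Y 1 4, .P 0 2], [0, 1])],
      []⟩,
    ⟨2, [2, 1, 4, 3, 5], [(1, [.P 0 2, .Y 2 4], [0, 1]), ((-1), [.Y 0 4, .P 0 2], [0, 1])],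
      []⟩,
    ⟨2, [2, 1, 0, 4, 5], [(1, [.P 0 2, .Y 3 4], [0, 1]), ((-1), [.Y 3 4, .P 0 2], [0, 1])],
      []⟩]⟩,
  ⟨.b 0 3, 4, 4, [5, 1, 2, 6, 7], [0, 1, 2, 3], [3, 0, 1, 2], [
    ⟨5, [4, 1, 2, 5, 6], [(1, [.b 0 3, .E 4], [3, 0, 1, 2]), (1, [.b 0 3, .Y 0 4], [3, 4, 1, 0, 2]), (1, [.b 0 3, .Y 3 4], [3, 0, 4, 1, 2]), ((-1), [.E 4, .b 0 3], [2, 3, 0, 1]), ((-1), [.Y 0 4, .b 0 3], [3, 2, 4, 0, 1]), ((-1), [.Y 3 4, .b 0 3], [3, 2, 4, 0, 1])],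
      [.swp 1 7 8 [] [(0, 4, 7), (3, 7, 8), (5, 6, 8)], .ihx 1 7 3 6 8 5 [] [(0, 4, 8)], .ihx 1 8 0 7 4 6 [] [(3, 5, 7)], .swp 1 7 8 [] [(0, 6, 7), (3, 5, 8), (4, 7, 8)]]⟩,
    ⟨5, [4, 5, 2, 6, 7], [(1, [.b 0 3, .Y 1 4], [4, 0, 2, 1, 3]), ((-1), [.Y 1 4, .b 0 3], [1, 3, 4, 0, 2])],
      []⟩,
    ⟨5, [4, 1, 5, 6, 7], [(1, [.b 0 3, .Y 2 4], [4, 0, 2, 1, 3]), ((-1), [.Y 2 4, .b 0 3], [1, 3, 4, 0, 2])],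
      []⟩]⟩,
  ⟨.Y 0 3, 3, 3, [3, 1, 2, 4, 5], [0, 1, 2], [2, 0, 1], [
    ⟨4, [3, 1, 2, 4, 5], [(1, [.Y 0 3, .E 4], [0, 1, 2]), (1, [.Y 0 3, .Y 0 4], [3, 1, 0, 2]), (1, [.Y 0 3, .Y 3 4], [0, 3, 1, 2]), ((-1), [.E 3, .Y 0 4, .P 3 4], [2, 0, 1]), ((-1), [.Y 0 3, .Y 0 4, .P 3 4], [3, 2, 0, 1])],
      [.ihx 1 6 0 4 3 5 [] []]⟩,
    ⟨4, [3, 4, 2, 5, 6], [(1, [.Y 0 3, .Y 1 4], [0, 2, 1, 3]), ((-1), [.Y 1 3, .Y 0 4, .P 3 4], [1, 3, 0, 2])],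
      []⟩,
    ⟨4, [3, 1, 4, 5, 6], [(1, [.Y 0 3, .Y 2 4], [0, 2, 1, 3]), ((-1), [.Y 2 3, .Y 0 4, .P 3 4], [1, 3, 0, 2])],
      []⟩]⟩,
  ⟨.M 0 3, 4, 2, [4, 1, 2, 5], [0, 1], [1, 0], [
    ⟨3, [4, 1, 2, 5], [(1, [.M 0 3, .E 3], [0, 1]), (1, [.M 0 3, .Y 0 3], [2, 0, 1]), ((-1), [.E 4, .P 3 4, .M 0 4], [1, 0]), ((-1), [.Y 0 4, .P 3 4, .M 0 4], [2, 1, 0]), ((-1), [.Y 3 4, .P 3 4, .M 0 4], [2, 1, 0])],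
      [.ihx (-1) 6 0 3 4 5 [] []]⟩,
    ⟨3, [4, 5, 2, 6], [(1, [.M 0 3, .Y 1 3], [0, 1, 2]), ((-1), [.Y 1 4, .P 3 4, .M 0 4], [1, 2, 0])],
      []⟩,
    ⟨3, [4, 1, 5, 6], [(1, [.M 0 3, .Y 2 3], [0, 1, 2]), ((-1), [.Y 2 4, .P 3 4, .M 0 4], [1, 2, 0])],
      []⟩]⟩,
  ⟨.P 0 3, 4, 1, [3, 1, 2, 0, 4], [0], [0], [
    ⟨1, [3, 1, 2, 0, 4], [(1, [.P 0 3, .E 4], [0]), ((-1), [.E 4, .P 0 3], [0])],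
      []⟩,
    ⟨2, [4, 1, 2, 0, 5], [(1, [.P 0 3, .Y 0 4], [0, 1]), ((-1), [.Y 3 4, .P 0 3], [0, 1])],
      []⟩,
    ⟨2, [3, 4, 2, 0, 5], [(1, [.P 0 3, .Y 1 4], [0, 1]), ((-1), [.Y 1 4, .P 0 3], [0, 1])],
      []⟩,
    ⟨2, [3, 1, 4, 0, 5], [(1, [.P 0 3, .Y 2 4], [0, 1]), ((-1), [.Y 2 4, .P 0 3], [0, 1])],
      []⟩,
    ⟨2, [3, 1, 2, 4, 5], [(1, [.P 0 3, .Y 3 4], [0, 1]), ((-1), [.Y 0 4, .P 0 3], [0, 1])],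
      []⟩]⟩]

theorem kd1_ok : kd1.all Kd.ok = true := by decide +kernel

/-- Data. -/
def kd2 : List Kd := [
  ⟨.a 1, 2, 3, [0, 3, 4], [0, 1, 2], [2, 0, 1], [
    ⟨4, [0, 2, 3], [(1, [.a 1, .E 2], [2, 0, 1]), (1, [.a 1, .Y 1 2], [2, 3, 0, 1]), ((-1), [.E 2, .a 1], [1, 2, 0]), ((-1), [.Y 1 2, .a 1], [2, 1, 3, 0])],
      [.stu 1 5 3 4 [] [] [(1, 2, 4)], .swp 1 4 5 [4] [(1, 4, 5), (2, 3, 5)], .ihx 1 4 1 3 5 2 [5] []]⟩,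
    ⟨4, [2, 3, 4], [(1, [.a 1, .Y 0 2], [3, 1, 0, 2]), ((-1), [.Y 0 2, .a 1], [0, 2, 3, 1])],
      []⟩]⟩,
  ⟨.a 1, 3, 3, [0, 4, 2, 5], [0, 1, 2], [2, 0, 1], [
    ⟨4, [0, 3, 2, 4], [(1, [.a 1, .E 3], [2, 0, 1]), (1, [.a 1, .Y 1 3], [2, 3, 0, 1]), ((-1), [.E 3, .a 1], [1, 2, 0]), ((-1), [.Y 1 3, .a 1], [2, 1, 3, 0])],
      [.stu 1 6 4 5 [] [] [(1, 3, 5)], .swp 1 5 6 [5] [(1, 5, 6), (3, 4, 6)], .ihx 1 5 1 4 6 3 [6] []]⟩,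
    ⟨4, [3, 4, 2, 5], [(1, [.a 1, .Y 0 3], [3, 1, 0, 2]), ((-1), [.Y 0 3, .a 1], [0, 2, 3, 1])],
      []⟩,
    ⟨4, [0, 3, 4, 5], [(1, [.a 1, .Y 2 3], [3, 0, 1, 2]), ((-1), [.Y 2 3, .a 1], [1, 2, 3, 0])],
      []⟩]⟩,
  ⟨.a 1, 4, 3, [0, 5, 2, 3, 6], [0, 1, 2], [2, 0, 1], [
    ⟨4, [0, 4, 2, 3, 5], [(1, [.a 1, .E 4], [2, 0, 1]), (1, [.a 1, .Y 1 4], [2, 3, 0, 1]), ((-1), [.E 4, .a 1], [1, 2, 0]), ((-1), [.Y 1 4, .a 1], [2, 1, 3, 0])],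
      [.stu 1 7 5 6 [] [] [(1, 4, 6)], .swp 1 6 7 [6] [(1, 6, 7), (4, 5, 7)], .ihx 1 6 1 5 7 4 [7] []]⟩,
    ⟨4, [4, 5, 2, 3, 6], [(1, [.a 1, .Y 0 4], [3, 1, 0, 2]), ((-1), [.Y 0 4, .a 1], [0, 2, 3, 1])],
      []⟩,
    ⟨4, [0, 4, 5, 3, 6], [(1, [.a 1, .Y 2 4], [3, 0, 1, 2]), ((-1), [.Y 2 4, .a 1], [1, 2, 3, 0])],
      []⟩,
    ⟨4, [0, 4, 2, 5, 6], [(1, [.a 1, .Y 3 4], [3, 0, 1, 2]), ((-1), [.Y 3 4, .a 1], [1, 2, 3, 0])],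
      []⟩]⟩,
  ⟨.o 1, 2, 4, [0, 4, 5], [0, 1, 2, 3], [3, 0, 1, 2], [
    ⟨5, [0, 2, 3], [(1, [.o 1, .E 2], [2, 3, 0, 1]), (1, [.o 1, .Y 1 2], [2, 3, 4, 0, 1]), ((-1), [.E 2, .o 1], [1, 2, 3, 0]), ((-1), [.Y 1 2, .o 1], [2, 1, 3, 4, 0])],
      [.ihx (-1) 4 1 3 5 6 [] [(2, 5, 6)], .ihx (-1) 6 2 3 4 5 [] [(1, 4, 5)], .swp (-1) 4 5 [] [(1, 4, 5), (2, 5, 6), (3, 4, 6)], .swp 1 5 6 [] [(1, 4, 5), (2, 5, 6), (3, 4, 6)]]⟩,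
    ⟨5, [2, 3, 4], [(1, [.o 1, .Y 0 2], [3, 4, 1, 0, 2]), ((-1), [.Y 0 2, .o 1], [0, 2, 3, 4, 1])],
      []⟩]⟩,
  ⟨.o 1, 3, 4, [0, 5, 2, 6], [0, 1, 2, 3], [3, 0, 1, 2], [
    ⟨5, [0, 3, 2, 4], [(1, [.o 1, .E 3], [2, 3, 0, 1]), (1, [.o 1, .Y 1 3], [2, 3, 4, 0, 1]), ((-1), [.E 3, .o 1], [1, 2, 3, 0]), ((-1), [.Y 1 3, .o 1], [2, 1, 3, 4, 0])],
      [.ihx (-1) 5 1 4 6 7 [] [(3, 6, 7)], .ihx (-1) 7 3 4 5 6 [] [(1, 5, 6)], .swp (-1) 5 6 [] [(1, 5, 6), (3, 6, 7), (4, 5, 7)], .swp 1 6 7 [] [(1, 5, 6), (3, 6, 7), (4, 5, 7)]]⟩,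
    ⟨5, [3, 4, 2, 5], [(1, [.o 1, .Y 0 3], [3, 4, 1, 0, 2]), ((-1), [.Y 0 3, .o 1], [0, 2, 3, 4, 1])],
      []⟩,
    ⟨5, [0, 3, 4, 5], [(1, [.o 1, .Y 2 3], [3, 4, 0, 1, 2]), ((-1), [.Y 2 3, .o 1], [1, 2, 3, 4, 0])],
      []⟩]⟩,
  ⟨.o 1, 4, 4, [0, 6, 2, 3, 7], [0, 1, 2, 3], [3, 0, 1, 2], [
    ⟨5, [0, 4, 2, 3, 5], [(1, [.o 1, .E 4], [2, 3, 0, 1]), (1, [.o 1, .Y 1 4], [2, 3, 4, 0, 1]), ((-1), [.E 4, .o 1], [1, 2, 3, 0]), ((-1), [.Y 1 4, .o 1], [2, 1, 3, 4, 0])],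
      [.ihx (-1) 6 1 5 7 8 [] [(4, 7, 8)], .ihx (-1) 8 4 5 6 7 [] [(1, 6, 7)], .swp (-1) 6 7 [] [(1, 6, 7), (4, 7, 8), (5, 6, 8)], .swp 1 7 8 [] [(1, 6, 7), (4, 7, 8), (5, 6, 8)]]⟩,
    ⟨5, [4, 5, 2, 3, 6], [(1, [.o 1, .Y 0 4], [3, 4, 1, 0, 2]), ((-1), [.Y 0 4, .o 1], [0, 2, 3, 4, 1])],
      []⟩,
    ⟨5, [0, 4, 5, 3, 6], [(1, [.o 1, .Y 2 4], [3, 4, 0, 1, 2]), ((-1), [.Y 2 4, .o 1], [1, 2, 3, 4, 0])],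
      []⟩,
    ⟨5, [0, 4, 2, 5, 6], [(1, [.o 1, .Y 3 4], [3, 4, 0, 1, 2]), ((-1), [.Y 3 4, .o 1], [1, 2, 3, 4, 0])],
      []⟩]⟩,
  ⟨.b 1 2, 3, 4, [0, 4, 5, 6], [0, 1, 2, 3], [3, 0, 1, 2], [
    ⟨5, [0, 3, 4, 5], [(1, [.b 1 2, .E 3], [3, 0, 1, 2]), (1, [.b 1 2, .Y 1 3], [3, 4, 1, 0, 2]), (1, [.b 1 2, .Y 2 3], [3, 0, 4, 1, 2]), ((-1), [.E 3, .b 1 2], [2, 3, 0, 1]), ((-1), [.Y 1 3, .b 1 2], [3, 2, 4, 0, 1]), ((-1), [.Y 2 3, .b 1 2], [3, 2, 4, 0, 1])],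
      [.swp 1 6 7 [] [(1, 3, 6), (2, 6, 7), (4, 5, 7)], .ihx 1 7 1 6 3 5 [] [(2, 4, 6)], .ihx 1 6 2 5 7 4 [] [(1, 3, 7)], .swp 1 6 7 [] [(1, 5, 6), (2, 4, 7), (3, 6, 7)]]⟩,
    ⟨5, [3, 4, 5, 6], [(1, [.b 1 2, .Y 0 3], [4, 1, 2, 0, 3]), ((-1), [.Y 0 3, .b 1 2], [0, 3, 4, 1, 2])],
      []⟩]⟩,
  ⟨.b 1 2, 4, 4, [0, 5, 6, 3, 7], [0, 1, 2, 3], [3, 0, 1, 2], [
    ⟨5, [0, 4, 5, 3, 6], [(1, [.b 1 2, .E 4], [3, 0, 1, 2]), (1, [.b 1 2, .Y 1 4], [3, 4, 1, 0, 2]), (1, [.b 1 2, .Y 2 4], [3, 0, 4, 1, 2]), ((-1), [.E 4, .b 1 2], [2, 3, 0, 1]), ((-1), [.Y 1 4, .b 1 2], [3, 2, 4, 0, 1]), ((-1), [.Y 2 4, .b 1 2], [3, 2, 4, 0, 1])],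
      [.swp 1 7 8 [] [(1, 4, 7), (2, 7, 8), (5, 6, 8)], .ihx 1 7 2 6 8 5 [] [(1, 4, 8)], .ihx 1 8 1 7 4 6 [] [(2, 5, 7)], .swp 1 7 8 [] [(1, 6, 7), (2, 5, 8), (4, 7, 8)]]⟩,
    ⟨5, [4, 5, 6, 3, 7], [(1, [.b 1 2, .Y 0 4], [4, 1, 2, 0, 3]), ((-1), [.Y 0 4, .b 1 2], [0, 3, 4, 1, 2])],
      []⟩,
    ⟨5, [0, 4, 5, 6, 7], [(1, [.b 1 2, .Y 3 4], [4, 0, 1, 2, 3]), ((-1), [.Y 3 4, .b 1 2], [2, 3, 4, 0, 1])],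
      []⟩]⟩,
  ⟨.Y 1 2, 2, 3, [0, 2, 3, 4], [0, 1, 2], [2, 0, 1], [
    ⟨4, [0, 2, 3, 4], [(1, [.Y 1 2, .E 3], [0, 1, 2]), (1, [.Y 1 2, .Y 1 3], [3, 1, 0, 2]), (1, [.Y 1 2, .Y 2 3], [0, 3, 1, 2]), ((-1), [.E 2, .Y 1 3, .P 2 3], [2, 0, 1]), ((-1), [.Y 1 2, .Y 1 3, .P 2 3], [3, 2, 0, 1])],
      [.ihx 1 5 1 3 2 4 [] []]⟩,
    ⟨4, [2, 3, 4, 5], [(1, [.Y 1 2, .Y 0 3], [1, 2, 0, 3]), ((-1), [.Y 0 2, .Y 1 3, .P 2 3], [0, 3, 1, 2])],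
      []⟩]⟩,
  ⟨.M 1 2, 3, 2, [0, 3, 4], [0, 1], [1, 0], [
    ⟨3, [0, 3, 4], [(1, [.M 1 2, .E 2], [0, 1]), (1, [.M 1 2, .Y 1 2], [2, 0, 1]), ((-1), [.E 3, .P 2 3, .M 1 3], [1, 0]), ((-1), [.Y 1 3, .P 2 3, .M 1 3], [2, 1, 0]), ((-1), [.Y 2 3, .P 2 3, .M 1 3], [2, 1, 0])],
      [.ihx (-1) 5 1 2 3 4 [] []]⟩,
    ⟨3, [3, 4, 5], [(1, [.M 1 2, .Y 0 2], [1, 0, 2]), ((-1), [.Y 0 3, .P 2 3, .M 1 3], [0, 2, 1])],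
      []⟩]⟩,
  ⟨.P 1 2, 3, 1, [0, 2, 1, 3], [0], [0], [
    ⟨1, [0, 2, 1, 3], [(1, [.P 1 2, .E 3], [0]), ((-1), [.E 3, .P 1 2], [0])],
      []⟩,
    ⟨2, [3, 2, 1, 4], [(1, [.P 1 2, .Y 0 3], [0, 1]), ((-1), [.Y 0 3, .P 1 2], [0, 1])],
      []⟩,
    ⟨2, [0, 3, 1, 4], [(1, [.P 1 2, .Y 1 3], [0, 1]), ((-1), [.Y 2 3, .P 1 2], [0, 1])],
      []⟩,
    ⟨2, [0, 2, 3, 4], [(1, [.P 1 2, .Y 2 3], [0, 1]), ((-1), [.Y 1 3, .P 1 2], [0, 1])],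
      []⟩]⟩,
  ⟨.P 1 2, 4, 1, [0, 2, 1, 3, 4], [0], [0], [
    ⟨1, [0, 2, 1, 3, 4], [(1, [.P 1 2, .E 4], [0]), ((-1), [.E 4, .P 1 2], [0])],
      []⟩,
    ⟨2, [4, 2, 1, 3, 5], [(1, [.P 1 2, .Y 0 4], [0, 1]), ((-1), [.Y 0 4, .P 1 2], [0, 1])],
      []⟩,
    ⟨2, [0, 4, 1, 3, 5], [(1, [.P 1 2, .Y 1 4], [0, 1]), ((-1), [.Y 2 4, .P 1 2], [0, 1])],
      []⟩,
    ⟨2, [0, 2, 4, 3, 5], [(1, [.P 1 2, .Y 2 4], [0, 1]), ((-1), [.Y 1 4, .P 1 2], [0, 1])],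
      []⟩,
    ⟨2, [0, 2, 1, 4, 5], [(1, [.P 1 2, .Y 3 4], [0, 1]), ((-1), [.Y 3 4, .P 1 2], [0, 1])],
      []⟩]⟩,
  ⟨.b 1 3, 4, 4, [0, 5, 2, 6, 7], [0, 1, 2, 3], [3, 0, 1, 2], [
    ⟨5, [0, 4, 2, 5, 6], [(1, [.b 1 3, .E 4], [3, 0, 1, 2]), (1, [.b 1 3, .Y 1 4], [3, 4, 1, 0, 2]), (1, [.b 1 3, .Y 3 4], [3, 0, 4, 1, 2]), ((-1), [.E 4, .b 1 3], [2, 3, 0, 1]), ((-1), [.Y 1 4, .b 1 3], [3, 2, 4, 0, 1]), ((-1), [.Y 3 4, .b 1 3], [3, 2, 4, 0, 1])],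
      [.swp 1 7 8 [] [(1, 4, 7), (3, 7, 8), (5, 6, 8)], .ihx 1 7 3 6 8 5 [] [(1, 4, 8)], .ihx 1 8 1 7 4 6 [] [(3, 5, 7)], .swp 1 7 8 [] [(1, 6, 7), (3, 5, 8), (4, 7, 8)]]⟩,
    ⟨5, [4, 5, 2, 6, 7], [(1, [.b 1 3, .Y 0 4], [4, 1, 2, 0, 3]), ((-1), [.Y 0 4, .b 1 3], [0, 3, 4, 1, 2])],
      []⟩,
    ⟨5, [0, 4, 5, 6, 7], [(1, [.b 1 3, .Y 2 4], [4, 0, 2, 1, 3]), ((-1), [.Y 2 4, .b 1 3], [1, 3, 4, 0, 2])],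
      []⟩]⟩]

theorem kd2_ok : kd2.all Kd.ok = true := by decide +kernel

/-- Data. -/
def kd3 : List Kd := [
  ⟨.Y 1 3, 3, 3, [0, 3, 2, 4, 5], [0, 1, 2], [2, 0, 1], [
    ⟨4, [0, 3, 2, 4, 5], [(1, [.Y 1 3, .E 4], [0, 1, 2]), (1, [.Y 1 3, .Y 1 4], [3, 1, 0, 2]), (1, [.Y 1 3, .Y 3 4], [0, 3, 1, 2]), ((-1), [.E 3, .Y 1 4, .P 3 4], [2, 0, 1]), ((-1), [.Y 1 3, .Y 1 4, .P 3 4], [3, 2, 0, 1])],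
      [.ihx 1 6 1 4 3 5 [] []]⟩,
    ⟨4, [3, 4, 2, 5, 6], [(1, [.Y 1 3, .Y 0 4], [1, 2, 0, 3]), ((-1), [.Y 0 3, .Y 1 4, .P 3 4], [0, 3, 1, 2])],
      []⟩,
    ⟨4, [0, 3, 4, 5, 6], [(1, [.Y 1 3, .Y 2 4], [0, 2, 1, 3]), ((-1), [.Y 2 3, .Y 1 4, .P 3 4], [1, 3, 0, 2])],
      []⟩]⟩,
  ⟨.M 1 3, 4, 2, [0, 4, 2, 5], [0, 1], [1, 0], [
    ⟨3, [0, 4, 2, 5], [(1, [.M 1 3, .E 3], [0, 1]), (1, [.M 1 3, .Y 1 3], [2, 0, 1]), ((-1), [.E 4, .P 3 4, .M 1 4], [1, 0]), ((-1), [.Y 1 4, .P 3 4, .M 1 4], [2, 1, 0]), ((-1), [.Y 3 4, .P 3 4, .M 1 4], [2, 1, 0])],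
      [.ihx (-1) 6 1 3 4 5 [] []]⟩,
    ⟨3, [4, 5, 2, 6], [(1, [.M 1 3, .Y 0 3], [1, 0, 2]), ((-1), [.Y 0 4, .P 3 4, .M 1 4], [0, 2, 1])],
      []⟩,
    ⟨3, [0, 4, 5, 6], [(1, [.M 1 3, .Y 2 3], [0, 1, 2]), ((-1), [.Y 2 4, .P 3 4, .M 1 4], [1, 2, 0])],
      []⟩]⟩,
  ⟨.P 1 3, 4, 1, [0, 3, 2, 1, 4], [0], [0], [
    ⟨1, [0, 3, 2, 1, 4], [(1, [.P 1 3, .E 4], [0]), ((-1), [.E 4, .P 1 3], [0])],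
      []⟩,
    ⟨2, [4, 3, 2, 1, 5], [(1, [.P 1 3, .Y 0 4], [0, 1]), ((-1), [.Y 0 4, .P 1 3], [0, 1])],
      []⟩,
    ⟨2, [0, 4, 2, 1, 5], [(1, [.P 1 3, .Y 1 4], [0, 1]), ((-1), [.Y 3 4, .P 1 3], [0, 1])],
      []⟩,
    ⟨2, [0, 3, 4, 1, 5], [(1, [.P 1 3, .Y 2 4], [0, 1]), ((-1), [.Y 2 4, .P 1 3], [0, 1])],
      []⟩,
    ⟨2, [0, 3, 2, 4, 5], [(1, [.P 1 3, .Y 3 4], [0, 1]), ((-1), [.Y 1 4, .P 1 3], [0, 1])],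
      []⟩]⟩,
  ⟨.a 2, 3, 3, [0, 1, 4, 5], [0, 1, 2], [2, 0, 1], [
    ⟨4, [0, 1, 3, 4], [(1, [.a 2, .E 3], [2, 0, 1]), (1, [.a 2, .Y 2 3], [2, 3, 0, 1]), ((-1), [.E 3, .a 2], [1, 2, 0]), ((-1), [.Y 2 3, .a 2], [2, 1, 3, 0])],
      [.stu 1 6 4 5 [] [] [(2, 3, 5)], .swp 1 5 6 [5] [(2, 5, 6), (3, 4, 6)], .ihx 1 5 2 4 6 3 [6] []]⟩,
    ⟨4, [3, 1, 4, 5], [(1, [.a 2, .Y 0 3], [3, 1, 0, 2]), ((-1), [.Y 0 3, .a 2], [0, 2, 3, 1])],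
      []⟩,
    ⟨4, [0, 3, 4, 5], [(1, [.a 2, .Y 1 3], [3, 1, 0, 2]), ((-1), [.Y 1 3, .a 2], [0, 2, 3, 1])],
      []⟩]⟩,
  ⟨.a 2, 4, 3, [0, 1, 5, 3, 6], [0, 1, 2], [2, 0, 1], [
    ⟨4, [0, 1, 4, 3, 5], [(1, [.a 2, .E 4], [2, 0, 1]), (1, [.a 2, .Y 2 4], [2, 3, 0, 1]), ((-1), [.E 4, .a 2], [1, 2, 0]), ((-1), [.Y 2 4, .a 2], [2, 1, 3, 0])],
      [.stu 1 7 5 6 [] [] [(2, 4, 6)], .swp 1 6 7 [6] [(2, 6, 7), (4, 5, 7)], .ihx 1 6 2 5 7 4 [7] []]⟩,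
    ⟨4, [4, 1, 5, 3, 6], [(1, [.a 2, .Y 0 4], [3, 1, 0, 2]), ((-1), [.Y 0 4, .a 2], [0, 2, 3, 1])],
      []⟩,
    ⟨4, [0, 4, 5, 3, 6], [(1, [.a 2, .Y 1 4], [3, 1, 0, 2]), ((-1), [.Y 1 4, .a 2], [0, 2, 3, 1])],
      []⟩,
    ⟨4, [0, 1, 4, 5, 6], [(1, [.a 2, .Y 3 4], [3, 0, 1, 2]), ((-1), [.Y 3 4, .a 2], [1, 2, 3, 0])],
      []⟩]⟩,
  ⟨.o 2, 3, 4, [0, 1, 5, 6], [0, 1, 2, 3], [3, 0, 1, 2], [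
    ⟨5, [0, 1, 3, 4], [(1, [.o 2, .E 3], [2, 3, 0, 1]), (1, [.o 2, .Y 2 3], [2, 3, 4, 0, 1]), ((-1), [.E 3, .o 2], [1, 2, 3, 0]), ((-1), [.Y 2 3, .o 2], [2, 1, 3, 4, 0])],
      [.ihx (-1) 5 2 4 6 7 [] [(3, 6, 7)], .ihx (-1) 7 3 4 5 6 [] [(2, 5, 6)], .swp (-1) 5 6 [] [(2, 5, 6), (3, 6, 7), (4, 5, 7)], .swp 1 6 7 [] [(2, 5, 6), (3, 6, 7), (4, 5, 7)]]⟩,
    ⟨5, [3, 1, 4, 5], [(1, [.o 2, .Y 0 3], [3, 4, 1, 0, 2]), ((-1), [.Y 0 3, .o 2], [0, 2, 3, 4, 1])],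
      []⟩,
    ⟨5, [0, 3, 4, 5], [(1, [.o 2, .Y 1 3], [3, 4, 1, 0, 2]), ((-1), [.Y 1 3, .o 2], [0, 2, 3, 4, 1])],
      []⟩]⟩,
  ⟨.o 2, 4, 4, [0, 1, 6, 3, 7], [0, 1, 2, 3], [3, 0, 1, 2], [
    ⟨5, [0, 1, 4, 3, 5], [(1, [.o 2, .E 4], [2, 3, 0, 1]), (1, [.o 2, .Y 2 4], [2, 3, 4, 0, 1]), ((-1), [.E 4, .o 2], [1, 2, 3, 0]), ((-1), [.Y 2 4, .o 2], [2, 1, 3, 4, 0])],
      [.ihx (-1) 6 2 5 7 8 [] [(4, 7, 8)], .ihx (-1) 8 4 5 6 7 [] [(2, 6, 7)], .swp (-1) 6 7 [] [(2, 6, 7), (4, 7, 8), (5, 6, 8)], .swp 1 7 8 [] [(2, 6, 7), (4, 7, 8), (5, 6, 8)]]⟩,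
    ⟨5, [4, 1, 5, 3, 6], [(1, [.o 2, .Y 0 4], [3, 4, 1, 0, 2]), ((-1), [.Y 0 4, .o 2], [0, 2, 3, 4, 1])],
      []⟩,
    ⟨5, [0, 4, 5, 3, 6], [(1, [.o 2, .Y 1 4], [3, 4, 1, 0, 2]), ((-1), [.Y 1 4, .o 2], [0, 2, 3, 4, 1])],
      []⟩,
    ⟨5, [0, 1, 4, 5, 6], [(1, [.o 2, .Y 3 4], [3, 4, 0, 1, 2]), ((-1), [.Y 3 4, .o 2], [1, 2, 3, 4, 0])],
      []⟩]⟩,
  ⟨.b 2 3, 4, 4, [0, 1, 5, 6, 7], [0, 1, 2, 3], [3, 0, 1, 2], [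
    ⟨5, [0, 1, 4, 5, 6], [(1, [.b 2 3, .E 4], [3, 0, 1, 2]), (1, [.b 2 3, .Y 2 4], [3, 4, 1, 0, 2]), (1, [.b 2 3, .Y 3 4], [3, 0, 4, 1, 2]), ((-1), [.E 4, .b 2 3], [2, 3, 0, 1]), ((-1), [.Y 2 4, .b 2 3], [3, 2, 4, 0, 1]), ((-1), [.Y 3 4, .b 2 3], [3, 2, 4, 0, 1])],
      [.swp 1 7 8 [] [(2, 4, 7), (3, 7, 8), (5, 6, 8)], .ihx 1 7 3 6 8 5 [] [(2, 4, 8)], .ihx 1 8 2 7 4 6 [] [(3, 5, 7)], .swp 1 7 8 [] [(2, 6, 7), (3, 5, 8), (4, 7, 8)]]⟩,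
    ⟨5, [4, 1, 5, 6, 7], [(1, [.b 2 3, .Y 0 4], [4, 1, 2, 0, 3]), ((-1), [.Y 0 4, .b 2 3], [0, 3, 4, 1, 2])],
      []⟩,
    ⟨5, [0, 4, 5, 6, 7], [(1, [.b 2 3, .Y 1 4], [4, 1, 2, 0, 3]), ((-1), [.Y 1 4, .b 2 3], [0, 3, 4, 1, 2])],
      []⟩]⟩,
  ⟨.Y 2 3, 3, 3, [0, 1, 3, 4, 5], [0, 1, 2], [2, 0, 1], [
    ⟨4, [0, 1, 3, 4, 5], [(1, [.Y 2 3, .E 4], [0, 1, 2]), (1, [.Y 2 3, .Y 2 4], [3, 1, 0, 2]), (1, [.Y 2 3, .Y 3 4], [0, 3, 1, 2]), ((-1), [.E 3, .Y 2 4, .P 3 4], [2, 0, 1]), ((-1), [.Y 2 3, .Y 2 4, .P 3 4], [3, 2, 0, 1])],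
      [.ihx 1 6 2 4 3 5 [] []]⟩,
    ⟨4, [3, 1, 4, 5, 6], [(1, [.Y 2 3, .Y 0 4], [1, 2, 0, 3]), ((-1), [.Y 0 3, .Y 2 4, .P 3 4], [0, 3, 1, 2])],
      []⟩,
    ⟨4, [0, 3, 4, 5, 6], [(1, [.Y 2 3, .Y 1 4], [1, 2, 0, 3]), ((-1), [.Y 1 3, .Y 2 4, .P 3 4], [0, 3, 1, 2])],
      []⟩]⟩,
  ⟨.M 2 3, 4, 2, [0, 1, 4, 5], [0, 1], [1, 0], [
    ⟨3, [0, 1, 4, 5], [(1, [.M 2 3, .E 3], [0, 1]), (1, [.M 2 3, .Y 2 3], [2, 0, 1]), ((-1), [.E 4, .P 3 4, .M 2 4], [1, 0]), ((-1), [.Y 2 4, .P 3 4, .M 2 4], [2, 1, 0]), ((-1), [.Y 3 4, .P 3 4, .M 2 4], [2, 1, 0])],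
      [.ihx (-1) 6 2 3 4 5 [] []]⟩,
    ⟨3, [4, 1, 5, 6], [(1, [.M 2 3, .Y 0 3], [1, 0, 2]), ((-1), [.Y 0 4, .P 3 4, .M 2 4], [0, 2, 1])],
      []⟩,
    ⟨3, [0, 4, 5, 6], [(1, [.M 2 3, .Y 1 3], [1, 0, 2]), ((-1), [.Y 1 4, .P 3 4, .M 2 4], [0, 2, 1])],
      []⟩]⟩,
  ⟨.P 2 3, 4, 1, [0, 1, 3, 2, 4], [0], [0], [
    ⟨1, [0, 1, 3, 2, 4], [(1, [.P 2 3, .E 4], [0]), ((-1), [.E 4, .P 2 3], [0])],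
      []⟩,
    ⟨2, [4, 1, 3, 2, 5], [(1, [.P 2 3, .Y 0 4], [0, 1]), ((-1), [.Y 0 4, .P 2 3], [0, 1])],
      []⟩,
    ⟨2, [0, 4, 3, 2, 5], [(1, [.P 2 3, .Y 1 4], [0, 1]), ((-1), [.Y 1 4, .P 2 3], [0, 1])],
      []⟩,
    ⟨2, [0, 1, 4, 2, 5], [(1, [.P 2 3, .Y 2 4], [0, 1]), ((-1), [.Y 3 4, .P 2 3], [0, 1])],
      []⟩,
    ⟨2, [0, 1, 3, 4, 5], [(1, [.P 2 3, .Y 3 4], [0, 1]), ((-1), [.Y 2 4, .P 2 3], [0, 1])],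
      []⟩]⟩,
  ⟨.a 3, 4, 3, [0, 1, 2, 5, 6], [0, 1, 2], [2, 0, 1], [
    ⟨4, [0, 1, 2, 4, 5], [(1, [.a 3, .E 4], [2, 0, 1]), (1, [.a 3, .Y 3 4], [2, 3, 0, 1]), ((-1), [.E 4, .a 3], [1, 2, 0]), ((-1), [.Y 3 4, .a 3], [2, 1, 3, 0])],
      [.stu 1 7 5 6 [] [] [(3, 4, 6)], .swp 1 6 7 [6] [(3, 6, 7), (4, 5, 7)], .ihx 1 6 3 5 7 4 [7] []]⟩,
    ⟨4, [4, 1, 2, 5, 6], [(1, [.a 3, .Y 0 4], [3, 1, 0, 2]), ((-1), [.Y 0 4, .a 3], [0, 2, 3, 1])],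
      []⟩,
    ⟨4, [0, 4, 2, 5, 6], [(1, [.a 3, .Y 1 4], [3, 1, 0, 2]), ((-1), [.Y 1 4, .a 3], [0, 2, 3, 1])],
      []⟩,
    ⟨4, [0, 1, 4, 5, 6], [(1, [.a 3, .Y 2 4], [3, 1, 0, 2]), ((-1), [.Y 2 4, .a 3], [0, 2, 3, 1])],
      []⟩]⟩,
  ⟨.o 3, 4, 4, [0, 1, 2, 6, 7], [0, 1, 2, 3], [3, 0, 1, 2], [
    ⟨5, [0, 1, 2, 4, 5], [(1, [.o 3, .E 4], [2, 3, 0, 1]), (1, [.o 3, .Y 3 4], [2, 3, 4, 0, 1]), ((-1), [.E 4, .o 3], [1, 2, 3, 0]), ((-1), [.Y 3 4, .o 3], [2, 1, 3, 4, 0])],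
      [.ihx (-1) 6 3 5 7 8 [] [(4, 7, 8)], .ihx (-1) 8 4 5 6 7 [] [(3, 6, 7)], .swp (-1) 6 7 [] [(3, 6, 7), (4, 7, 8), (5, 6, 8)], .swp 1 7 8 [] [(3, 6, 7), (4, 7, 8), (5, 6, 8)]]⟩,
    ⟨5, [4, 1, 2, 5, 6], [(1, [.o 3, .Y 0 4], [3, 4, 1, 0, 2]), ((-1), [.Y 0 4, .o 3], [0, 2, 3, 4, 1])],
      []⟩,
    ⟨5, [0, 4, 2, 5, 6], [(1, [.o 3, .Y 1 4], [3, 4, 1, 0, 2]), ((-1), [.Y 1 4, .o 3], [0, 2, 3, 4, 1])],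
      []⟩,
    ⟨5, [0, 1, 4, 5, 6], [(1, [.o 3, .Y 2 4], [3, 4, 1, 0, 2]), ((-1), [.Y 2 4, .o 3], [0, 2, 3, 4, 1])],
      []⟩]⟩]

theorem kd3_ok : kd3.all Kd.ok = true := by decide +kernel

/-- All data. -/
def kd : List Kd := kd0 ++ (kd1 ++ (kd2 ++ (kd3)))

theorem kd_ok : kd.all Kd.ok = true := by
  unfold kd
  simp only [List.all_append, Bool.and_true, kd0_ok, kd1_ok, kd2_ok, kd3_ok]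

theorem kd_req : reqK = kd.map fun t => (t.l, t.k) := by decide +kernel

theorem start_ok : chk 0 3 [0, 1]
    [(1, [.E 0, .E 1, .P 0 1], [1, 0]), ((-1), [.E 0, .E 1], [0, 1]), ((-1), [.E 0, .Y 0 1], [2, 0, 1])]
    [.stu 1 2 0 1 [] [] []] = true := by decide

/-- The check that two words are equal at the beginning. -/
def eq0 (d : ℕ) (outs : List ℕ) (t t' : List Lt × List ℕ) : Bool :=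
  okB 0 d outs t && okB 0 d outs t' &&
    decide (pcB 0 d t ++ (pcT 0 d (1, t)).1 = pcB 0 d t' ++ (pcT 0 d (1, t')).1) &&
    decide (nV (pcT 0 d (1, t)).2 = nV (pcT 0 d (1, t')).2)

variable {H : Type} [DecidableEq H]

theorem eq0_spec {u : List Lt} {outs : List ℕ} (hu : ty u outs.length = some 0) {d : ℕ}
    {t t' : List Lt × List ℕ} (h : eq0 d outs t t' = true) :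
    ev H (t.1 ++ u) = ev H (t'.1 ++ u) := by
  unfold eq0 at h
  simp only [Bool.and_eq_true, decide_eq_true_eq] at h
  obtain ⟨⟨⟨h1, h2⟩, h3⟩, h4⟩ := h
  have e1 := ev_termB (H := H) (p := []) (k := 0) rfl hu h1
  have e2 := ev_termB (H := H) (p := []) (k := 0) rfl hu h2
  have h5 := congrArg (List.map (fr (st []).ra 0 (st []).n)) h3
  rw [List.map_append, List.map_append] at h5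
  rw [cls_nV] at e1 e2
  have e3 : ∀ a b c e : List ℕ, a ++ (b ++ (st []).B) ++ ((st []).L ++ (c ++ e)) =
      a ++ ((b ++ c) ++ e) := by
    intro a b c e
    show a ++ (b ++ []) ++ ([] ++ (c ++ e)) = _
    simp
  rw [e3, h5, h4] at e1
  rw [e3] at e2
  rw [List.nil_append] at e1 e2
  rw [e1, e2]

theorem start_eq (u : List Lt) (hu : ty u 2 = some 0) :
    ev H ([.E 0, .F 1] ++ u) = ev H ([.E 0, .E 1] ++ u) + ev H ([.E 0, .Y 0 1] ++ u) := by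
  have e1 := eq0_spec (H := H) (u := u) (outs := [0, 1]) (d := 2)
    (t := ([.E 0, .F 1], [0, 1])) (t' := ([.E 0, .E 1, .P 0 1], [1, 0])) hu (by decide)
  have e2 := chk_spec (H := H) start_ok (p := []) (u := u) rfl hu
  simp only [List.map_cons, List.map_nil, List.sum_cons, List.sum_nil, List.nil_append, one_smul,
    neg_one_zsmul, add_zero] at e2
  have e3 : ev H ([.E 0, .E 1, .P 0 1] ++ u) =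
      ev H ([.E 0, .E 1] ++ u) + ev H ([.E 0, .Y 0 1] ++ u) := by
    rw [← sub_eq_zero, ← e2]
    abel
  exact e1.trans e3

/-- The conservation law. -/
theorem kir {p : List Lt} {k : ℕ} (hp : tyc p 0 = some k) (h0 : k ≠ 0) (h9 : k ≠ 9) {u : List Lt}
    (hu : ty u (k + 1) = some 0) : ev H (p ++ [.F k] ++ u) = sk H p u (Sk k) :=
  kirch kd_req kd_ok start_eq p k hp h0 h9 u hu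

theorem kir_holds (k : ℕ) (h0 : k ≠ 0) (h4 : k ≤ 4) :
    Holds H k (k + 1) (fs 1 [] [] [[.F k]] ++ fs (-1) [] [] (Sk k)) := by
  intro p u hp hu
  have hu' : ty u (k + 1) = some 0 := by
    have := tyu_ty hu
    rwa [show rl 9 = 0 from rfl, show rl (k + 1) = k + 1 from if_neg (by omega)] at this
  rw [sm_append, sm_fs, sm_fs, List.append_nil, List.nil_append, ← kir hp h0 (by omega) hu']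
  unfold sk
  simp

theorem Holds.perm {k k' : ℕ} {R S : List (ℤ × List Lt)} (h : Holds H k k' R) (hS : R.Perm S) :
    Holds H k k' S := fun p u hp hu => (sm_perm _ hS).symm.trans (h p u hp hu)

/-- The conservation law as relations. -/
def kl : List Ln := [
  ⟨1, 2, [((-1), 1, 129), ((-1), 1, 328), (1, 1, 520)]⟩,
  ⟨2, 3, [((-1), 1, 130), ((-1), 1, 138), ((-1), 1, 336), (1, 1, 528)]⟩,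
  ⟨3, 4, [((-1), 1, 131), ((-1), 1, 139), ((-1), 1, 147), ((-1), 1, 344), (1, 1, 536)]⟩]

theorem env_kl : Env H kl := by
  intro L hL
  unfold kl at hL
  simp only [List.mem_cons, List.not_mem_nil, or_false] at hL
  rcases hL with rfl | rfl | rfl
  · exact ⟨by decide, Holds.ht ((kir_holds 1 (by decide) (by decide)).perm (by decide))⟩
  · exact ⟨by decide, Holds.ht ((kir_holds 2 (by decide) (by decide)).perm (by decide))⟩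
  · exact ⟨by decide, Holds.ht ((kir_holds 3 (by decide) (by decide)).perm (by decide))⟩

end Pool.Agent.SWW54
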