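import Mathlib
import Pool.Agent.SWW54.Fam
import Pool.Agent.SWW54.KirD

/-!
# Ladders are symmetric up to torsion
-/

set_option autoImplicit false

namespace Pool.Agent.SWW54

open Pool.Agent.Jac70 Pool.Agent.SWT85

variable {H : Type} [DecidableEq H]

/-! ### A leg at the bottom of one rail is a leg at the top of the other rail -/

/-- Base relations. -/
def bsR : List Bs := [
  ⟨2, 2, 2, [2, 1], [(1, [.a 0], [1, 0]), (1, [.E 2, .M 0 2], [1, 0])], []⟩,
  ⟨2, 2, 2, [0, 2], [(1, [.a 1], [1, 0]), (1, [.E 2, .M 1 2], [1, 0])], []⟩,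
  ⟨2, 2, 3, [2, 1], [((-1), [.o 0], [1, 2, 0]), (1, [.Y 0 2, .M 0 2], [1, 2, 0])], []⟩,
  ⟨2, 2, 3, [0, 2], [((-1), [.o 1], [1, 2, 0]), (1, [.Y 1 2, .M 1 2], [1, 2, 0])], []⟩,
  ⟨2, 2, 3, [2, 3], [(1, [.b 0 1], [2, 0, 1]), (1, [.Y 1 2, .M 0 2], [1, 2, 0])], []⟩,
  ⟨2, 2, 3, [2, 3], [(1, [.b 0 1], [2, 0, 1]), (1, [.Y 0 2, .M 1 2], [0, 2, 1])], []⟩]

theorem bsR_ok : bsR.all Bs.ok = true := by decide +kernel

/-- The environment. -/
def eR : List Ln := bsR.map Bs.ln ++ (fmL ++ kl)

theorem env_eR : Env H eR := (env_base bsR_ok).append (env_fmL.append env_kl)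

/-- The relation for the rail `0`. -/
def lb0 : Ln := ⟨2, 2, [(-1, 1, 8), (1, 2, 540866)]⟩

/-- The relation for the rail `1`. -/
def lb1 : Ln := ⟨2, 2, [(-1, 1, 0), (1, 2, 540874)]⟩

theorem lb0_ok : stepOk eR lb0 2 4 [⟨2, 17, 0, 0, 1, 194⟩, ⟨2, 0, 0, 0, 0, 0⟩, ⟨2, 2, 0, 0, 0, 0⟩,
    ⟨2, 4, 0, 0, 0, 0⟩, ⟨-1, 7, 0, 0, 0, 0⟩, ⟨-1, 10, 0, 0, 0, 0⟩] = true := by decide +kernel

theorem lb1_ok : stepOk eR lb1 2 4 [⟨2, 17, 0, 0, 1, 202⟩, ⟨2, 1, 0, 0, 0, 0⟩, ⟨2, 3, 0, 0, 0, 0⟩,
    ⟨2, 5, 0, 0, 0, 0⟩, ⟨-1, 7, 0, 0, 0, 0⟩, ⟨1, 10, 0, 0, 0, 0⟩] = true := by decide +kernel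

theorem bot0 {p u : List Lt} (hp : tyc p 0 = some 2) (hu : tyu u 2 = some 9) :
    ev H (p ++ [Lt.a 1] ++ u) - ev H (p ++ [Lt.F 2, Lt.M 0 2] ++ u) ∈ Submodule.torsion ℤ (A H) := by
  have h := (step_spec (H := H) env_eR lb0_ok).2 p u hp hu
  have e1 : dw 1 8 = [Lt.a 1] := by decide
  have e2 : dw 2 540866 = [Lt.F 2, Lt.M 0 2] := by decide
  unfold lb0 at h
  rw [vl_cons, vl_cons, vl_nil, e1, e2] at h
  have h' := Submodule.neg_mem _ h
  convert h' using 1
  simp only [neg_smul, one_smul]
  abel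

theorem bot1 {p u : List Lt} (hp : tyc p 0 = some 2) (hu : tyu u 2 = some 9) :
    ev H (p ++ [Lt.a 0] ++ u) - ev H (p ++ [Lt.F 2, Lt.M 1 2] ++ u) ∈ Submodule.torsion ℤ (A H) := by
  have h := (step_spec (H := H) env_eR lb1_ok).2 p u hp hu
  have e1 : dw 1 0 = [Lt.a 0] := by decide
  have e2 : dw 2 540874 = [Lt.F 2, Lt.M 1 2] := by decide
  unfold lb1 at h
  rw [vl_cons, vl_cons, vl_nil, e1, e2] at h
  have h' := Submodule.neg_mem _ h
  convert h' using 1
  simp only [neg_smul, one_smul]
  abel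

/-! ### All legs are moved to the bottom -/

/-- The words of the ladders. -/
def Lad (w : List Lt) : Prop := ∀ l ∈ w, l = Lt.a 0 ∨ l = Lt.a 1 ∨ l = Lt.b 0 1

/-- The exchange of the rails. -/
def fl : Lt → Lt
  | Lt.a 0 => Lt.a 1
  | Lt.a 1 => Lt.a 0
  | l => l

/-- The leg on the other rail at the bottom. -/
def bt : Lt → List Lt
  | Lt.a 0 => [Lt.F 2, Lt.M 1 2]
  | Lt.a 1 => [Lt.F 2, Lt.M 0 2]
  | l => [l]

/-- The end of a ladder. -/
def zz : List Lt := [Lt.M 0 1, Lt.A 0]

theorem Lad.tail {l : Lt} {w : List Lt} (h : Lad (l :: w)) : Lad w :=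
  fun x hx => h x (List.mem_cons_of_mem _ hx)

theorem Lad.head {l : Lt} {w : List Lt} (h : Lad (l :: w)) : l = Lt.a 0 ∨ l = Lt.a 1 ∨ l = Lt.b 0 1 :=
  h l (by simp)

theorem tyu_bt {w : List Lt} (h : Lad w) : tyu (w.flatMap bt ++ zz) 2 = some 9 := by
  induction w with
  | nil => rfl
  | cons l w ih =>
    rw [List.flatMap_cons, List.append_assoc]
    have h1 : tyu (bt l) 2 = some 2 := by
      rcases h.head with rfl | rfl | rfl <;> rfl
    exact tyu_append.2 ⟨2, h1, ih h.tail⟩

theorem conv {w : List Lt} (h : Lad w) {p : List Lt} (hp : tyc p 0 = some 2) :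
    ev H (p ++ w ++ zz) - ev H (p ++ w.flatMap bt ++ zz) ∈ Submodule.torsion ℤ (A H) := by
  induction w generalizing p with
  | nil =>
    rw [List.flatMap_nil, sub_self]
    exact Submodule.zero_mem _
  | cons l w ih =>
    have h1 : tyc [l] 2 = some 2 := by
      rcases h.head with rfl | rfl | rfl <;> rfl
    have h2 := ih h.tail (p := p ++ [l]) (tyc_append.2 ⟨2, hp, h1⟩)
    have h3 : ev H (p ++ [l] ++ (w.flatMap bt ++ zz)) - ev H (p ++ bt l ++ (w.flatMap bt ++ zz)) ∈
        Submodule.torsion ℤ (A H) := by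
      rcases h.head with rfl | rfl | rfl
      · exact bot1 hp (tyu_bt h.tail)
      · exact bot0 hp (tyu_bt h.tail)
      · show ev H (p ++ [Lt.b 0 1] ++ _) - ev H (p ++ [Lt.b 0 1] ++ _) ∈ _
        rw [sub_self]
        exact Submodule.zero_mem _
    have h4 := Submodule.add_mem _ h2 h3
    have e1 : p ++ l :: w ++ zz = p ++ [l] ++ w ++ zz := by simp
    have e2 : p ++ (l :: w).flatMap bt ++ zz = p ++ bt l ++ (w.flatMap bt ++ zz) := by
      simp [List.flatMap_cons]
    have e3 : p ++ [l] ++ (w.flatMap bt ++ zz) = p ++ [l] ++ w.flatMap bt ++ zz := by simp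
    rw [e1, e2]
    rw [e3] at h4
    convert h4 using 1
    abel

/-! ### The pieces with the legs at the bottom -/

/-- The sign. -/
def sl : Lt → ℤ
  | .a _ => -1
  | _ => 1

/-- The sign of a word. -/
def sgw (w : List Lt) : ℤ := (w.map sl).prod

theorem sgw_cons (l : Lt) (w : List Lt) : sgw (l :: w) = sl l * sgw w := by
  unfold sgw
  rw [List.map_cons, List.prod_cons]

theorem neg_tri (ls : List ℕ) (vs : List Tri) (x y z : ℕ) :
    cls H ls ((x, y, z) :: vs) = -cls H ls ((z, y, x) :: vs) := by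
  rw [rot1, rev1, rot1, rot1]

/-- The bottom piece `q` belongs to the piece `q'`. -/
structure Bp (H : Type) [DecidableEq H] (s : ℤ) (q q' : Pc) : Prop where
  r0 : q.ra 0 = q'.ra 0
  r1 : q.ra 1 = q'.ra 1
  n : q.n = q'.n
  L : q.L = []
  B : q.B = q'.L.reverse
  B' : q'.B = []
  V : ∀ ls vs, cls H ls (q.V ++ vs) = s • cls H ls (q'.V ++ vs)

theorem swt (ls : List ℕ) (t : Tri) (V vs : List Tri) :
    cls H ls (t :: V ++ vs) = cls H ls (V ++ t :: vs) := cls_perm List.perm_middle.symm

theorem bp_run {w : List Lt} (h : Lad w) (ra ra' : ℕ → ℕ) (n : ℕ) (h0 : ra 0 = ra' 0)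
    (h1 : ra 1 = ra' 1) : Bp H (sgw w) (run (w.flatMap bt) ra n) (run (w.map fl) ra' n) := by
  induction w generalizing ra ra' n with
  | nil =>
    refine ⟨h0, h1, rfl, rfl, rfl, rfl, fun ls vs => ?_⟩
    show _ = (1 : ℤ) • _
    rw [one_smul]
    rfl
  | cons l w ih =>
    rcases h.head with rfl | rfl | rfl
    · have r := ih h.tail (Function.update (Function.update ra 2 n) 1 (n + 2 - 1))
        (Function.update ra' 1 (n + 1)) (n + 2) (by
          rw [Function.update_of_ne (by decide), Function.update_of_ne (by decide),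
            Function.update_of_ne (by decide), h0]) (by
          rw [Function.update_self, Function.update_self]
          rfl)
      rw [List.flatMap_cons]
      have e1 : run (bt (Lt.a 0) ++ w.flatMap bt) ra n =
          ⟨(run (w.flatMap bt) (Function.update (Function.update ra 2 n) 1 (n + 1)) (n + 2)).ra,
          (run (w.flatMap bt) (Function.update (Function.update ra 2 n) 1 (n + 1)) (n + 2)).n,
          (run (w.flatMap bt) (Function.update (Function.update ra 2 n) 1 (n + 1)) (n + 2)).L,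
          (n + 1, ra 1, n) ::
          (run (w.flatMap bt) (Function.update (Function.update ra 2 n) 1 (n + 1)) (n + 2)).V,
          (run (w.flatMap bt) (Function.update (Function.update ra 2 n) 1 (n + 1)) (n + 2)).B ++
            [n]⟩ := by
        simp [bt, run, stp]
      have e2 : run ((Lt.a 0 :: w).map fl) ra' n =
          ⟨(run (w.map fl) (Function.update ra' 1 (n + 1)) (n + 2)).ra,
          (run (w.map fl) (Function.update ra' 1 (n + 1)) (n + 2)).n,
          n :: (run (w.map fl) (Function.update ra' 1 (n + 1)) (n + 2)).L,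
          (n, ra' 1, n + 1) :: (run (w.map fl) (Function.update ra' 1 (n + 1)) (n + 2)).V,
          (run (w.map fl) (Function.update ra' 1 (n + 1)) (n + 2)).B⟩ := by
        simp [fl, run, stp]
      rw [e1, e2]
      have r' : Bp H (sgw w)
        (run (w.flatMap bt) (Function.update (Function.update ra 2 n) 1 (n + 1)) (n + 2))
        (run (w.map fl) (Function.update ra' 1 (n + 1)) (n + 2)) := r
      refine ⟨r'.r0, r'.r1, r'.n, r'.L, ?_, r'.B', fun ls vs => ?_⟩
      · show _ ++ [n] = (n :: _).reverse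
        rw [List.reverse_cons, r'.B]
      · have e3 := r'.V ls ((n + 1, ra 1, n) :: vs)
        have e4 : cls H ls ((run (w.map fl) (Function.update ra' 1 (n + 1)) (n + 2)).V ++
            (n + 1, ra 1, n) :: vs) = -cls H ls ((run (w.map fl) (Function.update ra' 1 (n + 1))
            (n + 2)).V ++ (n, ra' 1, n + 1) :: vs) := by
          rw [← swt, List.cons_append, neg_tri, ← List.cons_append, swt, h1]
        rw [swt, e3, e4, swt, sgw_cons]
        simp [sl]
    · have r := ih h.tail (Function.update (Function.update ra 2 n) 0 (n + 2 - 1))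
        (Function.update ra' 0 (n + 1)) (n + 2) (by
          rw [Function.update_self, Function.update_self]
          rfl) (by
          rw [Function.update_of_ne (by decide), Function.update_of_ne (by decide),
            Function.update_of_ne (by decide), h1])
      rw [List.flatMap_cons]
      have e1 : run (bt (Lt.a 1) ++ w.flatMap bt) ra n =
          ⟨(run (w.flatMap bt) (Function.update (Function.update ra 2 n) 0 (n + 1)) (n + 2)).ra,
          (run (w.flatMap bt) (Function.update (Function.update ra 2 n) 0 (n + 1)) (n + 2)).n,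
          (run (w.flatMap bt) (Function.update (Function.update ra 2 n) 0 (n + 1)) (n + 2)).L,
          (n + 1, ra 0, n) ::
          (run (w.flatMap bt) (Function.update (Function.update ra 2 n) 0 (n + 1)) (n + 2)).V,
          (run (w.flatMap bt) (Function.update (Function.update ra 2 n) 0 (n + 1)) (n + 2)).B ++
            [n]⟩ := by
        simp [bt, run, stp]
      have e2 : run ((Lt.a 1 :: w).map fl) ra' n =
          ⟨(run (w.map fl) (Function.update ra' 0 (n + 1)) (n + 2)).ra,
          (run (w.map fl) (Function.update ra' 0 (n + 1)) (n + 2)).n,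
          n :: (run (w.map fl) (Function.update ra' 0 (n + 1)) (n + 2)).L,
          (n, ra' 0, n + 1) :: (run (w.map fl) (Function.update ra' 0 (n + 1)) (n + 2)).V,
          (run (w.map fl) (Function.update ra' 0 (n + 1)) (n + 2)).B⟩ := by
        simp [fl, run, stp]
      rw [e1, e2]
      have r' : Bp H (sgw w)
        (run (w.flatMap bt) (Function.update (Function.update ra 2 n) 0 (n + 1)) (n + 2))
        (run (w.map fl) (Function.update ra' 0 (n + 1)) (n + 2)) := r
      refine ⟨r'.r0, r'.r1, r'.n, r'.L, ?_, r'.B', fun ls vs => ?_⟩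
      · show _ ++ [n] = (n :: _).reverse
        rw [List.reverse_cons, r'.B]
      · have e3 := r'.V ls ((n + 1, ra 0, n) :: vs)
        have e4 : cls H ls ((run (w.map fl) (Function.update ra' 0 (n + 1)) (n + 2)).V ++
            (n + 1, ra 0, n) :: vs) = -cls H ls ((run (w.map fl) (Function.update ra' 0 (n + 1))
            (n + 2)).V ++ (n, ra' 0, n + 1) :: vs) := by
          rw [← swt, List.cons_append, neg_tri, ← List.cons_append, swt, h0]
        rw [swt, e3, e4, swt, sgw_cons]
        simp [sl]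
    · have r := ih h.tail (Function.update (Function.update ra 0 (n + 1)) 1 (n + 2))
        (Function.update (Function.update ra' 0 (n + 1)) 1 (n + 2)) (n + 3) (by
          simp) (by
          rw [Function.update_self, Function.update_self])
      rw [List.flatMap_cons]
      have e1 : run (bt (Lt.b 0 1) ++ w.flatMap bt) ra n =
          ⟨(run (w.flatMap bt) (Function.update (Function.update ra 0 (n + 1)) 1 (n + 2))
            (n + 3)).ra,
          (run (w.flatMap bt) (Function.update (Function.update ra 0 (n + 1)) 1 (n + 2))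
            (n + 3)).n,
          (run (w.flatMap bt) (Function.update (Function.update ra 0 (n + 1)) 1 (n + 2))
            (n + 3)).L,
          (n, ra 0, n + 1) :: (n, ra 1, n + 2) ::
          (run (w.flatMap bt) (Function.update (Function.update ra 0 (n + 1)) 1 (n + 2))
            (n + 3)).V,
          (run (w.flatMap bt) (Function.update (Function.update ra 0 (n + 1)) 1 (n + 2))
            (n + 3)).B⟩ := by
        simp [bt, run, stp]
      have e2 : run ((Lt.b 0 1 :: w).map fl) ra' n =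
          ⟨(run (w.map fl) (Function.update (Function.update ra' 0 (n + 1)) 1 (n + 2))
            (n + 3)).ra,
          (run (w.map fl) (Function.update (Function.update ra' 0 (n + 1)) 1 (n + 2))
            (n + 3)).n,
          (run (w.map fl) (Function.update (Function.update ra' 0 (n + 1)) 1 (n + 2))
            (n + 3)).L,
          (n, ra' 0, n + 1) :: (n, ra' 1, n + 2) ::
          (run (w.map fl) (Function.update (Function.update ra' 0 (n + 1)) 1 (n + 2))
            (n + 3)).V,
          (run (w.map fl) (Function.update (Function.update ra' 0 (n + 1)) 1 (n + 2))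
            (n + 3)).B⟩ := by
        simp [fl, run, stp]
      rw [e1, e2]
      refine ⟨r.r0, r.r1, r.n, r.L, r.B, r.B', fun ls vs => ?_⟩
      have e3 := r.V ls ((n, ra 0, n + 1) :: (n, ra 1, n + 2) :: vs)
      have e4 : ∀ (t t' : Tri) (V vs : List Tri), cls H ls (t :: t' :: V ++ vs) =
          cls H ls (V ++ t :: t' :: vs) := fun t t' V vs => by
        refine cls_perm ?_
        refine (List.Perm.trans ?_ (List.perm_append_comm (l₁ := t :: t' :: vs) (l₂ := V)))
        simp only [List.cons_append]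
        exact List.Perm.cons _ (List.Perm.cons _ List.perm_append_comm)
      rw [e4, e3, h0, h1, ← e4, sgw_cons]
      simp [sl]

/-! ### The pieces read backwards -/

/-- The labels of a piece of a ladder. -/
def SS (rb : ℕ → ℕ) (m N x : ℕ) : Prop := (∃ s < 2, x = rb s) ∨ (m ≤ x ∧ x < N)

/-- The piece `r` is the piece `q` read backwards. -/
structure Rr (H : Type) [DecidableEq H] (s : ℤ) (ra : ℕ → ℕ) (n : ℕ) (q : Pc) (rb : ℕ → ℕ)
    (m : ℕ) (r : Pc) (g : ℕ → ℕ) : Prop where
  a : ∀ s < 2, g (rb s) = q.ra s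
  b : ∀ s < 2, g (r.ra s) = ra s
  L : r.L.map g = q.L.reverse
  V : ∀ ls vs, cls H ls (r.V.map (mp g) ++ vs) = s • cls H ls (q.V ++ vs)
  im : ∀ x, SS rb m r.n x → SS ra n q.n (g x)
  inj : ∀ x y, SS rb m r.n x → SS rb m r.n y → g x = g y → x = y

theorem Lad.ty {w : List Lt} (h : Lad w) : ty w 2 = some 2 := by
  induction w with
  | nil => rfl
  | cons l w ih =>
    show (tl l 2).bind (SWW54.ty w) = some 2
    rcases h.head with rfl | rfl | rfl <;> exact ih h.tail

theorem Lad.rev {w : List Lt} (h : Lad w) : Lad w.reverse := fun l hl =>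
  h l (List.mem_reverse.1 hl)

theorem lad_B {w : List Lt} (h : Lad w) (ra : ℕ → ℕ) (n : ℕ) : (run w ra n).B = [] := by
  induction w generalizing ra n with
  | nil => rfl
  | cons l w ih =>
    show (run w _ _).B ++ (stp l ra n).B = []
    rw [ih h.tail]
    rcases h.head with rfl | rfl | rfl <;> rfl

theorem map_congr_V {g g' : ℕ → ℕ} {V : List Tri} {N : ℕ}
    (hV : ∀ t ∈ V, t.1 < N ∧ t.2.1 < N ∧ t.2.2 < N) (hg : ∀ x < N, g x = g' x) :
    V.map (mp g) = V.map (mp g') := by
  refine List.map_congr_left fun t ht => ?_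
  obtain ⟨h1, h2, h3⟩ := hV t ht
  show (g t.1, g t.2.1, g t.2.2) = (g' t.1, g' t.2.1, g' t.2.2)
  rw [hg _ h1, hg _ h2, hg _ h3]

theorem rr_a {i : ℕ} (hi : i < 2) {ra : ℕ → ℕ} {n : ℕ} (h1 : ∀ s < 2, ra s < n)
    (h2 : ∀ s < 2, ∀ t < 2, ra s = ra t → s = t) {rb : ℕ → ℕ} {m : ℕ} (h3 : ∀ s < 2, rb s < m)
    {s₀ : ℤ} {q r : Pc} {g : ℕ → ℕ}
    (hr : Rr H s₀ (Function.update ra i (n + 1)) (n + 2) q rb m r g) (hq : n + 2 ≤ q.n)
    (hm : m ≤ r.n) (hal : Al (fun z => z < r.n) 2 r) (B₁ B₂ : List ℕ) :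
    Rr H (-s₀) ra n ⟨q.ra, q.n, n :: q.L, (n, ra i, n + 1) :: q.V, B₁⟩ rb m
      ⟨Function.update r.ra i (r.n + 1), r.n + 2, r.L ++ [r.n],
        r.V ++ [(r.n, r.ra i, r.n + 1)], B₂⟩
      (fun x => if x = r.n then n else if x = r.n + 1 then ra i else g x) := by
  have hg : ∀ x < r.n, (fun x => if x = r.n then n else if x = r.n + 1 then ra i else g x) x =
      g x := by
    intro x hx
    show (if x = r.n then n else if x = r.n + 1 then ra i else g x) = g x
    rw [if_neg (by omega), if_neg (by omega)]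
  set G : ℕ → ℕ := fun x => if x = r.n then n else if x = r.n + 1 then ra i else g x with hG
  have G0 : G r.n = n := if_pos rfl
  have G1 : G (r.n + 1) = ra i := by
    rw [hG]
    show (if r.n + 1 = r.n then n else if r.n + 1 = r.n + 1 then ra i else g (r.n + 1)) = ra i
    rw [if_neg (by omega), if_pos rfl]
  have old : ∀ x, SS rb m (r.n + 2) x → x ≠ r.n → x ≠ r.n + 1 → SS rb m r.n x ∧ x < r.n := by
    rintro x (⟨s, hs, rfl⟩ | ⟨hx, hx'⟩) hx1 hx2
    · exact ⟨Or.inl ⟨s, hs, rfl⟩, (h3 s hs).trans_le hm⟩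
    · exact ⟨Or.inr ⟨hx, by omega⟩, by omega⟩
  have im' : ∀ x, SS rb m r.n x → (∃ s < 2, s ≠ i ∧ g x = ra s) ∨ (n + 1 ≤ g x ∧ g x < q.n) := by
    intro x hx
    rcases hr.im x hx with ⟨s, hs, h⟩ | ⟨h, h'⟩
    · by_cases hsi : s = i
      · right
        rw [h, hsi, Function.update_self]
        omega
      · left
        exact ⟨s, hs, hsi, by rw [h, Function.update_of_ne hsi]⟩
    · right
      omega
  have hn : ∀ x, SS rb m r.n x → g x ≠ n := by
    intro x hx he
    rcases im' x hx with ⟨s, hs, -, h⟩ | ⟨h, -⟩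
    · have := h1 s hs
      omega
    · omega
  have hri : ∀ x, SS rb m r.n x → g x ≠ ra i := by
    intro x hx he
    rcases im' x hx with ⟨s, hs, hsi, h⟩ | ⟨h, -⟩
    · exact hsi (h2 s hs i hi (h.symm.trans he))
    · have := h1 i hi
      omega
  refine ⟨?_, ?_, ?_, ?_, ?_, ?_⟩
  · intro s hs
    rw [hg _ ((h3 s hs).trans_le hm)]
    exact hr.a s hs
  · intro s hs
    show G (Function.update r.ra i (r.n + 1) s) = ra s
    by_cases hsi : s = i
    · rw [hsi, Function.update_self, G1]
    · rw [Function.update_of_ne hsi, hg _ (hal.ra s hs), hr.b s hs, Function.update_of_ne hsi]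
  · show (r.L ++ [r.n]).map G = (n :: q.L).reverse
    rw [List.map_append, List.reverse_cons, List.map_cons, List.map_nil, G0, ← hr.L]
    congr 1
    exact List.map_congr_left fun x hx => hg x (hal.L x hx)
  · intro ls vs
    show cls H ls ((r.V ++ [(r.n, r.ra i, r.n + 1)]).map (mp G) ++ vs) =
      -s₀ • cls H ls ((n, ra i, n + 1) :: q.V ++ vs)
    have e1 : r.V.map (mp G) = r.V.map (mp g) := map_congr_V hal.V hg
    have e2 : mp G (r.n, r.ra i, r.n + 1) = (n, n + 1, ra i) := by
      show (G r.n, G (r.ra i), G (r.n + 1)) = _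
      rw [G0, G1, hg _ (hal.ra i hi), hr.b i hi, Function.update_self]
    rw [List.map_append, e1, List.map_cons, List.map_nil, e2, List.append_assoc,
      List.singleton_append, hr.V, ← swt, List.cons_append, rev1, smul_neg, neg_smul]
    rfl
  · intro x hx
    show SS ra n q.n (G x)
    by_cases hx1 : x = r.n
    · rw [hx1, G0]
      right
      omega
    · by_cases hx2 : x = r.n + 1
      · rw [hx2, G1]
        exact Or.inl ⟨i, hi, rfl⟩
      · obtain ⟨h, h'⟩ := old x hx hx1 hx2
        rw [hg x h']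
        rcases im' x h with ⟨s, hs, -, h⟩ | ⟨h, h''⟩
        · exact Or.inl ⟨s, hs, h⟩
        · right
          omega
  · intro x y hx hy hxy
    have hin : ra i ≠ n := by
      have := h1 i hi
      omega
    by_cases hx1 : x = r.n
    · by_cases hy1 : y = r.n
      · rw [hx1, hy1]
      · exfalso
        rw [hx1, G0] at hxy
        by_cases hy2 : y = r.n + 1
        · rw [hy2, G1] at hxy
          exact hin hxy.symm
        · obtain ⟨h, h'⟩ := old y hy hy1 hy2
          rw [hg y h'] at hxy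
          exact hn y h hxy.symm
    · by_cases hx2 : x = r.n + 1
      · rw [hx2, G1] at hxy
        by_cases hy1 : y = r.n
        · exfalso
          rw [hy1, G0] at hxy
          exact hin hxy
        · by_cases hy2 : y = r.n + 1
          · rw [hx2, hy2]
          · exfalso
            obtain ⟨h, h'⟩ := old y hy hy1 hy2
            rw [hg y h'] at hxy
            exact hri y h hxy.symm
      · obtain ⟨h, h'⟩ := old x hx hx1 hx2
        rw [hg x h'] at hxy
        by_cases hy1 : y = r.n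
        · exfalso
          rw [hy1, G0] at hxy
          exact hn x h hxy
        · by_cases hy2 : y = r.n + 1
          · exfalso
            rw [hy2, G1] at hxy
            exact hri x h hxy
          · obtain ⟨k, k'⟩ := old y hy hy1 hy2
            rw [hg y k'] at hxy
            exact hr.inj x y h k hxy

theorem rr_b {ra : ℕ → ℕ} {n : ℕ} (h1 : ∀ s < 2, ra s < n)
    (h2 : ∀ s < 2, ∀ t < 2, ra s = ra t → s = t) {rb : ℕ → ℕ} {m : ℕ} (h3 : ∀ s < 2, rb s < m)
    {s₀ : ℤ} {q r : Pc} {g : ℕ → ℕ}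
    (hr : Rr H s₀ (Function.update (Function.update ra 0 (n + 1)) 1 (n + 2)) (n + 3) q rb m r g)
    (hq : n + 3 ≤ q.n) (hm : m ≤ r.n) (hal : Al (fun z => z < r.n) 2 r) (B₁ B₂ : List ℕ) :
    Rr H s₀ ra n ⟨q.ra, q.n, q.L, (n, ra 0, n + 1) :: (n, ra 1, n + 2) :: q.V, B₁⟩ rb m
      ⟨Function.update (Function.update r.ra 0 (r.n + 1)) 1 (r.n + 2), r.n + 3, r.L,
        r.V ++ [(r.n, r.ra 0, r.n + 1), (r.n, r.ra 1, r.n + 2)], B₂⟩
      (fun x => if x = r.n then n else if x = r.n + 1 then ra 0 else if x = r.n + 2 then ra 1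
        else g x) := by
  have hg : ∀ x < r.n, (fun x => if x = r.n then n else if x = r.n + 1 then ra 0 else
      if x = r.n + 2 then ra 1 else g x) x = g x := by
    intro x hx
    show (if x = r.n then n else if x = r.n + 1 then ra 0 else if x = r.n + 2 then ra 1
      else g x) = g x
    rw [if_neg (by omega), if_neg (by omega), if_neg (by omega)]
  set G : ℕ → ℕ := fun x => if x = r.n then n else if x = r.n + 1 then ra 0 else
    if x = r.n + 2 then ra 1 else g x with hG
  have G0 : G r.n = n := if_pos rfl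
  have G1 : G (r.n + 1) = ra 0 := by
    rw [hG]
    show (if r.n + 1 = r.n then n else if r.n + 1 = r.n + 1 then ra 0 else
      if r.n + 1 = r.n + 2 then ra 1 else g (r.n + 1)) = ra 0
    rw [if_neg (by omega), if_pos rfl]
  have G2 : G (r.n + 2) = ra 1 := by
    rw [hG]
    show (if r.n + 2 = r.n then n else if r.n + 2 = r.n + 1 then ra 0 else
      if r.n + 2 = r.n + 2 then ra 1 else g (r.n + 2)) = ra 1
    rw [if_neg (by omega), if_neg (by omega), if_pos rfl]
  have a0 := h1 0 (by decide)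
  have a1 := h1 1 (by decide)
  have hne : ra 0 ≠ ra 1 := fun h => absurd (h2 0 (by decide) 1 (by decide) h) (by decide)
  have u0 : Function.update (Function.update ra 0 (n + 1)) 1 (n + 2) 0 = n + 1 := by simp
  have u1 : Function.update (Function.update ra 0 (n + 1)) 1 (n + 2) 1 = n + 2 := by simp
  have old : ∀ x, SS rb m (r.n + 3) x → x ≠ r.n → x ≠ r.n + 1 → x ≠ r.n + 2 →
      SS rb m r.n x ∧ x < r.n := by
    rintro x (⟨s, hs, rfl⟩ | ⟨hx, hx'⟩) hx1 hx2 hx3
    · exact ⟨Or.inl ⟨s, hs, rfl⟩, (h3 s hs).trans_le hm⟩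
    · exact ⟨Or.inr ⟨hx, by omega⟩, by omega⟩
  have im' : ∀ x, SS rb m r.n x → n + 1 ≤ g x ∧ g x < q.n := by
    intro x hx
    rcases hr.im x hx with ⟨s, hs, h⟩ | ⟨h, h'⟩
    · have : s = 0 ∨ s = 1 := by omega
      rcases this with rfl | rfl
      · rw [u0] at h
        omega
      · rw [u1] at h
        omega
    · omega
  refine ⟨?_, ?_, ?_, ?_, ?_, ?_⟩
  · intro s hs
    rw [hg _ ((h3 s hs).trans_le hm)]
    exact hr.a s hs
  · intro s hs
    show G (Function.update (Function.update r.ra 0 (r.n + 1)) 1 (r.n + 2) s) = ra s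
    have : s = 0 ∨ s = 1 := by omega
    rcases this with rfl | rfl
    · rw [Function.update_of_ne (by decide), Function.update_self, G1]
    · rw [Function.update_self, G2]
  · show r.L.map G = q.L.reverse
    rw [← hr.L]
    exact List.map_congr_left fun x hx => hg x (hal.L x hx)
  · intro ls vs
    show cls H ls ((r.V ++ [(r.n, r.ra 0, r.n + 1), (r.n, r.ra 1, r.n + 2)]).map (mp G) ++ vs) =
      s₀ • cls H ls ((n, ra 0, n + 1) :: (n, ra 1, n + 2) :: q.V ++ vs)
    have e1 : r.V.map (mp G) = r.V.map (mp g) := map_congr_V hal.V hg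
    have e2 : mp G (r.n, r.ra 0, r.n + 1) = (n, n + 1, ra 0) := by
      show (G r.n, G (r.ra 0), G (r.n + 1)) = _
      rw [G0, G1, hg _ (hal.ra 0 (by decide)), hr.b 0 (by decide), u0]
    have e3 : mp G (r.n, r.ra 1, r.n + 2) = (n, n + 2, ra 1) := by
      show (G r.n, G (r.ra 1), G (r.n + 2)) = _
      rw [G0, G2, hg _ (hal.ra 1 (by decide)), hr.b 1 (by decide), u1]
    have e4 : ∀ (t t' : Tri) (V vs : List Tri), cls H ls (t :: t' :: V ++ vs) =
        cls H ls (V ++ t :: t' :: vs) := fun t t' V vs => by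
      refine cls_perm ?_
      refine (List.Perm.trans ?_ (List.perm_append_comm (l₁ := t :: t' :: vs) (l₂ := V)))
      simp only [List.cons_append]
      exact List.Perm.cons _ (List.Perm.cons _ List.perm_append_comm)
    rw [List.map_append, e1, List.map_cons, List.map_cons, List.map_nil, e2, e3,
      List.append_assoc, List.cons_append, List.singleton_append, hr.V, ← e4]
    simp only [List.cons_append]
    rw [rev1, rev2, neg_neg]
  · intro x hx
    show SS ra n q.n (G x)
    by_cases hx1 : x = r.n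
    · rw [hx1, G0]
      right
      omega
    · by_cases hx2 : x = r.n + 1
      · rw [hx2, G1]
        exact Or.inl ⟨0, by decide, rfl⟩
      · by_cases hx3 : x = r.n + 2
        · rw [hx3, G2]
          exact Or.inl ⟨1, by decide, rfl⟩
        · obtain ⟨h, h'⟩ := old x hx hx1 hx2 hx3
          rw [hg x h']
          have := im' x h
          right
          omega
  · -- the values of `G`
    have val : ∀ x, SS rb m (r.n + 3) x → (x = r.n ∧ G x = n) ∨ (x = r.n + 1 ∧ G x = ra 0) ∨
        (x = r.n + 2 ∧ G x = ra 1) ∨ (SS rb m r.n x ∧ G x = g x ∧ n + 1 ≤ g x) := by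
      intro x hx
      by_cases hx1 : x = r.n
      · exact Or.inl ⟨hx1, by rw [hx1, G0]⟩
      · by_cases hx2 : x = r.n + 1
        · exact Or.inr (Or.inl ⟨hx2, by rw [hx2, G1]⟩)
        · by_cases hx3 : x = r.n + 2
          · exact Or.inr (Or.inr (Or.inl ⟨hx3, by rw [hx3, G2]⟩))
          · obtain ⟨h, h'⟩ := old x hx hx1 hx2 hx3
            exact Or.inr (Or.inr (Or.inr ⟨h, hg x h', (im' x h).1⟩))
    intro x y hx hy hxy
    rcases val x hx with ⟨p1, p2⟩ | ⟨p1, p2⟩ | ⟨p1, p2⟩ | ⟨p1, p2, p3⟩ <;>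
      rcases val y hy with ⟨q1, q2⟩ | ⟨q1, q2⟩ | ⟨q1, q2⟩ | ⟨q1, q2, q3⟩ <;>
      first
        | (exfalso; omega)
        | (rw [p1, q1])
        | exact hr.inj x y p1 q1 (by omega)

theorem rr_run {v : List Lt} (h : Lad v) {ra : ℕ → ℕ} {n : ℕ} (h1 : ∀ s < 2, ra s < n)
    (h2 : ∀ s < 2, ∀ t < 2, ra s = ra t → s = t) {rb : ℕ → ℕ} {m : ℕ} (h3 : ∀ s < 2, rb s < m)
    (h4 : ∀ s < 2, ∀ t < 2, rb s = rb t → s = t) :
    ∃ g, Rr H (sgw v) ra n (run v ra n) rb m (run v.reverse rb m) g := by
  induction v generalizing ra n with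
  | nil =>
    have hne : rb 1 ≠ rb 0 := fun h => absurd (h4 1 (by decide) 0 (by decide) h) (by decide)
    have hg : ∀ s < 2, (if rb s = rb 0 then ra 0 else ra 1) = ra s := by
      intro s hs
      have : s = 0 ∨ s = 1 := by omega
      rcases this with rfl | rfl
      · exact if_pos rfl
      · exact if_neg hne
    have hS : ∀ x, SS rb m m x → ∃ s < 2, x = rb s := by
      rintro x (h | h)
      · exact h
      · omega
    refine ⟨fun x => if x = rb 0 then ra 0 else ra 1, hg, hg, rfl, fun ls vs => ?_, ?_, ?_⟩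
    · show _ = (1 : ℤ) • _
      rw [one_smul]
      rfl
    · intro x hx
      obtain ⟨s, hs, rfl⟩ := hS x hx
      exact Or.inl ⟨s, hs, hg s hs⟩
    · intro x y hx hy hxy
      obtain ⟨s, hs, rfl⟩ := hS x hx
      obtain ⟨t, ht, rfl⟩ := hS y hy
      have e : ra s = ra t := (hg s hs).symm.trans (hxy.trans (hg t ht))
      rw [h2 s hs t ht e]
  | cons l v ih =>
    have hm : m ≤ (run v.reverse rb m).n := run_n _ _ _
    have hal : Al (fun z => z < (run v.reverse rb m).n) 2 (run v.reverse rb m) :=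
      run_lt h.tail.rev.ty h3
    have key : ∀ i < 2, l = Lt.a i → ∃ g, Rr H (sgw (l :: v)) ra n (run (l :: v) ra n) rb m
        (run (l :: v).reverse rb m) g := by
      rintro i hi rfl
      obtain ⟨g, hg⟩ := ih h.tail (ra := Function.update ra i (n + 1)) (n := n + 2)
        (fun s hs => by
          by_cases hsi : s = i
          · rw [hsi, Function.update_self]
            omega
          · rw [Function.update_of_ne hsi]
            have := h1 s hs
            omega)
        (fun s hs t ht hst => by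
          by_cases hsi : s = i
          · by_cases hti : t = i
            · rw [hsi, hti]
            · exfalso
              rw [hsi, Function.update_self, Function.update_of_ne hti] at hst
              have := h1 t ht
              omega
          · by_cases hti : t = i
            · exfalso
              rw [hti, Function.update_self, Function.update_of_ne hsi] at hst
              have := h1 s hs
              omega
            · rw [Function.update_of_ne hsi, Function.update_of_ne hti] at hst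
              exact h2 s hs t ht hst)
      have e : sl (Lt.a i) * sgw v = -sgw v := by
        show -1 * sgw v = _
        ring
      rw [sgw_cons, List.reverse_cons, run_append, e]
      exact ⟨_, rr_a hi h1 h2 h3 hg (run_n _ _ _) hm hal _ _⟩
    rcases h.head with rfl | rfl | rfl
    · exact key 0 (by decide) rfl
    · exact key 1 (by decide) rfl
    · have u0 : Function.update (Function.update ra 0 (n + 1)) 1 (n + 2) 0 = n + 1 := by simp
      have u1 : Function.update (Function.update ra 0 (n + 1)) 1 (n + 2) 1 = n + 2 := by simp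
      obtain ⟨g, hg⟩ := ih h.tail
        (ra := Function.update (Function.update ra 0 (n + 1)) 1 (n + 2)) (n := n + 3)
        (fun s hs => by
          have : s = 0 ∨ s = 1 := by omega
          rcases this with rfl | rfl
          · rw [u0]
            omega
          · rw [u1]
            omega)
        (fun s hs t ht hst => by
          have q1 : s = 0 ∨ s = 1 := by omega
          have q2 : t = 0 ∨ t = 1 := by omega
          rcases q1 with rfl | rfl <;> rcases q2 with rfl | rfl
          · rfl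
          · rw [u0, u1] at hst
            omega
          · rw [u0, u1] at hst
            omega
          · rfl)
      have e : sl (Lt.b 0 1) * sgw v = sgw v := by
        show 1 * sgw v = _
        ring
      have e' : (run v.reverse rb m).L ++ (run [Lt.b 0 1] (run v.reverse rb m).ra
          (run v.reverse rb m).n).L = (run v.reverse rb m).L := List.append_nil _
      rw [sgw_cons, List.reverse_cons, run_append, e, e']
      exact ⟨_, rr_b h1 h2 h3 hg (run_n _ _ _) hm hal _ _⟩

/-! ### The exchange of the rails -/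

theorem P_a0 {p u : List Lt} (hp : ty p 0 = some 2) (hu : ty u 2 = some 0) :
    ev H (p ++ [Lt.P 0 1, Lt.a 0] ++ u) = ev H (p ++ [Lt.a 1, Lt.P 0 1] ++ u) :=
  eqB_spec (H := H) (k := 2) (outs := [3, 0]) (d := 2) (t := ([Lt.P 0 1, Lt.a 0], [0, 1]))
    (t' := ([Lt.a 1, Lt.P 0 1], [0, 1])) hp hu (by decide +kernel)

theorem P_a1 {p u : List Lt} (hp : ty p 0 = some 2) (hu : ty u 2 = some 0) :
    ev H (p ++ [Lt.P 0 1, Lt.a 1] ++ u) = ev H (p ++ [Lt.a 0, Lt.P 0 1] ++ u) :=
  eqB_spec (H := H) (k := 2) (outs := [1, 3]) (d := 2) (t := ([Lt.P 0 1, Lt.a 1], [0, 1]))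
    (t' := ([Lt.a 0, Lt.P 0 1], [0, 1])) hp hu (by decide +kernel)

theorem P_b {p u : List Lt} (hp : ty p 0 = some 2) (hu : ty u 2 = some 0) :
    ev H (p ++ [Lt.P 0 1, Lt.b 0 1] ++ u) = ev H (p ++ [Lt.b 0 1, Lt.P 0 1] ++ u) :=
  eqB_spec (H := H) (k := 2) (outs := [4, 3]) (d := 3) (t := ([Lt.P 0 1, Lt.b 0 1], [0, 2, 1]))
    (t' := ([Lt.b 0 1, Lt.P 0 1], [0, 1, 2])) hp hu (by decide +kernel)

theorem P_w {w : List Lt} (h : Lad w) {p : List Lt} (hp : ty p 0 = some 2) :
    ev H (p ++ Lt.P 0 1 :: w ++ zz) = ev H (p ++ w.map fl ++ Lt.P 0 1 :: zz) := by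
  induction w generalizing p with
  | nil => simp
  | cons l w ih =>
    have hu : ty (w ++ zz) 2 = some 0 := ty_append.2 ⟨2, h.tail.ty, rfl⟩
    have h1 : ty [fl l] 2 = some 2 := by
      rcases h.head with rfl | rfl | rfl <;> rfl
    have h2 := ih h.tail (p := p ++ [fl l]) (ty_append.2 ⟨2, hp, h1⟩)
    have h3 : ev H (p ++ [Lt.P 0 1, l] ++ (w ++ zz)) = ev H (p ++ [fl l, Lt.P 0 1] ++ (w ++ zz)) := by
      rcases h.head with rfl | rfl | rfl
      · exact P_a0 hp hu
      · exact P_a1 hp hu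
      · exact P_b hp hu
    have e1 : p ++ Lt.P 0 1 :: l :: w ++ zz = p ++ [Lt.P 0 1, l] ++ (w ++ zz) := by simp
    have e2 : p ++ (l :: w).map fl ++ Lt.P 0 1 :: zz = p ++ [fl l] ++ w.map fl ++ Lt.P 0 1 :: zz := by
      simp
    have e3 : p ++ [fl l, Lt.P 0 1] ++ (w ++ zz) = p ++ [fl l] ++ Lt.P 0 1 :: w ++ zz := by simp
    rw [e1, h3, e3, h2, e2]

theorem flip_lad {w : List Lt} (h : Lad w) :
    ev H ([Lt.E 0, Lt.Y 0 1] ++ w.map fl ++ zz) = ev H ([Lt.E 0, Lt.Y 0 1] ++ w ++ zz) := by
  have hY : ∀ u, ty u 2 = some 0 →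
      ev H ([Lt.E 0] ++ [Lt.Y 0 1, Lt.P 0 1] ++ u) + ev H ([Lt.E 0] ++ [Lt.Y 0 1] ++ u) = 0 := by
    intro u hu
    have := chk_spec (H := H) (k := 1) (d := 2) (outs := [1, 2])
      (ts := [(1, [Lt.Y 0 1, Lt.P 0 1], [1, 0]), (1, [Lt.Y 0 1], [0, 1])]) (is := []) (by decide +kernel)
      (p := [Lt.E 0]) (u := u) rfl hu
    simpa only [List.map_cons, List.map_nil, List.sum_cons, List.sum_nil, one_smul, add_zero]
      using this
  have hM : ∀ p, ty p 0 = some 2 →
      ev H (p ++ [Lt.P 0 1, Lt.M 0 1] ++ [Lt.A 0]) + ev H (p ++ [Lt.M 0 1] ++ [Lt.A 0]) = 0 := by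
    intro p hp
    have := chk_spec (H := H) (k := 2) (d := 1) (outs := [2])
      (ts := [(1, [Lt.P 0 1, Lt.M 0 1], [0]), (1, [Lt.M 0 1], [0])]) (is := []) (by decide +kernel)
      (p := p) (u := [Lt.A 0]) hp rfl
    simpa only [List.map_cons, List.map_nil, List.sum_cons, List.sum_nil, one_smul, add_zero]
      using this
  have h0 : ty [Lt.E 0, Lt.Y 0 1] 0 = some 2 := rfl
  have hf : Lad (w.map fl) := by
    intro l hl
    obtain ⟨x, hx, rfl⟩ := List.mem_map.1 hl
    rcases h x hx with rfl | rfl | rfl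
    · exact Or.inr (Or.inl rfl)
    · exact Or.inl rfl
    · exact Or.inr (Or.inr rfl)
  have e1 := P_w (H := H) h h0
  have e2 := hY (w ++ zz) (ty_append.2 ⟨2, h.ty, rfl⟩)
  have e3 := hM ([Lt.E 0, Lt.Y 0 1] ++ w.map fl) (ty_append.2 ⟨2, h0, hf.ty⟩)
  have e4 : [Lt.E 0] ++ [Lt.Y 0 1, Lt.P 0 1] ++ (w ++ zz) = [Lt.E 0, Lt.Y 0 1] ++ Lt.P 0 1 :: w ++ zz := rfl
  have e5 : [Lt.E 0] ++ [Lt.Y 0 1] ++ (w ++ zz) = [Lt.E 0, Lt.Y 0 1] ++ w ++ zz := rfl
  have e6 : [Lt.E 0, Lt.Y 0 1] ++ w.map fl ++ [Lt.P 0 1, Lt.M 0 1] ++ [Lt.A 0] =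
      [Lt.E 0, Lt.Y 0 1] ++ w.map fl ++ Lt.P 0 1 :: zz := List.append_assoc _ _ _
  have e7 : [Lt.E 0, Lt.Y 0 1] ++ w.map fl ++ [Lt.M 0 1] ++ [Lt.A 0] =
      [Lt.E 0, Lt.Y 0 1] ++ w.map fl ++ zz := List.append_assoc _ _ _
  rw [e4, e5] at e2
  rw [e6, e7] at e3
  rw [e1] at e2
  have e8 := add_eq_zero_iff_eq_neg.1 e2
  have e9 := add_eq_zero_iff_eq_neg.1 e3
  exact neg_injective (e9.symm.trans e8)

/-! ### Ladders read backwards -/

/-- The labels at the beginning of a ladder. -/
def r12 : ℕ → ℕ := Function.update (Function.update (Function.update (fun _ => 0) 0 0) 0 1) 1 2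

theorem r12_0 : r12 0 = 1 := rfl

theorem r12_1 : r12 1 = 2 := rfl

theorem ev_ladder (w : List Lt) : ev H ([Lt.E 0, Lt.Y 0 1] ++ w ++ zz) =
    cls H ((run w r12 3).B ++ ([0] ++ ((run w r12 3).L ++ [(run w r12 3).n])))
      ((0, 1, 2) :: ((run w r12 3).V ++
        [((run w r12 3).n, (run w r12 3).ra 0, (run w r12 3).ra 1)])) := by
  unfold ev
  have e1 : run ([Lt.E 0, Lt.Y 0 1] ++ w ++ zz) (fun _ => 0) 0 =
      ⟨Function.update (run w r12 3).ra 0 (run w r12 3).n, (run w r12 3).n + 1,
      [0] ++ ((run w r12 3).L ++ [(run w r12 3).n]),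
      (0, 1, 2) :: ((run w r12 3).V ++
        [((run w r12 3).n, (run w r12 3).ra 0, (run w r12 3).ra 1)]), (run w r12 3).B⟩ := by
    rw [List.append_assoc]
    show run (Lt.E 0 :: Lt.Y 0 1 :: (w ++ zz)) (fun _ => 0) 0 = _
    have e2 : run (w ++ zz) r12 3 = ⟨Function.update (run w r12 3).ra 0 (run w r12 3).n,
        (run w r12 3).n + 1, (run w r12 3).L ++ [(run w r12 3).n], (run w r12 3).V ++
        [((run w r12 3).n, (run w r12 3).ra 0, (run w r12 3).ra 1)], (run w r12 3).B⟩ := by
      rw [run_append]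
      simp [zz, run, stp]
    simp only [run]
    have e3 : (stp (Lt.Y 0 1) (stp (Lt.E 0) (fun _ => 0) 0).ra (stp (Lt.E 0) (fun _ => 0) 0).n).ra =
        r12 := rfl
    have e4 : (stp (Lt.Y 0 1) (stp (Lt.E 0) (fun _ => 0) 0).ra (stp (Lt.E 0) (fun _ => 0) 0).n).n =
        3 := rfl
    rw [e3, e4, e2]
    simp [stp]
  rw [e1]

theorem rev_ladder {v : List Lt} (h : Lad v) :
    cls H ((run v r12 3).L.reverse ++ [0, (run v r12 3).n])
      ((0, 1, 2) :: ((run v r12 3).V ++
        [((run v r12 3).n, (run v r12 3).ra 0, (run v r12 3).ra 1)])) =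
      sgw v • ev H ([Lt.E 0, Lt.Y 0 1] ++ v.reverse ++ zz) := by
  have h1 : ∀ s < 2, r12 s < 3 := by
    intro s hs
    have : s = 0 ∨ s = 1 := by omega
    rcases this with rfl | rfl
    · rw [r12_0]; decide
    · rw [r12_1]; decide
  have h2 : ∀ s < 2, ∀ t < 2, r12 s = r12 t → s = t := by
    intro s hs t ht hst
    have q1 : s = 0 ∨ s = 1 := by omega
    have q2 : t = 0 ∨ t = 1 := by omega
    rcases q1 with rfl | rfl <;> rcases q2 with rfl | rfl
    · rfl
    · rw [r12_0, r12_1] at hst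
      omega
    · rw [r12_0, r12_1] at hst
      omega
    · rfl
  obtain ⟨g, hg⟩ := rr_run (H := H) h h1 h2 h1 h2
  set q := run v r12 3 with hq
  set r := run v.reverse r12 3 with hr
  have hqn : 3 ≤ q.n := run_n _ _ _
  have hrn : 3 ≤ r.n := run_n _ _ _
  have hal : Al (fun z => SS r12 3 r.n z) 2 r :=
    run_al h.rev.ty (fun s hs => Or.inl ⟨s, hs, rfl⟩) (fun z hz hz' => Or.inr ⟨hz, hz'⟩)
  have hS : ∀ z, SS r12 3 r.n z → z ≠ 0 ∧ z < r.n := by
    rintro z (⟨s, hs, rfl⟩ | ⟨k1, k2⟩)
    · have : s = 0 ∨ s = 1 := by omega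
      rcases this with rfl | rfl
      · rw [r12_0]
        omega
      · rw [r12_1]
        omega
    · omega
  have hS' : ∀ z, SS r12 3 r.n z → g z ≠ 0 ∧ g z < q.n := by
    intro z hz
    rcases hg.im z hz with ⟨s, hs, h⟩ | ⟨k1, k2⟩
    · have : s = 0 ∨ s = 1 := by omega
      rcases this with rfl | rfl
      · rw [h, r12_0]
        omega
      · rw [h, r12_1]
        omega
    · omega
  rw [ev_ladder, ← hr, lad_B h.rev, List.nil_append]
  set G : ℕ → ℕ := fun x => if x = 0 then q.n else if x = r.n then 0 else g x with hG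
  have G0 : G 0 = q.n := if_pos rfl
  have Gn : G r.n = 0 := by
    rw [hG]
    show (if r.n = 0 then q.n else if r.n = r.n then 0 else g r.n) = 0
    rw [if_neg (by omega), if_pos rfl]
  have Gs : ∀ z, SS r12 3 r.n z → G z = g z := by
    intro z hz
    obtain ⟨k1, k2⟩ := hS z hz
    rw [hG]
    show (if z = 0 then q.n else if z = r.n then 0 else g z) = g z
    rw [if_neg k1, if_neg (by omega)]
  have s1 : SS r12 3 r.n 1 := Or.inl ⟨0, by decide, rfl⟩
  have s2 : SS r12 3 r.n 2 := Or.inl ⟨1, by decide, rfl⟩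
  have G1 : G 1 = q.ra 0 := by
    rw [Gs 1 s1]
    exact hg.a 0 (by decide)
  have G2 : G 2 = q.ra 1 := by
    rw [Gs 2 s2]
    exact hg.a 1 (by decide)
  have Gr0 : G (r.ra 0) = 1 := by
    rw [Gs _ (hal.ra 0 (by decide)), hg.b 0 (by decide)]
    rfl
  have Gr1 : G (r.ra 1) = 2 := by
    rw [Gs _ (hal.ra 1 (by decide)), hg.b 1 (by decide)]
    rfl
  have all : ∀ x ∈ lbs ([0] ++ (r.L ++ [r.n])) ((0, 1, 2) :: (r.V ++ [(r.n, r.ra 0, r.ra 1)])),
      x = 0 ∨ x = r.n ∨ SS r12 3 r.n x := by
    intro x hx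
    unfold lbs at hx
    simp only [List.mem_append, List.mem_cons, List.not_mem_nil, or_false, List.mem_flatMap] at hx
    rcases hx with (rfl | hx | rfl) | ⟨t, rfl | ht | rfl, hx⟩
    · exact Or.inl rfl
    · exact Or.inr (Or.inr (hal.L x hx))
    · exact Or.inr (Or.inl rfl)
    · rcases hx with rfl | rfl | rfl
      · exact Or.inl rfl
      · exact Or.inr (Or.inr s1)
      · exact Or.inr (Or.inr s2)
    · obtain ⟨k1, k2, k3⟩ := hal.V t ht
      rcases hx with rfl | rfl | rfl
      · exact Or.inr (Or.inr k1)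
      · exact Or.inr (Or.inr k2)
      · exact Or.inr (Or.inr k3)
    · rcases hx with rfl | rfl | rfl
      · exact Or.inr (Or.inl rfl)
      · exact Or.inr (Or.inr (hal.ra 0 (by decide)))
      · exact Or.inr (Or.inr (hal.ra 1 (by decide)))
  have hinj : ∀ x ∈ lbs ([0] ++ (r.L ++ [r.n])) ((0, 1, 2) :: (r.V ++ [(r.n, r.ra 0, r.ra 1)])),
      ∀ y ∈ lbs ([0] ++ (r.L ++ [r.n])) ((0, 1, 2) :: (r.V ++ [(r.n, r.ra 0, r.ra 1)])),
      G x = G y → x = y := by
    intro x hx y hy hxy
    rcases all x hx with rfl | rfl | k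
    · rcases all y hy with rfl | rfl | k'
      · rfl
      · rw [G0, Gn] at hxy
        omega
      · rw [G0, Gs y k'] at hxy
        have := hS' y k'
        omega
    · rcases all y hy with rfl | rfl | k'
      · rw [G0, Gn] at hxy
        omega
      · rfl
      · rw [Gn, Gs y k'] at hxy
        have := hS' y k'
        omega
    · rcases all y hy with rfl | rfl | k'
      · rw [G0, Gs x k] at hxy
        have := hS' x k
        omega
      · rw [Gn, Gs x k] at hxy
        have := hS' x k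
        omega
      · rw [Gs x k, Gs y k'] at hxy
        exact hg.inj x y k k' hxy
  rw [← cls_relabel G hinj]
  have eL : ([0] ++ (r.L ++ [r.n])).map G = [q.n] ++ (q.L.reverse ++ [0]) := by
    rw [List.map_append, List.map_append, List.map_cons, List.map_nil, List.map_cons, List.map_nil,
      G0, Gn, ← hg.L]
    congr 2
    exact List.map_congr_left fun x hx => Gs x (hal.L x hx)
  have eV : r.V.map (mp G) = r.V.map (mp g) := by
    refine List.map_congr_left fun t ht => ?_
    obtain ⟨k1, k2, k3⟩ := hal.V t ht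
    show (G t.1, G t.2.1, G t.2.2) = (g t.1, g t.2.1, g t.2.2)
    rw [Gs _ k1, Gs _ k2, Gs _ k3]
  have eW : ((0, 1, 2) :: (r.V ++ [(r.n, r.ra 0, r.ra 1)])).map (mp G) =
      (q.n, q.ra 0, q.ra 1) :: (r.V.map (mp g) ++ [(0, 1, 2)]) := by
    rw [List.map_cons, List.map_append, List.map_cons, List.map_nil, eV]
    have k1 : mp G (0, 1, 2) = (q.n, q.ra 0, q.ra 1) := by
      show (G 0, G 1, G 2) = _
      rw [G0, G1, G2]
    have k2 : mp G (r.n, r.ra 0, r.ra 1) = (0, 1, 2) := by
      show (G r.n, G (r.ra 0), G (r.ra 1)) = _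
      rw [Gn, Gr0, Gr1]
    rw [k1, k2]
  rw [eL, eW]
  have e1 : cls H ([q.n] ++ (q.L.reverse ++ [0]))
      ((q.n, q.ra 0, q.ra 1) :: (r.V.map (mp g) ++ [(0, 1, 2)])) =
      sgw v • cls H ([q.n] ++ (q.L.reverse ++ [0]))
        (q.V ++ [(0, 1, 2), (q.n, q.ra 0, q.ra 1)]) := by
    rw [← hg.V]
    refine cls_perm ?_
    have : (r.V.map (mp g) ++ [(0, 1, 2), (q.n, q.ra 0, q.ra 1)]) =
        (r.V.map (mp g) ++ [(0, 1, 2)]) ++ [(q.n, q.ra 0, q.ra 1)] := by simp
    rw [this]
    exact (List.perm_append_comm (l₁ := [(q.n, q.ra 0, q.ra 1)]))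
  have hsg : sgw v * sgw v = 1 := by
    clear hg
    clear * - h
    induction v with
    | nil => rfl
    | cons l v ih =>
      have := ih h.tail
      rw [sgw_cons]
      rcases h.head with rfl | rfl | rfl
      · show (-1 * sgw v) * (-1 * sgw v) = 1
        linarith
      · show (-1 * sgw v) * (-1 * sgw v) = 1
        linarith
      · show (1 * sgw v) * (1 * sgw v) = 1
        linarith
  have e7 : ∀ X, cls H ([q.n] ++ (q.L.reverse ++ [0])) X =
      cls H (q.L.reverse ++ [0] ++ [q.n]) X := fun X => cls_rot_append _ _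
  have e5 : q.L.reverse ++ [0] ++ [q.n] = q.L.reverse ++ [0, q.n] := by simp
  rw [e1, smul_smul, hsg, one_smul, e7, e5]
  refine cls_perm ?_
  have e6 : (0, 1, 2) :: (q.V ++ [(q.n, q.ra 0, q.ra 1)]) =
      [(0, 1, 2)] ++ (q.V ++ [(q.n, q.ra 0, q.ra 1)]) := rfl
  rw [e6]
  refine (List.perm_append_comm (l₁ := [(0, 1, 2)])).trans ?_
  rw [List.append_assoc]
  refine List.Perm.append_left _ ?_
  exact List.perm_append_comm (l₁ := [(q.n, q.ra 0, q.ra 1)]) (l₂ := [(0, 1, 2)])

/-- Ladders are symmetric up to torsion. -/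
theorem rev_lad {w : List Lt} (h : Lad w) :
    ev H ([Lt.E 0, Lt.Y 0 1] ++ w ++ zz) - ev H ([Lt.E 0, Lt.Y 0 1] ++ w.reverse ++ zz) ∈
      Submodule.torsion ℤ (A H) := by
  have h1 := conv (H := H) h (p := [Lt.E 0, Lt.Y 0 1]) rfl
  have hf : Lad (w.map fl) := by
    intro l hl
    obtain ⟨x, hx, rfl⟩ := List.mem_map.1 hl
    rcases h x hx with rfl | rfl | rfl
    · exact Or.inr (Or.inl rfl)
    · exact Or.inl rfl
    · exact Or.inr (Or.inr rfl)
  have b := bp_run (H := H) h r12 r12 3 rfl rfl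
  have e1 := ev_ladder (H := H) (w.flatMap bt)
  rw [b.r0, b.r1, b.n, b.L, b.B] at e1
  have e2 : cls H ((run (w.map fl) r12 3).L.reverse ++ ([0] ++ ([] ++ [(run (w.map fl) r12 3).n])))
      ((0, 1, 2) :: ((run (w.flatMap bt) r12 3).V ++ [((run (w.map fl) r12 3).n,
        (run (w.map fl) r12 3).ra 0, (run (w.map fl) r12 3).ra 1)])) =
      sgw w • cls H ((run (w.map fl) r12 3).L.reverse ++ [0, (run (w.map fl) r12 3).n])
      ((0, 1, 2) :: ((run (w.map fl) r12 3).V ++ [((run (w.map fl) r12 3).n,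
        (run (w.map fl) r12 3).ra 0, (run (w.map fl) r12 3).ra 1)])) := by
    have p1 : ∀ (t : Tri) (V W : List Tri) (ls : List ℕ), cls H ls (t :: (V ++ W)) =
        cls H ls (V ++ t :: W) := fun t V W ls => cls_perm List.perm_middle.symm
    rw [p1, p1, b.V]
    rfl
  have hsw : sgw (w.map fl) = sgw w := by
    clear * - h
    induction w with
    | nil => rfl
    | cons l w ih =>
      rw [List.map_cons, sgw_cons, sgw_cons, ih h.tail]
      rcases h.head with rfl | rfl | rfl <;> rfl
  have hsg : sgw w * sgw w = 1 := by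
    clear * - h
    induction w with
    | nil => rfl
    | cons l v ih =>
      have := ih h.tail
      rw [sgw_cons]
      rcases h.head with rfl | rfl | rfl
      · show (-1 * sgw v) * (-1 * sgw v) = 1
        linarith
      · show (-1 * sgw v) * (-1 * sgw v) = 1
        linarith
      · show (1 * sgw v) * (1 * sgw v) = 1
        linarith
  rw [e2, rev_ladder hf, smul_smul, hsw, hsg, one_smul, ← List.map_reverse, flip_lad h.rev] at e1
  rw [e1] at h1
  exact h1

end Pool.Agent.SWW54
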