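import Mathlib
import Pool.Agent.SWW54.Rev

/-!
# Closed relations and packed words
-/

set_option autoImplicit false

namespace Pool.Agent.SWW54

open Pool.Agent.Jac70 Pool.Agent.SWT85

variable {H : Type} [DecidableEq H]

theorem tyu_nine {u : List Lt} (h : tyu u 9 = some 9) : u = [] := by
  cases u with
  | nil => rfl
  | cons l u =>
    obtain ⟨m, hm, -⟩ := tyu_cons h
    have := (tu_tl hm).1
    omega

/-- A relation between closed words. -/
theorem ht_closed {R : List T3} : HT H 0 9 R ↔ vl (ev H) R ∈ Submodule.torsion ℤ (A H) := by
  constructor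
  · intro h
    have := h [] [] rfl rfl
    simpa only [List.nil_append, List.append_nil] using this
  · intro h p u hp hu
    rw [tyc_zero hp, tyu_nine hu]
    simpa only [List.nil_append, List.append_nil] using h

/-- The check that a word is the word of a ladder. -/
def ladB (w : List Lt) : Bool := w.all fun l => decide (l = .a 0 ∨ l = .a 1 ∨ l = .b 0 1)

theorem ladB_spec {w : List Lt} (h : ladB w = true) : Lad w := by
  intro l hl
  unfold ladB at h
  rw [List.all_eq_true] at h
  simpa using h l hl

/-- The closed word of a ladder. -/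
def clw (w : List Lt) : List Lt := [.E 0, .Y 0 1] ++ w ++ zz

theorem clw_length (w : List Lt) : (clw w).length = w.length + 4 := by
  unfold clw zz
  simp only [List.length_append, List.length_cons, List.length_nil]
  omega

theorem clw_mem {w : List Lt} (h : Lad w) : ∀ l ∈ clw w, l ∈ allL := by
  intro l hl
  unfold clw zz at hl
  simp only [List.mem_append, List.mem_cons, List.not_mem_nil, or_false] at hl
  rcases hl with ((rfl | rfl) | hl) | rfl | rfl
  · decide
  · decide
  · rcases h l hl with rfl | rfl | rfl <;> decide
  · decide
  · decide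

/-- The relation between a ladder and the ladder read backwards. -/
def rvL (w : List Lt) : Ln :=
  ⟨0, 9, [(1, w.length + 4, ew (clw w)), (-1, w.length + 4, ew (clw w.reverse))]⟩

theorem rvL_spec {w : List Lt} (h : Lad w) :
    (rvL w).R.all wf = true ∧ HT H (rvL w).k (rvL w).k' (rvL w).R := by
  have h1 := dw_ew (clw_mem h)
  have h2 := dw_ew (clw_mem h.rev)
  rw [clw_length] at h1 h2
  rw [List.length_reverse] at h2
  constructor
  · show ([(1, w.length + 4, ew (clw w)), (-1, w.length + 4, ew (clw w.reverse))] :
      List T3).all wf = true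
    simp only [List.all_cons, List.all_nil, Bool.and_true, Bool.and_eq_true, wf, Nat.blt_eq]
    exact ⟨h1.2, h2.2⟩
  · show HT H 0 9 [(1, w.length + 4, ew (clw w)), (-1, w.length + 4, ew (clw w.reverse))]
    rw [ht_closed, vl_cons, vl_cons, vl_nil, h1.1, h2.1, one_smul, neg_one_zsmul, add_zero,
      ← sub_eq_add_neg]
    exact rev_lad h

theorem env_rv {ws : List (List Lt)} (h : ws.all ladB = true) : Env H (ws.map rvL) := by
  intro L hL
  obtain ⟨w, hw, rfl⟩ := List.mem_map.1 hL
  exact rvL_spec (ladB_spec (List.all_eq_true.1 h w hw))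

end Pool.Agent.SWW54
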