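import Mathlib
import Pool.Agent.SWW54.Base

/-!
# Checked local relations, part 1
-/

set_option autoImplicit false

namespace Pool.Agent.SWW54

open Pool.Agent.Jac70 Pool.Agent.SWT85

/-- Checked relations. -/
def cb12 : List Bs := [
  ⟨2, 1, 4, [2],
    [((-2), [.b 0 1, .M 0 1], [1, 2, 3, 0]), (1, [.M 0 1, .o 0], [1, 2, 3, 0])],
    [.ihx 1 3 4 0 5 1 [] [(2, 4, 5)], .swp 1 4 5 [] [(0, 3, 4), (1, 3, 5), (2, 4, 5)]]⟩,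
  ⟨1, 2, 5, [1, 2],
    [((-2), [.Y 0 1, .b 0 1], [2, 3, 4, 0, 1]), (1, [.o 0, .Y 0 1], [2, 3, 4, 0, 1])],
    [.ihx 1 5 1 3 2 4 [] [(0, 3, 4)], .swp 1 3 4 [] [(0, 3, 4), (1, 3, 5), (2, 4, 5)]]⟩,
  ⟨2, 1, 4, [2],
    [(1, [.M 0 1, .o 0], [1, 2, 3, 0]), ((-1), [.o 0, .M 0 1], [1, 2, 3, 0])],
    [.ihx (-1) 3 0 1 4 5 [] [(2, 4, 5)], .swp 1 4 5 [] [(0, 3, 4), (1, 2, 5), (3, 4, 5)], .swp (-1) 4 5 [] [(0, 3, 5), (1, 3, 4), (2, 4, 5)], .ihx 1 4 1 3 5 2 [] [(0, 3, 5)], .swp 1 3 5 [] [(0, 3, 5), (1, 3, 4), (2, 4, 5)]]⟩,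
  ⟨1, 2, 5, [1, 2],
    [((-1), [.Y 0 1, .o 0], [2, 1, 3, 4, 0]), (1, [.o 0, .Y 0 1], [2, 3, 4, 0, 1])],
    [.ihx (-1) 3 0 2 4 5 [] [(1, 4, 5)], .swp (-1) 4 5 [] [(0, 3, 4), (1, 2, 5), (3, 4, 5)], .swp (-1) 4 5 [] [(0, 3, 5), (1, 4, 5), (2, 3, 4)], .ihx 1 4 5 1 2 3 [] [(0, 3, 5)], .swp 1 3 5 [] [(0, 3, 5), (1, 4, 5), (2, 3, 4)]]⟩,
  ⟨2, 1, 1, [2],
    [(1, [.M 0 1], [0]), (1, [.P 0 1, .M 0 1], [0])],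
    []⟩,
  ⟨1, 2, 2, [1, 2],
    [(1, [.Y 0 1], [0, 1]), (1, [.Y 0 1, .P 0 1], [1, 0])],
    []⟩,
  ⟨1, 1, 3, [1],
    [(1, [.o 0], [1, 2, 0]), ((-1), [.Y 0 1, .M 0 1], [1, 2, 0])],
    []⟩,
  ⟨3, 1, 2, [3],
    [(1, [.M 1 2, .M 0 1], [1, 0]), (1, [.P 0 1, .P 1 2, .M 1 2, .M 0 1], [1, 0]), (1, [.P 1 2, .P 0 1, .M 1 2, .M 0 1], [1, 0])],
    [.ihx 1 4 0 3 1 2 [] []]⟩,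
  ⟨1, 3, 4, [1, 2, 3],
    [(1, [.Y 0 1, .Y 1 2], [0, 3, 1, 2]), (1, [.Y 0 1, .Y 1 2, .P 0 1, .P 1 2], [2, 3, 0, 1]), (1, [.Y 0 1, .Y 1 2, .P 1 2, .P 0 1], [1, 3, 2, 0])],
    [.ihx (-1) 4 0 1 2 3 [] []]⟩,
  ⟨2, 2, 3, [2, 3],
    [(1, [.b 0 1], [2, 0, 1]), ((-1), [.M 0 1, .Y 0 1], [2, 0, 1]), ((-1), [.P 0 1, .b 0 1], [2, 0, 1])],
    [.ihx (-1) 4 0 2 1 3 [] []]⟩,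
  ⟨2, 2, 3, [2, 3],
    [(1, [.b 0 1], [2, 0, 1]), ((-1), [.b 0 1, .P 0 1], [2, 1, 0]), ((-1), [.M 0 1, .Y 0 1], [2, 0, 1])],
    [.ihx (-1) 4 0 2 1 3 [] []]⟩,
  ⟨1, 2, 5, [1, 2],
    [(2, [.Y 0 1, .b 0 1], [2, 3, 4, 0, 1]), ((-1), [.Y 0 1, .o 0], [2, 1, 3, 4, 0])],
    [.swp (-1) 3 4 [] [(0, 2, 3), (1, 4, 5), (3, 4, 5)], .ihx (-1) 4 0 3 5 2 [] [(1, 3, 5)], .swp (-1) 3 5 [] [(0, 3, 4), (1, 3, 5), (2, 4, 5)]]⟩,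
  ⟨2, 1, 4, [2],
    [(2, [.b 0 1, .M 0 1], [1, 2, 3, 0]), ((-1), [.o 0, .M 0 1], [1, 2, 3, 0])],
    [.ihx (-1) 5 1 3 2 4 [] [(0, 3, 4)], .swp (-1) 3 4 [] [(0, 3, 4), (1, 3, 5), (2, 4, 5)]]⟩,
  ⟨2, 2, 6, [2, 3],
    [(4, [.a 0, .a 1], [2, 0, 3, 1]), (2, [.a 0, .b 0 1], [2, 3, 4, 0, 1]), ((-2), [.a 0, .o 1], [2, 0, 3, 4, 1]), ((-4), [.a 1, .a 0], [2, 1, 3, 0]), ((-2), [.a 1, .b 0 1], [2, 3, 4, 0, 1]), (2, [.a 1, .o 0], [2, 1, 3, 4, 0]), ((-2), [.b 0 1, .a 0], [2, 3, 1, 4, 0]), (2, [.b 0 1, .a 1], [2, 0, 3, 4, 1]), (1, [.b 0 1, .o 0], [2, 3, 1, 4, 5, 0]), ((-1), [.b 0 1, .o 1], [2, 0, 3, 4, 5, 1]), ((-2), [.o 0, .a 1], [2, 3, 0, 4, 1]), ((-1), [.o 0, .b 0 1], [2, 3, 4, 5, 0, 1]), (1, [.o 0, .o 1],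 [2, 3, 0, 4, 5, 1]), (2, [.o 1, .a 0], [2, 3, 1, 4, 0]), (1, [.o 1, .b 0 1], [2, 3, 4, 5, 0, 1]), ((-1), [.o 1, .o 0], [2, 3, 1, 4, 5, 0])],
    [.ihx (-1) 5 1 4 6 7 [] [(0, 2, 4), (3, 6, 7)], .swp (-1) 6 7 [] [(0, 2, 4), (1, 5, 7), (3, 6, 7), (4, 5, 6)], .swp 1 5 7 [] [(0, 2, 4), (1, 5, 7), (3, 6, 7), (4, 5, 6)], .ihx 1 6 7 3 4 5 [] [(0, 2, 4), (1, 5, 7)], .swp 1 4 7 [] [(0, 2, 7), (1, 4, 5), (3, 6, 7), (4, 5, 6)], .ihx 1 5 0 4 6 7 [] [(1, 3, 4), (2, 6, 7)], .swp (-1) 4 7 [] [(0, 4, 5), (1, 3, 7), (2, 6, 7), (4, 5, 6)], .swp (-1) 5 7 [] [(0, 4, 5), (1, 6, 7), (2, 4, 5), (3, 6, 7)], .swp 1 4 6 [] [(0, 6, 7), (1, 4, 5), (2, 6, 7), (3, 4, 5)], .swp 1 6 7 [] [(0, 5, 7), (1, 3, 4), (2, 6, 7), (4, 5, 6)],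 .ihx (-1) 6 7 2 4 5 [] [(0, 5, 7), (1, 3, 4)], .swp (-1) 5 7 [] [(0, 5, 7), (1, 3, 4), (2, 6, 7), (4, 5, 6)], .swp 2 4 6 [4] [(0, 2, 4), (1, 5, 6), (3, 5, 6)], .swp 2 4 6 [4] [(0, 2, 6), (1, 4, 5), (3, 5, 6)], .swp (-2) 4 6 [4] [(0, 4, 5), (1, 3, 6), (2, 5, 6)], .swp (-2) 4 6 [4] [(0, 5, 6), (1, 3, 4), (2, 5, 6)], .swp 2 4 5 [4, 5] [(0, 2, 5), (1, 3, 4)], .stu 2 6 5 4 [] [] [(0, 2, 4), (1, 3, 5)], .ihx (-2) 5 1 4 6 3 [6] [(0, 2, 4)], .stu (-2) 6 5 4 [] [] [(0, 2, 5), (1, 3, 4)], .swp (-2) 4 5 [4, 5] [(0, 2, 4), (1, 3, 5)], .ihx 2 5 0 4 6 2 [6] [(1, 3, 4)]]⟩,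
  ⟨2, 2, 6, [2, 3],
    [(1, [.b 0 1, .o 0], [2, 3, 1, 4, 5, 0]), ((-1), [.o 0, .b 0 1], [2, 3, 4, 5, 0, 1])],
    [.ihx 1 5 0 4 6 7 [] [(1, 3, 4), (2, 6, 7)], .swp (-1) 4 7 [] [(0, 4, 5), (1, 3, 7), (2, 6, 7), (4, 5, 6)], .swp 1 6 7 [] [(0, 5, 7), (1, 3, 4), (2, 6, 7), (4, 5, 6)], .ihx (-1) 6 7 2 4 5 [] [(0, 5, 7), (1, 3, 4)], .swp (-1) 5 7 [] [(0, 5, 7), (1, 3, 4), (2, 6, 7), (4, 5, 6)]]⟩,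
  ⟨2, 2, 6, [2, 3],
    [(2, [.a 1, .o 0], [2, 1, 3, 4, 0]), (1, [.b 0 1, .o 0], [2, 3, 1, 4, 5, 0]), ((-2), [.o 0, .a 1], [2, 3, 0, 4, 1]), ((-1), [.o 0, .b 0 1], [2, 3, 4, 5, 0, 1]), (1, [.o 0, .o 1], [2, 3, 0, 4, 5, 1]), ((-1), [.o 1, .o 0], [2, 3, 1, 4, 5, 0])],
    [.ihx 1 5 0 4 6 7 [] [(1, 3, 4), (2, 6, 7)], .swp (-1) 4 7 [] [(0, 4, 5), (1, 3, 7), (2, 6, 7), (4, 5, 6)], .swp (-1) 5 7 [] [(0, 4, 5), (1, 6, 7), (2, 4, 5), (3, 6, 7)], .swp 1 4 6 [] [(0, 6, 7), (1, 4, 5), (2, 6, 7), (3, 4, 5)], .swp 1 6 7 [] [(0, 5, 7), (1, 3, 4), (2, 6, 7), (4, 5, 6)], .ihx (-1) 6 7 2 4 5 [] [(0, 5, 7), (1, 3, 4)], .swp (-1) 5 7 [] [(0, 5, 7), (1, 3, 4), (2, 6, 7), (4, 5, 6)], .swp (-2) 4 6 [4] [(0, 5, 6), (1,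 3, 4), (2, 5, 6)]]⟩,
  ⟨3, 2, 4, [3, 4],
    [(2, [.a 0, .M 1 2, .P 0 1], [2, 1, 0]), (1, [.b 0 1, .M 1 2, .P 0 1], [2, 1, 3, 0]), (1, [.b 0 2, .M 1 2, .P 0 1], [2, 1, 3, 0]), ((-2), [.M 1 2, .P 0 1, .a 1], [0, 2, 1]), ((-1), [.M 1 2, .P 0 1, .b 0 1], [2, 3, 0, 1]), (1, [.M 1 2, .P 0 1, .o 1], [0, 2, 3, 1]), ((-1), [.o 0, .M 1 2, .P 0 1], [2, 3, 1, 0])],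
    [.swp (-1) 5 6 [] [(0, 4, 5), (1, 3, 6), (2, 5, 6)], .swp 1 5 6 [] [(0, 4, 5), (1, 5, 6), (2, 3, 6)], .ihx (-1) 5 1 2 6 3 [] [(0, 4, 6)]]⟩,
  ⟨2, 3, 5, [2, 3, 4],
    [((-2), [.a 1, .P 0 1, .Y 1 2], [3, 0, 1, 2]), ((-1), [.b 0 1, .P 0 1, .Y 1 2], [3, 4, 0, 1, 2]), (2, [.P 0 1, .Y 1 2, .a 0], [1, 2, 3, 0]), (1, [.P 0 1, .Y 1 2, .b 0 1], [3, 2, 4, 0, 1]), (1, [.P 0 1, .Y 1 2, .b 0 2], [1, 3, 4, 0, 2]), ((-1), [.P 0 1, .Y 1 2, .o 0], [1, 2, 3, 4, 0]), (1, [.o 1, .P 0 1, .Y 1 2], [3, 4, 0, 1, 2])],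
    [.ihx (-1) 5 0 4 6 3 [] [(1, 2, 6)], .swp (-1) 5 6 [] [(0, 5, 6), (1, 2, 5), (3, 4, 6)]]⟩,
  ⟨3, 2, 4, [3, 4],
    [((-1), [.b 0 1, .M 1 2, .P 0 1], [2, 1, 3, 0]), ((-1), [.b 0 2, .M 1 2, .P 0 1], [2, 1, 3, 0]), (1, [.M 1 2, .P 0 1, .b 0 1], [2, 3, 0, 1])],
    [.swp 1 5 6 [] [(0, 4, 5), (1, 3, 6), (2, 5, 6)], .swp (-1) 5 6 [] [(0, 4, 5), (1, 5, 6), (2, 3, 6)], .ihx 1 5 1 2 6 3 [] [(0, 4, 6)]]⟩,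
  ⟨2, 3, 5, [2, 3, 4],
    [(1, [.b 0 1, .P 0 1, .Y 1 2], [3, 4, 0, 1, 2]), ((-1), [.P 0 1, .Y 1 2, .b 0 1], [3, 2, 4, 0, 1]), ((-1), [.P 0 1, .Y 1 2, .b 0 2], [1, 3, 4, 0, 2])],
    [.ihx 1 5 0 4 6 3 [] [(1, 2, 6)], .swp 1 5 6 [] [(0, 5, 6), (1, 2, 5), (3, 4, 6)]]⟩,
  ⟨3, 2, 4, [3, 0],
    [((-2), [.b 1 2, .M 1 2, .P 0 1], [1, 2, 3, 0]), (1, [.M 1 2, .P 0 1, .o 0], [1, 2, 3, 0])],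
    [.ihx 1 4 5 1 6 2 [] [(3, 5, 6)], .swp 1 5 6 [] [(1, 4, 5), (2, 4, 6), (3, 5, 6)]]⟩,
  ⟨2, 3, 5, [1, 2, 3],
    [((-2), [.P 0 1, .Y 1 2, .b 1 2], [2, 3, 4, 0, 1]), (1, [.o 0, .P 0 1, .Y 1 2], [2, 3, 4, 0, 1])],
    [.ihx 1 6 2 4 3 5 [] [(0, 4, 5)], .swp 1 4 5 [] [(0, 4, 5), (2, 4, 6), (3, 5, 6)]]⟩,
  ⟨3, 2, 4, [3, 0],
    [(1, [.M 1 2, .P 0 1, .o 0], [1, 2, 3, 0]), ((-1), [.o 1, .M 1 2, .P 0 1], [1, 2, 3, 0])],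
    [.ihx (-1) 4 1 2 5 6 [] [(3, 5, 6)], .swp 1 5 6 [] [(1, 4, 5), (2, 3, 6), (4, 5, 6)], .swp (-1) 5 6 [] [(1, 4, 6), (2, 4, 5), (3, 5, 6)], .ihx 1 5 2 4 6 3 [] [(1, 4, 6)], .swp 1 4 6 [] [(1, 4, 6), (2, 4, 5), (3, 5, 6)]]⟩,
  ⟨2, 3, 5, [1, 2, 3],
    [((-1), [.P 0 1, .Y 1 2, .o 1], [2, 1, 3, 4, 0]), (1, [.o 0, .P 0 1, .Y 1 2], [2, 3, 4, 0, 1])],
    [.ihx (-1) 4 0 3 5 6 [] [(2, 5, 6)], .swp (-1) 5 6 [] [(0, 4, 5), (2, 3, 6), (4, 5, 6)], .swp (-1) 5 6 [] [(0, 4, 6), (2, 5, 6), (3, 4, 5)], .ihx 1 5 6 2 3 4 [] [(0, 4, 6)], .swp 1 4 6 [] [(0, 4, 6), (2, 5, 6), (3, 4, 5)]]⟩,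
  ⟨3, 2, 1, [3, 0],
    [(1, [.M 1 2, .P 0 1], [0]), (1, [.P 1 2, .M 1 2, .P 0 1], [0])],
    []⟩,
  ⟨2, 3, 2, [1, 2, 3],
    [(1, [.P 0 1, .Y 1 2], [0, 1]), (1, [.P 0 1, .Y 1 2, .P 1 2], [1, 0])],
    []⟩,
  ⟨3, 2, 4, [3, 4],
    [(2, [.a 0, .M 1 2], [2, 0, 1]), (1, [.b 0 1, .M 1 2], [2, 0, 3, 1]), (1, [.b 0 2, .M 1 2], [2, 0, 3, 1]), ((-2), [.M 1 2, .a 0], [1, 2, 0]), ((-1), [.M 1 2, .b 0 1], [2, 3, 0, 1]), (1, [.M 1 2, .o 0], [1, 2, 3, 0]), ((-1), [.o 0, .M 1 2], [2, 3, 0, 1])],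
    [.swp (-1) 5 6 [] [(0, 3, 5), (1, 4, 6), (2, 5, 6)], .swp 1 5 6 [] [(0, 3, 5), (1, 5, 6), (2, 4, 6)], .ihx (-1) 5 1 2 6 4 [] [(0, 3, 6)]]⟩,
  ⟨2, 3, 5, [2, 3, 4],
    [((-2), [.a 0, .Y 1 2], [3, 0, 1, 2]), ((-1), [.b 0 1, .Y 1 2], [3, 0, 4, 1, 2]), (2, [.Y 1 2, .a 0], [1, 2, 3, 0]), (1, [.Y 1 2, .b 0 1], [3, 2, 4, 0, 1]), (1, [.Y 1 2, .b 0 2], [1, 3, 4, 0, 2]), ((-1), [.Y 1 2, .o 0], [1, 2, 3, 4, 0]), (1, [.o 0, .Y 1 2], [3, 4, 0, 1, 2])],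
    [.swp (-1) 5 6 [] [(0, 2, 5), (1, 5, 6), (3, 4, 6)], .ihx (-1) 5 1 4 6 3 [] [(0, 2, 6)]]⟩,
  ⟨3, 2, 4, [3, 4],
    [((-1), [.b 0 1, .M 1 2], [2, 0, 3, 1]), ((-1), [.b 0 2, .M 1 2], [2, 0, 3, 1]), (1, [.M 1 2, .b 0 1], [2, 3, 0, 1])],
    [.swp 1 5 6 [] [(0, 3, 5), (1, 4, 6), (2, 5, 6)], .swp (-1) 5 6 [] [(0, 3, 5), (1, 5, 6), (2, 4, 6)], .ihx 1 5 1 2 6 4 [] [(0, 3, 6)]]⟩,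
  ⟨2, 3, 5, [2, 3, 4],
    [(1, [.b 0 1, .Y 1 2], [3, 0, 4, 1, 2]), ((-1), [.Y 1 2, .b 0 1], [3, 2, 4, 0, 1]), ((-1), [.Y 1 2, .b 0 2], [1, 3, 4, 0, 2])],
    [.swp 1 5 6 [] [(0, 2, 5), (1, 5, 6), (3, 4, 6)], .ihx 1 5 1 4 6 3 [] [(0, 2, 6)]]⟩,
  ⟨3, 2, 4, [0, 3],
    [((-2), [.b 1 2, .M 1 2], [1, 2, 3, 0]), (1, [.M 1 2, .o 1], [1, 2, 3, 0])],
    [.ihx 1 4 5 1 6 2 [] [(3, 5, 6)], .swp 1 5 6 [] [(1, 4, 5), (2, 4, 6), (3, 5, 6)]]⟩,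
  ⟨2, 3, 5, [0, 2, 3],
    [((-2), [.Y 1 2, .b 1 2], [2, 3, 4, 0, 1]), (1, [.o 1, .Y 1 2], [2, 3, 4, 0, 1])],
    [.ihx 1 6 2 4 3 5 [] [(1, 4, 5)], .swp 1 4 5 [] [(1, 4, 5), (2, 4, 6), (3, 5, 6)]]⟩]

theorem cb12_ok : cb12.all Bs.ok = true := by decide +kernel

/-- Checked relations. -/
def cb13 : List Bs := [
  ⟨3, 2, 1, [0, 3],
    [(1, [.M 1 2], [0]), (1, [.P 1 2, .M 1 2], [0])],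
    []⟩,
  ⟨2, 3, 2, [0, 2, 3],
    [(1, [.Y 1 2], [0, 1]), (1, [.Y 1 2, .P 1 2], [1, 0])],
    []⟩,
  ⟨2, 2, 3, [0, 2],
    [(1, [.o 1], [1, 2, 0]), ((-1), [.Y 1 2, .M 1 2], [1, 2, 0])],
    []⟩,
  ⟨2, 2, 3, [2, 0],
    [((-1), [.P 0 1, .o 0], [1, 2, 0]), (1, [.Y 1 2, .M 1 2, .P 0 1], [1, 2, 0])],
    []⟩,
  ⟨2, 2, 3, [1, 2],
    [((-1), [.o 0, .P 0 1], [1, 2, 0]), (1, [.P 0 1, .Y 1 2, .M 1 2], [1, 2, 0])],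
    []⟩,
  ⟨2, 2, 3, [2, 3],
    [(1, [.b 0 1], [2, 0, 1]), (1, [.Y 1 2, .P 0 1, .M 1 2, .P 0 1], [1, 2, 0])],
    []⟩,
  ⟨2, 2, 3, [2, 3],
    [(1, [.b 0 1], [2, 0, 1]), (1, [.P 0 1, .Y 1 2, .P 0 1, .M 1 2], [0, 2, 1])],
    []⟩,
  ⟨2, 2, 3, [2, 3],
    [(1, [.P 0 1, .b 0 1], [2, 0, 1]), (1, [.Y 1 2, .P 0 1, .M 1 2], [0, 2, 1])],
    []⟩,
  ⟨2, 2, 3, [2, 3],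
    [(1, [.b 0 1, .P 0 1], [2, 1, 0]), (1, [.Y 1 2, .P 0 1, .M 1 2], [0, 2, 1])],
    []⟩,
  ⟨4, 2, 2, [0, 4],
    [(1, [.M 2 3, .M 1 2], [1, 0]), (1, [.P 1 2, .P 2 3, .M 2 3, .M 1 2], [1, 0]), (1, [.P 2 3, .P 1 2, .M 2 3, .M 1 2], [1, 0])],
    [.ihx 1 5 1 4 2 3 [] []]⟩,
  ⟨2, 4, 4, [0, 2, 3, 4],
    [(1, [.Y 1 2, .Y 2 3], [0, 3, 1, 2]), (1, [.Y 1 2, .Y 2 3, .P 1 2, .P 2 3], [2, 3, 0, 1]), (1, [.Y 1 2, .Y 2 3, .P 2 3, .P 1 2], [1, 3, 2, 0])],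
    [.ihx (-1) 5 1 2 3 4 [] []]⟩,
  ⟨4, 2, 2, [4, 5],
    [(1, [.M 2 3, .P 1 2, .P 0 1, .M 1 2], [0, 1]), ((-1), [.P 1 2, .P 0 1, .P 2 3, .P 1 2, .M 2 3, .P 1 2, .P 0 1, .M 1 2, .P 0 1], [1, 0])],
    []⟩,
  ⟨2, 4, 4, [2, 3, 4, 5],
    [(1, [.Y 1 2, .P 0 1, .P 1 2, .Y 2 3], [0, 1, 2, 3]), ((-1), [.P 0 1, .Y 1 2, .P 0 1, .P 1 2, .Y 2 3, .P 1 2, .P 2 3, .P 0 1, .P 1 2], [2, 3, 0, 1])],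
    []⟩,
  ⟨3, 3, 3, [0, 3, 4],
    [(1, [.b 1 2], [2, 0, 1]), ((-1), [.M 1 2, .Y 1 2], [2, 0, 1]), ((-1), [.P 1 2, .b 1 2], [2, 0, 1])],
    [.ihx (-1) 5 1 3 2 4 [] []]⟩,
  ⟨3, 3, 3, [0, 3, 4],
    [(1, [.b 1 2], [2, 0, 1]), ((-1), [.b 1 2, .P 1 2], [2, 1, 0]), ((-1), [.M 1 2, .Y 1 2], [2, 0, 1])],
    [.ihx (-1) 5 1 3 2 4 [] []]⟩,
  ⟨3, 3, 3, [3, 0, 4],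
    [((-1), [.P 0 1, .b 0 2], [2, 0, 1]), (1, [.M 1 2, .Y 1 2, .P 0 1], [2, 0, 1]), (1, [.P 1 2, .P 0 1, .b 0 2], [2, 0, 1])],
    [.ihx 1 5 1 3 2 4 [] []]⟩,
  ⟨3, 3, 3, [1, 3, 4],
    [((-1), [.b 0 2, .P 0 1], [2, 0, 1]), (1, [.b 0 2, .P 0 1, .P 1 2], [2, 1, 0]), (1, [.P 0 1, .M 1 2, .Y 1 2], [2, 0, 1])],
    [.ihx 1 5 0 3 2 4 [] []]⟩,
  ⟨3, 3, 3, [3, 4, 0],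
    [((-1), [.P 0 1, .P 1 2, .b 0 1], [2, 0, 1]), (1, [.M 1 2, .Y 1 2, .P 0 1, .P 1 2], [2, 0, 1]), (1, [.P 1 2, .P 0 1, .P 1 2, .b 0 1], [2, 0, 1])],
    [.ihx 1 5 1 3 2 4 [] []]⟩,
  ⟨3, 3, 3, [2, 3, 4],
    [((-1), [.b 0 1, .P 1 2, .P 0 1], [2, 0, 1]), (1, [.b 0 1, .P 1 2, .P 0 1, .P 1 2], [2, 1, 0]), (1, [.P 1 2, .P 0 1, .M 1 2, .Y 1 2], [2, 0, 1])],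
    [.ihx 1 5 0 3 1 4 [] []]⟩,
  ⟨3, 3, 3, [3, 4, 0],
    [(1, [.M 1 2, .Y 1 2, .P 0 1, .P 1 2], [2, 0, 1]), (1, [.P 0 1, .P 1 2, .P 0 1, .b 0 1], [2, 0, 1]), ((-1), [.P 1 2, .P 0 1, .P 1 2, .P 0 1, .b 0 1], [2, 0, 1])],
    [.ihx (-1) 5 1 2 3 4 [] []]⟩,
  ⟨3, 3, 3, [2, 3, 4],
    [(1, [.b 0 1, .P 0 1, .P 1 2, .P 0 1], [2, 1, 0]), (1, [.P 1 2, .P 0 1, .M 1 2, .Y 1 2], [2, 0, 1]), ((-1), [.b 0 1, .P 0 1, .P 1 2, .P 0 1, .P 1 2], [2, 0, 1])],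
    [.ihx (-1) 5 0 4 1 3 [] []]⟩,
  ⟨2, 3, 5, [2, 3, 4],
    [((-2), [.a 0, .Y 1 2, .P 0 1, .P 1 2], [3, 2, 0, 1]), ((-1), [.b 0 1, .Y 1 2, .P 0 1, .P 1 2], [3, 2, 4, 0, 1]), (2, [.Y 1 2, .P 0 1, .P 1 2, .a 2], [0, 1, 3, 2]), (1, [.Y 1 2, .P 0 1, .P 1 2, .b 0 2], [3, 1, 4, 0, 2]), (1, [.Y 1 2, .P 0 1, .P 1 2, .b 1 2], [0, 3, 4, 1, 2]), ((-1), [.Y 1 2, .P 0 1, .P 1 2, .o 2], [0, 1, 3, 4, 2]), (1, [.o 0, .Y 1 2, .P 0 1, .P 1 2], [3, 4, 2, 0, 1])],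
    [.swp (-1) 5 6 [] [(0, 4, 5), (1, 5, 6), (2, 3, 6)], .ihx (-1) 5 1 3 6 2 [] [(0, 4, 6)]]⟩,
  ⟨3, 2, 4, [3, 4],
    [(2, [.a 2, .P 1 2, .P 0 1, .M 1 2], [2, 0, 1]), (1, [.b 0 2, .P 1 2, .P 0 1, .M 1 2], [2, 3, 0, 1]), (1, [.b 1 2, .P 1 2, .P 0 1, .M 1 2], [2, 3, 0, 1]), ((-2), [.P 1 2, .P 0 1, .M 1 2, .a 0], [1, 2, 0]), ((-1), [.P 1 2, .P 0 1, .M 1 2, .b 0 1], [2, 3, 0, 1]), (1, [.P 1 2, .P 0 1, .M 1 2, .o 0], [1, 2, 3, 0]), ((-1), [.o 2, .P 1 2, .P 0 1, .M 1 2], [2, 3, 0, 1])],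
    [.ihx (-1) 5 0 1 6 4 [] [(2, 3, 6)], .swp (-1) 5 6 [] [(0, 4, 6), (1, 5, 6), (2, 3, 5)], .swp 1 5 6 [] [(0, 5, 6), (1, 4, 6), (2, 3, 5)]]⟩,
  ⟨2, 3, 5, [2, 3, 4],
    [((-1), [.b 0 1, .Y 1 2, .P 0 1, .P 1 2], [3, 2, 4, 0, 1]), (1, [.Y 1 2, .P 0 1, .P 1 2, .b 0 2], [3, 1, 4, 0, 2]), (1, [.Y 1 2, .P 0 1, .P 1 2, .b 1 2], [0, 3, 4, 1, 2])],
    [.swp (-1) 5 6 [] [(0, 4, 5), (1, 5, 6), (2, 3, 6)], .ihx (-1) 5 1 3 6 2 [] [(0, 4, 6)]]⟩,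
  ⟨3, 2, 4, [3, 4],
    [(1, [.b 0 2, .P 1 2, .P 0 1, .M 1 2], [2, 3, 0, 1]), (1, [.b 1 2, .P 1 2, .P 0 1, .M 1 2], [2, 3, 0, 1]), ((-1), [.P 1 2, .P 0 1, .M 1 2, .b 0 1], [2, 3, 0, 1])],
    [.ihx (-1) 5 0 1 6 4 [] [(2, 3, 6)], .swp (-1) 5 6 [] [(0, 4, 6), (1, 5, 6), (2, 3, 5)], .swp 1 5 6 [] [(0, 5, 6), (1, 4, 6), (2, 3, 5)]]⟩,
  ⟨2, 3, 5, [2, 3, 0],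
    [((-2), [.a 1, .Y 1 2, .P 0 1, .P 1 2], [2, 3, 0, 1]), (2, [.Y 1 2, .P 0 1, .P 1 2, .a 0], [2, 1, 3, 0]), (2, [.Y 1 2, .P 0 1, .P 1 2, .a 1], [0, 2, 3, 1]), (2, [.Y 1 2, .P 0 1, .P 1 2, .b 0 1], [2, 3, 4, 0, 1]), ((-1), [.Y 1 2, .P 0 1, .P 1 2, .o 0], [2, 1, 3, 4, 0]), ((-1), [.Y 1 2, .P 0 1, .P 1 2, .o 1], [0, 2, 3, 4, 1]), (1, [.o 1, .Y 1 2, .P 0 1, .P 1 2], [2, 3, 4, 0, 1])],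
    [.ihx (-1) 4 5 1 6 2 [] [(3, 5, 6)], .swp (-1) 4 5 [] [(1, 3, 4), (2, 5, 6), (4, 5, 6)], .ihx (-1) 5 1 4 6 3 [] [(2, 4, 6)], .ihx 1 6 2 4 3 5 [] [(1, 4, 5)], .swp (-1) 5 6 [] [(1, 4, 5), (2, 4, 6), (3, 5, 6)], .swp 1 4 5 [] [(1, 4, 5), (2, 4, 6), (3, 5, 6)], .swp (-1) 4 6 [] [(1, 4, 5), (2, 4, 6), (3, 5, 6)], .swp (-2) 4 5 [4] [(1, 4, 5), (2, 3, 5)], .ihx (-2) 4 1 3 5 2 [5] []]⟩,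
  ⟨3, 2, 4, [2, 3],
    [(2, [.a 0, .P 1 2, .P 0 1, .M 1 2], [1, 2, 0]), (2, [.a 1, .P 1 2, .P 0 1, .M 1 2], [1, 2, 0]), (2, [.b 0 1, .P 1 2, .P 0 1, .M 1 2], [1, 2, 3, 0]), ((-2), [.P 1 2, .P 0 1, .M 1 2, .a 1], [1, 2, 0]), (1, [.P 1 2, .P 0 1, .M 1 2, .o 1], [1, 2, 3, 0]), ((-1), [.o 0, .P 1 2, .P 0 1, .M 1 2], [1, 2, 3, 0]), ((-1), [.o 1, .P 1 2, .P 0 1, .M 1 2], [1, 2, 3, 0])],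
    [.ihx 1 4 5 0 6 1 [] [(3, 5, 6)], .swp (-1) 5 6 [] [(0, 3, 6), (1, 4, 5), (4, 5, 6)], .ihx (-1) 5 0 4 6 3 [] [(1, 4, 6)], .ihx (-1) 6 1 4 3 5 [] [(0, 4, 5)], .swp (-1) 4 5 [] [(0, 4, 5), (1, 4, 6), (3, 5, 6)], .swp (-1) 4 6 [] [(0, 4, 5), (1, 4, 6), (3, 5, 6)], .swp 1 5 6 [] [(0, 4, 5), (1, 4, 6), (3, 5, 6)], .swp (-2) 4 5 [4] [(0, 3, 5), (1, 4, 5)], .swp 2 4 5 [4] [(0, 4, 5), (1, 3, 5)], .ihx (-2) 4 0 1 5 3 [5] []]⟩,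
  ⟨2, 3, 5, [2, 3, 0],
    [(2, [.Y 1 2, .P 0 1, .P 1 2, .b 0 1], [2, 3, 4, 0, 1]), ((-1), [.Y 1 2, .P 0 1, .P 1 2, .o 0], [2, 1, 3, 4, 0])],
    [.swp (-1) 4 5 [] [(1, 3, 4), (2, 5, 6), (4, 5, 6)], .ihx (-1) 5 1 4 6 3 [] [(2, 4, 6)], .swp (-1) 4 6 [] [(1, 4, 5), (2, 4, 6), (3, 5, 6)]]⟩,
  ⟨3, 2, 4, [2, 3],
    [(2, [.b 0 1, .P 1 2, .P 0 1, .M 1 2], [1, 2, 3, 0]), ((-1), [.o 0, .P 1 2, .P 0 1, .M 1 2], [1, 2, 3, 0])],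
    [.ihx (-1) 6 1 4 3 5 [] [(0, 4, 5)], .swp (-1) 4 5 [] [(0, 4, 5), (1, 4, 6), (3, 5, 6)]]⟩,
  ⟨2, 3, 5, [2, 3, 0],
    [(1, [.Y 1 2, .P 0 1, .P 1 2, .o 0], [2, 1, 3, 4, 0]), ((-1), [.o 1, .Y 1 2, .P 0 1, .P 1 2], [2, 3, 4, 0, 1])],
    [.ihx 1 4 1 3 5 6 [] [(2, 5, 6)], .swp 1 5 6 [] [(1, 4, 5), (2, 3, 6), (4, 5, 6)], .swp 1 5 6 [] [(1, 4, 6), (2, 5, 6), (3, 4, 5)], .ihx (-1) 5 6 2 3 4 [] [(1, 4, 6)], .swp (-1) 4 6 [] [(1, 4, 6), (2, 5, 6), (3, 4, 5)]]⟩,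
  ⟨3, 2, 4, [2, 3],
    [((-1), [.P 1 2, .P 0 1, .M 1 2, .o 1], [1, 2, 3, 0]), (1, [.o 0, .P 1 2, .P 0 1, .M 1 2], [1, 2, 3, 0])],
    [.ihx 1 4 0 1 5 6 [] [(3, 5, 6)], .swp (-1) 5 6 [] [(0, 4, 5), (1, 3, 6), (4, 5, 6)], .swp 1 5 6 [] [(0, 4, 6), (1, 4, 5), (3, 5, 6)], .ihx (-1) 5 1 4 6 3 [] [(0, 4, 6)], .swp (-1) 4 6 [] [(0, 4, 6), (1, 4, 5), (3, 5, 6)]]⟩,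
  ⟨2, 3, 5, [2, 3, 4],
    [((-2), [.a 0, .Y 1 2, .P 0 1], [3, 1, 0, 2]), ((-1), [.b 0 1, .Y 1 2, .P 0 1], [3, 1, 4, 0, 2]), (2, [.Y 1 2, .P 0 1, .a 1], [0, 2, 3, 1]), (1, [.Y 1 2, .P 0 1, .b 0 1], [3, 2, 4, 0, 1]), (1, [.Y 1 2, .P 0 1, .b 1 2], [0, 3, 4, 1, 2]), ((-1), [.Y 1 2, .P 0 1, .o 1], [0, 2, 3, 4, 1]), (1, [.o 0, .Y 1 2, .P 0 1], [3, 4, 1, 0, 2])],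
    [.swp (-1) 5 6 [] [(0, 3, 5), (1, 5, 6), (2, 4, 6)], .ihx (-1) 5 1 4 6 2 [] [(0, 3, 6)]]⟩]

theorem cb13_ok : cb13.all Bs.ok = true := by decide +kernel

/-- Checked relations. -/
def cb14 : List Bs := [
  ⟨3, 2, 4, [3, 4],
    [(2, [.a 1, .P 0 1, .M 1 2], [2, 0, 1]), (1, [.b 0 1, .P 0 1, .M 1 2], [2, 3, 0, 1]), (1, [.b 1 2, .P 0 1, .M 1 2], [2, 0, 3, 1]), ((-2), [.P 0 1, .M 1 2, .a 0], [1, 2, 0]), ((-1), [.P 0 1, .M 1 2, .b 0 1], [2, 3, 0, 1]), (1, [.P 0 1, .M 1 2, .o 0], [1, 2, 3, 0]), ((-1), [.o 1, .P 0 1, .M 1 2], [2, 3, 0, 1])],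
    [.ihx (-1) 5 0 2 6 4 [] [(1, 3, 6)], .swp (-1) 5 6 [] [(0, 4, 6), (1, 3, 5), (2, 5, 6)], .swp 1 5 6 [] [(0, 5, 6), (1, 3, 5), (2, 4, 6)]]⟩,
  ⟨2, 3, 5, [2, 3, 4],
    [((-1), [.b 0 1, .Y 1 2, .P 0 1], [3, 1, 4, 0, 2]), (1, [.Y 1 2, .P 0 1, .b 0 1], [3, 2, 4, 0, 1]), (1, [.Y 1 2, .P 0 1, .b 1 2], [0, 3, 4, 1, 2])],
    [.swp (-1) 5 6 [] [(0, 3, 5), (1, 5, 6), (2, 4, 6)], .ihx (-1) 5 1 4 6 2 [] [(0, 3, 6)]]⟩,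
  ⟨3, 2, 4, [3, 4],
    [(1, [.b 0 1, .P 0 1, .M 1 2], [2, 3, 0, 1]), (1, [.b 1 2, .P 0 1, .M 1 2], [2, 0, 3, 1]), ((-1), [.P 0 1, .M 1 2, .b 0 1], [2, 3, 0, 1])],
    [.ihx (-1) 5 0 2 6 4 [] [(1, 3, 6)], .swp (-1) 5 6 [] [(0, 4, 6), (1, 3, 5), (2, 5, 6)], .swp 1 5 6 [] [(0, 5, 6), (1, 3, 5), (2, 4, 6)]]⟩,
  ⟨2, 3, 5, [2, 0, 3],
    [((-2), [.a 1, .Y 1 2, .P 0 1], [2, 3, 0, 1]), (2, [.Y 1 2, .P 0 1, .a 0], [2, 1, 3, 0]), (2, [.Y 1 2, .P 0 1, .a 2], [0, 2, 3, 1]), (2, [.Y 1 2, .P 0 1, .b 0 2], [2, 3, 4, 0, 1]), ((-1), [.Y 1 2, .P 0 1, .o 0], [2, 1, 3, 4, 0]), ((-1), [.Y 1 2, .P 0 1, .o 2], [0, 2, 3, 4, 1]), (1, [.o 1, .Y 1 2, .P 0 1], [2, 3, 4, 0, 1])],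
    [.ihx (-1) 4 5 1 6 2 [] [(3, 5, 6)], .swp (-1) 4 5 [] [(1, 3, 4), (2, 5, 6), (4, 5, 6)], .ihx (-1) 5 1 4 6 3 [] [(2, 4, 6)], .ihx 1 6 2 4 3 5 [] [(1, 4, 5)], .swp (-1) 4 6 [] [(1, 4, 5), (2, 4, 6), (3, 5, 6)], .swp 1 4 5 [] [(1, 4, 5), (2, 4, 6), (3, 5, 6)], .swp (-1) 5 6 [] [(1, 4, 5), (2, 4, 6), (3, 5, 6)], .swp (-2) 4 5 [4] [(1, 4, 5), (2, 3, 5)], .ihx (-2) 4 1 3 5 2 [5] []]⟩,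
  ⟨3, 2, 4, [1, 3],
    [(2, [.a 0, .P 0 1, .M 1 2], [1, 2, 0]), (2, [.a 2, .P 0 1, .M 1 2], [1, 2, 0]), (2, [.b 0 2, .P 0 1, .M 1 2], [1, 2, 3, 0]), ((-2), [.P 0 1, .M 1 2, .a 1], [1, 2, 0]), (1, [.P 0 1, .M 1 2, .o 1], [1, 2, 3, 0]), ((-1), [.o 0, .P 0 1, .M 1 2], [1, 2, 3, 0]), ((-1), [.o 2, .P 0 1, .M 1 2], [1, 2, 3, 0])],
    [.ihx 1 4 5 0 6 2 [] [(3, 5, 6)], .swp (-1) 5 6 [] [(0, 3, 6), (2, 4, 5), (4, 5, 6)], .ihx (-1) 5 0 4 6 3 [] [(2, 4, 6)], .ihx (-1) 6 2 4 3 5 [] [(0, 4, 5)], .swp (-1) 4 5 [] [(0, 4, 5), (2, 4, 6), (3, 5, 6)], .swp (-1) 4 6 [] [(0, 4, 5), (2, 4, 6), (3, 5, 6)], .swp 1 5 6 [] [(0, 4, 5), (2, 4, 6), (3, 5, 6)], .swp (-2) 4 5 [4] [(0, 3, 5), (2, 4, 5)], .swp 2 4 5 [4] [(0,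 4, 5), (2, 3, 5)], .ihx (-2) 4 0 2 5 3 [5] []]⟩,
  ⟨2, 3, 5, [2, 0, 3],
    [(2, [.Y 1 2, .P 0 1, .b 0 2], [2, 3, 4, 0, 1]), ((-1), [.Y 1 2, .P 0 1, .o 0], [2, 1, 3, 4, 0])],
    [.swp (-1) 4 5 [] [(1, 3, 4), (2, 5, 6), (4, 5, 6)], .ihx (-1) 5 1 4 6 3 [] [(2, 4, 6)], .swp (-1) 4 6 [] [(1, 4, 5), (2, 4, 6), (3, 5, 6)]]⟩,
  ⟨3, 2, 4, [1, 3],
    [(2, [.b 0 2, .P 0 1, .M 1 2], [1, 2, 3, 0]), ((-1), [.o 0, .P 0 1, .M 1 2], [1, 2, 3, 0])],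
    [.ihx (-1) 6 2 4 3 5 [] [(0, 4, 5)], .swp (-1) 4 5 [] [(0, 4, 5), (2, 4, 6), (3, 5, 6)]]⟩,
  ⟨2, 3, 5, [2, 0, 3],
    [(1, [.Y 1 2, .P 0 1, .o 0], [2, 1, 3, 4, 0]), ((-1), [.o 1, .Y 1 2, .P 0 1], [2, 3, 4, 0, 1])],
    [.ihx 1 4 1 3 5 6 [] [(2, 5, 6)], .swp 1 5 6 [] [(1, 4, 5), (2, 3, 6), (4, 5, 6)], .swp 1 5 6 [] [(1, 4, 6), (2, 5, 6), (3, 4, 5)], .ihx (-1) 5 6 2 3 4 [] [(1, 4, 6)], .swp (-1) 4 6 [] [(1, 4, 6), (2, 5, 6), (3, 4, 5)]]⟩,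
  ⟨3, 2, 4, [1, 3],
    [((-1), [.P 0 1, .M 1 2, .o 1], [1, 2, 3, 0]), (1, [.o 0, .P 0 1, .M 1 2], [1, 2, 3, 0])],
    [.ihx 1 4 0 2 5 6 [] [(3, 5, 6)], .swp (-1) 5 6 [] [(0, 4, 5), (2, 3, 6), (4, 5, 6)], .swp 1 5 6 [] [(0, 4, 6), (2, 4, 5), (3, 5, 6)], .ihx (-1) 5 2 4 6 3 [] [(0, 4, 6)], .swp (-1) 4 6 [] [(0, 4, 6), (2, 4, 5), (3, 5, 6)]]⟩,
  ⟨2, 3, 5, [0, 2, 3],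
    [(2, [.Y 1 2, .b 1 2], [2, 3, 4, 0, 1]), ((-1), [.Y 1 2, .o 1], [2, 1, 3, 4, 0])],
    [.swp (-1) 4 5 [] [(1, 3, 4), (2, 5, 6), (4, 5, 6)], .ihx (-1) 5 1 4 6 3 [] [(2, 4, 6)], .swp (-1) 4 6 [] [(1, 4, 5), (2, 4, 6), (3, 5, 6)]]⟩,
  ⟨3, 2, 4, [0, 3],
    [(2, [.b 1 2, .M 1 2], [1, 2, 3, 0]), ((-1), [.o 1, .M 1 2], [1, 2, 3, 0])],
    [.ihx (-1) 6 2 4 3 5 [] [(1, 4, 5)], .swp (-1) 4 5 [] [(1, 4, 5), (2, 4, 6), (3, 5, 6)]]⟩,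
  ⟨3, 3, 6, [3, 4, 5],
    [(2, [.a 0, .b 1 2], [3, 0, 4, 1, 2]), (1, [.b 0 1, .b 1 2], [3, 0, 4, 5, 1, 2]), (1, [.b 0 2, .b 1 2], [3, 0, 4, 5, 1, 2]), ((-2), [.b 1 2, .a 0], [3, 1, 2, 4, 0]), ((-1), [.b 1 2, .b 0 1], [3, 4, 2, 5, 0, 1]), ((-1), [.b 1 2, .b 0 2], [3, 1, 4, 5, 0, 2]), (1, [.b 1 2, .o 0], [3, 1, 2, 4, 5, 0]), ((-1), [.o 0, .b 1 2], [3, 4, 0, 5, 1, 2])],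
    [.ihx (-1) 7 1 6 8 4 [] [(0, 3, 6), (2, 5, 8)], .swp (-1) 7 8 [] [(0, 3, 6), (1, 4, 7), (2, 5, 8), (6, 7, 8)], .ihx (-1) 7 2 6 8 5 [] [(0, 3, 6), (1, 4, 8)], .swp 1 6 8 [] [(0, 3, 8), (1, 4, 6), (2, 6, 7), (5, 7, 8)], .swp 1 6 8 [] [(0, 3, 8), (1, 6, 7), (2, 5, 6), (4, 7, 8)], .swp (-1) 6 8 [] [(0, 7, 8), (1, 4, 6), (2, 5, 6), (3, 7, 8)], .swp (-2) 6 7 [6] [(0, 3, 6), (1, 4, 7), (2, 5, 7)]]⟩,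
  ⟨3, 3, 6, [3, 4, 5],
    [(2, [.a 1, .b 0 2], [3, 1, 4, 0, 2]), (1, [.b 0 1, .b 0 2], [3, 4, 1, 5, 0, 2]), ((-2), [.b 0 2, .a 1], [3, 0, 2, 4, 1]), ((-1), [.b 0 2, .b 0 1], [3, 4, 2, 5, 0, 1]), ((-1), [.b 0 2, .b 1 2], [3, 0, 4, 5, 1, 2]), (1, [.b 0 2, .o 1], [3, 0, 2, 4, 5, 1]), (1, [.b 1 2, .b 0 2], [3, 1, 4, 5, 0, 2]), ((-1), [.o 1, .b 0 2], [3, 4, 1, 5, 0, 2])],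
    [.swp 1 6 8 [] [(0, 3, 6), (1, 4, 8), (2, 6, 7), (5, 7, 8)], .swp (-1) 6 8 [] [(0, 3, 6), (1, 7, 8), (2, 5, 6), (4, 7, 8)], .ihx (-1) 7 0 6 8 3 [] [(1, 4, 6), (2, 5, 8)], .swp (-1) 7 8 [] [(0, 3, 7), (1, 4, 6), (2, 5, 8), (6, 7, 8)], .ihx (-1) 7 2 6 8 5 [] [(0, 3, 8), (1, 4, 6)], .swp 1 6 8 [] [(0, 6, 7), (1, 4, 8), (2, 5, 6), (3, 7, 8)], .swp (-2) 6 7 [6] [(0, 3, 7), (1, 4, 6), (2, 5, 7)]]⟩,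
  ⟨3, 3, 6, [3, 4, 5],
    [(2, [.a 2, .b 0 1], [3, 2, 4, 0, 1]), ((-2), [.b 0 1, .a 2], [3, 0, 1, 4, 2]), ((-1), [.b 0 1, .b 0 2], [3, 4, 1, 5, 0, 2]), ((-1), [.b 0 1, .b 1 2], [3, 0, 4, 5, 1, 2]), (1, [.b 0 1, .o 2], [3, 0, 1, 4, 5, 2]), (1, [.b 0 2, .b 0 1], [3, 4, 2, 5, 0, 1]), (1, [.b 1 2, .b 0 1], [3, 4, 2, 5, 0, 1]), ((-1), [.o 2, .b 0 1], [3, 4, 2, 5, 0, 1])],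
    [.swp (-1) 6 8 [] [(0, 3, 6), (1, 4, 6), (2, 7, 8), (5, 7, 8)], .ihx 1 7 1 6 8 4 [] [(0, 3, 6), (2, 5, 8)], .swp 1 6 7 [] [(0, 3, 7), (1, 4, 6), (2, 5, 8), (6, 7, 8)], .swp (-1) 6 8 [] [(0, 3, 8), (1, 6, 7), (2, 5, 6), (4, 7, 8)], .ihx 1 7 0 6 8 3 [] [(1, 4, 6), (2, 5, 8)], .swp (-1) 6 8 [] [(0, 6, 7), (1, 4, 8), (2, 5, 6), (3, 7, 8)], .swp (-2) 6 7 [6] [(0, 3, 7), (1, 4, 7), (2, 5, 6)]]⟩,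
  ⟨3, 3, 6, [3, 4, 5],
    [((-1), [.b 0 1, .b 0 2], [3, 4, 1, 5, 0, 2]), ((-1), [.b 0 1, .b 1 2], [3, 0, 4, 5, 1, 2]), (1, [.b 0 2, .b 0 1], [3, 4, 2, 5, 0, 1]), (1, [.b 1 2, .b 0 1], [3, 4, 2, 5, 0, 1])],
    [.swp 1 6 7 [] [(0, 3, 7), (1, 4, 6), (2, 5, 8), (6, 7, 8)], .ihx 1 7 1 6 8 4 [] [(0, 3, 6), (2, 5, 8)], .swp (-1) 6 8 [] [(0, 3, 8), (1, 6, 7), (2, 5, 6), (4, 7, 8)], .ihx 1 7 0 6 8 3 [] [(1, 4, 6), (2, 5, 8)], .swp (-1) 6 8 [] [(0, 6, 7), (1, 4, 8), (2, 5, 6), (3, 7, 8)]]⟩,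
  ⟨3, 3, 6, [3, 4, 2],
    [(4, [.a 0, .a 1], [2, 0, 3, 1]), (2, [.a 0, .b 0 1], [2, 3, 4, 0, 1]), ((-2), [.a 0, .o 1], [2, 0, 3, 4, 1]), ((-4), [.a 1, .a 0], [2, 1, 3, 0]), ((-2), [.a 1, .b 0 1], [2, 3, 4, 0, 1]), (2, [.a 1, .o 0], [2, 1, 3, 4, 0]), ((-2), [.b 0 1, .a 0], [2, 3, 1, 4, 0]), (2, [.b 0 1, .a 1], [2, 0, 3, 4, 1]), (1, [.b 0 1, .o 0], [2, 3, 1, 4, 5, 0]), ((-1), [.b 0 1, .o 1], [2, 0, 3, 4, 5, 1]), ((-2), [.o 0, .a 1], [2, 3, 0, 4, 1]), ((-1), [.o 0, .b 0 1], [2, 3, 4, 5, 0, 1]), (1, [.o 0, .o 1], [2, 3, 0, 4, 5, 1]), (2, [.o 1, .a 0], [2, 3, 1, 4, 0]), (1, [.o 1, .b 0 1], [2, 3, 4, 5, 0, 1]), ((-1), [.o 1, .o 0], [2, 3, 1, 4, 5, 0])],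
    [.ihx (-1) 6 1 5 7 8 [] [(0, 3, 5), (4, 7, 8)], .swp (-1) 7 8 [] [(0, 3, 5), (1, 6, 8), (4, 7, 8), (5, 6, 7)], .swp 1 5 8 [] [(0, 3, 8), (1, 5, 6), (4, 7, 8), (5, 6, 7)], .ihx 1 7 8 4 5 6 [] [(0, 3, 5), (1, 6, 8)], .swp 1 6 8 [] [(0, 3, 5), (1, 6, 8), (4, 7, 8), (5, 6, 7)], .ihx 1 6 0 5 7 8 [] [(1, 4, 5), (3, 7, 8)], .swp (-1) 5 8 [] [(0, 5, 6), (1, 4, 8), (3, 7, 8), (5, 6, 7)], .swp (-1) 6 8 [] [(0, 5, 6), (1, 7, 8), (3, 5, 6), (4, 7, 8)], .swp 1 5 7 [] [(0, 7, 8), (1, 5, 6), (3, 7, 8), (4, 5, 6)], .swp 1 7 8 [] [(0, 6, 8), (1, 4, 5), (3, 7, 8), (5, 6, 7)], .ihx (-1) 7 8 3 5 6 [] [(0, 6, 8), (1, 4, 5)], .swp (-1) 6 8 [] [(0, 6, 8), (1, 4, 5), (3, 7, 8), (5, 6, 7)], .swp 2 5 7 [5] [(0, 3, 5),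 (1, 6, 7), (4, 6, 7)], .swp 2 5 7 [5] [(0, 3, 7), (1, 5, 6), (4, 6, 7)], .swp (-2) 5 7 [5] [(0, 5, 6), (1, 4, 7), (3, 6, 7)], .swp (-2) 5 7 [5] [(0, 6, 7), (1, 4, 5), (3, 6, 7)], .swp (-2) 5 6 [5, 6] [(0, 3, 5), (1, 4, 6)], .stu (-2) 7 6 5 [] [] [(0, 3, 6), (1, 4, 5)], .stu 2 7 6 5 [] [] [(0, 3, 5), (1, 4, 6)], .swp 2 5 6 [5, 6] [(0, 3, 6), (1, 4, 5)], .ihx (-2) 6 1 5 7 4 [7] [(0, 3, 5)], .ihx 2 6 0 5 7 3 [7] [(1, 4, 5)]]⟩,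
  ⟨3, 3, 6, [3, 4, 5],
    [(2, [.a 0, .b 1 2], [3, 0, 4, 1, 2]), ((-2), [.a 1, .b 0 2], [3, 1, 4, 0, 2]), ((-1), [.b 0 1, .b 0 2], [3, 4, 1, 5, 0, 2]), (2, [.b 0 2, .a 1], [3, 0, 2, 4, 1]), (1, [.b 0 2, .b 0 1], [3, 4, 2, 5, 0, 1]), (1, [.b 0 2, .b 1 2], [3, 0, 4, 5, 1, 2]), ((-1), [.b 0 2, .o 1], [3, 0, 2, 4, 5, 1]), ((-2), [.b 1 2, .a 0], [3, 1, 2, 4, 0]), ((-1), [.b 1 2, .b 0 2], [3, 1, 4, 5, 0, 2]), (1, [.b 1 2, .o 0], [3, 1, 2, 4, 5, 0]), ((-1), [.o 0, .b 1 2], [3, 4, 0, 5, 1, 2]), (1, [.o 1, .b 0 2], [3, 4, 1, 5, 0, 2])],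
    [.swp (-1) 6 8 [] [(0, 3, 6), (1, 4, 8), (2, 6, 7), (5, 7, 8)], .swp 1 6 8 [] [(0, 3, 6), (1, 7, 8), (2, 5, 6), (4, 7, 8)], .swp 1 7 8 [] [(0, 3, 7), (1, 4, 6), (2, 5, 8), (6, 7, 8)], .ihx 1 7 0 6 8 3 [] [(1, 4, 6), (2, 5, 8)], .ihx 1 7 2 6 8 5 [] [(0, 3, 8), (1, 4, 6)], .swp (-1) 6 8 [] [(0, 6, 7), (1, 4, 8), (2, 5, 6), (3, 7, 8)], .swp (-1) 6 8 [] [(0, 7, 8), (1, 4, 6), (2, 5, 6), (3, 7, 8)], .swp (-2) 6 7 [6] [(0, 3, 6), (1, 4, 7), (2, 5, 7)], .swp 2 6 7 [6] [(0, 3, 7), (1, 4, 6), (2, 5, 7)]]⟩,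
  ⟨3, 3, 6, [3, 4, 5],
    [(1, [.b 0 1, .b 0 2], [3, 4, 1, 5, 0, 2]), ((-1), [.b 0 2, .b 0 1], [3, 4, 2, 5, 0, 1]), ((-1), [.b 0 2, .b 1 2], [3, 0, 4, 5, 1, 2]), (1, [.b 1 2, .b 0 2], [3, 1, 4, 5, 0, 2])],
    [.swp 1 6 8 [] [(0, 3, 6), (1, 4, 8), (2, 6, 7), (5, 7, 8)], .ihx (-1) 7 2 6 8 5 [] [(0, 3, 8), (1, 4, 6)], .ihx (-1) 7 0 6 8 3 [] [(1, 4, 6), (2, 5, 8)], .swp (-1) 7 8 [] [(0, 3, 7), (1, 4, 6), (2, 5, 8), (6, 7, 8)], .swp 1 6 8 [] [(0, 6, 7), (1, 4, 8), (2, 5, 6), (3, 7, 8)]]⟩,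
  ⟨3, 3, 6, [3, 1, 4],
    [(4, [.a 0, .a 2], [2, 0, 3, 1]), (2, [.a 0, .b 0 2], [2, 3, 4, 0, 1]), ((-2), [.a 0, .o 2], [2, 0, 3, 4, 1]), ((-4), [.a 2, .a 0], [2, 1, 3, 0]), ((-2), [.a 2, .b 0 2], [2, 3, 4, 0, 1]), (2, [.a 2, .o 0], [2, 1, 3, 4, 0]), ((-2), [.b 0 2, .a 0], [2, 3, 1, 4, 0]), (2, [.b 0 2, .a 2], [2, 0, 3, 4, 1]), (1, [.b 0 2, .o 0], [2, 3, 1, 4, 5, 0]), ((-1), [.b 0 2, .o 2], [2, 0, 3, 4, 5, 1]), ((-2), [.o 0, .a 2], [2, 3, 0, 4, 1]), ((-1), [.o 0, .b 0 2], [2, 3, 4, 5, 0, 1]), (1, [.o 0, .o 2], [2, 3, 0, 4, 5, 1]), (2, [.o 2, .a 0], [2, 3, 1, 4, 0]), (1, [.o 2, .b 0 2], [2, 3, 4, 5, 0, 1]), ((-1), [.o 2, .o 0], [2, 3, 1, 4, 5, 0])],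
    [.ihx (-1) 6 2 5 7 8 [] [(0, 3, 5), (4, 7, 8)], .swp (-1) 7 8 [] [(0, 3, 5), (2, 6, 8), (4, 7, 8), (5, 6, 7)], .swp 1 5 8 [] [(0, 3, 8), (2, 5, 6), (4, 7, 8), (5, 6, 7)], .ihx 1 7 8 4 5 6 [] [(0, 3, 5), (2, 6, 8)], .swp 1 6 8 [] [(0, 3, 5), (2, 6, 8), (4, 7, 8), (5, 6, 7)], .ihx 1 6 0 5 7 8 [] [(2, 4, 5), (3, 7, 8)], .swp (-1) 5 8 [] [(0, 5, 6), (2, 4, 8), (3, 7, 8), (5, 6, 7)], .swp (-1) 6 8 [] [(0, 5, 6), (2, 7, 8), (3, 5, 6), (4, 7, 8)], .swp 1 5 7 [] [(0, 7, 8), (2, 5, 6), (3, 7, 8), (4, 5, 6)], .swp 1 7 8 [] [(0, 6, 8), (2, 4, 5), (3, 7, 8), (5, 6, 7)], .ihx (-1) 7 8 3 5 6 [] [(0, 6, 8), (2, 4, 5)], .swp (-1) 6 8 [] [(0, 6, 8), (2, 4, 5), (3, 7, 8), (5, 6, 7)], .swp 2 5 7 [5] [(0, 3, 5),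 (2, 6, 7), (4, 6, 7)], .swp 2 5 7 [5] [(0, 3, 7), (2, 5, 6), (4, 6, 7)], .swp (-2) 5 7 [5] [(0, 5, 6), (2, 4, 7), (3, 6, 7)], .swp (-2) 5 7 [5] [(0, 6, 7), (2, 4, 5), (3, 6, 7)], .stu 2 7 6 5 [] [] [(0, 3, 5), (2, 4, 6)], .swp 2 5 6 [5, 6] [(0, 3, 6), (2, 4, 5)], .ihx (-2) 6 2 5 7 4 [7] [(0, 3, 5)], .swp (-2) 5 6 [5, 6] [(0, 3, 5), (2, 4, 6)], .stu (-2) 7 6 5 [] [] [(0, 3, 6), (2, 4, 5)], .ihx 2 6 0 5 7 3 [7] [(2, 4, 5)]]⟩,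
  ⟨3, 3, 6, [3, 4, 5],
    [(2, [.a 0, .b 1 2], [3, 0, 4, 1, 2]), ((-2), [.a 2, .b 0 1], [3, 2, 4, 0, 1]), (2, [.b 0 1, .a 2], [3, 0, 1, 4, 2]), (1, [.b 0 1, .b 0 2], [3, 4, 1, 5, 0, 2]), (1, [.b 0 1, .b 1 2], [3, 0, 4, 5, 1, 2]), ((-1), [.b 0 1, .o 2], [3, 0, 1, 4, 5, 2]), ((-1), [.b 0 2, .b 0 1], [3, 4, 2, 5, 0, 1]), ((-2), [.b 1 2, .a 0], [3, 1, 2, 4, 0]), ((-1), [.b 1 2, .b 0 1], [3, 4, 2, 5, 0, 1]), (1, [.b 1 2, .o 0], [3, 1, 2, 4, 5, 0]), ((-1), [.o 0, .b 1 2], [3, 4, 0, 5, 1, 2]), (1, [.o 2, .b 0 1], [3, 4, 2, 5, 0, 1])],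
    [.swp 1 6 8 [] [(0, 3, 6), (1, 4, 6), (2, 7, 8), (5, 7, 8)], .ihx (-1) 7 1 6 8 4 [] [(0, 3, 6), (2, 5, 8)], .swp (-1) 6 7 [] [(0, 3, 7), (1, 4, 6), (2, 5, 8), (6, 7, 8)], .swp 1 6 8 [] [(0, 3, 8), (1, 6, 7), (2, 5, 6), (4, 7, 8)], .ihx (-1) 7 0 6 8 3 [] [(1, 4, 6), (2, 5, 8)], .swp 1 6 8 [] [(0, 6, 7), (1, 4, 8), (2, 5, 6), (3, 7, 8)], .swp (-1) 6 8 [] [(0, 7, 8), (1, 4, 6), (2, 5, 6), (3, 7, 8)], .swp (-2) 6 7 [6] [(0, 3, 6), (1, 4, 7), (2, 5, 7)], .swp 2 6 7 [6] [(0, 3, 7), (1, 4, 7), (2, 5, 6)]]⟩,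
  ⟨3, 3, 6, [3, 4, 5],
    [(1, [.b 0 1, .b 1 2], [3, 0, 4, 5, 1, 2]), (1, [.b 0 2, .b 1 2], [3, 0, 4, 5, 1, 2]), ((-1), [.b 1 2, .b 0 1], [3, 4, 2, 5, 0, 1]), ((-1), [.b 1 2, .b 0 2], [3, 1, 4, 5, 0, 2])],
    [.swp (-1) 7 8 [] [(0, 3, 6), (1, 4, 7), (2, 5, 8), (6, 7, 8)], .ihx (-1) 7 1 6 8 4 [] [(0, 3, 6), (2, 5, 8)], .ihx (-1) 7 2 6 8 5 [] [(0, 3, 6), (1, 4, 8)], .swp 1 6 8 [] [(0, 3, 8), (1, 4, 6), (2, 6, 7), (5, 7, 8)], .swp 1 6 8 [] [(0, 3, 8), (1, 6, 7), (2, 5, 6), (4, 7, 8)]]⟩,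
  ⟨3, 3, 6, [0, 3, 4],
    [(4, [.a 1, .a 2], [2, 0, 3, 1]), (2, [.a 1, .b 1 2], [2, 3, 4, 0, 1]), ((-2), [.a 1, .o 2], [2, 0, 3, 4, 1]), ((-4), [.a 2, .a 1], [2, 1, 3, 0]), ((-2), [.a 2, .b 1 2], [2, 3, 4, 0, 1]), (2, [.a 2, .o 1], [2, 1, 3, 4, 0]), ((-2), [.b 1 2, .a 1], [2, 3, 1, 4, 0]), (2, [.b 1 2, .a 2], [2, 0, 3, 4, 1]), (1, [.b 1 2, .o 1], [2, 3, 1, 4, 5, 0]), ((-1), [.b 1 2, .o 2], [2, 0, 3, 4, 5, 1]), ((-2), [.o 1, .a 2], [2, 3, 0, 4, 1]), ((-1), [.o 1, .b 1 2], [2, 3, 4, 5, 0, 1]), (1, [.o 1, .o 2], [2, 3, 0, 4, 5, 1]), (2, [.o 2, .a 1], [2, 3, 1, 4, 0]), (1, [.o 2, .b 1 2], [2, 3, 4, 5, 0, 1]), ((-1), [.o 2, .o 1], [2, 3, 1, 4, 5, 0])],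
    [.ihx (-1) 6 2 5 7 8 [] [(1, 3, 5), (4, 7, 8)], .swp (-1) 7 8 [] [(1, 3, 5), (2, 6, 8), (4, 7, 8), (5, 6, 7)], .swp 1 5 8 [] [(1, 3, 8), (2, 5, 6), (4, 7, 8), (5, 6, 7)], .ihx 1 7 8 4 5 6 [] [(1, 3, 5), (2, 6, 8)], .swp 1 6 8 [] [(1, 3, 5), (2, 6, 8), (4, 7, 8), (5, 6, 7)], .ihx 1 6 1 5 7 8 [] [(2, 4, 5), (3, 7, 8)], .swp (-1) 5 8 [] [(1, 5, 6), (2, 4, 8), (3, 7, 8), (5, 6, 7)], .swp (-1) 6 8 [] [(1, 5, 6), (2, 7, 8), (3, 5, 6), (4, 7, 8)], .swp 1 5 7 [] [(1, 7, 8), (2, 5, 6), (3, 7, 8), (4, 5, 6)], .swp 1 7 8 [] [(1, 6, 8), (2, 4, 5), (3, 7, 8), (5, 6, 7)], .ihx (-1) 7 8 3 5 6 [] [(1, 6, 8), (2, 4, 5)], .swp (-1) 6 8 [] [(1, 6, 8), (2, 4, 5), (3, 7, 8), (5, 6, 7)], .swp 2 5 7 [5] [(1, 3, 5),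 (2, 6, 7), (4, 6, 7)], .swp 2 5 7 [5] [(1, 3, 7), (2, 5, 6), (4, 6, 7)], .swp (-2) 5 7 [5] [(1, 5, 6), (2, 4, 7), (3, 6, 7)], .swp (-2) 5 7 [5] [(1, 6, 7), (2, 4, 5), (3, 6, 7)], .stu 2 7 6 5 [] [] [(1, 3, 5), (2, 4, 6)], .swp 2 5 6 [5, 6] [(1, 3, 6), (2, 4, 5)], .ihx (-2) 6 2 5 7 4 [7] [(1, 3, 5)], .swp (-2) 5 6 [5, 6] [(1, 3, 5), (2, 4, 6)], .stu (-2) 7 6 5 [] [] [(1, 3, 6), (2, 4, 5)], .ihx 2 6 1 5 7 3 [7] [(2, 4, 5)]]⟩,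
  ⟨3, 3, 6, [3, 4, 5],
    [(2, [.a 1, .b 0 2], [3, 1, 4, 0, 2]), ((-2), [.a 2, .b 0 1], [3, 2, 4, 0, 1]), (2, [.b 0 1, .a 2], [3, 0, 1, 4, 2]), (1, [.b 0 1, .b 0 2], [3, 4, 1, 5, 0, 2]), (1, [.b 0 1, .b 1 2], [3, 0, 4, 5, 1, 2]), ((-1), [.b 0 1, .o 2], [3, 0, 1, 4, 5, 2]), ((-2), [.b 0 2, .a 1], [3, 0, 2, 4, 1]), ((-1), [.b 0 2, .b 0 1], [3, 4, 2, 5, 0, 1]), (1, [.b 0 2, .o 1], [3, 0, 2, 4, 5, 1]), ((-1), [.b 1 2, .b 0 1], [3, 4, 2, 5, 0, 1]), ((-1), [.o 1, .b 0 2], [3, 4, 1, 5, 0, 2]), (1, [.o 2, .b 0 1], [3, 4, 2, 5, 0, 1])],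
    [.swp 1 6 8 [] [(0, 3, 6), (1, 4, 6), (2, 7, 8), (5, 7, 8)], .swp (-1) 6 7 [] [(0, 3, 7), (1, 4, 6), (2, 5, 8), (6, 7, 8)], .ihx (-1) 7 1 6 8 4 [] [(0, 3, 6), (2, 5, 8)], .swp (-1) 6 8 [] [(0, 3, 6), (1, 7, 8), (2, 5, 6), (4, 7, 8)], .swp 1 6 8 [] [(0, 3, 8), (1, 6, 7), (2, 5, 6), (4, 7, 8)], .ihx (-1) 7 0 6 8 3 [] [(1, 4, 6), (2, 5, 8)], .swp 1 6 8 [] [(0, 6, 7), (1, 4, 8), (2, 5, 6), (3, 7, 8)], .swp (-2) 6 7 [6] [(0, 3, 7), (1, 4, 6), (2, 5, 7)], .swp 2 6 7 [6] [(0, 3, 7), (1, 4, 7), (2, 5, 6)]]⟩,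
  ⟨3, 3, 6, [3, 4, 2],
    [(2, [.a 1, .o 0], [2, 1, 3, 4, 0]), (1, [.b 0 1, .o 0], [2, 3, 1, 4, 5, 0]), ((-2), [.o 0, .a 1], [2, 3, 0, 4, 1]), ((-1), [.o 0, .b 0 1], [2, 3, 4, 5, 0, 1]), (1, [.o 0, .o 1], [2, 3, 0, 4, 5, 1]), ((-1), [.o 1, .o 0], [2, 3, 1, 4, 5, 0])],
    [.ihx 1 6 0 5 7 8 [] [(1, 4, 5), (3, 7, 8)], .swp (-1) 5 8 [] [(0, 5, 6), (1, 4, 8), (3, 7, 8), (5, 6, 7)], .swp (-1) 6 8 [] [(0, 5, 6), (1, 7, 8), (3, 5, 6), (4, 7, 8)], .swp 1 5 7 [] [(0, 7, 8), (1, 5, 6), (3, 7, 8), (4, 5, 6)], .swp 1 7 8 [] [(0, 6, 8), (1, 4, 5), (3, 7, 8), (5, 6, 7)], .ihx (-1) 7 8 3 5 6 [] [(0, 6, 8), (1, 4, 5)], .swp (-1) 6 8 [] [(0, 6, 8), (1, 4, 5), (3, 7, 8), (5, 6, 7)], .swp (-2) 5 7 [5] [(0, 6, 7), (1,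 4, 5), (3, 6, 7)]]⟩,
  ⟨3, 3, 6, [3, 1, 4],
    [(2, [.a 2, .o 0], [2, 1, 3, 4, 0]), (1, [.b 0 2, .o 0], [2, 3, 1, 4, 5, 0]), ((-2), [.o 0, .a 2], [2, 3, 0, 4, 1]), ((-1), [.o 0, .b 0 2], [2, 3, 4, 5, 0, 1]), (1, [.o 0, .o 2], [2, 3, 0, 4, 5, 1]), ((-1), [.o 2, .o 0], [2, 3, 1, 4, 5, 0])],
    [.ihx 1 6 0 5 7 8 [] [(2, 4, 5), (3, 7, 8)], .swp (-1) 5 8 [] [(0, 5, 6), (2, 4, 8), (3, 7, 8), (5, 6, 7)], .swp (-1) 6 8 [] [(0, 5, 6), (2, 7, 8), (3, 5, 6), (4, 7, 8)], .swp 1 5 7 [] [(0, 7, 8), (2, 5, 6), (3, 7, 8), (4, 5, 6)], .swp 1 7 8 [] [(0, 6, 8), (2, 4, 5), (3, 7, 8), (5, 6, 7)], .ihx (-1) 7 8 3 5 6 [] [(0, 6, 8), (2, 4, 5)], .swp (-1) 6 8 [] [(0, 6, 8), (2, 4, 5), (3, 7, 8), (5, 6, 7)], .swp (-2)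 5 7 [5] [(0, 6, 7), (2, 4, 5), (3, 6, 7)]]⟩,
  ⟨1, 3, 4, [1, 2, 3],
    [(1, [.Y 0 1, .Y 1 2], [0, 3, 1, 2]), ((-1), [.Y 0 1, .Y 1 2, .P 0 1], [1, 3, 0, 2]), (1, [.Y 0 1, .Y 1 2, .P 0 1, .P 1 2], [2, 3, 0, 1])],
    [.ihx (-1) 4 0 1 2 3 [] []]⟩,
  ⟨3, 1, 2, [3],
    [(1, [.M 1 2, .M 0 1], [1, 0]), ((-1), [.P 0 1, .M 1 2, .M 0 1], [1, 0]), (1, [.P 1 2, .P 0 1, .M 1 2, .M 0 1], [1, 0])],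
    [.ihx 1 4 0 3 1 2 [] []]⟩,
  ⟨4, 3, 4, [4, 5, 1],
    [(2, [.a 0, .M 2 3, .P 1 2, .P 0 1], [2, 1, 0]), (1, [.b 0 2, .M 2 3, .P 1 2, .P 0 1], [2, 1, 3, 0]), (1, [.b 0 3, .M 2 3, .P 1 2, .P 0 1], [2, 1, 3, 0]), ((-2), [.M 2 3, .P 1 2, .P 0 1, .a 1], [0, 2, 1]), ((-1), [.M 2 3, .P 1 2, .P 0 1, .b 0 1], [2, 3, 0, 1]), (1, [.M 2 3, .P 1 2, .P 0 1, .o 1], [0, 2, 3, 1]), ((-1), [.o 0, .M 2 3, .P 1 2, .P 0 1], [2, 3, 1, 0])],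
    [.swp (-1) 6 7 [] [(0, 5, 6), (2, 4, 7), (3, 6, 7)], .swp 1 6 7 [] [(0, 5, 6), (2, 6, 7), (3, 4, 7)], .ihx (-1) 6 2 3 7 4 [] [(0, 5, 7)]]⟩,
  ⟨4, 3, 4, [4, 5, 6],
    [(1, [.b 0 1, .M 2 3, .P 1 2, .P 0 1], [3, 1, 2, 0]), ((-1), [.M 2 3, .P 1 2, .P 0 1, .b 1 2], [0, 3, 1, 2])],
    []⟩,
  ⟨3, 4, 5, [3, 2, 4, 5],
    [((-2), [.a 1, .P 0 1, .P 1 2, .Y 2 3], [3, 0, 1, 2]), ((-1), [.b 0 1, .P 0 1, .P 1 2, .Y 2 3], [3, 4, 0, 1, 2]), (2, [.P 0 1, .P 1 2, .Y 2 3, .a 0], [1, 2, 3, 0]), (1, [.P 0 1, .P 1 2, .Y 2 3, .b 0 2], [3, 2, 4, 0, 1]), (1, [.P 0 1, .P 1 2, .Y 2 3, .b 0 3], [1, 3, 4, 0, 2]), ((-1), [.P 0 1, .P 1 2, .Y 2 3, .o 0], [1, 2, 3, 4, 0]), (1, [.o 1, .P 0 1, .P 1 2, .Y 2 3], [3, 4, 0, 1, 2])],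
    [.ihx (-1) 6 0 5 7 4 [] [(1, 3, 7)], .swp (-1) 6 7 [] [(0, 6, 7), (1, 3, 6), (4, 5, 7)]]⟩,
  ⟨3, 4, 5, [3, 4, 5, 6],
    [((-1), [.b 1 2, .P 0 1, .P 1 2, .Y 2 3], [4, 0, 1, 2, 3]), (1, [.P 0 1, .P 1 2, .Y 2 3, .b 0 1], [2, 3, 4, 0, 1])],
    []⟩,
  ⟨4, 3, 4, [4, 5, 1],
    [((-1), [.b 0 2, .M 2 3, .P 1 2, .P 0 1], [2, 1, 3, 0]), ((-1), [.b 0 3, .M 2 3, .P 1 2, .P 0 1], [2, 1, 3, 0]), (1, [.M 2 3, .P 1 2, .P 0 1, .b 0 1], [2, 3, 0, 1])],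
    [.swp 1 6 7 [] [(0, 5, 6), (2, 4, 7), (3, 6, 7)], .swp (-1) 6 7 [] [(0, 5, 6), (2, 6, 7), (3, 4, 7)], .ihx 1 6 2 3 7 4 [] [(0, 5, 7)]]⟩]

theorem cb14_ok : cb14.all Bs.ok = true := by decide +kernel

/-- Checked relations. -/
def cb15 : List Bs := [
  ⟨3, 4, 5, [3, 2, 4, 5],
    [(1, [.b 0 1, .P 0 1, .P 1 2, .Y 2 3], [3, 4, 0, 1, 2]), ((-1), [.P 0 1, .P 1 2, .Y 2 3, .b 0 2], [3, 2, 4, 0, 1]), ((-1), [.P 0 1, .P 1 2, .Y 2 3, .b 0 3], [1, 3, 4, 0, 2])],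
    [.ihx 1 6 0 5 7 4 [] [(1, 3, 7)], .swp 1 6 7 [] [(0, 6, 7), (1, 3, 6), (4, 5, 7)]]⟩,
  ⟨4, 3, 4, [4, 0, 5],
    [(2, [.a 1, .M 2 3, .P 1 2, .P 0 1], [2, 1, 0]), (1, [.b 1 2, .M 2 3, .P 1 2, .P 0 1], [2, 1, 3, 0]), (1, [.b 1 3, .M 2 3, .P 1 2, .P 0 1], [2, 1, 3, 0]), ((-2), [.M 2 3, .P 1 2, .P 0 1, .a 2], [0, 2, 1]), ((-1), [.M 2 3, .P 1 2, .P 0 1, .b 0 2], [2, 3, 0, 1]), (1, [.M 2 3, .P 1 2, .P 0 1, .o 2], [0, 2, 3, 1]), ((-1), [.o 1, .M 2 3, .P 1 2, .P 0 1], [2, 3, 1, 0])],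
    [.swp (-1) 6 7 [] [(1, 5, 6), (2, 4, 7), (3, 6, 7)], .swp 1 6 7 [] [(1, 5, 6), (2, 6, 7), (3, 4, 7)], .ihx (-1) 6 2 3 7 4 [] [(1, 5, 7)]]⟩,
  ⟨3, 4, 5, [1, 3, 4, 5],
    [((-2), [.a 2, .P 0 1, .P 1 2, .Y 2 3], [3, 0, 1, 2]), ((-1), [.b 0 2, .P 0 1, .P 1 2, .Y 2 3], [3, 4, 0, 1, 2]), (2, [.P 0 1, .P 1 2, .Y 2 3, .a 1], [1, 2, 3, 0]), (1, [.P 0 1, .P 1 2, .Y 2 3, .b 1 2], [3, 2, 4, 0, 1]), (1, [.P 0 1, .P 1 2, .Y 2 3, .b 1 3], [1, 3, 4, 0, 2]), ((-1), [.P 0 1, .P 1 2, .Y 2 3, .o 1], [1, 2, 3, 4, 0]), (1, [.o 2, .P 0 1, .P 1 2, .Y 2 3], [3, 4, 0, 1, 2])],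
    [.ihx (-1) 6 0 5 7 4 [] [(2, 3, 7)], .swp (-1) 6 7 [] [(0, 6, 7), (2, 3, 6), (4, 5, 7)]]⟩,
  ⟨4, 3, 4, [4, 0, 5],
    [((-1), [.b 1 2, .M 2 3, .P 1 2, .P 0 1], [2, 1, 3, 0]), ((-1), [.b 1 3, .M 2 3, .P 1 2, .P 0 1], [2, 1, 3, 0]), (1, [.M 2 3, .P 1 2, .P 0 1, .b 0 2], [2, 3, 0, 1])],
    [.swp 1 6 7 [] [(1, 5, 6), (2, 4, 7), (3, 6, 7)], .swp (-1) 6 7 [] [(1, 5, 6), (2, 6, 7), (3, 4, 7)], .ihx 1 6 2 3 7 4 [] [(1, 5, 7)]]⟩,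
  ⟨3, 4, 5, [1, 3, 4, 5],
    [(1, [.b 0 2, .P 0 1, .P 1 2, .Y 2 3], [3, 4, 0, 1, 2]), ((-1), [.P 0 1, .P 1 2, .Y 2 3, .b 1 2], [3, 2, 4, 0, 1]), ((-1), [.P 0 1, .P 1 2, .Y 2 3, .b 1 3], [1, 3, 4, 0, 2])],
    [.ihx 1 6 0 5 7 4 [] [(2, 3, 7)], .swp 1 6 7 [] [(0, 6, 7), (2, 3, 6), (4, 5, 7)]]⟩,
  ⟨4, 3, 4, [4, 0, 1],
    [((-2), [.b 2 3, .M 2 3, .P 1 2, .P 0 1], [1, 2, 3, 0]), (1, [.M 2 3, .P 1 2, .P 0 1, .o 0], [1, 2, 3, 0])],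
    [.ihx 1 5 6 2 7 3 [] [(4, 6, 7)], .swp 1 6 7 [] [(2, 5, 6), (3, 5, 7), (4, 6, 7)]]⟩,
  ⟨3, 4, 5, [1, 2, 3, 4],
    [((-2), [.P 0 1, .P 1 2, .Y 2 3, .b 2 3], [2, 3, 4, 0, 1]), (1, [.o 0, .P 0 1, .P 1 2, .Y 2 3], [2, 3, 4, 0, 1])],
    [.ihx 1 7 3 5 4 6 [] [(0, 5, 6)], .swp 1 5 6 [] [(0, 5, 6), (3, 5, 7), (4, 6, 7)]]⟩,
  ⟨4, 3, 4, [4, 0, 1],
    [(1, [.M 2 3, .P 1 2, .P 0 1, .o 0], [1, 2, 3, 0]), ((-1), [.o 2, .M 2 3, .P 1 2, .P 0 1], [1, 2, 3, 0])],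
    [.ihx (-1) 5 2 3 6 7 [] [(4, 6, 7)], .swp 1 6 7 [] [(2, 5, 6), (3, 4, 7), (5, 6, 7)], .swp (-1) 6 7 [] [(2, 5, 7), (3, 5, 6), (4, 6, 7)], .ihx 1 6 3 5 7 4 [] [(2, 5, 7)], .swp 1 5 7 [] [(2, 5, 7), (3, 5, 6), (4, 6, 7)]]⟩,
  ⟨3, 4, 5, [1, 2, 3, 4],
    [((-1), [.P 0 1, .P 1 2, .Y 2 3, .o 2], [2, 1, 3, 4, 0]), (1, [.o 0, .P 0 1, .P 1 2, .Y 2 3], [2, 3, 4, 0, 1])],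
    [.ihx (-1) 5 0 4 6 7 [] [(3, 6, 7)], .swp (-1) 6 7 [] [(0, 5, 6), (3, 4, 7), (5, 6, 7)], .swp (-1) 6 7 [] [(0, 5, 7), (3, 6, 7), (4, 5, 6)], .ihx 1 6 7 3 4 5 [] [(0, 5, 7)], .swp 1 5 7 [] [(0, 5, 7), (3, 6, 7), (4, 5, 6)]]⟩,
  ⟨4, 3, 1, [4, 0, 1],
    [(1, [.M 2 3, .P 1 2, .P 0 1], [0]), (1, [.P 2 3, .M 2 3, .P 1 2, .P 0 1], [0])],
    []⟩,
  ⟨3, 4, 2, [1, 2, 3, 4],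
    [(1, [.P 0 1, .P 1 2, .Y 2 3], [0, 1]), (1, [.P 0 1, .P 1 2, .Y 2 3, .P 2 3], [1, 0])],
    []⟩,
  ⟨4, 3, 4, [4, 5, 1],
    [(2, [.a 0, .M 2 3, .P 1 2], [2, 0, 1]), (1, [.b 0 2, .M 2 3, .P 1 2], [2, 0, 3, 1]), (1, [.b 0 3, .M 2 3, .P 1 2], [2, 0, 3, 1]), ((-2), [.M 2 3, .P 1 2, .a 0], [1, 2, 0]), ((-1), [.M 2 3, .P 1 2, .b 0 1], [2, 3, 0, 1]), (1, [.M 2 3, .P 1 2, .o 0], [1, 2, 3, 0]), ((-1), [.o 0, .M 2 3, .P 1 2], [2, 3, 0, 1])],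
    [.swp (-1) 6 7 [] [(0, 4, 6), (2, 5, 7), (3, 6, 7)], .swp 1 6 7 [] [(0, 4, 6), (2, 6, 7), (3, 5, 7)], .ihx (-1) 6 2 3 7 5 [] [(0, 4, 7)]]⟩,
  ⟨4, 3, 4, [4, 5, 6],
    [(1, [.b 0 1, .M 2 3, .P 1 2], [3, 0, 2, 1]), ((-1), [.M 2 3, .P 1 2, .b 0 2], [1, 3, 0, 2])],
    []⟩,
  ⟨3, 4, 5, [3, 2, 4, 5],
    [((-2), [.a 0, .P 1 2, .Y 2 3], [3, 0, 1, 2]), ((-1), [.b 0 1, .P 1 2, .Y 2 3], [3, 0, 4, 1, 2]), (2, [.P 1 2, .Y 2 3, .a 0], [1, 2, 3, 0]), (1, [.P 1 2, .Y 2 3, .b 0 2], [3, 2, 4, 0, 1]), (1, [.P 1 2, .Y 2 3, .b 0 3], [1, 3, 4, 0, 2]), ((-1), [.P 1 2, .Y 2 3, .o 0], [1, 2, 3, 4, 0]), (1, [.o 0, .P 1 2, .Y 2 3], [3, 4, 0, 1, 2])],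
    [.swp (-1) 6 7 [] [(0, 3, 6), (1, 6, 7), (4, 5, 7)], .ihx (-1) 6 1 5 7 4 [] [(0, 3, 7)]]⟩,
  ⟨3, 4, 5, [3, 4, 5, 6],
    [((-1), [.b 0 2, .P 1 2, .Y 2 3], [4, 0, 1, 2, 3]), (1, [.P 1 2, .Y 2 3, .b 0 1], [2, 3, 4, 0, 1])],
    []⟩,
  ⟨4, 3, 4, [4, 5, 1],
    [((-1), [.b 0 2, .M 2 3, .P 1 2], [2, 0, 3, 1]), ((-1), [.b 0 3, .M 2 3, .P 1 2], [2, 0, 3, 1]), (1, [.M 2 3, .P 1 2, .b 0 1], [2, 3, 0, 1])],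
    [.swp 1 6 7 [] [(0, 4, 6), (2, 5, 7), (3, 6, 7)], .swp (-1) 6 7 [] [(0, 4, 6), (2, 6, 7), (3, 5, 7)], .ihx 1 6 2 3 7 5 [] [(0, 4, 7)]]⟩,
  ⟨3, 4, 5, [3, 2, 4, 5],
    [(1, [.b 0 1, .P 1 2, .Y 2 3], [3, 0, 4, 1, 2]), ((-1), [.P 1 2, .Y 2 3, .b 0 2], [3, 2, 4, 0, 1]), ((-1), [.P 1 2, .Y 2 3, .b 0 3], [1, 3, 4, 0, 2])],
    [.swp 1 6 7 [] [(0, 3, 6), (1, 6, 7), (4, 5, 7)], .ihx 1 6 1 5 7 4 [] [(0, 3, 7)]]⟩,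
  ⟨4, 3, 4, [0, 4, 5],
    [(2, [.a 1, .M 2 3, .P 1 2], [2, 1, 0]), (1, [.b 1 2, .M 2 3, .P 1 2], [2, 1, 3, 0]), (1, [.b 1 3, .M 2 3, .P 1 2], [2, 1, 3, 0]), ((-2), [.M 2 3, .P 1 2, .a 2], [0, 2, 1]), ((-1), [.M 2 3, .P 1 2, .b 1 2], [2, 3, 0, 1]), (1, [.M 2 3, .P 1 2, .o 2], [0, 2, 3, 1]), ((-1), [.o 1, .M 2 3, .P 1 2], [2, 3, 1, 0])],
    [.swp (-1) 6 7 [] [(1, 5, 6), (2, 4, 7), (3, 6, 7)], .swp 1 6 7 [] [(1, 5, 6), (2, 6, 7), (3, 4, 7)], .ihx (-1) 6 2 3 7 4 [] [(1, 5, 7)]]⟩,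
  ⟨3, 4, 5, [0, 3, 4, 5],
    [((-2), [.a 2, .P 1 2, .Y 2 3], [3, 0, 1, 2]), ((-1), [.b 1 2, .P 1 2, .Y 2 3], [3, 4, 0, 1, 2]), (2, [.P 1 2, .Y 2 3, .a 1], [1, 2, 3, 0]), (1, [.P 1 2, .Y 2 3, .b 1 2], [3, 2, 4, 0, 1]), (1, [.P 1 2, .Y 2 3, .b 1 3], [1, 3, 4, 0, 2]), ((-1), [.P 1 2, .Y 2 3, .o 1], [1, 2, 3, 4, 0]), (1, [.o 2, .P 1 2, .Y 2 3], [3, 4, 0, 1, 2])],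
    [.ihx (-1) 6 1 5 7 4 [] [(2, 3, 7)], .swp (-1) 6 7 [] [(1, 6, 7), (2, 3, 6), (4, 5, 7)]]⟩,
  ⟨4, 3, 4, [0, 4, 5],
    [((-1), [.b 1 2, .M 2 3, .P 1 2], [2, 1, 3, 0]), ((-1), [.b 1 3, .M 2 3, .P 1 2], [2, 1, 3, 0]), (1, [.M 2 3, .P 1 2, .b 1 2], [2, 3, 0, 1])],
    [.swp 1 6 7 [] [(1, 5, 6), (2, 4, 7), (3, 6, 7)], .swp (-1) 6 7 [] [(1, 5, 6), (2, 6, 7), (3, 4, 7)], .ihx 1 6 2 3 7 4 [] [(1, 5, 7)]]⟩,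
  ⟨3, 4, 5, [0, 3, 4, 5],
    [(1, [.b 1 2, .P 1 2, .Y 2 3], [3, 4, 0, 1, 2]), ((-1), [.P 1 2, .Y 2 3, .b 1 2], [3, 2, 4, 0, 1]), ((-1), [.P 1 2, .Y 2 3, .b 1 3], [1, 3, 4, 0, 2])],
    [.ihx 1 6 1 5 7 4 [] [(2, 3, 7)], .swp 1 6 7 [] [(1, 6, 7), (2, 3, 6), (4, 5, 7)]]⟩,
  ⟨4, 3, 4, [0, 4, 1],
    [((-2), [.b 2 3, .M 2 3, .P 1 2], [1, 2, 3, 0]), (1, [.M 2 3, .P 1 2, .o 1], [1, 2, 3, 0])],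
    [.ihx 1 5 6 2 7 3 [] [(4, 6, 7)], .swp 1 6 7 [] [(2, 5, 6), (3, 5, 7), (4, 6, 7)]]⟩,
  ⟨3, 4, 5, [0, 2, 3, 4],
    [((-2), [.P 1 2, .Y 2 3, .b 2 3], [2, 3, 4, 0, 1]), (1, [.o 1, .P 1 2, .Y 2 3], [2, 3, 4, 0, 1])],
    [.ihx 1 7 3 5 4 6 [] [(1, 5, 6)], .swp 1 5 6 [] [(1, 5, 6), (3, 5, 7), (4, 6, 7)]]⟩,
  ⟨4, 3, 4, [4, 5, 1],
    [(1, [.M 2 3, .P 1 2, .o 0], [1, 2, 3, 0]), ((-1), [.o 0, .M 2 3, .P 1 2], [2, 3, 0, 1])],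
    []⟩,
  ⟨3, 4, 5, [3, 2, 4, 5],
    [((-1), [.P 1 2, .Y 2 3, .o 0], [1, 2, 3, 4, 0]), (1, [.o 0, .P 1 2, .Y 2 3], [3, 4, 0, 1, 2])],
    []⟩,
  ⟨4, 3, 1, [0, 4, 1],
    [(1, [.M 2 3, .P 1 2], [0]), (1, [.P 2 3, .M 2 3, .P 1 2], [0])],
    []⟩,
  ⟨3, 4, 2, [0, 2, 3, 4],
    [(1, [.P 1 2, .Y 2 3], [0, 1]), (1, [.P 1 2, .Y 2 3, .P 2 3], [1, 0])],
    []⟩,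
  ⟨4, 3, 4, [4, 1, 5],
    [(2, [.a 0, .M 2 3], [2, 0, 1]), (1, [.b 0 2, .M 2 3], [2, 0, 3, 1]), (1, [.b 0 3, .M 2 3], [2, 0, 3, 1]), ((-2), [.M 2 3, .a 0], [1, 2, 0]), ((-1), [.M 2 3, .b 0 2], [2, 3, 0, 1]), (1, [.M 2 3, .o 0], [1, 2, 3, 0]), ((-1), [.o 0, .M 2 3], [2, 3, 0, 1])],
    [.swp (-1) 6 7 [] [(0, 4, 6), (2, 5, 7), (3, 6, 7)], .swp 1 6 7 [] [(0, 4, 6), (2, 6, 7), (3, 5, 7)], .ihx (-1) 6 2 3 7 5 [] [(0, 4, 7)]]⟩,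
  ⟨4, 3, 4, [4, 5, 6],
    [(1, [.b 0 1, .M 2 3], [3, 0, 1, 2]), ((-1), [.M 2 3, .b 0 1], [2, 3, 0, 1])],
    []⟩,
  ⟨3, 4, 5, [3, 1, 4, 5],
    [((-2), [.a 0, .Y 2 3], [3, 0, 1, 2]), ((-1), [.b 0 2, .Y 2 3], [3, 0, 4, 1, 2]), (2, [.Y 2 3, .a 0], [1, 2, 3, 0]), (1, [.Y 2 3, .b 0 2], [3, 2, 4, 0, 1]), (1, [.Y 2 3, .b 0 3], [1, 3, 4, 0, 2]), ((-1), [.Y 2 3, .o 0], [1, 2, 3, 4, 0]), (1, [.o 0, .Y 2 3], [3, 4, 0, 1, 2])],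
    [.swp (-1) 6 7 [] [(0, 3, 6), (2, 6, 7), (4, 5, 7)], .ihx (-1) 6 2 5 7 4 [] [(0, 3, 7)]]⟩,
  ⟨3, 4, 5, [3, 4, 5, 6],
    [((-1), [.b 0 1, .Y 2 3], [4, 0, 1, 2, 3]), (1, [.Y 2 3, .b 0 1], [2, 3, 4, 0, 1])],
    []⟩,
  ⟨4, 3, 4, [4, 1, 5],
    [((-1), [.b 0 2, .M 2 3], [2, 0, 3, 1]), ((-1), [.b 0 3, .M 2 3], [2, 0, 3, 1]), (1, [.M 2 3, .b 0 2], [2, 3, 0, 1])],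
    [.swp 1 6 7 [] [(0, 4, 6), (2, 5, 7), (3, 6, 7)], .swp (-1) 6 7 [] [(0, 4, 6), (2, 6, 7), (3, 5, 7)], .ihx 1 6 2 3 7 5 [] [(0, 4, 7)]]⟩]

theorem cb15_ok : cb15.all Bs.ok = true := by decide +kernel

/-- Checked relations. -/
def cb16 : List Bs := [
  ⟨3, 4, 5, [3, 1, 4, 5],
    [(1, [.b 0 2, .Y 2 3], [3, 0, 4, 1, 2]), ((-1), [.Y 2 3, .b 0 2], [3, 2, 4, 0, 1]), ((-1), [.Y 2 3, .b 0 3], [1, 3, 4, 0, 2])],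
    [.swp 1 6 7 [] [(0, 3, 6), (2, 6, 7), (4, 5, 7)], .ihx 1 6 2 5 7 4 [] [(0, 3, 7)]]⟩,
  ⟨4, 3, 4, [0, 4, 5],
    [(2, [.a 1, .M 2 3], [2, 0, 1]), (1, [.b 1 2, .M 2 3], [2, 0, 3, 1]), (1, [.b 1 3, .M 2 3], [2, 0, 3, 1]), ((-2), [.M 2 3, .a 1], [1, 2, 0]), ((-1), [.M 2 3, .b 1 2], [2, 3, 0, 1]), (1, [.M 2 3, .o 1], [1, 2, 3, 0]), ((-1), [.o 1, .M 2 3], [2, 3, 0, 1])],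
    [.swp (-1) 6 7 [] [(1, 4, 6), (2, 5, 7), (3, 6, 7)], .swp 1 6 7 [] [(1, 4, 6), (2, 6, 7), (3, 5, 7)], .ihx (-1) 6 2 3 7 5 [] [(1, 4, 7)]]⟩,
  ⟨3, 4, 5, [0, 3, 4, 5],
    [((-2), [.a 1, .Y 2 3], [3, 0, 1, 2]), ((-1), [.b 1 2, .Y 2 3], [3, 0, 4, 1, 2]), (2, [.Y 2 3, .a 1], [1, 2, 3, 0]), (1, [.Y 2 3, .b 1 2], [3, 2, 4, 0, 1]), (1, [.Y 2 3, .b 1 3], [1, 3, 4, 0, 2]), ((-1), [.Y 2 3, .o 1], [1, 2, 3, 4, 0]), (1, [.o 1, .Y 2 3], [3, 4, 0, 1, 2])],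
    [.swp (-1) 6 7 [] [(1, 3, 6), (2, 6, 7), (4, 5, 7)], .ihx (-1) 6 2 5 7 4 [] [(1, 3, 7)]]⟩,
  ⟨4, 3, 4, [0, 4, 5],
    [((-1), [.b 1 2, .M 2 3], [2, 0, 3, 1]), ((-1), [.b 1 3, .M 2 3], [2, 0, 3, 1]), (1, [.M 2 3, .b 1 2], [2, 3, 0, 1])],
    [.swp 1 6 7 [] [(1, 4, 6), (2, 5, 7), (3, 6, 7)], .swp (-1) 6 7 [] [(1, 4, 6), (2, 6, 7), (3, 5, 7)], .ihx 1 6 2 3 7 5 [] [(1, 4, 7)]]⟩,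
  ⟨3, 4, 5, [0, 3, 4, 5],
    [(1, [.b 1 2, .Y 2 3], [3, 0, 4, 1, 2]), ((-1), [.Y 2 3, .b 1 2], [3, 2, 4, 0, 1]), ((-1), [.Y 2 3, .b 1 3], [1, 3, 4, 0, 2])],
    [.swp 1 6 7 [] [(1, 3, 6), (2, 6, 7), (4, 5, 7)], .ihx 1 6 2 5 7 4 [] [(1, 3, 7)]]⟩,
  ⟨4, 3, 4, [0, 1, 4],
    [((-2), [.b 2 3, .M 2 3], [1, 2, 3, 0]), (1, [.M 2 3, .o 2], [1, 2, 3, 0])],
    [.ihx 1 5 6 2 7 3 [] [(4, 6, 7)], .swp 1 6 7 [] [(2, 5, 6), (3, 5, 7), (4, 6, 7)]]⟩,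
  ⟨3, 4, 5, [0, 1, 3, 4],
    [((-2), [.Y 2 3, .b 2 3], [2, 3, 4, 0, 1]), (1, [.o 2, .Y 2 3], [2, 3, 4, 0, 1])],
    [.ihx 1 7 3 5 4 6 [] [(2, 5, 6)], .swp 1 5 6 [] [(2, 5, 6), (3, 5, 7), (4, 6, 7)]]⟩,
  ⟨4, 3, 1, [0, 1, 4],
    [(1, [.M 2 3], [0]), (1, [.P 2 3, .M 2 3], [0])],
    []⟩,
  ⟨3, 4, 2, [0, 1, 3, 4],
    [(1, [.Y 2 3], [0, 1]), (1, [.Y 2 3, .P 2 3], [1, 0])],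
    []⟩,
  ⟨3, 3, 3, [0, 1, 3],
    [(1, [.o 2], [1, 2, 0]), ((-1), [.Y 2 3, .M 2 3], [1, 2, 0])],
    []⟩,
  ⟨3, 3, 3, [0, 3, 1],
    [((-1), [.P 1 2, .o 1], [1, 2, 0]), (1, [.Y 2 3, .M 2 3, .P 1 2], [1, 2, 0])],
    []⟩,
  ⟨3, 3, 3, [0, 2, 3],
    [((-1), [.o 1, .P 1 2], [1, 2, 0]), (1, [.P 1 2, .Y 2 3, .M 2 3], [1, 2, 0])],
    []⟩,
  ⟨3, 3, 3, [3, 0, 1],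
    [((-1), [.P 1 2, .P 0 1, .o 0], [1, 2, 0]), (1, [.Y 2 3, .M 2 3, .P 1 2, .P 0 1], [1, 2, 0])],
    []⟩,
  ⟨3, 3, 3, [1, 2, 3],
    [((-1), [.o 0, .P 0 1, .P 1 2], [1, 2, 0]), (1, [.P 0 1, .P 1 2, .Y 2 3, .M 2 3], [1, 2, 0])],
    []⟩,
  ⟨3, 3, 3, [1, 0, 3],
    [((-1), [.P 0 1, .o 2], [1, 2, 0]), (1, [.Y 2 3, .P 0 1, .M 2 3], [1, 2, 0])],
    []⟩,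
  ⟨3, 3, 3, [1, 0, 3],
    [((-1), [.o 2, .P 0 1], [1, 2, 0]), (1, [.Y 2 3, .P 0 1, .M 2 3], [1, 2, 0])],
    []⟩,
  ⟨3, 3, 3, [1, 3, 0],
    [((-1), [.P 0 1, .P 1 2, .o 1], [1, 2, 0]), (1, [.Y 2 3, .P 0 1, .M 2 3, .P 1 2], [1, 2, 0])],
    []⟩,
  ⟨3, 3, 3, [2, 0, 3],
    [((-1), [.o 1, .P 1 2, .P 0 1], [1, 2, 0]), (1, [.P 1 2, .Y 2 3, .P 0 1, .M 2 3], [1, 2, 0])],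
    []⟩,
  ⟨3, 3, 3, [3, 1, 0],
    [((-1), [.P 0 1, .P 1 2, .P 0 1, .o 0], [1, 2, 0]), (1, [.Y 2 3, .P 0 1, .M 2 3, .P 1 2, .P 0 1], [1, 2, 0])],
    []⟩,
  ⟨3, 3, 3, [2, 1, 3],
    [((-1), [.o 0, .P 0 1, .P 1 2, .P 0 1], [1, 2, 0]), (1, [.P 0 1, .P 1 2, .Y 2 3, .P 0 1, .M 2 3], [1, 2, 0])],
    []⟩,
  ⟨3, 3, 3, [0, 3, 4],
    [(1, [.b 1 2], [2, 0, 1]), (1, [.Y 2 3, .P 1 2, .M 2 3, .P 1 2], [1, 2, 0])],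
    []⟩,
  ⟨3, 3, 3, [0, 3, 4],
    [(1, [.b 1 2], [2, 0, 1]), (1, [.P 1 2, .Y 2 3, .P 1 2, .M 2 3], [0, 2, 1])],
    []⟩,
  ⟨3, 3, 3, [0, 3, 4],
    [(1, [.P 1 2, .b 1 2], [2, 0, 1]), (1, [.Y 2 3, .P 1 2, .M 2 3], [0, 2, 1])],
    []⟩,
  ⟨3, 3, 3, [0, 3, 4],
    [(1, [.b 1 2, .P 1 2], [2, 1, 0]), (1, [.Y 2 3, .P 1 2, .M 2 3], [0, 2, 1])],
    []⟩,
  ⟨3, 3, 3, [3, 0, 4],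
    [(1, [.P 1 2, .P 0 1, .b 0 2], [2, 0, 1]), (1, [.Y 2 3, .P 1 2, .P 0 1, .M 2 3], [0, 2, 1])],
    []⟩,
  ⟨3, 3, 3, [1, 3, 4],
    [(1, [.b 0 2, .P 0 1, .P 1 2], [2, 1, 0]), (1, [.Y 2 3, .P 0 1, .P 1 2, .M 2 3], [0, 2, 1])],
    []⟩,
  ⟨3, 3, 3, [3, 0, 4],
    [(1, [.P 0 1, .b 0 2], [2, 0, 1]), (1, [.Y 2 3, .P 1 2, .M 2 3, .P 1 2, .P 0 1], [1, 2, 0])],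
    []⟩,
  ⟨3, 3, 3, [1, 3, 4],
    [(1, [.b 0 2, .P 0 1], [2, 0, 1]), (1, [.P 0 1, .P 1 2, .Y 2 3, .P 1 2, .M 2 3], [0, 2, 1])],
    []⟩,
  ⟨3, 3, 3, [3, 4, 0],
    [(1, [.P 0 1, .P 1 2, .b 0 1], [2, 0, 1]), (1, [.Y 2 3, .P 1 2, .P 0 1, .M 2 3, .P 1 2, .P 0 1], [1, 2, 0])],
    []⟩,
  ⟨3, 3, 3, [2, 3, 4],
    [(1, [.b 0 1, .P 1 2, .P 0 1], [2, 0, 1]), (1, [.P 0 1, .P 1 2, .Y 2 3, .P 0 1, .P 1 2, .M 2 3], [0, 2, 1])],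
    []⟩,
  ⟨3, 3, 3, [3, 4, 0],
    [(1, [.P 0 1, .P 1 2, .P 0 1, .b 0 1], [2, 0, 1]), (1, [.Y 2 3, .P 1 2, .P 0 1, .M 2 3, .P 1 2], [0, 2, 1])],
    []⟩,
  ⟨3, 3, 3, [2, 3, 4],
    [(1, [.b 0 1, .P 0 1, .P 1 2, .P 0 1], [2, 1, 0]), (1, [.P 1 2, .Y 2 3, .P 0 1, .P 1 2, .M 2 3], [0, 2, 1])],
    []⟩]

theorem cb16_ok : cb16.all Bs.ok = true := by decide +kernel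

/-- Checked relations. -/
def cb17 : List Bs := [
  ⟨3, 3, 3, [3, 4, 5],
    [((-1), [.P 1 2, .P 0 1, .M 1 2, .P 0 1, .Y 1 2], [0, 1, 2]), (1, [.Y 2 3, .P 1 2, .P 0 1, .P 2 3, .P 1 2, .M 2 3, .P 1 2, .P 0 1], [1, 2, 0])],
    []⟩,
  ⟨3, 3, 3, [3, 4, 5],
    [((-1), [.M 1 2, .P 0 1, .Y 1 2, .P 0 1, .P 1 2], [2, 0, 1]), (1, [.P 0 1, .P 1 2, .Y 2 3, .P 1 2, .P 2 3, .P 0 1, .P 1 2, .M 2 3], [0, 1, 2])],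
    []⟩,
  ⟨3, 3, 3, [3, 4, 5],
    [(1, [.P 1 2, .P 0 1, .M 1 2, .P 0 1, .Y 1 2], [0, 1, 2]), (1, [.Y 2 3, .P 1 2, .P 0 1, .P 2 3, .P 1 2, .P 0 1, .M 2 3, .P 1 2, .P 0 1], [2, 1, 0])],
    []⟩,
  ⟨3, 3, 3, [3, 4, 5],
    [(1, [.M 1 2, .P 0 1, .Y 1 2, .P 0 1, .P 1 2], [2, 0, 1]), (1, [.P 0 1, .P 1 2, .Y 2 3, .P 0 1, .P 1 2, .P 2 3, .P 0 1, .P 1 2, .M 2 3], [0, 1, 2])],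
    []⟩,
  ⟨3, 3, 3, [3, 4, 5],
    [(1, [.P 1 2, .P 0 1, .M 1 2, .P 0 1, .Y 1 2, .P 0 1], [1, 0, 2]), (1, [.Y 2 3, .P 1 2, .P 0 1, .P 2 3, .P 1 2, .P 0 1, .M 2 3, .P 1 2], [2, 0, 1])],
    []⟩,
  ⟨3, 3, 3, [3, 4, 5],
    [(1, [.P 0 1, .M 1 2, .P 0 1, .Y 1 2, .P 0 1, .P 1 2], [2, 0, 1]), (1, [.P 1 2, .Y 2 3, .P 0 1, .P 1 2, .P 2 3, .P 0 1, .P 1 2, .M 2 3], [0, 1, 2])],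
    []⟩,
  ⟨3, 3, 3, [3, 4, 5],
    [((-1), [.P 1 2, .P 0 1, .M 1 2, .P 0 1, .Y 1 2, .P 0 1], [1, 0, 2]), (1, [.Y 2 3, .P 1 2, .P 0 1, .P 2 3, .P 1 2, .M 2 3, .P 1 2], [0, 2, 1])],
    []⟩,
  ⟨3, 3, 3, [3, 4, 5],
    [((-1), [.P 0 1, .M 1 2, .P 0 1, .Y 1 2, .P 0 1, .P 1 2], [2, 0, 1]), (1, [.P 1 2, .Y 2 3, .P 1 2, .P 2 3, .P 0 1, .P 1 2, .M 2 3], [0, 1, 2])],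
    []⟩,
  ⟨3, 3, 3, [3, 4, 5],
    [(1, [.Y 2 3, .P 1 2, .P 0 1, .P 2 3, .P 1 2, .M 2 3], [0, 1, 2]), ((-1), [.P 1 2, .P 0 1, .M 1 2, .P 0 1, .Y 1 2, .P 0 1, .P 1 2], [2, 0, 1])],
    []⟩,
  ⟨3, 3, 3, [3, 4, 5],
    [(1, [.Y 2 3, .P 1 2, .P 2 3, .P 0 1, .P 1 2, .M 2 3], [0, 1, 2]), ((-1), [.P 1 2, .P 0 1, .M 1 2, .P 0 1, .Y 1 2, .P 0 1, .P 1 2], [2, 0, 1])],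
    []⟩,
  ⟨3, 3, 3, [3, 4, 5],
    [(1, [.Y 2 3, .P 1 2, .P 0 1, .P 2 3, .P 1 2, .P 0 1, .M 2 3], [1, 0, 2]), (1, [.P 1 2, .P 0 1, .M 1 2, .P 0 1, .Y 1 2, .P 0 1, .P 1 2], [2, 0, 1])],
    []⟩,
  ⟨3, 3, 3, [3, 4, 5],
    [(1, [.Y 2 3, .P 0 1, .P 1 2, .P 2 3, .P 0 1, .P 1 2, .M 2 3], [0, 1, 2]), (1, [.P 1 2, .P 0 1, .M 1 2, .P 0 1, .Y 1 2, .P 0 1, .P 1 2], [2, 0, 1])],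
    []⟩,
  ⟨4, 4, 3, [0, 1, 4, 5],
    [(1, [.b 2 3], [2, 0, 1]), ((-1), [.M 2 3, .Y 2 3], [2, 0, 1]), ((-1), [.P 2 3, .b 2 3], [2, 0, 1])],
    [.ihx (-1) 6 2 4 3 5 [] []]⟩,
  ⟨4, 4, 3, [0, 1, 4, 5],
    [(1, [.b 2 3], [2, 0, 1]), ((-1), [.b 2 3, .P 2 3], [2, 1, 0]), ((-1), [.M 2 3, .Y 2 3], [2, 0, 1])],
    [.ihx (-1) 6 2 4 3 5 [] []]⟩,
  ⟨4, 4, 3, [0, 4, 1, 5],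
    [((-1), [.P 1 2, .b 1 3], [2, 0, 1]), (1, [.M 2 3, .Y 2 3, .P 1 2], [2, 0, 1]), (1, [.P 2 3, .P 1 2, .b 1 3], [2, 0, 1])],
    [.ihx 1 6 2 4 3 5 [] []]⟩,
  ⟨4, 4, 3, [0, 2, 4, 5],
    [((-1), [.b 1 3, .P 1 2], [2, 0, 1]), (1, [.b 1 3, .P 1 2, .P 2 3], [2, 1, 0]), (1, [.P 1 2, .M 2 3, .Y 2 3], [2, 0, 1])],
    [.ihx 1 6 1 4 3 5 [] []]⟩,
  ⟨4, 4, 3, [4, 0, 1, 5],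
    [((-1), [.P 1 2, .P 0 1, .b 0 3], [2, 0, 1]), (1, [.M 2 3, .Y 2 3, .P 1 2, .P 0 1], [2, 0, 1]), (1, [.P 2 3, .P 1 2, .P 0 1, .b 0 3], [2, 0, 1])],
    [.ihx 1 6 2 4 3 5 [] []]⟩,
  ⟨4, 4, 3, [1, 2, 4, 5],
    [((-1), [.b 0 3, .P 0 1, .P 1 2], [2, 0, 1]), (1, [.b 0 3, .P 0 1, .P 1 2, .P 2 3], [2, 1, 0]), (1, [.P 0 1, .P 1 2, .M 2 3, .Y 2 3], [2, 0, 1])],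
    [.ihx 1 6 0 4 3 5 [] []]⟩,
  ⟨4, 4, 3, [0, 4, 5, 1],
    [((-1), [.P 1 2, .P 2 3, .b 1 2], [2, 0, 1]), (1, [.M 2 3, .Y 2 3, .P 1 2, .P 2 3], [2, 0, 1]), (1, [.P 2 3, .P 1 2, .P 2 3, .b 1 2], [2, 0, 1])],
    [.ihx 1 6 2 4 3 5 [] []]⟩,
  ⟨4, 4, 3, [0, 3, 4, 5],
    [((-1), [.b 1 2, .P 2 3, .P 1 2], [2, 0, 1]), (1, [.b 1 2, .P 2 3, .P 1 2, .P 2 3], [2, 1, 0]), (1, [.P 2 3, .P 1 2, .M 2 3, .Y 2 3], [2, 0, 1])],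
    [.ihx 1 6 1 4 2 5 [] []]⟩,
  ⟨4, 4, 3, [0, 4, 5, 1],
    [(1, [.M 2 3, .Y 2 3, .P 1 2, .P 2 3], [2, 0, 1]), (1, [.P 1 2, .P 2 3, .P 1 2, .b 1 2], [2, 0, 1]), ((-1), [.P 2 3, .P 1 2, .P 2 3, .P 1 2, .b 1 2], [2, 0, 1])],
    [.ihx (-1) 6 2 3 4 5 [] []]⟩,
  ⟨4, 4, 3, [0, 3, 4, 5],
    [(1, [.b 1 2, .P 1 2, .P 2 3, .P 1 2], [2, 1, 0]), (1, [.P 2 3, .P 1 2, .M 2 3, .Y 2 3], [2, 0, 1]), ((-1), [.b 1 2, .P 1 2, .P 2 3, .P 1 2, .P 2 3], [2, 0, 1])],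
    [.ihx (-1) 6 1 5 2 4 [] []]⟩,
  ⟨4, 4, 3, [4, 0, 5, 1],
    [(1, [.M 2 3, .Y 2 3, .P 1 2, .P 0 1, .P 2 3], [2, 0, 1]), (1, [.P 1 2, .P 2 3, .P 1 2, .P 0 1, .b 0 2], [2, 0, 1]), ((-1), [.P 2 3, .P 1 2, .P 2 3, .P 1 2, .P 0 1, .b 0 2], [2, 0, 1])],
    [.ihx (-1) 6 2 3 4 5 [] []]⟩,
  ⟨4, 4, 3, [1, 3, 4, 5],
    [(1, [.b 0 2, .P 0 1, .P 1 2, .P 2 3, .P 1 2], [2, 1, 0]), (1, [.P 2 3, .P 0 1, .P 1 2, .M 2 3, .Y 2 3], [2, 0, 1]), ((-1), [.b 0 2, .P 0 1, .P 1 2, .P 2 3, .P 1 2, .P 2 3], [2, 0, 1])],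
    [.ihx (-1) 6 0 5 2 4 [] []]⟩,
  ⟨4, 4, 3, [4, 0, 5, 1],
    [((-1), [.P 1 2, .P 0 1, .P 2 3, .b 0 2], [2, 0, 1]), (1, [.M 2 3, .Y 2 3, .P 1 2, .P 0 1, .P 2 3], [2, 0, 1]), (1, [.P 2 3, .P 1 2, .P 0 1, .P 2 3, .b 0 2], [2, 0, 1])],
    [.ihx 1 6 2 4 3 5 [] []]⟩,
  ⟨4, 4, 3, [1, 3, 4, 5],
    [((-1), [.b 0 2, .P 2 3, .P 0 1, .P 1 2], [2, 0, 1]), (1, [.b 0 2, .P 2 3, .P 0 1, .P 1 2, .P 2 3], [2, 1, 0]), (1, [.P 2 3, .P 0 1, .P 1 2, .M 2 3, .Y 2 3], [2, 0, 1])],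
    [.ihx 1 6 0 4 2 5 [] []]⟩,
  ⟨4, 4, 3, [4, 5, 0, 1],
    [((-1), [.P 1 2, .P 0 1, .P 2 3, .P 1 2, .b 0 1], [2, 0, 1]), (1, [.M 2 3, .Y 2 3, .P 1 2, .P 0 1, .P 2 3, .P 1 2], [2, 0, 1]), (1, [.P 2 3, .P 1 2, .P 0 1, .P 2 3, .P 1 2, .b 0 1], [2, 0, 1])],
    [.ihx 1 6 2 4 3 5 [] []]⟩,
  ⟨4, 4, 3, [2, 3, 4, 5],
    [((-1), [.b 0 1, .P 1 2, .P 2 3, .P 0 1, .P 1 2], [2, 0, 1]), (1, [.b 0 1, .P 1 2, .P 2 3, .P 0 1, .P 1 2, .P 2 3], [2, 1, 0]), (1, [.P 1 2, .P 2 3, .P 0 1, .P 1 2, .M 2 3, .Y 2 3], [2, 0, 1])],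
    [.ihx 1 6 0 4 1 5 [] []]⟩,
  ⟨4, 4, 3, [4, 5, 0, 1],
    [(1, [.M 2 3, .Y 2 3, .P 1 2, .P 0 1, .P 2 3, .P 1 2], [2, 0, 1]), (1, [.P 1 2, .P 0 1, .P 2 3, .P 1 2, .P 0 1, .b 0 1], [2, 0, 1]), ((-1), [.P 2 3, .P 1 2, .P 0 1, .P 2 3, .P 1 2, .P 0 1, .b 0 1], [2, 0, 1])],
    [.ihx (-1) 6 2 3 4 5 [] []]⟩,
  ⟨4, 4, 3, [2, 3, 4, 5],
    [(1, [.b 0 1, .P 0 1, .P 1 2, .P 2 3, .P 0 1, .P 1 2], [2, 1, 0]), (1, [.P 1 2, .P 2 3, .P 0 1, .P 1 2, .M 2 3, .Y 2 3], [2, 0, 1]), ((-1), [.b 0 1, .P 0 1, .P 1 2, .P 2 3, .P 0 1, .P 1 2, .P 2 3], [2, 0, 1])],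
    [.ihx (-1) 6 0 5 1 4 [] []]⟩,
  ⟨4, 4, 3, [1, 0, 4, 5],
    [((-1), [.P 0 1, .b 2 3], [2, 0, 1]), (1, [.M 2 3, .P 0 1, .Y 2 3], [2, 0, 1]), (1, [.P 2 3, .P 0 1, .b 2 3], [2, 0, 1])],
    [.ihx 1 6 2 4 3 5 [] []]⟩,
  ⟨4, 4, 3, [1, 0, 4, 5],
    [((-1), [.b 2 3, .P 0 1], [2, 0, 1]), (1, [.b 2 3, .P 0 1, .P 2 3], [2, 1, 0]), (1, [.M 2 3, .P 0 1, .Y 2 3], [2, 0, 1])],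
    [.ihx 1 6 2 4 3 5 [] []]⟩]

theorem cb17_ok : cb17.all Bs.ok = true := by decide +kernel

/-- Checked relations. -/
def cb18 : List Bs := [
  ⟨4, 4, 3, [1, 0, 4, 5],
    [(1, [.M 2 3, .P 0 1, .Y 2 3], [2, 0, 1]), (1, [.P 0 1, .P 2 3, .b 2 3], [2, 0, 1]), ((-1), [.P 2 3, .P 0 1, .P 2 3, .b 2 3], [2, 0, 1])],
    [.ihx (-1) 6 2 3 4 5 [] []]⟩,
  ⟨4, 4, 3, [1, 0, 4, 5],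
    [(1, [.b 2 3, .P 2 3, .P 0 1], [2, 1, 0]), (1, [.M 2 3, .P 0 1, .Y 2 3], [2, 0, 1]), ((-1), [.b 2 3, .P 2 3, .P 0 1, .P 2 3], [2, 0, 1])],
    [.ihx (-1) 6 2 5 3 4 [] []]⟩,
  ⟨4, 4, 3, [1, 4, 0, 5],
    [(1, [.M 2 3, .P 0 1, .Y 2 3, .P 1 2], [2, 0, 1]), (1, [.P 0 1, .P 2 3, .P 1 2, .b 1 3], [2, 0, 1]), ((-1), [.P 2 3, .P 0 1, .P 2 3, .P 1 2, .b 1 3], [2, 0, 1])],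
    [.ihx (-1) 6 2 3 4 5 [] []]⟩,
  ⟨4, 4, 3, [2, 0, 4, 5],
    [(1, [.b 1 3, .P 1 2, .P 2 3, .P 0 1], [2, 1, 0]), (1, [.P 1 2, .M 2 3, .P 0 1, .Y 2 3], [2, 0, 1]), ((-1), [.b 1 3, .P 1 2, .P 2 3, .P 0 1, .P 2 3], [2, 0, 1])],
    [.ihx (-1) 6 1 5 3 4 [] []]⟩,
  ⟨4, 4, 3, [4, 1, 0, 5],
    [(1, [.M 2 3, .P 0 1, .Y 2 3, .P 1 2, .P 0 1], [2, 0, 1]), (1, [.P 0 1, .P 2 3, .P 1 2, .P 0 1, .b 0 3], [2, 0, 1]), ((-1), [.P 2 3, .P 0 1, .P 2 3, .P 1 2, .P 0 1, .b 0 3], [2, 0, 1])],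
    [.ihx (-1) 6 2 3 4 5 [] []]⟩,
  ⟨4, 4, 3, [2, 1, 4, 5],
    [(1, [.b 0 3, .P 0 1, .P 1 2, .P 2 3, .P 0 1], [2, 1, 0]), (1, [.P 0 1, .P 1 2, .M 2 3, .P 0 1, .Y 2 3], [2, 0, 1]), ((-1), [.b 0 3, .P 0 1, .P 1 2, .P 2 3, .P 0 1, .P 2 3], [2, 0, 1])],
    [.ihx (-1) 6 0 5 3 4 [] []]⟩,
  ⟨4, 4, 3, [1, 4, 0, 5],
    [((-1), [.P 0 1, .P 1 2, .b 1 3], [2, 0, 1]), (1, [.M 2 3, .P 0 1, .Y 2 3, .P 1 2], [2, 0, 1]), (1, [.P 2 3, .P 0 1, .P 1 2, .b 1 3], [2, 0, 1])],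
    [.ihx 1 6 2 4 3 5 [] []]⟩,
  ⟨4, 4, 3, [2, 0, 4, 5],
    [((-1), [.b 1 3, .P 1 2, .P 0 1], [2, 0, 1]), (1, [.b 1 3, .P 1 2, .P 0 1, .P 2 3], [2, 1, 0]), (1, [.P 1 2, .M 2 3, .P 0 1, .Y 2 3], [2, 0, 1])],
    [.ihx 1 6 1 4 3 5 [] []]⟩,
  ⟨4, 4, 3, [1, 4, 5, 0],
    [((-1), [.P 0 1, .P 1 2, .P 2 3, .b 1 2], [2, 0, 1]), (1, [.M 2 3, .P 0 1, .Y 2 3, .P 1 2, .P 2 3], [2, 0, 1]), (1, [.P 2 3, .P 0 1, .P 1 2, .P 2 3, .b 1 2], [2, 0, 1])],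
    [.ihx 1 6 2 4 3 5 [] []]⟩,
  ⟨4, 4, 3, [3, 0, 4, 5],
    [((-1), [.b 1 2, .P 2 3, .P 1 2, .P 0 1], [2, 0, 1]), (1, [.b 1 2, .P 2 3, .P 1 2, .P 0 1, .P 2 3], [2, 1, 0]), (1, [.P 2 3, .P 1 2, .M 2 3, .P 0 1, .Y 2 3], [2, 0, 1])],
    [.ihx 1 6 1 4 2 5 [] []]⟩,
  ⟨4, 4, 3, [1, 4, 5, 0],
    [(1, [.M 2 3, .P 0 1, .Y 2 3, .P 1 2, .P 2 3], [2, 0, 1]), (1, [.P 0 1, .P 1 2, .P 2 3, .P 1 2, .b 1 2], [2, 0, 1]), ((-1), [.P 2 3, .P 0 1, .P 1 2, .P 2 3, .P 1 2, .b 1 2], [2, 0, 1])],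
    [.ihx (-1) 6 2 3 4 5 [] []]⟩,
  ⟨4, 4, 3, [3, 0, 4, 5],
    [(1, [.b 1 2, .P 1 2, .P 2 3, .P 1 2, .P 0 1], [2, 1, 0]), (1, [.P 2 3, .P 1 2, .M 2 3, .P 0 1, .Y 2 3], [2, 0, 1]), ((-1), [.b 1 2, .P 1 2, .P 2 3, .P 1 2, .P 0 1, .P 2 3], [2, 0, 1])],
    [.ihx (-1) 6 1 5 2 4 [] []]⟩,
  ⟨4, 4, 3, [4, 1, 5, 0],
    [(1, [.M 2 3, .P 0 1, .Y 2 3, .P 1 2, .P 0 1, .P 2 3], [2, 0, 1]), (1, [.P 0 1, .P 1 2, .P 2 3, .P 1 2, .P 0 1, .b 0 2], [2, 0, 1]), ((-1), [.P 2 3, .P 0 1, .P 1 2, .P 2 3, .P 1 2, .P 0 1, .b 0 2], [2, 0, 1])],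
    [.ihx (-1) 6 2 3 4 5 [] []]⟩,
  ⟨4, 4, 3, [3, 1, 4, 5],
    [(1, [.b 0 2, .P 0 1, .P 1 2, .P 2 3, .P 1 2, .P 0 1], [2, 1, 0]), (1, [.P 2 3, .P 0 1, .P 1 2, .M 2 3, .P 0 1, .Y 2 3], [2, 0, 1]), ((-1), [.b 0 2, .P 0 1, .P 1 2, .P 2 3, .P 1 2, .P 0 1, .P 2 3], [2, 0, 1])],
    [.ihx (-1) 6 0 5 2 4 [] []]⟩,
  ⟨4, 4, 3, [4, 1, 0, 5],
    [((-1), [.P 0 1, .P 1 2, .P 0 1, .b 0 3], [2, 0, 1]), (1, [.M 2 3, .P 0 1, .Y 2 3, .P 1 2, .P 0 1], [2, 0, 1]), (1, [.P 2 3, .P 0 1, .P 1 2, .P 0 1, .b 0 3], [2, 0, 1])],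
    [.ihx 1 6 2 4 3 5 [] []]⟩,
  ⟨4, 4, 3, [2, 1, 4, 5],
    [((-1), [.b 0 3, .P 0 1, .P 1 2, .P 0 1], [2, 0, 1]), (1, [.b 0 3, .P 0 1, .P 1 2, .P 0 1, .P 2 3], [2, 1, 0]), (1, [.P 0 1, .P 1 2, .M 2 3, .P 0 1, .Y 2 3], [2, 0, 1])],
    [.ihx 1 6 0 4 3 5 [] []]⟩,
  ⟨4, 4, 3, [4, 1, 5, 0],
    [((-1), [.P 0 1, .P 1 2, .P 0 1, .P 2 3, .b 0 2], [2, 0, 1]), (1, [.M 2 3, .P 0 1, .Y 2 3, .P 1 2, .P 0 1, .P 2 3], [2, 0, 1]), (1, [.P 2 3, .P 0 1, .P 1 2, .P 0 1, .P 2 3, .b 0 2], [2, 0, 1])],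
    [.ihx 1 6 2 4 3 5 [] []]⟩,
  ⟨4, 4, 3, [3, 1, 4, 5],
    [((-1), [.b 0 2, .P 2 3, .P 0 1, .P 1 2, .P 0 1], [2, 0, 1]), (1, [.b 0 2, .P 2 3, .P 0 1, .P 1 2, .P 0 1, .P 2 3], [2, 1, 0]), (1, [.P 2 3, .P 0 1, .P 1 2, .M 2 3, .P 0 1, .Y 2 3], [2, 0, 1])],
    [.ihx 1 6 0 4 2 5 [] []]⟩,
  ⟨4, 4, 3, [4, 5, 1, 0],
    [((-1), [.P 0 1, .P 1 2, .P 0 1, .P 2 3, .P 1 2, .b 0 1], [2, 0, 1]), (1, [.M 2 3, .P 0 1, .Y 2 3, .P 1 2, .P 0 1, .P 2 3, .P 1 2], [2, 0, 1]), (1, [.P 2 3, .P 0 1, .P 1 2, .P 0 1, .P 2 3, .P 1 2, .b 0 1], [2, 0, 1])],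
    [.ihx 1 6 2 4 3 5 [] []]⟩,
  ⟨4, 4, 3, [3, 2, 4, 5],
    [((-1), [.b 0 1, .P 1 2, .P 2 3, .P 0 1, .P 1 2, .P 0 1], [2, 0, 1]), (1, [.b 0 1, .P 1 2, .P 2 3, .P 0 1, .P 1 2, .P 0 1, .P 2 3], [2, 1, 0]), (1, [.P 1 2, .P 2 3, .P 0 1, .P 1 2, .M 2 3, .P 0 1, .Y 2 3], [2, 0, 1])],
    [.ihx 1 6 0 4 1 5 [] []]⟩,
  ⟨4, 4, 3, [4, 5, 1, 0],
    [(1, [.M 2 3, .P 0 1, .Y 2 3, .P 1 2, .P 0 1, .P 2 3, .P 1 2], [2, 0, 1]), (1, [.P 0 1, .P 1 2, .P 0 1, .P 2 3, .P 1 2, .P 0 1, .b 0 1], [2, 0, 1]), ((-1), [.P 2 3, .P 0 1, .P 1 2, .P 0 1, .P 2 3, .P 1 2, .P 0 1, .b 0 1], [2, 0, 1])],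
    [.ihx (-1) 6 2 3 4 5 [] []]⟩,
  ⟨4, 4, 3, [3, 2, 4, 5],
    [(1, [.b 0 1, .P 0 1, .P 1 2, .P 2 3, .P 0 1, .P 1 2, .P 0 1], [2, 1, 0]), (1, [.P 1 2, .P 2 3, .P 0 1, .P 1 2, .M 2 3, .P 0 1, .Y 2 3], [2, 0, 1]), ((-1), [.b 0 1, .P 0 1, .P 1 2, .P 2 3, .P 0 1, .P 1 2, .P 0 1, .P 2 3], [2, 0, 1])],
    [.ihx (-1) 6 0 5 1 4 [] []]⟩,
  ⟨3, 4, 5, [3, 4, 5, 1],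
    [((-2), [.a 0, .Y 2 3, .P 1 2, .P 0 1, .P 2 3, .P 1 2], [3, 2, 0, 1]), ((-1), [.b 0 2, .Y 2 3, .P 1 2, .P 0 1, .P 2 3, .P 1 2], [3, 2, 4, 0, 1]), (2, [.Y 2 3, .P 1 2, .P 0 1, .P 2 3, .P 1 2, .a 2], [0, 1, 3, 2]), (1, [.Y 2 3, .P 1 2, .P 0 1, .P 2 3, .P 1 2, .b 0 2], [3, 1, 4, 0, 2]), (1, [.Y 2 3, .P 1 2, .P 0 1, .P 2 3, .P 1 2, .b 1 2], [0, 3, 4, 1, 2]), ((-1), [.Y 2 3, .P 1 2, .P 0 1, .P 2 3, .P 1 2, .o 2], [0, 1, 3, 4, 2]), (1, [.o 0, .Y 2 3, .P 1 2, .P 0 1, .P 2 3, .P 1 2], [3, 4, 2, 0, 1])],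
    [.swp (-1) 6 7 [] [(0, 5, 6), (2, 6, 7), (3, 4, 7)], .ihx (-1) 6 2 4 7 3 [] [(0, 5, 7)]]⟩,
  ⟨3, 4, 5, [3, 4, 5, 6],
    [((-1), [.b 0 1, .Y 2 3, .P 1 2, .P 0 1, .P 2 3, .P 1 2], [4, 2, 3, 0, 1]), (1, [.Y 2 3, .P 1 2, .P 0 1, .P 2 3, .P 1 2, .b 2 3], [0, 1, 4, 2, 3])],
    []⟩,
  ⟨4, 3, 4, [4, 3, 5],
    [(2, [.a 2, .P 1 2, .P 2 3, .P 0 1, .P 1 2, .M 2 3], [2, 0, 1]), (1, [.b 0 2, .P 1 2, .P 2 3, .P 0 1, .P 1 2, .M 2 3], [2, 3, 0, 1]), (1, [.b 1 2, .P 1 2, .P 2 3, .P 0 1, .P 1 2, .M 2 3], [2, 3, 0, 1]), ((-2), [.P 1 2, .P 2 3, .P 0 1, .P 1 2, .M 2 3, .a 0], [1, 2, 0]), ((-1), [.P 1 2, .P 2 3, .P 0 1, .P 1 2, .M 2 3, .b 0 2], [2, 3, 0, 1]), (1, [.P 1 2, .P 2 3, .P 0 1, .P 1 2, .M 2 3, .o 0], [1,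 2, 3, 0]), ((-1), [.o 2, .P 1 2, .P 2 3, .P 0 1, .P 1 2, .M 2 3], [2, 3, 0, 1])],
    [.ihx (-1) 6 0 1 7 5 [] [(2, 4, 7)], .swp (-1) 6 7 [] [(0, 5, 7), (1, 6, 7), (2, 4, 6)], .swp 1 6 7 [] [(0, 6, 7), (1, 5, 7), (2, 4, 6)]]⟩,
  ⟨4, 3, 4, [4, 5, 6],
    [(1, [.b 2 3, .P 1 2, .P 2 3, .P 0 1, .P 1 2, .M 2 3], [3, 0, 1, 2]), ((-1), [.P 1 2, .P 2 3, .P 0 1, .P 1 2, .M 2 3, .b 0 1], [2, 3, 0, 1])],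
    []⟩,
  ⟨3, 4, 5, [3, 4, 5, 1],
    [((-1), [.b 0 2, .Y 2 3, .P 1 2, .P 0 1, .P 2 3, .P 1 2], [3, 2, 4, 0, 1]), (1, [.Y 2 3, .P 1 2, .P 0 1, .P 2 3, .P 1 2, .b 0 2], [3, 1, 4, 0, 2]), (1, [.Y 2 3, .P 1 2, .P 0 1, .P 2 3, .P 1 2, .b 1 2], [0, 3, 4, 1, 2])],
    [.swp (-1) 6 7 [] [(0, 5, 6), (2, 6, 7), (3, 4, 7)], .ihx (-1) 6 2 4 7 3 [] [(0, 5, 7)]]⟩,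
  ⟨4, 3, 4, [4, 3, 5],
    [(1, [.b 0 2, .P 1 2, .P 2 3, .P 0 1, .P 1 2, .M 2 3], [2, 3, 0, 1]), (1, [.b 1 2, .P 1 2, .P 2 3, .P 0 1, .P 1 2, .M 2 3], [2, 3, 0, 1]), ((-1), [.P 1 2, .P 2 3, .P 0 1, .P 1 2, .M 2 3, .b 0 2], [2, 3, 0, 1])],
    [.ihx (-1) 6 0 1 7 5 [] [(2, 4, 7)], .swp (-1) 6 7 [] [(0, 5, 7), (1, 6, 7), (2, 4, 6)], .swp 1 6 7 [] [(0, 6, 7), (1, 5, 7), (2, 4, 6)]]⟩,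
  ⟨3, 4, 5, [3, 4, 0, 5],
    [((-2), [.a 1, .Y 2 3, .P 1 2, .P 0 1, .P 2 3, .P 1 2], [3, 2, 0, 1]), ((-1), [.b 1 2, .Y 2 3, .P 1 2, .P 0 1, .P 2 3, .P 1 2], [3, 2, 4, 0, 1]), (2, [.Y 2 3, .P 1 2, .P 0 1, .P 2 3, .P 1 2, .a 3], [0, 1, 3, 2]), (1, [.Y 2 3, .P 1 2, .P 0 1, .P 2 3, .P 1 2, .b 0 3], [3, 1, 4, 0, 2]), (1, [.Y 2 3, .P 1 2, .P 0 1, .P 2 3, .P 1 2, .b 1 3], [0, 3, 4, 1, 2]), ((-1), [.Y 2 3, .P 1 2, .P 0 1, .P 2 3, .P 1 2, .o 3], [0, 1, 3, 4, 2]), (1, [.o 1, .Y 2 3, .P 1 2, .P 0 1, .P 2 3, .P 1 2], [3, 4, 2, 0, 1])],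
    [.swp (-1) 6 7 [] [(1, 5, 6), (2, 6, 7), (3, 4, 7)], .ihx (-1) 6 2 4 7 3 [] [(1, 5, 7)]]⟩,
  ⟨4, 3, 4, [2, 4, 5],
    [(2, [.a 3, .P 1 2, .P 2 3, .P 0 1, .P 1 2, .M 2 3], [2, 0, 1]), (1, [.b 0 3, .P 1 2, .P 2 3, .P 0 1, .P 1 2, .M 2 3], [2, 3, 0, 1]), (1, [.b 1 3, .P 1 2, .P 2 3, .P 0 1, .P 1 2, .M 2 3], [2, 3, 0, 1]), ((-2), [.P 1 2, .P 2 3, .P 0 1, .P 1 2, .M 2 3, .a 1], [1, 2, 0]), ((-1), [.P 1 2, .P 2 3, .P 0 1, .P 1 2, .M 2 3, .b 1 2], [2, 3, 0, 1]), (1, [.P 1 2, .P 2 3, .P 0 1, .P 1 2, .M 2 3, .o 1], [1, 2, 3, 0]), ((-1), [.o 3, .P 1 2, .P 2 3, .P 0 1, .P 1 2, .M 2 3], [2, 3, 0, 1])],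
    [.ihx (-1) 6 0 1 7 5 [] [(3, 4, 7)], .swp (-1) 6 7 [] [(0, 5, 7), (1, 6, 7), (3, 4, 6)], .swp 1 6 7 [] [(0, 6, 7), (1, 5, 7), (3, 4, 6)]]⟩,
  ⟨3, 4, 5, [3, 4, 0, 5],
    [((-1), [.b 1 2, .Y 2 3, .P 1 2, .P 0 1, .P 2 3, .P 1 2], [3, 2, 4, 0, 1]), (1, [.Y 2 3, .P 1 2, .P 0 1, .P 2 3, .P 1 2, .b 0 3], [3, 1, 4, 0, 2]), (1, [.Y 2 3, .P 1 2, .P 0 1, .P 2 3, .P 1 2, .b 1 3], [0, 3, 4, 1, 2])],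
    [.swp (-1) 6 7 [] [(1, 5, 6), (2, 6, 7), (3, 4, 7)], .ihx (-1) 6 2 4 7 3 [] [(1, 5, 7)]]⟩,
  ⟨4, 3, 4, [2, 4, 5],
    [(1, [.b 0 3, .P 1 2, .P 2 3, .P 0 1, .P 1 2, .M 2 3], [2, 3, 0, 1]), (1, [.b 1 3, .P 1 2, .P 2 3, .P 0 1, .P 1 2, .M 2 3], [2, 3, 0, 1]), ((-1), [.P 1 2, .P 2 3, .P 0 1, .P 1 2, .M 2 3, .b 1 2], [2, 3, 0, 1])],
    [.ihx (-1) 6 0 1 7 5 [] [(3, 4, 7)], .swp (-1) 6 7 [] [(0, 5, 7), (1, 6, 7), (3, 4, 6)], .swp 1 6 7 [] [(0, 6, 7), (1, 5, 7), (3, 4, 6)]]⟩]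

theorem cb18_ok : cb18.all Bs.ok = true := by decide +kernel

/-- Checked relations. -/
def cb19 : List Bs := [
  ⟨3, 4, 5, [3, 4, 0, 1],
    [((-2), [.a 2, .Y 2 3, .P 1 2, .P 0 1, .P 2 3, .P 1 2], [2, 3, 0, 1]), (2, [.Y 2 3, .P 1 2, .P 0 1, .P 2 3, .P 1 2, .a 0], [2, 1, 3, 0]), (2, [.Y 2 3, .P 1 2, .P 0 1, .P 2 3, .P 1 2, .a 1], [0, 2, 3, 1]), (2, [.Y 2 3, .P 1 2, .P 0 1, .P 2 3, .P 1 2, .b 0 1], [2, 3, 4, 0, 1]), ((-1), [.Y 2 3, .P 1 2, .P 0 1, .P 2 3, .P 1 2, .o 0], [2, 1, 3, 4, 0]), ((-1), [.Y 2 3, .P 1 2, .P 0 1, .P 2 3, .P 1 2, .o 1], [0, 2, 3, 4, 1]), (1, [.o 2, .Y 2 3, .P 1 2, .P 0 1, .P 2 3, .P 1 2], [2, 3, 4, 0, 1])],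
    [.ihx (-1) 5 6 2 7 3 [] [(4, 6, 7)], .swp (-1) 5 6 [] [(2, 4, 5), (3, 6, 7), (5, 6, 7)], .ihx (-1) 6 2 5 7 4 [] [(3, 5, 7)], .ihx 1 7 3 5 4 6 [] [(2, 5, 6)], .swp (-1) 5 7 [] [(2, 5, 6), (3, 5, 7), (4, 6, 7)], .swp 1 5 6 [] [(2, 5, 6), (3, 5, 7), (4, 6, 7)], .swp (-1) 6 7 [] [(2, 5, 6), (3, 5, 7), (4, 6, 7)], .swp (-2) 5 6 [5] [(2, 5, 6), (3, 4, 6)], .ihx (-2) 5 2 4 6 3 [6] []]⟩,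
  ⟨4, 3, 4, [2, 3, 4],
    [(2, [.a 0, .P 1 2, .P 2 3, .P 0 1, .P 1 2, .M 2 3], [1, 2, 0]), (2, [.a 1, .P 1 2, .P 2 3, .P 0 1, .P 1 2, .M 2 3], [1, 2, 0]), (2, [.b 0 1, .P 1 2, .P 2 3, .P 0 1, .P 1 2, .M 2 3], [1, 2, 3, 0]), ((-2), [.P 1 2, .P 2 3, .P 0 1, .P 1 2, .M 2 3, .a 2], [1, 2, 0]), (1, [.P 1 2, .P 2 3, .P 0 1, .P 1 2, .M 2 3, .o 2], [1, 2, 3, 0]), ((-1), [.o 0, .P 1 2, .P 2 3, .P 0 1, .P 1 2, .M 2 3], [1, 2, 3, 0]), ((-1), [.o 1, .P 1 2, .P 2 3, .P 0 1, .P 1 2, .M 2 3], [1, 2, 3, 0])],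
    [.ihx 1 5 6 0 7 1 [] [(4, 6, 7)], .swp (-1) 6 7 [] [(0, 4, 7), (1, 5, 6), (5, 6, 7)], .ihx (-1) 6 0 5 7 4 [] [(1, 5, 7)], .ihx (-1) 7 1 5 4 6 [] [(0, 5, 6)], .swp (-1) 5 6 [] [(0, 5, 6), (1, 5, 7), (4, 6, 7)], .swp (-1) 5 7 [] [(0, 5, 6), (1, 5, 7), (4, 6, 7)], .swp 1 6 7 [] [(0, 5, 6), (1, 5, 7), (4, 6, 7)], .swp (-2) 5 6 [5] [(0, 4, 6), (1, 5, 6)], .swp 2 5 6 [5] [(0, 5, 6), (1, 4, 6)], .ihx (-2) 5 0 1 6 4 [6] []]⟩,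
  ⟨3, 4, 5, [3, 4, 0, 1],
    [(2, [.Y 2 3, .P 1 2, .P 0 1, .P 2 3, .P 1 2, .b 0 1], [2, 3, 4, 0, 1]), ((-1), [.Y 2 3, .P 1 2, .P 0 1, .P 2 3, .P 1 2, .o 0], [2, 1, 3, 4, 0])],
    [.swp (-1) 5 6 [] [(2, 4, 5), (3, 6, 7), (5, 6, 7)], .ihx (-1) 6 2 5 7 4 [] [(3, 5, 7)], .swp (-1) 5 7 [] [(2, 5, 6), (3, 5, 7), (4, 6, 7)]]⟩,
  ⟨4, 3, 4, [2, 3, 4],
    [(2, [.b 0 1, .P 1 2, .P 2 3, .P 0 1, .P 1 2, .M 2 3], [1, 2, 3, 0]), ((-1), [.o 0, .P 1 2, .P 2 3, .P 0 1, .P 1 2, .M 2 3], [1, 2, 3, 0])],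
    [.ihx (-1) 7 1 5 4 6 [] [(0, 5, 6)], .swp (-1) 5 6 [] [(0, 5, 6), (1, 5, 7), (4, 6, 7)]]⟩,
  ⟨3, 4, 5, [3, 4, 0, 1],
    [(1, [.Y 2 3, .P 1 2, .P 0 1, .P 2 3, .P 1 2, .o 0], [2, 1, 3, 4, 0]), ((-1), [.o 2, .Y 2 3, .P 1 2, .P 0 1, .P 2 3, .P 1 2], [2, 3, 4, 0, 1])],
    [.ihx 1 5 2 4 6 7 [] [(3, 6, 7)], .swp 1 6 7 [] [(2, 5, 6), (3, 4, 7), (5, 6, 7)], .swp 1 6 7 [] [(2, 5, 7), (3, 6, 7), (4, 5, 6)], .ihx (-1) 6 7 3 4 5 [] [(2, 5, 7)], .swp (-1) 5 7 [] [(2, 5, 7), (3, 6, 7), (4, 5, 6)]]⟩,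
  ⟨4, 3, 4, [2, 3, 4],
    [((-1), [.P 1 2, .P 2 3, .P 0 1, .P 1 2, .M 2 3, .o 2], [1, 2, 3, 0]), (1, [.o 0, .P 1 2, .P 2 3, .P 0 1, .P 1 2, .M 2 3], [1, 2, 3, 0])],
    [.ihx 1 5 0 1 6 7 [] [(4, 6, 7)], .swp (-1) 6 7 [] [(0, 5, 6), (1, 4, 7), (5, 6, 7)], .swp 1 6 7 [] [(0, 5, 7), (1, 5, 6), (4, 6, 7)], .ihx (-1) 6 1 5 7 4 [] [(0, 5, 7)], .swp (-1) 5 7 [] [(0, 5, 7), (1, 5, 6), (4, 6, 7)]]⟩,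
  ⟨3, 4, 5, [3, 4, 5, 1],
    [((-2), [.a 0, .Y 2 3, .P 1 2, .P 0 1, .P 2 3], [3, 1, 0, 2]), ((-1), [.b 0 2, .Y 2 3, .P 1 2, .P 0 1, .P 2 3], [3, 1, 4, 0, 2]), (2, [.Y 2 3, .P 1 2, .P 0 1, .P 2 3, .a 1], [0, 2, 3, 1]), (1, [.Y 2 3, .P 1 2, .P 0 1, .P 2 3, .b 0 1], [3, 2, 4, 0, 1]), (1, [.Y 2 3, .P 1 2, .P 0 1, .P 2 3, .b 1 2], [0, 3, 4, 1, 2]), ((-1), [.Y 2 3, .P 1 2, .P 0 1, .P 2 3, .o 1], [0, 2, 3, 4, 1]), (1, [.o 0, .Y 2 3, .P 1 2, .P 0 1, .P 2 3], [3, 4, 1, 0, 2])],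
    [.swp (-1) 6 7 [] [(0, 4, 6), (2, 6, 7), (3, 5, 7)], .ihx (-1) 6 2 5 7 3 [] [(0, 4, 7)]]⟩,
  ⟨3, 4, 5, [3, 4, 5, 6],
    [((-1), [.b 0 1, .Y 2 3, .P 1 2, .P 0 1, .P 2 3], [4, 1, 3, 0, 2]), (1, [.Y 2 3, .P 1 2, .P 0 1, .P 2 3, .b 1 3], [0, 2, 4, 1, 3])],
    []⟩,
  ⟨4, 3, 4, [4, 3, 5],
    [(2, [.a 1, .P 2 3, .P 0 1, .P 1 2, .M 2 3], [2, 0, 1]), (1, [.b 0 1, .P 2 3, .P 0 1, .P 1 2, .M 2 3], [2, 3, 0, 1]), (1, [.b 1 2, .P 2 3, .P 0 1, .P 1 2, .M 2 3], [2, 0, 3, 1]), ((-2), [.P 2 3, .P 0 1, .P 1 2, .M 2 3, .a 0], [1, 2, 0]), ((-1), [.P 2 3, .P 0 1, .P 1 2, .M 2 3, .b 0 2], [2, 3, 0, 1]), (1, [.P 2 3, .P 0 1, .P 1 2, .M 2 3, .o 0], [1, 2, 3, 0]), ((-1), [.o 1, .P 2 3, .P 0 1, .P 1 2, .M 2 3], [2,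 3, 0, 1])],
    [.ihx (-1) 6 0 2 7 5 [] [(1, 4, 7)], .swp (-1) 6 7 [] [(0, 5, 7), (1, 4, 6), (2, 6, 7)], .swp 1 6 7 [] [(0, 6, 7), (1, 4, 6), (2, 5, 7)]]⟩,
  ⟨4, 3, 4, [4, 5, 6],
    [(1, [.b 1 3, .P 2 3, .P 0 1, .P 1 2, .M 2 3], [3, 0, 1, 2]), ((-1), [.P 2 3, .P 0 1, .P 1 2, .M 2 3, .b 0 1], [2, 3, 0, 1])],
    []⟩,
  ⟨3, 4, 5, [3, 4, 5, 1],
    [((-1), [.b 0 2, .Y 2 3, .P 1 2, .P 0 1, .P 2 3], [3, 1, 4, 0, 2]), (1, [.Y 2 3, .P 1 2, .P 0 1, .P 2 3, .b 0 1], [3, 2, 4, 0, 1]), (1, [.Y 2 3, .P 1 2, .P 0 1, .P 2 3, .b 1 2], [0, 3, 4, 1, 2])],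
    [.swp (-1) 6 7 [] [(0, 4, 6), (2, 6, 7), (3, 5, 7)], .ihx (-1) 6 2 5 7 3 [] [(0, 4, 7)]]⟩,
  ⟨4, 3, 4, [4, 3, 5],
    [(1, [.b 0 1, .P 2 3, .P 0 1, .P 1 2, .M 2 3], [2, 3, 0, 1]), (1, [.b 1 2, .P 2 3, .P 0 1, .P 1 2, .M 2 3], [2, 0, 3, 1]), ((-1), [.P 2 3, .P 0 1, .P 1 2, .M 2 3, .b 0 2], [2, 3, 0, 1])],
    [.ihx (-1) 6 0 2 7 5 [] [(1, 4, 7)], .swp (-1) 6 7 [] [(0, 5, 7), (1, 4, 6), (2, 6, 7)], .swp 1 6 7 [] [(0, 6, 7), (1, 4, 6), (2, 5, 7)]]⟩,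
  ⟨3, 4, 5, [3, 0, 4, 5],
    [((-2), [.a 1, .Y 2 3, .P 1 2, .P 0 1, .P 2 3], [3, 2, 0, 1]), ((-1), [.b 1 2, .Y 2 3, .P 1 2, .P 0 1, .P 2 3], [3, 2, 4, 0, 1]), (2, [.Y 2 3, .P 1 2, .P 0 1, .P 2 3, .a 3], [0, 1, 3, 2]), (1, [.Y 2 3, .P 1 2, .P 0 1, .P 2 3, .b 0 3], [3, 1, 4, 0, 2]), (1, [.Y 2 3, .P 1 2, .P 0 1, .P 2 3, .b 2 3], [0, 3, 4, 1, 2]), ((-1), [.Y 2 3, .P 1 2, .P 0 1, .P 2 3, .o 3], [0, 1, 3, 4, 2]), (1, [.o 1, .Y 2 3, .P 1 2, .P 0 1, .P 2 3], [3, 4, 2, 0, 1])],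
    [.swp (-1) 6 7 [] [(1, 5, 6), (2, 6, 7), (3, 4, 7)], .ihx (-1) 6 2 4 7 3 [] [(1, 5, 7)]]⟩,
  ⟨4, 3, 4, [1, 4, 5],
    [(2, [.a 3, .P 2 3, .P 0 1, .P 1 2, .M 2 3], [2, 0, 1]), (1, [.b 0 3, .P 2 3, .P 0 1, .P 1 2, .M 2 3], [2, 3, 0, 1]), (1, [.b 2 3, .P 2 3, .P 0 1, .P 1 2, .M 2 3], [2, 3, 0, 1]), ((-2), [.P 2 3, .P 0 1, .P 1 2, .M 2 3, .a 1], [1, 2, 0]), ((-1), [.P 2 3, .P 0 1, .P 1 2, .M 2 3, .b 1 2], [2, 3, 0, 1]), (1, [.P 2 3, .P 0 1, .P 1 2, .M 2 3, .o 1], [1, 2, 3, 0]), ((-1), [.o 3, .P 2 3, .P 0 1, .P 1 2, .M 2 3], [2, 3, 0, 1])],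
    [.ihx (-1) 6 0 2 7 5 [] [(3, 4, 7)], .swp (-1) 6 7 [] [(0, 5, 7), (2, 6, 7), (3, 4, 6)], .swp 1 6 7 [] [(0, 6, 7), (2, 5, 7), (3, 4, 6)]]⟩,
  ⟨3, 4, 5, [3, 0, 4, 5],
    [((-1), [.b 1 2, .Y 2 3, .P 1 2, .P 0 1, .P 2 3], [3, 2, 4, 0, 1]), (1, [.Y 2 3, .P 1 2, .P 0 1, .P 2 3, .b 0 3], [3, 1, 4, 0, 2]), (1, [.Y 2 3, .P 1 2, .P 0 1, .P 2 3, .b 2 3], [0, 3, 4, 1, 2])],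
    [.swp (-1) 6 7 [] [(1, 5, 6), (2, 6, 7), (3, 4, 7)], .ihx (-1) 6 2 4 7 3 [] [(1, 5, 7)]]⟩,
  ⟨4, 3, 4, [1, 4, 5],
    [(1, [.b 0 3, .P 2 3, .P 0 1, .P 1 2, .M 2 3], [2, 3, 0, 1]), (1, [.b 2 3, .P 2 3, .P 0 1, .P 1 2, .M 2 3], [2, 3, 0, 1]), ((-1), [.P 2 3, .P 0 1, .P 1 2, .M 2 3, .b 1 2], [2, 3, 0, 1])],
    [.ihx (-1) 6 0 2 7 5 [] [(3, 4, 7)], .swp (-1) 6 7 [] [(0, 5, 7), (2, 6, 7), (3, 4, 6)], .swp 1 6 7 [] [(0, 6, 7), (2, 5, 7), (3, 4, 6)]]⟩,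
  ⟨3, 4, 5, [3, 0, 4, 1],
    [((-2), [.a 2, .Y 2 3, .P 1 2, .P 0 1, .P 2 3], [2, 3, 0, 1]), (2, [.Y 2 3, .P 1 2, .P 0 1, .P 2 3, .a 0], [2, 1, 3, 0]), (2, [.Y 2 3, .P 1 2, .P 0 1, .P 2 3, .a 2], [0, 2, 3, 1]), (2, [.Y 2 3, .P 1 2, .P 0 1, .P 2 3, .b 0 2], [2, 3, 4, 0, 1]), ((-1), [.Y 2 3, .P 1 2, .P 0 1, .P 2 3, .o 0], [2, 1, 3, 4, 0]), ((-1), [.Y 2 3, .P 1 2, .P 0 1, .P 2 3, .o 2], [0, 2, 3, 4, 1]), (1, [.o 2, .Y 2 3, .P 1 2, .P 0 1, .P 2 3], [2, 3, 4, 0, 1])],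
    [.ihx (-1) 5 6 2 7 3 [] [(4, 6, 7)], .swp (-1) 5 6 [] [(2, 4, 5), (3, 6, 7), (5, 6, 7)], .ihx (-1) 6 2 5 7 4 [] [(3, 5, 7)], .ihx 1 7 3 5 4 6 [] [(2, 5, 6)], .swp 1 5 6 [] [(2, 5, 6), (3, 5, 7), (4, 6, 7)], .swp (-1) 5 7 [] [(2, 5, 6), (3, 5, 7), (4, 6, 7)], .swp (-1) 6 7 [] [(2, 5, 6), (3, 5, 7), (4, 6, 7)], .swp (-2) 5 6 [5] [(2, 5, 6), (3, 4, 6)], .ihx (-2) 5 2 4 6 3 [6] []]⟩,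
  ⟨4, 3, 4, [1, 3, 4],
    [(2, [.a 0, .P 2 3, .P 0 1, .P 1 2, .M 2 3], [1, 2, 0]), (2, [.a 2, .P 2 3, .P 0 1, .P 1 2, .M 2 3], [1, 2, 0]), (2, [.b 0 2, .P 2 3, .P 0 1, .P 1 2, .M 2 3], [1, 2, 3, 0]), ((-2), [.P 2 3, .P 0 1, .P 1 2, .M 2 3, .a 2], [1, 2, 0]), (1, [.P 2 3, .P 0 1, .P 1 2, .M 2 3, .o 2], [1, 2, 3, 0]), ((-1), [.o 0, .P 2 3, .P 0 1, .P 1 2, .M 2 3], [1, 2, 3, 0]), ((-1), [.o 2, .P 2 3, .P 0 1, .P 1 2, .M 2 3], [1, 2, 3, 0])],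
    [.ihx 1 5 6 0 7 2 [] [(4, 6, 7)], .swp (-1) 6 7 [] [(0, 4, 7), (2, 5, 6), (5, 6, 7)], .ihx (-1) 6 0 5 7 4 [] [(2, 5, 7)], .ihx (-1) 7 2 5 4 6 [] [(0, 5, 6)], .swp (-1) 5 6 [] [(0, 5, 6), (2, 5, 7), (4, 6, 7)], .swp (-1) 5 7 [] [(0, 5, 6), (2, 5, 7), (4, 6, 7)], .swp 1 6 7 [] [(0, 5, 6), (2, 5, 7), (4, 6, 7)], .swp (-2) 5 6 [5] [(0, 4, 6), (2, 5, 6)], .swp 2 5 6 [5] [(0, 5, 6), (2, 4, 6)], .ihx (-2) 5 0 2 6 4 [6] []]⟩,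
  ⟨3, 4, 5, [3, 0, 4, 1],
    [(2, [.Y 2 3, .P 1 2, .P 0 1, .P 2 3, .b 0 2], [2, 3, 4, 0, 1]), ((-1), [.Y 2 3, .P 1 2, .P 0 1, .P 2 3, .o 0], [2, 1, 3, 4, 0])],
    [.swp (-1) 5 6 [] [(2, 4, 5), (3, 6, 7), (5, 6, 7)], .ihx (-1) 6 2 5 7 4 [] [(3, 5, 7)], .swp (-1) 5 7 [] [(2, 5, 6), (3, 5, 7), (4, 6, 7)]]⟩,
  ⟨4, 3, 4, [1, 3, 4],
    [(2, [.b 0 2, .P 2 3, .P 0 1, .P 1 2, .M 2 3], [1, 2, 3, 0]), ((-1), [.o 0, .P 2 3, .P 0 1, .P 1 2, .M 2 3], [1, 2, 3, 0])],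
    [.ihx (-1) 7 2 5 4 6 [] [(0, 5, 6)], .swp (-1) 5 6 [] [(0, 5, 6), (2, 5, 7), (4, 6, 7)]]⟩,
  ⟨3, 4, 5, [3, 0, 4, 1],
    [(1, [.Y 2 3, .P 1 2, .P 0 1, .P 2 3, .o 0], [2, 1, 3, 4, 0]), ((-1), [.o 2, .Y 2 3, .P 1 2, .P 0 1, .P 2 3], [2, 3, 4, 0, 1])],
    [.ihx 1 5 2 4 6 7 [] [(3, 6, 7)], .swp 1 6 7 [] [(2, 5, 6), (3, 4, 7), (5, 6, 7)], .swp 1 6 7 [] [(2, 5, 7), (3, 6, 7), (4, 5, 6)], .ihx (-1) 6 7 3 4 5 [] [(2, 5, 7)], .swp (-1) 5 7 [] [(2, 5, 7), (3, 6, 7), (4, 5, 6)]]⟩,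
  ⟨4, 3, 4, [1, 3, 4],
    [((-1), [.P 2 3, .P 0 1, .P 1 2, .M 2 3, .o 2], [1, 2, 3, 0]), (1, [.o 0, .P 2 3, .P 0 1, .P 1 2, .M 2 3], [1, 2, 3, 0])],
    [.ihx 1 5 0 2 6 7 [] [(4, 6, 7)], .swp (-1) 6 7 [] [(0, 5, 6), (2, 4, 7), (5, 6, 7)], .swp 1 6 7 [] [(0, 5, 7), (2, 5, 6), (4, 6, 7)], .ihx (-1) 6 2 5 7 4 [] [(0, 5, 7)], .swp (-1) 5 7 [] [(0, 5, 7), (2, 5, 6), (4, 6, 7)]]⟩,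
  ⟨3, 4, 5, [3, 4, 1, 5],
    [((-2), [.a 0, .Y 2 3, .P 1 2, .P 0 1], [3, 1, 0, 2]), ((-1), [.b 0 2, .Y 2 3, .P 1 2, .P 0 1], [3, 1, 4, 0, 2]), (2, [.Y 2 3, .P 1 2, .P 0 1, .a 1], [0, 2, 3, 1]), (1, [.Y 2 3, .P 1 2, .P 0 1, .b 0 1], [3, 2, 4, 0, 1]), (1, [.Y 2 3, .P 1 2, .P 0 1, .b 1 3], [0, 3, 4, 1, 2]), ((-1), [.Y 2 3, .P 1 2, .P 0 1, .o 1], [0, 2, 3, 4, 1]), (1, [.o 0, .Y 2 3, .P 1 2, .P 0 1], [3, 4, 1, 0, 2])],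
    [.swp (-1) 6 7 [] [(0, 4, 6), (2, 6, 7), (3, 5, 7)], .ihx (-1) 6 2 5 7 3 [] [(0, 4, 7)]]⟩,
  ⟨3, 4, 5, [3, 4, 5, 6],
    [((-1), [.b 0 1, .Y 2 3, .P 1 2, .P 0 1], [4, 1, 2, 0, 3]), (1, [.Y 2 3, .P 1 2, .P 0 1, .b 1 2], [0, 3, 4, 1, 2])],
    []⟩,
  ⟨4, 3, 4, [4, 2, 5],
    [(2, [.a 1, .P 0 1, .P 1 2, .M 2 3], [2, 0, 1]), (1, [.b 0 1, .P 0 1, .P 1 2, .M 2 3], [2, 3, 0, 1]), (1, [.b 1 3, .P 0 1, .P 1 2, .M 2 3], [2, 0, 3, 1]), ((-2), [.P 0 1, .P 1 2, .M 2 3, .a 0], [1, 2, 0]), ((-1), [.P 0 1, .P 1 2, .M 2 3, .b 0 2], [2, 3, 0, 1]), (1, [.P 0 1, .P 1 2, .M 2 3, .o 0], [1, 2, 3, 0]), ((-1), [.o 1, .P 0 1, .P 1 2, .M 2 3], [2, 3, 0, 1])],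
    [.ihx (-1) 6 0 3 7 5 [] [(1, 4, 7)], .swp (-1) 6 7 [] [(0, 5, 7), (1, 4, 6), (3, 6, 7)], .swp 1 6 7 [] [(0, 6, 7), (1, 4, 6), (3, 5, 7)]]⟩,
  ⟨4, 3, 4, [4, 5, 6],
    [(1, [.b 1 2, .P 0 1, .P 1 2, .M 2 3], [3, 0, 1, 2]), ((-1), [.P 0 1, .P 1 2, .M 2 3, .b 0 1], [2, 3, 0, 1])],
    []⟩,
  ⟨3, 4, 5, [3, 4, 1, 5],
    [((-1), [.b 0 2, .Y 2 3, .P 1 2, .P 0 1], [3, 1, 4, 0, 2]), (1, [.Y 2 3, .P 1 2, .P 0 1, .b 0 1], [3, 2, 4, 0, 1]), (1, [.Y 2 3, .P 1 2, .P 0 1, .b 1 3], [0, 3, 4, 1, 2])],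
    [.swp (-1) 6 7 [] [(0, 4, 6), (2, 6, 7), (3, 5, 7)], .ihx (-1) 6 2 5 7 3 [] [(0, 4, 7)]]⟩,
  ⟨4, 3, 4, [4, 2, 5],
    [(1, [.b 0 1, .P 0 1, .P 1 2, .M 2 3], [2, 3, 0, 1]), (1, [.b 1 3, .P 0 1, .P 1 2, .M 2 3], [2, 0, 3, 1]), ((-1), [.P 0 1, .P 1 2, .M 2 3, .b 0 2], [2, 3, 0, 1])],
    [.ihx (-1) 6 0 3 7 5 [] [(1, 4, 7)], .swp (-1) 6 7 [] [(0, 5, 7), (1, 4, 6), (3, 6, 7)], .swp 1 6 7 [] [(0, 6, 7), (1, 4, 6), (3, 5, 7)]]⟩,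
  ⟨3, 4, 5, [3, 0, 4, 5],
    [((-2), [.a 1, .Y 2 3, .P 1 2, .P 0 1], [3, 1, 0, 2]), ((-1), [.b 1 2, .Y 2 3, .P 1 2, .P 0 1], [3, 1, 4, 0, 2]), (2, [.Y 2 3, .P 1 2, .P 0 1, .a 2], [0, 2, 3, 1]), (1, [.Y 2 3, .P 1 2, .P 0 1, .b 0 2], [3, 2, 4, 0, 1]), (1, [.Y 2 3, .P 1 2, .P 0 1, .b 2 3], [0, 3, 4, 1, 2]), ((-1), [.Y 2 3, .P 1 2, .P 0 1, .o 2], [0, 2, 3, 4, 1]), (1, [.o 1, .Y 2 3, .P 1 2, .P 0 1], [3, 4, 1, 0, 2])],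
    [.swp (-1) 6 7 [] [(1, 4, 6), (2, 6, 7), (3, 5, 7)], .ihx (-1) 6 2 5 7 3 [] [(1, 4, 7)]]⟩,
  ⟨4, 3, 4, [1, 4, 5],
    [(2, [.a 2, .P 0 1, .P 1 2, .M 2 3], [2, 0, 1]), (1, [.b 0 2, .P 0 1, .P 1 2, .M 2 3], [2, 3, 0, 1]), (1, [.b 2 3, .P 0 1, .P 1 2, .M 2 3], [2, 0, 3, 1]), ((-2), [.P 0 1, .P 1 2, .M 2 3, .a 1], [1, 2, 0]), ((-1), [.P 0 1, .P 1 2, .M 2 3, .b 1 2], [2, 3, 0, 1]), (1, [.P 0 1, .P 1 2, .M 2 3, .o 1], [1, 2, 3, 0]), ((-1), [.o 2, .P 0 1, .P 1 2, .M 2 3], [2, 3, 0, 1])],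
    [.ihx (-1) 6 0 3 7 5 [] [(2, 4, 7)], .swp (-1) 6 7 [] [(0, 5, 7), (2, 4, 6), (3, 6, 7)], .swp 1 6 7 [] [(0, 6, 7), (2, 4, 6), (3, 5, 7)]]⟩,
  ⟨3, 4, 5, [3, 0, 4, 5],
    [((-1), [.b 1 2, .Y 2 3, .P 1 2, .P 0 1], [3, 1, 4, 0, 2]), (1, [.Y 2 3, .P 1 2, .P 0 1, .b 0 2], [3, 2, 4, 0, 1]), (1, [.Y 2 3, .P 1 2, .P 0 1, .b 2 3], [0, 3, 4, 1, 2])],
    [.swp (-1) 6 7 [] [(1, 4, 6), (2, 6, 7), (3, 5, 7)], .ihx (-1) 6 2 5 7 3 [] [(1, 4, 7)]]⟩,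
  ⟨4, 3, 4, [1, 4, 5],
    [(1, [.b 0 2, .P 0 1, .P 1 2, .M 2 3], [2, 3, 0, 1]), (1, [.b 2 3, .P 0 1, .P 1 2, .M 2 3], [2, 0, 3, 1]), ((-1), [.P 0 1, .P 1 2, .M 2 3, .b 1 2], [2, 3, 0, 1])],
    [.ihx (-1) 6 0 3 7 5 [] [(2, 4, 7)], .swp (-1) 6 7 [] [(0, 5, 7), (2, 4, 6), (3, 6, 7)], .swp 1 6 7 [] [(0, 6, 7), (2, 4, 6), (3, 5, 7)]]⟩]

theorem cb19_ok : cb19.all Bs.ok = true := by decide +kernel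

end Pool.Agent.SWW54
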