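import Mathlib
import Pool.Agent.SWW54.Base

/-!
# Checked local relations, part 2
-/

set_option autoImplicit false

namespace Pool.Agent.SWW54

open Pool.Agent.Jac70 Pool.Agent.SWT85

/-- Checked relations. -/
def cb20 : List Bs := [
  ⟨3, 4, 5, [3, 0, 1, 4],
    [((-2), [.a 2, .Y 2 3, .P 1 2, .P 0 1], [2, 3, 0, 1]), (2, [.Y 2 3, .P 1 2, .P 0 1, .a 0], [2, 1, 3, 0]), (2, [.Y 2 3, .P 1 2, .P 0 1, .a 3], [0, 2, 3, 1]), (2, [.Y 2 3, .P 1 2, .P 0 1, .b 0 3], [2, 3, 4, 0, 1]), ((-1), [.Y 2 3, .P 1 2, .P 0 1, .o 0], [2, 1, 3, 4, 0]), ((-1), [.Y 2 3, .P 1 2, .P 0 1, .o 3], [0, 2, 3, 4, 1]), (1, [.o 2, .Y 2 3, .P 1 2, .P 0 1], [2, 3, 4, 0, 1])],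
    [.ihx (-1) 5 6 2 7 3 [] [(4, 6, 7)], .swp (-1) 5 6 [] [(2, 4, 5), (3, 6, 7), (5, 6, 7)], .ihx (-1) 6 2 5 7 4 [] [(3, 5, 7)], .ihx 1 7 3 5 4 6 [] [(2, 5, 6)], .swp 1 5 6 [] [(2, 5, 6), (3, 5, 7), (4, 6, 7)], .swp (-1) 6 7 [] [(2, 5, 6), (3, 5, 7), (4, 6, 7)], .swp (-1) 5 7 [] [(2, 5, 6), (3, 5, 7), (4, 6, 7)], .swp (-2) 5 6 [5] [(2, 5, 6), (3, 4, 6)], .ihx (-2) 5 2 4 6 3 [6] []]⟩,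
  ⟨4, 3, 4, [1, 2, 4],
    [(2, [.a 0, .P 0 1, .P 1 2, .M 2 3], [1, 2, 0]), (2, [.a 3, .P 0 1, .P 1 2, .M 2 3], [1, 2, 0]), (2, [.b 0 3, .P 0 1, .P 1 2, .M 2 3], [1, 2, 3, 0]), ((-2), [.P 0 1, .P 1 2, .M 2 3, .a 2], [1, 2, 0]), (1, [.P 0 1, .P 1 2, .M 2 3, .o 2], [1, 2, 3, 0]), ((-1), [.o 0, .P 0 1, .P 1 2, .M 2 3], [1, 2, 3, 0]), ((-1), [.o 3, .P 0 1, .P 1 2, .M 2 3], [1, 2, 3, 0])],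
    [.ihx 1 5 6 0 7 3 [] [(4, 6, 7)], .swp (-1) 6 7 [] [(0, 4, 7), (3, 5, 6), (5, 6, 7)], .ihx (-1) 6 0 5 7 4 [] [(3, 5, 7)], .ihx (-1) 7 3 5 4 6 [] [(0, 5, 6)], .swp (-1) 5 6 [] [(0, 5, 6), (3, 5, 7), (4, 6, 7)], .swp (-1) 5 7 [] [(0, 5, 6), (3, 5, 7), (4, 6, 7)], .swp 1 6 7 [] [(0, 5, 6), (3, 5, 7), (4, 6, 7)], .swp (-2) 5 6 [5] [(0, 4, 6), (3, 5, 6)], .swp 2 5 6 [5] [(0, 5, 6), (3, 4, 6)], .ihx (-2) 5 0 3 6 4 [6] []]⟩,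
  ⟨3, 4, 5, [3, 0, 1, 4],
    [(2, [.Y 2 3, .P 1 2, .P 0 1, .b 0 3], [2, 3, 4, 0, 1]), ((-1), [.Y 2 3, .P 1 2, .P 0 1, .o 0], [2, 1, 3, 4, 0])],
    [.swp (-1) 5 6 [] [(2, 4, 5), (3, 6, 7), (5, 6, 7)], .ihx (-1) 6 2 5 7 4 [] [(3, 5, 7)], .swp (-1) 5 7 [] [(2, 5, 6), (3, 5, 7), (4, 6, 7)]]⟩,
  ⟨4, 3, 4, [1, 2, 4],
    [(2, [.b 0 3, .P 0 1, .P 1 2, .M 2 3], [1, 2, 3, 0]), ((-1), [.o 0, .P 0 1, .P 1 2, .M 2 3], [1, 2, 3, 0])],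
    [.ihx (-1) 7 3 5 4 6 [] [(0, 5, 6)], .swp (-1) 5 6 [] [(0, 5, 6), (3, 5, 7), (4, 6, 7)]]⟩,
  ⟨3, 4, 5, [3, 0, 1, 4],
    [(1, [.Y 2 3, .P 1 2, .P 0 1, .o 0], [2, 1, 3, 4, 0]), ((-1), [.o 2, .Y 2 3, .P 1 2, .P 0 1], [2, 3, 4, 0, 1])],
    [.ihx 1 5 2 4 6 7 [] [(3, 6, 7)], .swp 1 6 7 [] [(2, 5, 6), (3, 4, 7), (5, 6, 7)], .swp 1 6 7 [] [(2, 5, 7), (3, 6, 7), (4, 5, 6)], .ihx (-1) 6 7 3 4 5 [] [(2, 5, 7)], .swp (-1) 5 7 [] [(2, 5, 7), (3, 6, 7), (4, 5, 6)]]⟩,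
  ⟨4, 3, 4, [1, 2, 4],
    [((-1), [.P 0 1, .P 1 2, .M 2 3, .o 2], [1, 2, 3, 0]), (1, [.o 0, .P 0 1, .P 1 2, .M 2 3], [1, 2, 3, 0])],
    [.ihx 1 5 0 3 6 7 [] [(4, 6, 7)], .swp (-1) 6 7 [] [(0, 5, 6), (3, 4, 7), (5, 6, 7)], .swp 1 6 7 [] [(0, 5, 7), (3, 5, 6), (4, 6, 7)], .ihx (-1) 6 3 5 7 4 [] [(0, 5, 7)], .swp (-1) 5 7 [] [(0, 5, 7), (3, 5, 6), (4, 6, 7)]]⟩,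
  ⟨3, 4, 5, [3, 4, 5, 1],
    [((-2), [.a 0, .Y 2 3, .P 1 2, .P 2 3], [3, 0, 1, 2]), ((-1), [.b 0 2, .Y 2 3, .P 1 2, .P 2 3], [3, 0, 4, 1, 2]), (2, [.Y 2 3, .P 1 2, .P 2 3, .a 0], [1, 2, 3, 0]), (1, [.Y 2 3, .P 1 2, .P 2 3, .b 0 1], [3, 2, 4, 0, 1]), (1, [.Y 2 3, .P 1 2, .P 2 3, .b 0 2], [1, 3, 4, 0, 2]), ((-1), [.Y 2 3, .P 1 2, .P 2 3, .o 0], [1, 2, 3, 4, 0]), (1, [.o 0, .Y 2 3, .P 1 2, .P 2 3], [3, 4, 0, 1, 2])],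
    [.swp (-1) 6 7 [] [(0, 3, 6), (2, 6, 7), (4, 5, 7)], .ihx (-1) 6 2 5 7 4 [] [(0, 3, 7)]]⟩,
  ⟨3, 4, 5, [3, 4, 5, 6],
    [((-1), [.b 0 1, .Y 2 3, .P 1 2, .P 2 3], [4, 0, 3, 1, 2]), (1, [.Y 2 3, .P 1 2, .P 2 3, .b 0 3], [1, 2, 4, 0, 3])],
    []⟩,
  ⟨4, 3, 4, [4, 3, 5],
    [(2, [.a 0, .P 2 3, .P 1 2, .M 2 3], [2, 0, 1]), (1, [.b 0 1, .P 2 3, .P 1 2, .M 2 3], [2, 0, 3, 1]), (1, [.b 0 2, .P 2 3, .P 1 2, .M 2 3], [2, 0, 3, 1]), ((-2), [.P 2 3, .P 1 2, .M 2 3, .a 0], [1, 2, 0]), ((-1), [.P 2 3, .P 1 2, .M 2 3, .b 0 2], [2, 3, 0, 1]), (1, [.P 2 3, .P 1 2, .M 2 3, .o 0], [1, 2, 3, 0]), ((-1), [.o 0, .P 2 3, .P 1 2, .M 2 3], [2, 3, 0, 1])],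
    [.swp (-1) 6 7 [] [(0, 4, 6), (1, 5, 7), (2, 6, 7)], .swp 1 6 7 [] [(0, 4, 6), (1, 6, 7), (2, 5, 7)], .ihx (-1) 6 1 2 7 5 [] [(0, 4, 7)]]⟩,
  ⟨4, 3, 4, [4, 5, 6],
    [(1, [.b 0 3, .P 2 3, .P 1 2, .M 2 3], [3, 0, 1, 2]), ((-1), [.P 2 3, .P 1 2, .M 2 3, .b 0 1], [2, 3, 0, 1])],
    []⟩,
  ⟨3, 4, 5, [3, 4, 5, 1],
    [((-1), [.b 0 2, .Y 2 3, .P 1 2, .P 2 3], [3, 0, 4, 1, 2]), (1, [.Y 2 3, .P 1 2, .P 2 3, .b 0 1], [3, 2, 4, 0, 1]), (1, [.Y 2 3, .P 1 2, .P 2 3, .b 0 2], [1, 3, 4, 0, 2])],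
    [.swp (-1) 6 7 [] [(0, 3, 6), (2, 6, 7), (4, 5, 7)], .ihx (-1) 6 2 5 7 4 [] [(0, 3, 7)]]⟩,
  ⟨4, 3, 4, [4, 3, 5],
    [(1, [.b 0 1, .P 2 3, .P 1 2, .M 2 3], [2, 0, 3, 1]), (1, [.b 0 2, .P 2 3, .P 1 2, .M 2 3], [2, 0, 3, 1]), ((-1), [.P 2 3, .P 1 2, .M 2 3, .b 0 2], [2, 3, 0, 1])],
    [.swp (-1) 6 7 [] [(0, 4, 6), (1, 5, 7), (2, 6, 7)], .swp 1 6 7 [] [(0, 4, 6), (1, 6, 7), (2, 5, 7)], .ihx (-1) 6 1 2 7 5 [] [(0, 4, 7)]]⟩,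
  ⟨3, 4, 5, [0, 3, 4, 5],
    [((-2), [.a 1, .Y 2 3, .P 1 2, .P 2 3], [3, 2, 0, 1]), ((-1), [.b 1 2, .Y 2 3, .P 1 2, .P 2 3], [3, 2, 4, 0, 1]), (2, [.Y 2 3, .P 1 2, .P 2 3, .a 3], [0, 1, 3, 2]), (1, [.Y 2 3, .P 1 2, .P 2 3, .b 1 3], [3, 1, 4, 0, 2]), (1, [.Y 2 3, .P 1 2, .P 2 3, .b 2 3], [0, 3, 4, 1, 2]), ((-1), [.Y 2 3, .P 1 2, .P 2 3, .o 3], [0, 1, 3, 4, 2]), (1, [.o 1, .Y 2 3, .P 1 2, .P 2 3], [3, 4, 2, 0, 1])],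
    [.swp (-1) 6 7 [] [(1, 5, 6), (2, 6, 7), (3, 4, 7)], .ihx (-1) 6 2 4 7 3 [] [(1, 5, 7)]]⟩,
  ⟨4, 3, 4, [0, 4, 5],
    [(2, [.a 3, .P 2 3, .P 1 2, .M 2 3], [2, 0, 1]), (1, [.b 1 3, .P 2 3, .P 1 2, .M 2 3], [2, 3, 0, 1]), (1, [.b 2 3, .P 2 3, .P 1 2, .M 2 3], [2, 3, 0, 1]), ((-2), [.P 2 3, .P 1 2, .M 2 3, .a 1], [1, 2, 0]), ((-1), [.P 2 3, .P 1 2, .M 2 3, .b 1 2], [2, 3, 0, 1]), (1, [.P 2 3, .P 1 2, .M 2 3, .o 1], [1, 2, 3, 0]), ((-1), [.o 3, .P 2 3, .P 1 2, .M 2 3], [2, 3, 0, 1])],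
    [.ihx (-1) 6 1 2 7 5 [] [(3, 4, 7)], .swp (-1) 6 7 [] [(1, 5, 7), (2, 6, 7), (3, 4, 6)], .swp 1 6 7 [] [(1, 6, 7), (2, 5, 7), (3, 4, 6)]]⟩,
  ⟨3, 4, 5, [0, 3, 4, 5],
    [((-1), [.b 1 2, .Y 2 3, .P 1 2, .P 2 3], [3, 2, 4, 0, 1]), (1, [.Y 2 3, .P 1 2, .P 2 3, .b 1 3], [3, 1, 4, 0, 2]), (1, [.Y 2 3, .P 1 2, .P 2 3, .b 2 3], [0, 3, 4, 1, 2])],
    [.swp (-1) 6 7 [] [(1, 5, 6), (2, 6, 7), (3, 4, 7)], .ihx (-1) 6 2 4 7 3 [] [(1, 5, 7)]]⟩,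
  ⟨4, 3, 4, [0, 4, 5],
    [(1, [.b 1 3, .P 2 3, .P 1 2, .M 2 3], [2, 3, 0, 1]), (1, [.b 2 3, .P 2 3, .P 1 2, .M 2 3], [2, 3, 0, 1]), ((-1), [.P 2 3, .P 1 2, .M 2 3, .b 1 2], [2, 3, 0, 1])],
    [.ihx (-1) 6 1 2 7 5 [] [(3, 4, 7)], .swp (-1) 6 7 [] [(1, 5, 7), (2, 6, 7), (3, 4, 6)], .swp 1 6 7 [] [(1, 6, 7), (2, 5, 7), (3, 4, 6)]]⟩,
  ⟨3, 4, 5, [0, 3, 4, 1],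
    [((-2), [.a 2, .Y 2 3, .P 1 2, .P 2 3], [2, 3, 0, 1]), (2, [.Y 2 3, .P 1 2, .P 2 3, .a 1], [2, 1, 3, 0]), (2, [.Y 2 3, .P 1 2, .P 2 3, .a 2], [0, 2, 3, 1]), (2, [.Y 2 3, .P 1 2, .P 2 3, .b 1 2], [2, 3, 4, 0, 1]), ((-1), [.Y 2 3, .P 1 2, .P 2 3, .o 1], [2, 1, 3, 4, 0]), ((-1), [.Y 2 3, .P 1 2, .P 2 3, .o 2], [0, 2, 3, 4, 1]), (1, [.o 2, .Y 2 3, .P 1 2, .P 2 3], [2, 3, 4, 0, 1])],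
    [.ihx (-1) 5 6 2 7 3 [] [(4, 6, 7)], .swp (-1) 5 6 [] [(2, 4, 5), (3, 6, 7), (5, 6, 7)], .ihx (-1) 6 2 5 7 4 [] [(3, 5, 7)], .ihx 1 7 3 5 4 6 [] [(2, 5, 6)], .swp (-1) 5 7 [] [(2, 5, 6), (3, 5, 7), (4, 6, 7)], .swp 1 5 6 [] [(2, 5, 6), (3, 5, 7), (4, 6, 7)], .swp (-1) 6 7 [] [(2, 5, 6), (3, 5, 7), (4, 6, 7)], .swp (-2) 5 6 [5] [(2, 5, 6), (3, 4, 6)], .ihx (-2) 5 2 4 6 3 [6] []]⟩,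
  ⟨4, 3, 4, [0, 3, 4],
    [(2, [.a 1, .P 2 3, .P 1 2, .M 2 3], [1, 2, 0]), (2, [.a 2, .P 2 3, .P 1 2, .M 2 3], [1, 2, 0]), (2, [.b 1 2, .P 2 3, .P 1 2, .M 2 3], [1, 2, 3, 0]), ((-2), [.P 2 3, .P 1 2, .M 2 3, .a 2], [1, 2, 0]), (1, [.P 2 3, .P 1 2, .M 2 3, .o 2], [1, 2, 3, 0]), ((-1), [.o 1, .P 2 3, .P 1 2, .M 2 3], [1, 2, 3, 0]), ((-1), [.o 2, .P 2 3, .P 1 2, .M 2 3], [1, 2, 3, 0])],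
    [.ihx 1 5 6 1 7 2 [] [(4, 6, 7)], .swp (-1) 6 7 [] [(1, 4, 7), (2, 5, 6), (5, 6, 7)], .ihx (-1) 6 1 5 7 4 [] [(2, 5, 7)], .ihx (-1) 7 2 5 4 6 [] [(1, 5, 6)], .swp (-1) 5 6 [] [(1, 5, 6), (2, 5, 7), (4, 6, 7)], .swp 1 6 7 [] [(1, 5, 6), (2, 5, 7), (4, 6, 7)], .swp (-1) 5 7 [] [(1, 5, 6), (2, 5, 7), (4, 6, 7)], .swp (-2) 5 6 [5] [(1, 4, 6), (2, 5, 6)], .swp 2 5 6 [5] [(1, 5, 6), (2, 4, 6)], .ihx (-2) 5 1 2 6 4 [6] []]⟩,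
  ⟨3, 4, 5, [0, 3, 4, 1],
    [(2, [.Y 2 3, .P 1 2, .P 2 3, .b 1 2], [2, 3, 4, 0, 1]), ((-1), [.Y 2 3, .P 1 2, .P 2 3, .o 1], [2, 1, 3, 4, 0])],
    [.swp (-1) 5 6 [] [(2, 4, 5), (3, 6, 7), (5, 6, 7)], .ihx (-1) 6 2 5 7 4 [] [(3, 5, 7)], .swp (-1) 5 7 [] [(2, 5, 6), (3, 5, 7), (4, 6, 7)]]⟩,
  ⟨4, 3, 4, [0, 3, 4],
    [(2, [.b 1 2, .P 2 3, .P 1 2, .M 2 3], [1, 2, 3, 0]), ((-1), [.o 1, .P 2 3, .P 1 2, .M 2 3], [1, 2, 3, 0])],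
    [.ihx (-1) 7 2 5 4 6 [] [(1, 5, 6)], .swp (-1) 5 6 [] [(1, 5, 6), (2, 5, 7), (4, 6, 7)]]⟩,
  ⟨3, 4, 5, [3, 4, 5, 1],
    [(1, [.Y 2 3, .P 1 2, .P 2 3, .o 0], [1, 2, 3, 4, 0]), ((-1), [.o 0, .Y 2 3, .P 1 2, .P 2 3], [3, 4, 0, 1, 2])],
    []⟩,
  ⟨4, 3, 4, [4, 3, 5],
    [((-1), [.P 2 3, .P 1 2, .M 2 3, .o 0], [1, 2, 3, 0]), (1, [.o 0, .P 2 3, .P 1 2, .M 2 3], [2, 3, 0, 1])],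
    []⟩,
  ⟨3, 4, 5, [3, 4, 1, 5],
    [((-2), [.a 0, .Y 2 3, .P 1 2], [3, 0, 1, 2]), ((-1), [.b 0 2, .Y 2 3, .P 1 2], [3, 0, 4, 1, 2]), (2, [.Y 2 3, .P 1 2, .a 0], [1, 2, 3, 0]), (1, [.Y 2 3, .P 1 2, .b 0 1], [3, 2, 4, 0, 1]), (1, [.Y 2 3, .P 1 2, .b 0 3], [1, 3, 4, 0, 2]), ((-1), [.Y 2 3, .P 1 2, .o 0], [1, 2, 3, 4, 0]), (1, [.o 0, .Y 2 3, .P 1 2], [3, 4, 0, 1, 2])],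
    [.swp (-1) 6 7 [] [(0, 3, 6), (2, 6, 7), (4, 5, 7)], .ihx (-1) 6 2 5 7 4 [] [(0, 3, 7)]]⟩,
  ⟨3, 4, 5, [3, 4, 5, 6],
    [((-1), [.b 0 1, .Y 2 3, .P 1 2], [4, 0, 2, 1, 3]), (1, [.Y 2 3, .P 1 2, .b 0 2], [1, 3, 4, 0, 2])],
    []⟩,
  ⟨4, 3, 4, [4, 2, 5],
    [(2, [.a 0, .P 1 2, .M 2 3], [2, 0, 1]), (1, [.b 0 1, .P 1 2, .M 2 3], [2, 0, 3, 1]), (1, [.b 0 3, .P 1 2, .M 2 3], [2, 0, 3, 1]), ((-2), [.P 1 2, .M 2 3, .a 0], [1, 2, 0]), ((-1), [.P 1 2, .M 2 3, .b 0 2], [2, 3, 0, 1]), (1, [.P 1 2, .M 2 3, .o 0], [1, 2, 3, 0]), ((-1), [.o 0, .P 1 2, .M 2 3], [2, 3, 0, 1])],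
    [.swp (-1) 6 7 [] [(0, 4, 6), (1, 5, 7), (3, 6, 7)], .swp 1 6 7 [] [(0, 4, 6), (1, 6, 7), (3, 5, 7)], .ihx (-1) 6 1 3 7 5 [] [(0, 4, 7)]]⟩,
  ⟨4, 3, 4, [4, 5, 6],
    [(1, [.b 0 2, .P 1 2, .M 2 3], [3, 0, 1, 2]), ((-1), [.P 1 2, .M 2 3, .b 0 1], [2, 3, 0, 1])],
    []⟩,
  ⟨3, 4, 5, [3, 4, 1, 5],
    [((-1), [.b 0 2, .Y 2 3, .P 1 2], [3, 0, 4, 1, 2]), (1, [.Y 2 3, .P 1 2, .b 0 1], [3, 2, 4, 0, 1]), (1, [.Y 2 3, .P 1 2, .b 0 3], [1, 3, 4, 0, 2])],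
    [.swp (-1) 6 7 [] [(0, 3, 6), (2, 6, 7), (4, 5, 7)], .ihx (-1) 6 2 5 7 4 [] [(0, 3, 7)]]⟩,
  ⟨4, 3, 4, [4, 2, 5],
    [(1, [.b 0 1, .P 1 2, .M 2 3], [2, 0, 3, 1]), (1, [.b 0 3, .P 1 2, .M 2 3], [2, 0, 3, 1]), ((-1), [.P 1 2, .M 2 3, .b 0 2], [2, 3, 0, 1])],
    [.swp (-1) 6 7 [] [(0, 4, 6), (1, 5, 7), (3, 6, 7)], .swp 1 6 7 [] [(0, 4, 6), (1, 6, 7), (3, 5, 7)], .ihx (-1) 6 1 3 7 5 [] [(0, 4, 7)]]⟩,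
  ⟨3, 4, 5, [0, 3, 4, 5],
    [((-2), [.a 1, .Y 2 3, .P 1 2], [3, 1, 0, 2]), ((-1), [.b 1 2, .Y 2 3, .P 1 2], [3, 1, 4, 0, 2]), (2, [.Y 2 3, .P 1 2, .a 2], [0, 2, 3, 1]), (1, [.Y 2 3, .P 1 2, .b 1 2], [3, 2, 4, 0, 1]), (1, [.Y 2 3, .P 1 2, .b 2 3], [0, 3, 4, 1, 2]), ((-1), [.Y 2 3, .P 1 2, .o 2], [0, 2, 3, 4, 1]), (1, [.o 1, .Y 2 3, .P 1 2], [3, 4, 1, 0, 2])],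
    [.swp (-1) 6 7 [] [(1, 4, 6), (2, 6, 7), (3, 5, 7)], .ihx (-1) 6 2 5 7 3 [] [(1, 4, 7)]]⟩,
  ⟨4, 3, 4, [0, 4, 5],
    [(2, [.a 2, .P 1 2, .M 2 3], [2, 0, 1]), (1, [.b 1 2, .P 1 2, .M 2 3], [2, 3, 0, 1]), (1, [.b 2 3, .P 1 2, .M 2 3], [2, 0, 3, 1]), ((-2), [.P 1 2, .M 2 3, .a 1], [1, 2, 0]), ((-1), [.P 1 2, .M 2 3, .b 1 2], [2, 3, 0, 1]), (1, [.P 1 2, .M 2 3, .o 1], [1, 2, 3, 0]), ((-1), [.o 2, .P 1 2, .M 2 3], [2, 3, 0, 1])],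
    [.ihx (-1) 6 1 3 7 5 [] [(2, 4, 7)], .swp (-1) 6 7 [] [(1, 5, 7), (2, 4, 6), (3, 6, 7)], .swp 1 6 7 [] [(1, 6, 7), (2, 4, 6), (3, 5, 7)]]⟩,
  ⟨3, 4, 5, [0, 3, 4, 5],
    [((-1), [.b 1 2, .Y 2 3, .P 1 2], [3, 1, 4, 0, 2]), (1, [.Y 2 3, .P 1 2, .b 1 2], [3, 2, 4, 0, 1]), (1, [.Y 2 3, .P 1 2, .b 2 3], [0, 3, 4, 1, 2])],
    [.swp (-1) 6 7 [] [(1, 4, 6), (2, 6, 7), (3, 5, 7)], .ihx (-1) 6 2 5 7 3 [] [(1, 4, 7)]]⟩,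
  ⟨4, 3, 4, [0, 4, 5],
    [(1, [.b 1 2, .P 1 2, .M 2 3], [2, 3, 0, 1]), (1, [.b 2 3, .P 1 2, .M 2 3], [2, 0, 3, 1]), ((-1), [.P 1 2, .M 2 3, .b 1 2], [2, 3, 0, 1])],
    [.ihx (-1) 6 1 3 7 5 [] [(2, 4, 7)], .swp (-1) 6 7 [] [(1, 5, 7), (2, 4, 6), (3, 6, 7)], .swp 1 6 7 [] [(1, 6, 7), (2, 4, 6), (3, 5, 7)]]⟩]

theorem cb20_ok : cb20.all Bs.ok = true := by decide +kernel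

/-- Checked relations. -/
def cb21 : List Bs := [
  ⟨3, 4, 5, [0, 3, 1, 4],
    [((-2), [.a 2, .Y 2 3, .P 1 2], [2, 3, 0, 1]), (2, [.Y 2 3, .P 1 2, .a 1], [2, 1, 3, 0]), (2, [.Y 2 3, .P 1 2, .a 3], [0, 2, 3, 1]), (2, [.Y 2 3, .P 1 2, .b 1 3], [2, 3, 4, 0, 1]), ((-1), [.Y 2 3, .P 1 2, .o 1], [2, 1, 3, 4, 0]), ((-1), [.Y 2 3, .P 1 2, .o 3], [0, 2, 3, 4, 1]), (1, [.o 2, .Y 2 3, .P 1 2], [2, 3, 4, 0, 1])],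
    [.ihx (-1) 5 6 2 7 3 [] [(4, 6, 7)], .swp (-1) 5 6 [] [(2, 4, 5), (3, 6, 7), (5, 6, 7)], .ihx (-1) 6 2 5 7 4 [] [(3, 5, 7)], .ihx 1 7 3 5 4 6 [] [(2, 5, 6)], .swp (-1) 5 7 [] [(2, 5, 6), (3, 5, 7), (4, 6, 7)], .swp 1 5 6 [] [(2, 5, 6), (3, 5, 7), (4, 6, 7)], .swp (-1) 6 7 [] [(2, 5, 6), (3, 5, 7), (4, 6, 7)], .swp (-2) 5 6 [5] [(2, 5, 6), (3, 4, 6)], .ihx (-2) 5 2 4 6 3 [6] []]⟩,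
  ⟨4, 3, 4, [0, 2, 4],
    [(2, [.a 1, .P 1 2, .M 2 3], [1, 2, 0]), (2, [.a 3, .P 1 2, .M 2 3], [1, 2, 0]), (2, [.b 1 3, .P 1 2, .M 2 3], [1, 2, 3, 0]), ((-2), [.P 1 2, .M 2 3, .a 2], [1, 2, 0]), (1, [.P 1 2, .M 2 3, .o 2], [1, 2, 3, 0]), ((-1), [.o 1, .P 1 2, .M 2 3], [1, 2, 3, 0]), ((-1), [.o 3, .P 1 2, .M 2 3], [1, 2, 3, 0])],
    [.ihx 1 5 6 1 7 3 [] [(4, 6, 7)], .ihx (-1) 6 1 5 7 4 [] [(3, 5, 7)], .swp (-1) 6 7 [] [(1, 4, 7), (3, 5, 6), (5, 6, 7)], .ihx (-1) 7 3 5 4 6 [] [(1, 5, 6)], .swp (-1) 5 6 [] [(1, 5, 6), (3, 5, 7), (4, 6, 7)], .swp (-1) 5 7 [] [(1, 5, 6), (3, 5, 7), (4, 6, 7)], .swp 1 6 7 [] [(1, 5, 6), (3, 5, 7), (4, 6, 7)], .swp (-2) 5 6 [5] [(1, 4, 6), (3, 5, 6)], .swp 2 5 6 [5] [(1,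 5, 6), (3, 4, 6)], .ihx (-2) 5 1 3 6 4 [6] []]⟩,
  ⟨3, 4, 5, [0, 3, 1, 4],
    [(2, [.Y 2 3, .P 1 2, .b 1 3], [2, 3, 4, 0, 1]), ((-1), [.Y 2 3, .P 1 2, .o 1], [2, 1, 3, 4, 0])],
    [.swp (-1) 5 6 [] [(2, 4, 5), (3, 6, 7), (5, 6, 7)], .ihx (-1) 6 2 5 7 4 [] [(3, 5, 7)], .swp (-1) 5 7 [] [(2, 5, 6), (3, 5, 7), (4, 6, 7)]]⟩,
  ⟨4, 3, 4, [0, 2, 4],
    [(2, [.b 1 3, .P 1 2, .M 2 3], [1, 2, 3, 0]), ((-1), [.o 1, .P 1 2, .M 2 3], [1, 2, 3, 0])],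
    [.ihx (-1) 7 3 5 4 6 [] [(1, 5, 6)], .swp (-1) 5 6 [] [(1, 5, 6), (3, 5, 7), (4, 6, 7)]]⟩,
  ⟨3, 4, 5, [3, 4, 1, 5],
    [(1, [.Y 2 3, .P 1 2, .o 0], [1, 2, 3, 4, 0]), ((-1), [.o 0, .Y 2 3, .P 1 2], [3, 4, 0, 1, 2])],
    []⟩,
  ⟨4, 3, 4, [4, 2, 5],
    [((-1), [.P 1 2, .M 2 3, .o 0], [1, 2, 3, 0]), (1, [.o 0, .P 1 2, .M 2 3], [2, 3, 0, 1])],
    []⟩,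
  ⟨3, 4, 5, [0, 1, 3, 4],
    [(2, [.Y 2 3, .b 2 3], [2, 3, 4, 0, 1]), ((-1), [.Y 2 3, .o 2], [2, 1, 3, 4, 0])],
    [.swp (-1) 5 6 [] [(2, 4, 5), (3, 6, 7), (5, 6, 7)], .ihx (-1) 6 2 5 7 4 [] [(3, 5, 7)], .swp (-1) 5 7 [] [(2, 5, 6), (3, 5, 7), (4, 6, 7)]]⟩,
  ⟨4, 3, 4, [0, 1, 4],
    [(2, [.b 2 3, .M 2 3], [1, 2, 3, 0]), ((-1), [.o 2, .M 2 3], [1, 2, 3, 0])],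
    [.ihx (-1) 7 3 5 4 6 [] [(2, 5, 6)], .swp (-1) 5 6 [] [(2, 5, 6), (3, 5, 7), (4, 6, 7)]]⟩,
  ⟨4, 4, 6, [4, 5, 6, 3],
    [(2, [.a 0, .b 1 2], [3, 0, 4, 1, 2]), (1, [.b 0 1, .b 1 2], [3, 0, 4, 5, 1, 2]), (1, [.b 0 2, .b 1 2], [3, 0, 4, 5, 1, 2]), ((-2), [.b 1 2, .a 0], [3, 1, 2, 4, 0]), ((-1), [.b 1 2, .b 0 1], [3, 4, 2, 5, 0, 1]), ((-1), [.b 1 2, .b 0 2], [3, 1, 4, 5, 0, 2]), (1, [.b 1 2, .o 0], [3, 1, 2, 4, 5, 0]), ((-1), [.o 0, .b 1 2], [3, 4, 0, 5, 1, 2])],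
    [.ihx (-1) 8 1 7 9 5 [] [(0, 4, 7), (2, 6, 9)], .swp (-1) 8 9 [] [(0, 4, 7), (1, 5, 8), (2, 6, 9), (7, 8, 9)], .ihx (-1) 8 2 7 9 6 [] [(0, 4, 7), (1, 5, 9)], .swp 1 7 9 [] [(0, 4, 9), (1, 5, 7), (2, 7, 8), (6, 8, 9)], .swp 1 7 9 [] [(0, 4, 9), (1, 7, 8), (2, 6, 7), (5, 8, 9)], .swp (-1) 7 9 [] [(0, 8, 9), (1, 5, 7), (2, 6, 7), (4, 8, 9)], .swp (-2) 7 8 [7] [(0, 4, 7), (1, 5, 8), (2, 6, 8)]]⟩,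
  ⟨4, 4, 6, [4, 5, 6, 7],
    [(1, [.b 0 3, .b 1 2], [4, 0, 3, 5, 1, 2]), ((-1), [.b 1 2, .b 0 3], [4, 1, 2, 5, 0, 3])],
    [.swp (-1) 8 9 [] [(0, 4, 8), (1, 5, 9), (2, 6, 9), (3, 7, 8)]]⟩,
  ⟨4, 4, 6, [4, 5, 2, 6],
    [(2, [.a 0, .b 1 3], [3, 0, 4, 1, 2]), (1, [.b 0 1, .b 1 3], [3, 0, 4, 5, 1, 2]), (1, [.b 0 3, .b 1 3], [3, 0, 4, 5, 1, 2]), ((-2), [.b 1 3, .a 0], [3, 1, 2, 4, 0]), ((-1), [.b 1 3, .b 0 1], [3, 4, 2, 5, 0, 1]), ((-1), [.b 1 3, .b 0 3], [3, 1, 4, 5, 0, 2]), (1, [.b 1 3, .o 0], [3, 1, 2, 4, 5, 0]), ((-1), [.o 0, .b 1 3], [3, 4, 0, 5, 1, 2])],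
    [.swp (-1) 8 9 [] [(0, 4, 7), (1, 5, 8), (3, 6, 9), (7, 8, 9)], .ihx (-1) 8 1 7 9 5 [] [(0, 4, 7), (3, 6, 9)], .ihx (-1) 8 3 7 9 6 [] [(0, 4, 7), (1, 5, 9)], .swp 1 7 9 [] [(0, 4, 9), (1, 5, 7), (3, 7, 8), (6, 8, 9)], .swp 1 7 9 [] [(0, 4, 9), (1, 7, 8), (3, 6, 7), (5, 8, 9)], .swp (-1) 7 9 [] [(0, 8, 9), (1, 5, 7), (3, 6, 7), (4, 8, 9)], .swp (-2) 7 8 [7] [(0, 4, 7), (1, 5, 8), (3, 6, 8)]]⟩,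
  ⟨4, 4, 6, [4, 5, 6, 7],
    [(1, [.b 0 2, .b 1 3], [4, 0, 2, 5, 1, 3]), ((-1), [.b 1 3, .b 0 2], [4, 1, 3, 5, 0, 2])],
    [.swp (-1) 8 9 [] [(0, 4, 8), (1, 5, 9), (2, 6, 8), (3, 7, 9)]]⟩,
  ⟨4, 4, 6, [4, 1, 5, 6],
    [(2, [.a 0, .b 2 3], [3, 0, 4, 1, 2]), (1, [.b 0 2, .b 2 3], [3, 0, 4, 5, 1, 2]), (1, [.b 0 3, .b 2 3], [3, 0, 4, 5, 1, 2]), ((-2), [.b 2 3, .a 0], [3, 1, 2, 4, 0]), ((-1), [.b 2 3, .b 0 2], [3, 4, 2, 5, 0, 1]), ((-1), [.b 2 3, .b 0 3], [3, 1, 4, 5, 0, 2]), (1, [.b 2 3, .o 0], [3, 1, 2, 4, 5, 0]), ((-1), [.o 0, .b 2 3], [3, 4, 0, 5, 1, 2])],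
    [.swp (-1) 8 9 [] [(0, 4, 7), (2, 5, 8), (3, 6, 9), (7, 8, 9)], .ihx (-1) 8 2 7 9 5 [] [(0, 4, 7), (3, 6, 9)], .ihx (-1) 8 3 7 9 6 [] [(0, 4, 7), (2, 5, 9)], .swp 1 7 9 [] [(0, 4, 9), (2, 5, 7), (3, 7, 8), (6, 8, 9)], .swp 1 7 9 [] [(0, 4, 9), (2, 7, 8), (3, 6, 7), (5, 8, 9)], .swp (-1) 7 9 [] [(0, 8, 9), (2, 5, 7), (3, 6, 7), (4, 8, 9)], .swp (-2) 7 8 [7] [(0, 4, 7), (2, 5, 8), (3, 6, 8)]]⟩,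
  ⟨4, 4, 6, [4, 5, 6, 7],
    [(1, [.b 0 1, .b 2 3], [4, 0, 1, 5, 2, 3]), ((-1), [.b 2 3, .b 0 1], [4, 2, 3, 5, 0, 1])],
    [.swp (-1) 8 9 [] [(0, 4, 8), (1, 5, 8), (2, 6, 9), (3, 7, 9)]]⟩,
  ⟨4, 4, 6, [4, 5, 6, 3],
    [(2, [.a 1, .b 0 2], [3, 1, 4, 0, 2]), (1, [.b 0 1, .b 0 2], [3, 4, 1, 5, 0, 2]), ((-2), [.b 0 2, .a 1], [3, 0, 2, 4, 1]), ((-1), [.b 0 2, .b 0 1], [3, 4, 2, 5, 0, 1]), ((-1), [.b 0 2, .b 1 2], [3, 0, 4, 5, 1, 2]), (1, [.b 0 2, .o 1], [3, 0, 2, 4, 5, 1]), (1, [.b 1 2, .b 0 2], [3, 1, 4, 5, 0, 2]), ((-1), [.o 1, .b 0 2], [3, 4, 1, 5, 0, 2])],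
    [.swp 1 7 9 [] [(0, 4, 7), (1, 5, 9), (2, 7, 8), (6, 8, 9)], .swp (-1) 7 9 [] [(0, 4, 7), (1, 8, 9), (2, 6, 7), (5, 8, 9)], .ihx (-1) 8 2 7 9 6 [] [(0, 4, 9), (1, 5, 7)], .ihx (-1) 8 0 7 9 4 [] [(1, 5, 7), (2, 6, 9)], .swp (-1) 8 9 [] [(0, 4, 8), (1, 5, 7), (2, 6, 9), (7, 8, 9)], .swp 1 7 9 [] [(0, 7, 8), (1, 5, 9), (2, 6, 7), (4, 8, 9)], .swp (-2) 7 8 [7] [(0, 4, 8), (1, 5, 7), (2, 6, 8)]]⟩,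
  ⟨4, 4, 6, [4, 5, 2, 6],
    [(2, [.a 1, .b 0 3], [3, 1, 4, 0, 2]), (1, [.b 0 1, .b 0 3], [3, 4, 1, 5, 0, 2]), ((-2), [.b 0 3, .a 1], [3, 0, 2, 4, 1]), ((-1), [.b 0 3, .b 0 1], [3, 4, 2, 5, 0, 1]), ((-1), [.b 0 3, .b 1 3], [3, 0, 4, 5, 1, 2]), (1, [.b 0 3, .o 1], [3, 0, 2, 4, 5, 1]), (1, [.b 1 3, .b 0 3], [3, 1, 4, 5, 0, 2]), ((-1), [.o 1, .b 0 3], [3, 4, 1, 5, 0, 2])],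
    [.swp 1 7 9 [] [(0, 4, 7), (1, 5, 9), (3, 7, 8), (6, 8, 9)], .swp (-1) 7 9 [] [(0, 4, 7), (1, 8, 9), (3, 6, 7), (5, 8, 9)], .ihx (-1) 8 0 7 9 4 [] [(1, 5, 7), (3, 6, 9)], .swp (-1) 8 9 [] [(0, 4, 8), (1, 5, 7), (3, 6, 9), (7, 8, 9)], .ihx (-1) 8 3 7 9 6 [] [(0, 4, 9), (1, 5, 7)], .swp 1 7 9 [] [(0, 7, 8), (1, 5, 9), (3, 6, 7), (4, 8, 9)], .swp (-2) 7 8 [7] [(0, 4, 8), (1, 5, 7), (3, 6, 8)]]⟩,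
  ⟨4, 4, 6, [0, 4, 5, 6],
    [(2, [.a 1, .b 2 3], [3, 0, 4, 1, 2]), (1, [.b 1 2, .b 2 3], [3, 0, 4, 5, 1, 2]), (1, [.b 1 3, .b 2 3], [3, 0, 4, 5, 1, 2]), ((-2), [.b 2 3, .a 1], [3, 1, 2, 4, 0]), ((-1), [.b 2 3, .b 1 2], [3, 4, 2, 5, 0, 1]), ((-1), [.b 2 3, .b 1 3], [3, 1, 4, 5, 0, 2]), (1, [.b 2 3, .o 1], [3, 1, 2, 4, 5, 0]), ((-1), [.o 1, .b 2 3], [3, 4, 0, 5, 1, 2])],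
    [.ihx (-1) 8 3 7 9 6 [] [(1, 4, 7), (2, 5, 9)], .ihx (-1) 8 2 7 9 5 [] [(1, 4, 7), (3, 6, 9)], .swp (-1) 8 9 [] [(1, 4, 7), (2, 5, 8), (3, 6, 9), (7, 8, 9)], .swp 1 7 9 [] [(1, 4, 9), (2, 5, 7), (3, 7, 8), (6, 8, 9)], .swp 1 7 9 [] [(1, 4, 9), (2, 7, 8), (3, 6, 7), (5, 8, 9)], .swp (-1) 7 9 [] [(1, 8, 9), (2, 5, 7), (3, 6, 7), (4, 8, 9)], .swp (-2) 7 8 [7] [(1, 4, 7), (2, 5, 8), (3, 6, 8)]]⟩,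
  ⟨4, 4, 6, [4, 5, 6, 3],
    [(2, [.a 2, .b 0 1], [3, 2, 4, 0, 1]), ((-2), [.b 0 1, .a 2], [3, 0, 1, 4, 2]), ((-1), [.b 0 1, .b 0 2], [3, 4, 1, 5, 0, 2]), ((-1), [.b 0 1, .b 1 2], [3, 0, 4, 5, 1, 2]), (1, [.b 0 1, .o 2], [3, 0, 1, 4, 5, 2]), (1, [.b 0 2, .b 0 1], [3, 4, 2, 5, 0, 1]), (1, [.b 1 2, .b 0 1], [3, 4, 2, 5, 0, 1]), ((-1), [.o 2, .b 0 1], [3, 4, 2, 5, 0, 1])],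
    [.swp (-1) 7 9 [] [(0, 4, 7), (1, 5, 7), (2, 8, 9), (6, 8, 9)], .swp 1 7 8 [] [(0, 4, 8), (1, 5, 7), (2, 6, 9), (7, 8, 9)], .ihx 1 8 1 7 9 5 [] [(0, 4, 7), (2, 6, 9)], .swp (-1) 7 9 [] [(0, 4, 9), (1, 7, 8), (2, 6, 7), (5, 8, 9)], .ihx 1 8 0 7 9 4 [] [(1, 5, 7), (2, 6, 9)], .swp (-1) 7 9 [] [(0, 7, 8), (1, 5, 9), (2, 6, 7), (4, 8, 9)], .swp (-2) 7 8 [7] [(0, 4, 8), (1, 5, 8), (2, 6, 7)]]⟩,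
  ⟨4, 4, 6, [4, 1, 5, 6],
    [(2, [.a 2, .b 0 3], [3, 1, 4, 0, 2]), (1, [.b 0 2, .b 0 3], [3, 4, 1, 5, 0, 2]), ((-2), [.b 0 3, .a 2], [3, 0, 2, 4, 1]), ((-1), [.b 0 3, .b 0 2], [3, 4, 2, 5, 0, 1]), ((-1), [.b 0 3, .b 2 3], [3, 0, 4, 5, 1, 2]), (1, [.b 0 3, .o 2], [3, 0, 2, 4, 5, 1]), (1, [.b 2 3, .b 0 3], [3, 1, 4, 5, 0, 2]), ((-1), [.o 2, .b 0 3], [3, 4, 1, 5, 0, 2])],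
    [.swp 1 7 9 [] [(0, 4, 7), (2, 5, 9), (3, 7, 8), (6, 8, 9)], .swp (-1) 7 9 [] [(0, 4, 7), (2, 8, 9), (3, 6, 7), (5, 8, 9)], .swp (-1) 8 9 [] [(0, 4, 8), (2, 5, 7), (3, 6, 9), (7, 8, 9)], .ihx (-1) 8 0 7 9 4 [] [(2, 5, 7), (3, 6, 9)], .ihx (-1) 8 3 7 9 6 [] [(0, 4, 9), (2, 5, 7)], .swp 1 7 9 [] [(0, 7, 8), (2, 5, 9), (3, 6, 7), (4, 8, 9)], .swp (-2) 7 8 [7] [(0, 4, 8), (2, 5, 7), (3, 6, 8)]]⟩,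
  ⟨4, 4, 6, [0, 4, 5, 6],
    [(2, [.a 2, .b 1 3], [3, 1, 4, 0, 2]), (1, [.b 1 2, .b 1 3], [3, 4, 1, 5, 0, 2]), ((-2), [.b 1 3, .a 2], [3, 0, 2, 4, 1]), ((-1), [.b 1 3, .b 1 2], [3, 4, 2, 5, 0, 1]), ((-1), [.b 1 3, .b 2 3], [3, 0, 4, 5, 1, 2]), (1, [.b 1 3, .o 2], [3, 0, 2, 4, 5, 1]), (1, [.b 2 3, .b 1 3], [3, 1, 4, 5, 0, 2]), ((-1), [.o 2, .b 1 3], [3, 4, 1, 5, 0, 2])],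
    [.swp 1 7 9 [] [(1, 4, 7), (2, 5, 9), (3, 7, 8), (6, 8, 9)], .swp (-1) 7 9 [] [(1, 4, 7), (2, 8, 9), (3, 6, 7), (5, 8, 9)], .ihx (-1) 8 1 7 9 4 [] [(2, 5, 7), (3, 6, 9)], .swp (-1) 8 9 [] [(1, 4, 8), (2, 5, 7), (3, 6, 9), (7, 8, 9)], .ihx (-1) 8 3 7 9 6 [] [(1, 4, 9), (2, 5, 7)], .swp 1 7 9 [] [(1, 7, 8), (2, 5, 9), (3, 6, 7), (4, 8, 9)], .swp (-2) 7 8 [7] [(1, 4, 8), (2, 5, 7), (3, 6, 8)]]⟩,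
  ⟨4, 4, 6, [4, 5, 2, 6],
    [(2, [.a 3, .b 0 1], [3, 2, 4, 0, 1]), ((-2), [.b 0 1, .a 3], [3, 0, 1, 4, 2]), ((-1), [.b 0 1, .b 0 3], [3, 4, 1, 5, 0, 2]), ((-1), [.b 0 1, .b 1 3], [3, 0, 4, 5, 1, 2]), (1, [.b 0 1, .o 3], [3, 0, 1, 4, 5, 2]), (1, [.b 0 3, .b 0 1], [3, 4, 2, 5, 0, 1]), (1, [.b 1 3, .b 0 1], [3, 4, 2, 5, 0, 1]), ((-1), [.o 3, .b 0 1], [3, 4, 2, 5, 0, 1])],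
    [.swp (-1) 7 9 [] [(0, 4, 7), (1, 5, 7), (3, 8, 9), (6, 8, 9)], .swp 1 7 8 [] [(0, 4, 8), (1, 5, 7), (3, 6, 9), (7, 8, 9)], .ihx 1 8 1 7 9 5 [] [(0, 4, 7), (3, 6, 9)], .swp (-1) 7 9 [] [(0, 4, 9), (1, 7, 8), (3, 6, 7), (5, 8, 9)], .ihx 1 8 0 7 9 4 [] [(1, 5, 7), (3, 6, 9)], .swp (-1) 7 9 [] [(0, 7, 8), (1, 5, 9), (3, 6, 7), (4, 8, 9)], .swp (-2) 7 8 [7] [(0, 4, 8), (1, 5, 8), (3, 6, 7)]]⟩,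
  ⟨4, 4, 6, [4, 1, 5, 6],
    [(2, [.a 3, .b 0 2], [3, 2, 4, 0, 1]), ((-2), [.b 0 2, .a 3], [3, 0, 1, 4, 2]), ((-1), [.b 0 2, .b 0 3], [3, 4, 1, 5, 0, 2]), ((-1), [.b 0 2, .b 2 3], [3, 0, 4, 5, 1, 2]), (1, [.b 0 2, .o 3], [3, 0, 1, 4, 5, 2]), (1, [.b 0 3, .b 0 2], [3, 4, 2, 5, 0, 1]), (1, [.b 2 3, .b 0 2], [3, 4, 2, 5, 0, 1]), ((-1), [.o 3, .b 0 2], [3, 4, 2, 5, 0, 1])],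
    [.swp (-1) 7 9 [] [(0, 4, 7), (2, 5, 7), (3, 8, 9), (6, 8, 9)], .ihx 1 8 2 7 9 5 [] [(0, 4, 7), (3, 6, 9)], .swp 1 7 8 [] [(0, 4, 8), (2, 5, 7), (3, 6, 9), (7, 8, 9)], .swp (-1) 7 9 [] [(0, 4, 9), (2, 7, 8), (3, 6, 7), (5, 8, 9)], .ihx 1 8 0 7 9 4 [] [(2, 5, 7), (3, 6, 9)], .swp (-1) 7 9 [] [(0, 7, 8), (2, 5, 9), (3, 6, 7), (4, 8, 9)], .swp (-2) 7 8 [7] [(0, 4, 8), (2, 5, 8), (3, 6, 7)]]⟩,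
  ⟨4, 4, 6, [0, 4, 5, 6],
    [(2, [.a 3, .b 1 2], [3, 2, 4, 0, 1]), ((-2), [.b 1 2, .a 3], [3, 0, 1, 4, 2]), ((-1), [.b 1 2, .b 1 3], [3, 4, 1, 5, 0, 2]), ((-1), [.b 1 2, .b 2 3], [3, 0, 4, 5, 1, 2]), (1, [.b 1 2, .o 3], [3, 0, 1, 4, 5, 2]), (1, [.b 1 3, .b 1 2], [3, 4, 2, 5, 0, 1]), (1, [.b 2 3, .b 1 2], [3, 4, 2, 5, 0, 1]), ((-1), [.o 3, .b 1 2], [3, 4, 2, 5, 0, 1])],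
    [.swp (-1) 7 9 [] [(1, 4, 7), (2, 5, 7), (3, 8, 9), (6, 8, 9)], .ihx 1 8 2 7 9 5 [] [(1, 4, 7), (3, 6, 9)], .swp 1 7 8 [] [(1, 4, 8), (2, 5, 7), (3, 6, 9), (7, 8, 9)], .swp (-1) 7 9 [] [(1, 4, 9), (2, 7, 8), (3, 6, 7), (5, 8, 9)], .ihx 1 8 1 7 9 4 [] [(2, 5, 7), (3, 6, 9)], .swp (-1) 7 9 [] [(1, 7, 8), (2, 5, 9), (3, 6, 7), (4, 8, 9)], .swp (-2) 7 8 [7] [(1, 4, 8), (2, 5, 8), (3, 6, 7)]]⟩,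
  ⟨4, 4, 6, [4, 5, 6, 3],
    [((-1), [.b 0 1, .b 0 2], [3, 4, 1, 5, 0, 2]), ((-1), [.b 0 1, .b 1 2], [3, 0, 4, 5, 1, 2]), (1, [.b 0 2, .b 0 1], [3, 4, 2, 5, 0, 1]), (1, [.b 1 2, .b 0 1], [3, 4, 2, 5, 0, 1])],
    [.swp 1 7 8 [] [(0, 4, 8), (1, 5, 7), (2, 6, 9), (7, 8, 9)], .ihx 1 8 1 7 9 5 [] [(0, 4, 7), (2, 6, 9)], .swp (-1) 7 9 [] [(0, 4, 9), (1, 7, 8), (2, 6, 7), (5, 8, 9)], .ihx 1 8 0 7 9 4 [] [(1, 5, 7), (2, 6, 9)], .swp (-1) 7 9 [] [(0, 7, 8), (1, 5, 9), (2, 6, 7), (4, 8, 9)]]⟩,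
  ⟨4, 4, 6, [4, 5, 2, 6],
    [((-1), [.b 0 1, .b 0 3], [3, 4, 1, 5, 0, 2]), ((-1), [.b 0 1, .b 1 3], [3, 0, 4, 5, 1, 2]), (1, [.b 0 3, .b 0 1], [3, 4, 2, 5, 0, 1]), (1, [.b 1 3, .b 0 1], [3, 4, 2, 5, 0, 1])],
    [.ihx 1 8 1 7 9 5 [] [(0, 4, 7), (3, 6, 9)], .swp 1 7 8 [] [(0, 4, 8), (1, 5, 7), (3, 6, 9), (7, 8, 9)], .swp (-1) 7 9 [] [(0, 4, 9), (1, 7, 8), (3, 6, 7), (5, 8, 9)], .ihx 1 8 0 7 9 4 [] [(1, 5, 7), (3, 6, 9)], .swp (-1) 7 9 [] [(0, 7, 8), (1, 5, 9), (3, 6, 7), (4, 8, 9)]]⟩,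
  ⟨4, 4, 6, [4, 5, 2, 3],
    [(4, [.a 0, .a 1], [2, 0, 3, 1]), (2, [.a 0, .b 0 1], [2, 3, 4, 0, 1]), ((-2), [.a 0, .o 1], [2, 0, 3, 4, 1]), ((-4), [.a 1, .a 0], [2, 1, 3, 0]), ((-2), [.a 1, .b 0 1], [2, 3, 4, 0, 1]), (2, [.a 1, .o 0], [2, 1, 3, 4, 0]), ((-2), [.b 0 1, .a 0], [2, 3, 1, 4, 0]), (2, [.b 0 1, .a 1], [2, 0, 3, 4, 1]), (1, [.b 0 1, .o 0], [2, 3, 1, 4, 5, 0]), ((-1), [.b 0 1, .o 1], [2, 0, 3, 4, 5, 1]), ((-2), [.o 0, .a 1], [2, 3, 0, 4, 1]), ((-1), [.o 0, .b 0 1], [2, 3, 4, 5, 0, 1]), (1, [.o 0, .o 1], [2, 3, 0, 4, 5, 1]), (2, [.o 1, .a 0], [2, 3, 1, 4, 0]), (1, [.o 1, .b 0 1], [2, 3, 4, 5, 0, 1]), ((-1), [.o 1, .o 0], [2, 3, 1, 4, 5, 0])],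
    [.ihx (-1) 7 1 6 8 9 [] [(0, 4, 6), (5, 8, 9)], .swp (-1) 8 9 [] [(0, 4, 6), (1, 7, 9), (5, 8, 9), (6, 7, 8)], .ihx 1 8 9 5 6 7 [] [(0, 4, 6), (1, 7, 9)], .swp 1 6 9 [] [(0, 4, 9), (1, 6, 7), (5, 8, 9), (6, 7, 8)], .swp 1 7 9 [] [(0, 4, 6), (1, 7, 9), (5, 8, 9), (6, 7, 8)], .ihx 1 7 0 6 8 9 [] [(1, 5, 6), (4, 8, 9)], .swp (-1) 6 9 [] [(0, 6, 7), (1, 5, 9), (4, 8, 9), (6, 7, 8)], .swp (-1) 7 9 [] [(0, 6, 7), (1, 8, 9), (4, 6, 7), (5, 8, 9)], .swp 1 6 8 [] [(0, 8, 9), (1, 6, 7), (4, 8, 9), (5, 6, 7)], .swp 1 8 9 [] [(0, 7, 9), (1, 5, 6), (4, 8, 9), (6, 7, 8)], .ihx (-1) 8 9 4 6 7 [] [(0, 7, 9), (1, 5, 6)], .swp (-1) 7 9 [] [(0, 7, 9), (1, 5, 6), (4, 8, 9), (6, 7, 8)], .swp 2 6 8 [6] [(0, 4, 6), (1,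 7, 8), (5, 7, 8)], .swp 2 6 8 [6] [(0, 4, 8), (1, 6, 7), (5, 7, 8)], .swp (-2) 6 8 [6] [(0, 6, 7), (1, 5, 8), (4, 7, 8)], .swp (-2) 6 8 [6] [(0, 7, 8), (1, 5, 6), (4, 7, 8)], .swp (-2) 6 7 [6, 7] [(0, 4, 6), (1, 5, 7)], .stu (-2) 8 7 6 [] [] [(0, 4, 7), (1, 5, 6)], .stu 2 8 7 6 [] [] [(0, 4, 6), (1, 5, 7)], .swp 2 6 7 [6, 7] [(0, 4, 7), (1, 5, 6)], .ihx (-2) 7 1 6 8 5 [8] [(0, 4, 6)], .ihx 2 7 0 6 8 4 [8] [(1, 5, 6)]]⟩,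
  ⟨4, 4, 6, [4, 5, 6, 3],
    [(2, [.a 0, .b 1 2], [3, 0, 4, 1, 2]), ((-2), [.a 1, .b 0 2], [3, 1, 4, 0, 2]), ((-1), [.b 0 1, .b 0 2], [3, 4, 1, 5, 0, 2]), (2, [.b 0 2, .a 1], [3, 0, 2, 4, 1]), (1, [.b 0 2, .b 0 1], [3, 4, 2, 5, 0, 1]), (1, [.b 0 2, .b 1 2], [3, 0, 4, 5, 1, 2]), ((-1), [.b 0 2, .o 1], [3, 0, 2, 4, 5, 1]), ((-2), [.b 1 2, .a 0], [3, 1, 2, 4, 0]), ((-1), [.b 1 2, .b 0 2], [3, 1, 4, 5, 0, 2]), (1, [.b 1 2, .o 0], [3, 1, 2, 4, 5, 0]), ((-1), [.o 0, .b 1 2], [3, 4, 0, 5, 1, 2]), (1, [.o 1, .b 0 2], [3, 4, 1, 5, 0, 2])],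
    [.swp (-1) 7 9 [] [(0, 4, 7), (1, 5, 9), (2, 7, 8), (6, 8, 9)], .swp 1 7 9 [] [(0, 4, 7), (1, 8, 9), (2, 6, 7), (5, 8, 9)], .ihx 1 8 2 7 9 6 [] [(0, 4, 9), (1, 5, 7)], .ihx 1 8 0 7 9 4 [] [(1, 5, 7), (2, 6, 9)], .swp 1 8 9 [] [(0, 4, 8), (1, 5, 7), (2, 6, 9), (7, 8, 9)], .swp (-1) 7 9 [] [(0, 7, 8), (1, 5, 9), (2, 6, 7), (4, 8, 9)], .swp (-1) 7 9 [] [(0, 8, 9), (1, 5, 7), (2, 6, 7), (4, 8, 9)], .swp (-2) 7 8 [7] [(0, 4, 7), (1, 5, 8), (2, 6, 8)], .swp 2 7 8 [7] [(0, 4, 8), (1, 5, 7), (2, 6, 8)]]⟩,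
  ⟨4, 4, 6, [4, 5, 2, 6],
    [(2, [.a 0, .b 1 3], [3, 0, 4, 1, 2]), ((-2), [.a 1, .b 0 3], [3, 1, 4, 0, 2]), ((-1), [.b 0 1, .b 0 3], [3, 4, 1, 5, 0, 2]), (2, [.b 0 3, .a 1], [3, 0, 2, 4, 1]), (1, [.b 0 3, .b 0 1], [3, 4, 2, 5, 0, 1]), (1, [.b 0 3, .b 1 3], [3, 0, 4, 5, 1, 2]), ((-1), [.b 0 3, .o 1], [3, 0, 2, 4, 5, 1]), ((-2), [.b 1 3, .a 0], [3, 1, 2, 4, 0]), ((-1), [.b 1 3, .b 0 3], [3, 1, 4, 5, 0, 2]), (1, [.b 1 3, .o 0], [3, 1, 2, 4, 5, 0]), ((-1), [.o 0, .b 1 3], [3, 4, 0, 5, 1, 2]), (1, [.o 1, .b 0 3], [3, 4, 1, 5, 0, 2])],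
    [.swp (-1) 7 9 [] [(0, 4, 7), (1, 5, 9), (3, 7, 8), (6, 8, 9)], .swp 1 7 9 [] [(0, 4, 7), (1, 8, 9), (3, 6, 7), (5, 8, 9)], .ihx 1 8 0 7 9 4 [] [(1, 5, 7), (3, 6, 9)], .swp 1 8 9 [] [(0, 4, 8), (1, 5, 7), (3, 6, 9), (7, 8, 9)], .ihx 1 8 3 7 9 6 [] [(0, 4, 9), (1, 5, 7)], .swp (-1) 7 9 [] [(0, 7, 8), (1, 5, 9), (3, 6, 7), (4, 8, 9)], .swp (-1) 7 9 [] [(0, 8, 9), (1, 5, 7), (3, 6, 7), (4, 8, 9)], .swp (-2) 7 8 [7] [(0, 4, 7), (1, 5, 8), (3, 6, 8)], .swp 2 7 8 [7] [(0, 4, 8), (1, 5, 7), (3, 6, 8)]]⟩,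
  ⟨4, 4, 6, [4, 5, 6, 7],
    [(1, [.b 0 2, .b 1 3], [4, 0, 2, 5, 1, 3]), (1, [.b 0 3, .b 1 2], [4, 0, 3, 5, 1, 2]), ((-1), [.b 1 2, .b 0 3], [4, 1, 2, 5, 0, 3]), ((-1), [.b 1 3, .b 0 2], [4, 1, 3, 5, 0, 2])],
    [.swp (-1) 8 9 [] [(0, 4, 8), (1, 5, 9), (2, 6, 8), (3, 7, 9)], .swp (-1) 8 9 [] [(0, 4, 8), (1, 5, 9), (2, 6, 9), (3, 7, 8)]]⟩,
  ⟨4, 4, 6, [4, 5, 6, 3],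
    [(1, [.b 0 1, .b 0 2], [3, 4, 1, 5, 0, 2]), ((-1), [.b 0 2, .b 0 1], [3, 4, 2, 5, 0, 1]), ((-1), [.b 0 2, .b 1 2], [3, 0, 4, 5, 1, 2]), (1, [.b 1 2, .b 0 2], [3, 1, 4, 5, 0, 2])],
    [.swp 1 7 9 [] [(0, 4, 7), (1, 5, 9), (2, 7, 8), (6, 8, 9)], .ihx (-1) 8 0 7 9 4 [] [(1, 5, 7), (2, 6, 9)], .swp (-1) 8 9 [] [(0, 4, 8), (1, 5, 7), (2, 6, 9), (7, 8, 9)], .ihx (-1) 8 2 7 9 6 [] [(0, 4, 9), (1, 5, 7)], .swp 1 7 9 [] [(0, 7, 8), (1, 5, 9), (2, 6, 7), (4, 8, 9)]]⟩,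
  ⟨4, 4, 6, [4, 1, 5, 6],
    [((-1), [.b 0 2, .b 0 3], [3, 4, 1, 5, 0, 2]), ((-1), [.b 0 2, .b 2 3], [3, 0, 4, 5, 1, 2]), (1, [.b 0 3, .b 0 2], [3, 4, 2, 5, 0, 1]), (1, [.b 2 3, .b 0 2], [3, 4, 2, 5, 0, 1])],
    [.ihx 1 8 2 7 9 5 [] [(0, 4, 7), (3, 6, 9)], .swp 1 7 8 [] [(0, 4, 8), (2, 5, 7), (3, 6, 9), (7, 8, 9)], .swp (-1) 7 9 [] [(0, 4, 9), (2, 7, 8), (3, 6, 7), (5, 8, 9)], .ihx 1 8 0 7 9 4 [] [(2, 5, 7), (3, 6, 9)], .swp (-1) 7 9 [] [(0, 7, 8), (2, 5, 9), (3, 6, 7), (4, 8, 9)]]⟩,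
  ⟨4, 4, 6, [4, 1, 5, 3],
    [(4, [.a 0, .a 2], [2, 0, 3, 1]), (2, [.a 0, .b 0 2], [2, 3, 4, 0, 1]), ((-2), [.a 0, .o 2], [2, 0, 3, 4, 1]), ((-4), [.a 2, .a 0], [2, 1, 3, 0]), ((-2), [.a 2, .b 0 2], [2, 3, 4, 0, 1]), (2, [.a 2, .o 0], [2, 1, 3, 4, 0]), ((-2), [.b 0 2, .a 0], [2, 3, 1, 4, 0]), (2, [.b 0 2, .a 2], [2, 0, 3, 4, 1]), (1, [.b 0 2, .o 0], [2, 3, 1, 4, 5, 0]), ((-1), [.b 0 2, .o 2], [2, 0, 3, 4, 5, 1]), ((-2), [.o 0, .a 2], [2, 3, 0, 4, 1]), ((-1), [.o 0, .b 0 2], [2, 3, 4, 5, 0, 1]), (1, [.o 0, .o 2], [2, 3, 0, 4, 5, 1]), (2, [.o 2, .a 0], [2, 3, 1, 4, 0]), (1, [.o 2, .b 0 2], [2, 3, 4, 5, 0, 1]), ((-1), [.o 2, .o 0], [2, 3, 1, 4, 5, 0])],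
    [.ihx (-1) 7 2 6 8 9 [] [(0, 4, 6), (5, 8, 9)], .swp (-1) 8 9 [] [(0, 4, 6), (2, 7, 9), (5, 8, 9), (6, 7, 8)], .swp 1 7 9 [] [(0, 4, 6), (2, 7, 9), (5, 8, 9), (6, 7, 8)], .swp 1 6 9 [] [(0, 4, 9), (2, 6, 7), (5, 8, 9), (6, 7, 8)], .ihx 1 8 9 5 6 7 [] [(0, 4, 6), (2, 7, 9)], .ihx 1 7 0 6 8 9 [] [(2, 5, 6), (4, 8, 9)], .swp (-1) 6 9 [] [(0, 6, 7), (2, 5, 9), (4, 8, 9), (6, 7, 8)], .swp (-1) 7 9 [] [(0, 6, 7), (2, 8, 9), (4, 6, 7), (5, 8, 9)], .swp 1 6 8 [] [(0, 8, 9), (2, 6, 7), (4, 8, 9), (5, 6, 7)], .swp 1 8 9 [] [(0, 7, 9), (2, 5, 6), (4, 8, 9), (6, 7, 8)], .ihx (-1) 8 9 4 6 7 [] [(0, 7, 9), (2, 5, 6)], .swp (-1) 7 9 [] [(0, 7, 9), (2, 5, 6), (4, 8, 9), (6, 7, 8)], .swp 2 6 8 [6] [(0, 4, 6), (2,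 7, 8), (5, 7, 8)], .swp 2 6 8 [6] [(0, 4, 8), (2, 6, 7), (5, 7, 8)], .swp (-2) 6 8 [6] [(0, 6, 7), (2, 5, 8), (4, 7, 8)], .swp (-2) 6 8 [6] [(0, 7, 8), (2, 5, 6), (4, 7, 8)], .swp (-2) 6 7 [6, 7] [(0, 4, 6), (2, 5, 7)], .stu (-2) 8 7 6 [] [] [(0, 4, 7), (2, 5, 6)], .stu 2 8 7 6 [] [] [(0, 4, 6), (2, 5, 7)], .swp 2 6 7 [6, 7] [(0, 4, 7), (2, 5, 6)], .ihx (-2) 7 2 6 8 5 [8] [(0, 4, 6)], .ihx 2 7 0 6 8 4 [8] [(2, 5, 6)]]⟩]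

theorem cb21_ok : cb21.all Bs.ok = true := by decide +kernel

/-- Checked relations. -/
def cb22 : List Bs := [
  ⟨4, 4, 6, [4, 5, 6, 3],
    [(2, [.a 0, .b 1 2], [3, 0, 4, 1, 2]), ((-2), [.a 2, .b 0 1], [3, 2, 4, 0, 1]), (2, [.b 0 1, .a 2], [3, 0, 1, 4, 2]), (1, [.b 0 1, .b 0 2], [3, 4, 1, 5, 0, 2]), (1, [.b 0 1, .b 1 2], [3, 0, 4, 5, 1, 2]), ((-1), [.b 0 1, .o 2], [3, 0, 1, 4, 5, 2]), ((-1), [.b 0 2, .b 0 1], [3, 4, 2, 5, 0, 1]), ((-2), [.b 1 2, .a 0], [3, 1, 2, 4, 0]), ((-1), [.b 1 2, .b 0 1], [3, 4, 2, 5, 0, 1]), (1, [.b 1 2, .o 0], [3, 1, 2, 4, 5, 0]), ((-1), [.o 0, .b 1 2], [3, 4, 0, 5, 1, 2]), (1, [.o 2, .b 0 1], [3, 4, 2, 5, 0, 1])],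
    [.swp 1 7 9 [] [(0, 4, 7), (1, 5, 7), (2, 8, 9), (6, 8, 9)], .ihx (-1) 8 1 7 9 5 [] [(0, 4, 7), (2, 6, 9)], .swp (-1) 7 8 [] [(0, 4, 8), (1, 5, 7), (2, 6, 9), (7, 8, 9)], .swp 1 7 9 [] [(0, 4, 9), (1, 7, 8), (2, 6, 7), (5, 8, 9)], .ihx (-1) 8 0 7 9 4 [] [(1, 5, 7), (2, 6, 9)], .swp 1 7 9 [] [(0, 7, 8), (1, 5, 9), (2, 6, 7), (4, 8, 9)], .swp (-1) 7 9 [] [(0, 8, 9), (1, 5, 7), (2, 6, 7), (4, 8, 9)], .swp (-2) 7 8 [7] [(0, 4, 7), (1, 5, 8), (2, 6, 8)], .swp 2 7 8 [7] [(0, 4, 8), (1, 5, 8), (2, 6, 7)]]⟩,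
  ⟨4, 4, 6, [4, 1, 5, 6],
    [(2, [.a 0, .b 2 3], [3, 0, 4, 1, 2]), ((-2), [.a 2, .b 0 3], [3, 1, 4, 0, 2]), ((-1), [.b 0 2, .b 0 3], [3, 4, 1, 5, 0, 2]), (2, [.b 0 3, .a 2], [3, 0, 2, 4, 1]), (1, [.b 0 3, .b 0 2], [3, 4, 2, 5, 0, 1]), (1, [.b 0 3, .b 2 3], [3, 0, 4, 5, 1, 2]), ((-1), [.b 0 3, .o 2], [3, 0, 2, 4, 5, 1]), ((-2), [.b 2 3, .a 0], [3, 1, 2, 4, 0]), ((-1), [.b 2 3, .b 0 3], [3, 1, 4, 5, 0, 2]), (1, [.b 2 3, .o 0], [3, 1, 2, 4, 5, 0]), ((-1), [.o 0, .b 2 3], [3, 4, 0, 5, 1, 2]), (1, [.o 2, .b 0 3], [3, 4, 1, 5, 0, 2])],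
    [.swp (-1) 7 9 [] [(0, 4, 7), (2, 5, 9), (3, 7, 8), (6, 8, 9)], .swp 1 7 9 [] [(0, 4, 7), (2, 8, 9), (3, 6, 7), (5, 8, 9)], .swp 1 8 9 [] [(0, 4, 8), (2, 5, 7), (3, 6, 9), (7, 8, 9)], .ihx 1 8 0 7 9 4 [] [(2, 5, 7), (3, 6, 9)], .ihx 1 8 3 7 9 6 [] [(0, 4, 9), (2, 5, 7)], .swp (-1) 7 9 [] [(0, 7, 8), (2, 5, 9), (3, 6, 7), (4, 8, 9)], .swp (-1) 7 9 [] [(0, 8, 9), (2, 5, 7), (3, 6, 7), (4, 8, 9)], .swp (-2) 7 8 [7] [(0, 4, 7), (2, 5, 8), (3, 6, 8)], .swp 2 7 8 [7] [(0, 4, 8), (2, 5, 7), (3, 6, 8)]]⟩,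
  ⟨4, 4, 6, [4, 5, 6, 7],
    [(1, [.b 0 1, .b 2 3], [4, 0, 1, 5, 2, 3]), (1, [.b 0 3, .b 1 2], [4, 0, 3, 5, 1, 2]), ((-1), [.b 1 2, .b 0 3], [4, 1, 2, 5, 0, 3]), ((-1), [.b 2 3, .b 0 1], [4, 2, 3, 5, 0, 1])],
    [.swp (-1) 8 9 [] [(0, 4, 8), (1, 5, 8), (2, 6, 9), (3, 7, 9)], .swp (-1) 8 9 [] [(0, 4, 8), (1, 5, 9), (2, 6, 9), (3, 7, 8)]]⟩,
  ⟨4, 4, 6, [4, 5, 2, 6],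
    [(1, [.b 0 1, .b 0 3], [3, 4, 1, 5, 0, 2]), ((-1), [.b 0 3, .b 0 1], [3, 4, 2, 5, 0, 1]), ((-1), [.b 0 3, .b 1 3], [3, 0, 4, 5, 1, 2]), (1, [.b 1 3, .b 0 3], [3, 1, 4, 5, 0, 2])],
    [.swp 1 7 9 [] [(0, 4, 7), (1, 5, 9), (3, 7, 8), (6, 8, 9)], .ihx (-1) 8 3 7 9 6 [] [(0, 4, 9), (1, 5, 7)], .ihx (-1) 8 0 7 9 4 [] [(1, 5, 7), (3, 6, 9)], .swp (-1) 8 9 [] [(0, 4, 8), (1, 5, 7), (3, 6, 9), (7, 8, 9)], .swp 1 7 9 [] [(0, 7, 8), (1, 5, 9), (3, 6, 7), (4, 8, 9)]]⟩,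
  ⟨4, 4, 6, [4, 1, 5, 6],
    [(1, [.b 0 2, .b 0 3], [3, 4, 1, 5, 0, 2]), ((-1), [.b 0 3, .b 0 2], [3, 4, 2, 5, 0, 1]), ((-1), [.b 0 3, .b 2 3], [3, 0, 4, 5, 1, 2]), (1, [.b 2 3, .b 0 3], [3, 1, 4, 5, 0, 2])],
    [.swp 1 7 9 [] [(0, 4, 7), (2, 5, 9), (3, 7, 8), (6, 8, 9)], .ihx (-1) 8 3 7 9 6 [] [(0, 4, 9), (2, 5, 7)], .ihx (-1) 8 0 7 9 4 [] [(2, 5, 7), (3, 6, 9)], .swp (-1) 8 9 [] [(0, 4, 8), (2, 5, 7), (3, 6, 9), (7, 8, 9)], .swp 1 7 9 [] [(0, 7, 8), (2, 5, 9), (3, 6, 7), (4, 8, 9)]]⟩,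
  ⟨4, 4, 6, [4, 1, 2, 5],
    [(4, [.a 0, .a 3], [2, 0, 3, 1]), (2, [.a 0, .b 0 3], [2, 3, 4, 0, 1]), ((-2), [.a 0, .o 3], [2, 0, 3, 4, 1]), ((-4), [.a 3, .a 0], [2, 1, 3, 0]), ((-2), [.a 3, .b 0 3], [2, 3, 4, 0, 1]), (2, [.a 3, .o 0], [2, 1, 3, 4, 0]), ((-2), [.b 0 3, .a 0], [2, 3, 1, 4, 0]), (2, [.b 0 3, .a 3], [2, 0, 3, 4, 1]), (1, [.b 0 3, .o 0], [2, 3, 1, 4, 5, 0]), ((-1), [.b 0 3, .o 3], [2, 0, 3, 4, 5, 1]), ((-2), [.o 0, .a 3], [2, 3, 0, 4, 1]), ((-1), [.o 0, .b 0 3], [2, 3, 4, 5, 0, 1]), (1, [.o 0, .o 3], [2, 3, 0, 4, 5, 1]), (2, [.o 3, .a 0], [2, 3, 1, 4, 0]), (1, [.o 3, .b 0 3], [2, 3, 4, 5, 0, 1]), ((-1), [.o 3, .o 0], [2, 3, 1, 4, 5, 0])],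
    [.ihx (-1) 7 3 6 8 9 [] [(0, 4, 6), (5, 8, 9)], .swp (-1) 8 9 [] [(0, 4, 6), (3, 7, 9), (5, 8, 9), (6, 7, 8)], .swp 1 7 9 [] [(0, 4, 6), (3, 7, 9), (5, 8, 9), (6, 7, 8)], .ihx 1 8 9 5 6 7 [] [(0, 4, 6), (3, 7, 9)], .swp 1 6 9 [] [(0, 4, 9), (3, 6, 7), (5, 8, 9), (6, 7, 8)], .ihx 1 7 0 6 8 9 [] [(3, 5, 6), (4, 8, 9)], .swp (-1) 6 9 [] [(0, 6, 7), (3, 5, 9), (4, 8, 9), (6, 7, 8)], .swp (-1) 7 9 [] [(0, 6, 7), (3, 8, 9), (4, 6, 7), (5, 8, 9)], .swp 1 6 8 [] [(0, 8, 9), (3, 6, 7), (4, 8, 9), (5, 6, 7)], .swp 1 8 9 [] [(0, 7, 9), (3, 5, 6), (4, 8, 9), (6, 7, 8)], .ihx (-1) 8 9 4 6 7 [] [(0, 7, 9), (3, 5, 6)], .swp (-1) 7 9 [] [(0, 7, 9), (3, 5, 6), (4, 8, 9), (6, 7, 8)], .swp 2 6 8 [6] [(0, 4, 6), (3,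 7, 8), (5, 7, 8)], .swp 2 6 8 [6] [(0, 4, 8), (3, 6, 7), (5, 7, 8)], .swp (-2) 6 8 [6] [(0, 6, 7), (3, 5, 8), (4, 7, 8)], .swp (-2) 6 8 [6] [(0, 7, 8), (3, 5, 6), (4, 7, 8)], .swp (-2) 6 7 [6, 7] [(0, 4, 6), (3, 5, 7)], .stu (-2) 8 7 6 [] [] [(0, 4, 7), (3, 5, 6)], .stu 2 8 7 6 [] [] [(0, 4, 6), (3, 5, 7)], .swp 2 6 7 [6, 7] [(0, 4, 7), (3, 5, 6)], .ihx (-2) 7 3 6 8 5 [8] [(0, 4, 6)], .ihx 2 7 0 6 8 4 [8] [(3, 5, 6)]]⟩,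
  ⟨4, 4, 6, [4, 5, 2, 6],
    [(2, [.a 0, .b 1 3], [3, 0, 4, 1, 2]), ((-2), [.a 3, .b 0 1], [3, 2, 4, 0, 1]), (2, [.b 0 1, .a 3], [3, 0, 1, 4, 2]), (1, [.b 0 1, .b 0 3], [3, 4, 1, 5, 0, 2]), (1, [.b 0 1, .b 1 3], [3, 0, 4, 5, 1, 2]), ((-1), [.b 0 1, .o 3], [3, 0, 1, 4, 5, 2]), ((-1), [.b 0 3, .b 0 1], [3, 4, 2, 5, 0, 1]), ((-2), [.b 1 3, .a 0], [3, 1, 2, 4, 0]), ((-1), [.b 1 3, .b 0 1], [3, 4, 2, 5, 0, 1]), (1, [.b 1 3, .o 0], [3, 1, 2, 4, 5, 0]), ((-1), [.o 0, .b 1 3], [3, 4, 0, 5, 1, 2]), (1, [.o 3, .b 0 1], [3, 4, 2, 5, 0, 1])],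
    [.swp 1 7 9 [] [(0, 4, 7), (1, 5, 7), (3, 8, 9), (6, 8, 9)], .swp (-1) 7 8 [] [(0, 4, 8), (1, 5, 7), (3, 6, 9), (7, 8, 9)], .ihx (-1) 8 1 7 9 5 [] [(0, 4, 7), (3, 6, 9)], .swp 1 7 9 [] [(0, 4, 9), (1, 7, 8), (3, 6, 7), (5, 8, 9)], .ihx (-1) 8 0 7 9 4 [] [(1, 5, 7), (3, 6, 9)], .swp 1 7 9 [] [(0, 7, 8), (1, 5, 9), (3, 6, 7), (4, 8, 9)], .swp (-1) 7 9 [] [(0, 8, 9), (1, 5, 7), (3, 6, 7), (4, 8, 9)], .swp (-2) 7 8 [7] [(0, 4, 7), (1, 5, 8), (3, 6, 8)], .swp 2 7 8 [7] [(0, 4, 8), (1, 5, 8), (3, 6, 7)]]⟩,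
  ⟨4, 4, 6, [4, 1, 5, 6],
    [(2, [.a 0, .b 2 3], [3, 0, 4, 1, 2]), ((-2), [.a 3, .b 0 2], [3, 2, 4, 0, 1]), (2, [.b 0 2, .a 3], [3, 0, 1, 4, 2]), (1, [.b 0 2, .b 0 3], [3, 4, 1, 5, 0, 2]), (1, [.b 0 2, .b 2 3], [3, 0, 4, 5, 1, 2]), ((-1), [.b 0 2, .o 3], [3, 0, 1, 4, 5, 2]), ((-1), [.b 0 3, .b 0 2], [3, 4, 2, 5, 0, 1]), ((-2), [.b 2 3, .a 0], [3, 1, 2, 4, 0]), ((-1), [.b 2 3, .b 0 2], [3, 4, 2, 5, 0, 1]), (1, [.b 2 3, .o 0], [3, 1, 2, 4, 5, 0]), ((-1), [.o 0, .b 2 3], [3, 4, 0, 5, 1, 2]), (1, [.o 3, .b 0 2], [3, 4, 2, 5, 0, 1])],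
    [.swp 1 7 9 [] [(0, 4, 7), (2, 5, 7), (3, 8, 9), (6, 8, 9)], .ihx (-1) 8 2 7 9 5 [] [(0, 4, 7), (3, 6, 9)], .swp (-1) 7 8 [] [(0, 4, 8), (2, 5, 7), (3, 6, 9), (7, 8, 9)], .swp 1 7 9 [] [(0, 4, 9), (2, 7, 8), (3, 6, 7), (5, 8, 9)], .ihx (-1) 8 0 7 9 4 [] [(2, 5, 7), (3, 6, 9)], .swp 1 7 9 [] [(0, 7, 8), (2, 5, 9), (3, 6, 7), (4, 8, 9)], .swp (-1) 7 9 [] [(0, 8, 9), (2, 5, 7), (3, 6, 7), (4, 8, 9)], .swp (-2) 7 8 [7] [(0, 4, 7), (2, 5, 8), (3, 6, 8)], .swp 2 7 8 [7] [(0, 4, 8), (2, 5, 8), (3, 6, 7)]]⟩,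
  ⟨4, 4, 6, [4, 5, 6, 7],
    [(1, [.b 0 1, .b 2 3], [4, 0, 1, 5, 2, 3]), (1, [.b 0 2, .b 1 3], [4, 0, 2, 5, 1, 3]), ((-1), [.b 1 3, .b 0 2], [4, 1, 3, 5, 0, 2]), ((-1), [.b 2 3, .b 0 1], [4, 2, 3, 5, 0, 1])],
    [.swp (-1) 8 9 [] [(0, 4, 8), (1, 5, 8), (2, 6, 9), (3, 7, 9)], .swp (-1) 8 9 [] [(0, 4, 8), (1, 5, 9), (2, 6, 8), (3, 7, 9)]]⟩,
  ⟨4, 4, 6, [4, 5, 6, 3],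
    [(1, [.b 0 1, .b 1 2], [3, 0, 4, 5, 1, 2]), (1, [.b 0 2, .b 1 2], [3, 0, 4, 5, 1, 2]), ((-1), [.b 1 2, .b 0 1], [3, 4, 2, 5, 0, 1]), ((-1), [.b 1 2, .b 0 2], [3, 1, 4, 5, 0, 2])],
    [.ihx (-1) 8 1 7 9 5 [] [(0, 4, 7), (2, 6, 9)], .swp (-1) 8 9 [] [(0, 4, 7), (1, 5, 8), (2, 6, 9), (7, 8, 9)], .ihx (-1) 8 2 7 9 6 [] [(0, 4, 7), (1, 5, 9)], .swp 1 7 9 [] [(0, 4, 9), (1, 5, 7), (2, 7, 8), (6, 8, 9)], .swp 1 7 9 [] [(0, 4, 9), (1, 7, 8), (2, 6, 7), (5, 8, 9)]]⟩,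
  ⟨4, 4, 6, [0, 4, 5, 6],
    [((-1), [.b 1 2, .b 1 3], [3, 4, 1, 5, 0, 2]), ((-1), [.b 1 2, .b 2 3], [3, 0, 4, 5, 1, 2]), (1, [.b 1 3, .b 1 2], [3, 4, 2, 5, 0, 1]), (1, [.b 2 3, .b 1 2], [3, 4, 2, 5, 0, 1])],
    [.swp 1 7 8 [] [(1, 4, 8), (2, 5, 7), (3, 6, 9), (7, 8, 9)], .ihx 1 8 2 7 9 5 [] [(1, 4, 7), (3, 6, 9)], .swp (-1) 7 9 [] [(1, 4, 9), (2, 7, 8), (3, 6, 7), (5, 8, 9)], .ihx 1 8 1 7 9 4 [] [(2, 5, 7), (3, 6, 9)], .swp (-1) 7 9 [] [(1, 7, 8), (2, 5, 9), (3, 6, 7), (4, 8, 9)]]⟩,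
  ⟨4, 4, 6, [0, 4, 5, 3],
    [(4, [.a 1, .a 2], [2, 0, 3, 1]), (2, [.a 1, .b 1 2], [2, 3, 4, 0, 1]), ((-2), [.a 1, .o 2], [2, 0, 3, 4, 1]), ((-4), [.a 2, .a 1], [2, 1, 3, 0]), ((-2), [.a 2, .b 1 2], [2, 3, 4, 0, 1]), (2, [.a 2, .o 1], [2, 1, 3, 4, 0]), ((-2), [.b 1 2, .a 1], [2, 3, 1, 4, 0]), (2, [.b 1 2, .a 2], [2, 0, 3, 4, 1]), (1, [.b 1 2, .o 1], [2, 3, 1, 4, 5, 0]), ((-1), [.b 1 2, .o 2], [2, 0, 3, 4, 5, 1]), ((-2), [.o 1, .a 2], [2, 3, 0, 4, 1]), ((-1), [.o 1, .b 1 2], [2, 3, 4, 5, 0, 1]), (1, [.o 1, .o 2], [2, 3, 0, 4, 5, 1]), (2, [.o 2, .a 1], [2, 3, 1, 4, 0]), (1, [.o 2, .b 1 2], [2, 3, 4, 5, 0, 1]), ((-1), [.o 2, .o 1], [2, 3, 1, 4, 5, 0])],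
    [.ihx (-1) 7 2 6 8 9 [] [(1, 4, 6), (5, 8, 9)], .swp (-1) 8 9 [] [(1, 4, 6), (2, 7, 9), (5, 8, 9), (6, 7, 8)], .ihx 1 8 9 5 6 7 [] [(1, 4, 6), (2, 7, 9)], .swp 1 6 9 [] [(1, 4, 9), (2, 6, 7), (5, 8, 9), (6, 7, 8)], .swp 1 7 9 [] [(1, 4, 6), (2, 7, 9), (5, 8, 9), (6, 7, 8)], .ihx 1 7 1 6 8 9 [] [(2, 5, 6), (4, 8, 9)], .swp (-1) 6 9 [] [(1, 6, 7), (2, 5, 9), (4, 8, 9), (6, 7, 8)], .swp (-1) 7 9 [] [(1, 6, 7), (2, 8, 9), (4, 6, 7), (5, 8, 9)], .swp 1 6 8 [] [(1, 8, 9), (2, 6, 7), (4, 8, 9), (5, 6, 7)], .swp 1 8 9 [] [(1, 7, 9), (2, 5, 6), (4, 8, 9), (6, 7, 8)], .ihx (-1) 8 9 4 6 7 [] [(1, 7, 9), (2, 5, 6)], .swp (-1) 7 9 [] [(1, 7, 9), (2, 5, 6), (4, 8, 9), (6, 7, 8)], .swp 2 6 8 [6] [(1, 4, 6), (2,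 7, 8), (5, 7, 8)], .swp 2 6 8 [6] [(1, 4, 8), (2, 6, 7), (5, 7, 8)], .swp (-2) 6 8 [6] [(1, 6, 7), (2, 5, 8), (4, 7, 8)], .swp (-2) 6 8 [6] [(1, 7, 8), (2, 5, 6), (4, 7, 8)], .swp 2 6 7 [6, 7] [(1, 4, 7), (2, 5, 6)], .stu 2 8 7 6 [] [] [(1, 4, 6), (2, 5, 7)], .ihx (-2) 7 2 6 8 5 [8] [(1, 4, 6)], .stu (-2) 8 7 6 [] [] [(1, 4, 7), (2, 5, 6)], .swp (-2) 6 7 [6, 7] [(1, 4, 6), (2, 5, 7)], .ihx 2 7 1 6 8 4 [8] [(2, 5, 6)]]⟩,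
  ⟨4, 4, 6, [4, 5, 6, 3],
    [(2, [.a 1, .b 0 2], [3, 1, 4, 0, 2]), ((-2), [.a 2, .b 0 1], [3, 2, 4, 0, 1]), (2, [.b 0 1, .a 2], [3, 0, 1, 4, 2]), (1, [.b 0 1, .b 0 2], [3, 4, 1, 5, 0, 2]), (1, [.b 0 1, .b 1 2], [3, 0, 4, 5, 1, 2]), ((-1), [.b 0 1, .o 2], [3, 0, 1, 4, 5, 2]), ((-2), [.b 0 2, .a 1], [3, 0, 2, 4, 1]), ((-1), [.b 0 2, .b 0 1], [3, 4, 2, 5, 0, 1]), (1, [.b 0 2, .o 1], [3, 0, 2, 4, 5, 1]), ((-1), [.b 1 2, .b 0 1], [3, 4, 2, 5, 0, 1]), ((-1), [.o 1, .b 0 2], [3, 4, 1, 5, 0, 2]), (1, [.o 2, .b 0 1], [3, 4, 2, 5, 0, 1])],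
    [.swp 1 7 9 [] [(0, 4, 7), (1, 5, 7), (2, 8, 9), (6, 8, 9)], .ihx (-1) 8 1 7 9 5 [] [(0, 4, 7), (2, 6, 9)], .swp (-1) 7 8 [] [(0, 4, 8), (1, 5, 7), (2, 6, 9), (7, 8, 9)], .swp (-1) 7 9 [] [(0, 4, 7), (1, 8, 9), (2, 6, 7), (5, 8, 9)], .swp 1 7 9 [] [(0, 4, 9), (1, 7, 8), (2, 6, 7), (5, 8, 9)], .ihx (-1) 8 0 7 9 4 [] [(1, 5, 7), (2, 6, 9)], .swp 1 7 9 [] [(0, 7, 8), (1, 5, 9), (2, 6, 7), (4, 8, 9)], .swp (-2) 7 8 [7] [(0, 4, 8), (1, 5, 7), (2, 6, 8)], .swp 2 7 8 [7] [(0, 4, 8), (1, 5, 8), (2, 6, 7)]]⟩,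
  ⟨4, 4, 6, [0, 4, 5, 6],
    [(2, [.a 1, .b 2 3], [3, 0, 4, 1, 2]), ((-2), [.a 2, .b 1 3], [3, 1, 4, 0, 2]), ((-1), [.b 1 2, .b 1 3], [3, 4, 1, 5, 0, 2]), (2, [.b 1 3, .a 2], [3, 0, 2, 4, 1]), (1, [.b 1 3, .b 1 2], [3, 4, 2, 5, 0, 1]), (1, [.b 1 3, .b 2 3], [3, 0, 4, 5, 1, 2]), ((-1), [.b 1 3, .o 2], [3, 0, 2, 4, 5, 1]), ((-2), [.b 2 3, .a 1], [3, 1, 2, 4, 0]), ((-1), [.b 2 3, .b 1 3], [3, 1, 4, 5, 0, 2]), (1, [.b 2 3, .o 1], [3, 1, 2, 4, 5, 0]), ((-1), [.o 1, .b 2 3], [3, 4, 0, 5, 1, 2]), (1, [.o 2, .b 1 3], [3, 4, 1, 5, 0, 2])],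
    [.swp (-1) 7 9 [] [(1, 4, 7), (2, 5, 9), (3, 7, 8), (6, 8, 9)], .swp 1 7 9 [] [(1, 4, 7), (2, 8, 9), (3, 6, 7), (5, 8, 9)], .ihx 1 8 1 7 9 4 [] [(2, 5, 7), (3, 6, 9)], .swp 1 8 9 [] [(1, 4, 8), (2, 5, 7), (3, 6, 9), (7, 8, 9)], .ihx 1 8 3 7 9 6 [] [(1, 4, 9), (2, 5, 7)], .swp (-1) 7 9 [] [(1, 7, 8), (2, 5, 9), (3, 6, 7), (4, 8, 9)], .swp (-1) 7 9 [] [(1, 8, 9), (2, 5, 7), (3, 6, 7), (4, 8, 9)], .swp (-2) 7 8 [7] [(1, 4, 7), (2, 5, 8), (3, 6, 8)], .swp 2 7 8 [7] [(1, 4, 8), (2, 5, 7), (3, 6, 8)]]⟩,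
  ⟨4, 4, 6, [4, 5, 6, 7],
    [(1, [.b 0 1, .b 2 3], [4, 0, 1, 5, 2, 3]), ((-1), [.b 0 2, .b 1 3], [4, 0, 2, 5, 1, 3]), (1, [.b 1 3, .b 0 2], [4, 1, 3, 5, 0, 2]), ((-1), [.b 2 3, .b 0 1], [4, 2, 3, 5, 0, 1])],
    [.swp (-1) 8 9 [] [(0, 4, 8), (1, 5, 8), (2, 6, 9), (3, 7, 9)], .swp 1 8 9 [] [(0, 4, 8), (1, 5, 9), (2, 6, 8), (3, 7, 9)]]⟩,
  ⟨4, 4, 6, [4, 5, 2, 6],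
    [(1, [.b 0 1, .b 1 3], [3, 0, 4, 5, 1, 2]), (1, [.b 0 3, .b 1 3], [3, 0, 4, 5, 1, 2]), ((-1), [.b 1 3, .b 0 1], [3, 4, 2, 5, 0, 1]), ((-1), [.b 1 3, .b 0 3], [3, 1, 4, 5, 0, 2])],
    [.ihx (-1) 8 3 7 9 6 [] [(0, 4, 7), (1, 5, 9)], .swp (-1) 8 9 [] [(0, 4, 7), (1, 5, 8), (3, 6, 9), (7, 8, 9)], .ihx (-1) 8 1 7 9 5 [] [(0, 4, 7), (3, 6, 9)], .swp 1 7 9 [] [(0, 4, 9), (1, 5, 7), (3, 7, 8), (6, 8, 9)], .swp 1 7 9 [] [(0, 4, 9), (1, 7, 8), (3, 6, 7), (5, 8, 9)]]⟩,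
  ⟨4, 4, 6, [0, 4, 5, 6],
    [(1, [.b 1 2, .b 1 3], [3, 4, 1, 5, 0, 2]), ((-1), [.b 1 3, .b 1 2], [3, 4, 2, 5, 0, 1]), ((-1), [.b 1 3, .b 2 3], [3, 0, 4, 5, 1, 2]), (1, [.b 2 3, .b 1 3], [3, 1, 4, 5, 0, 2])],
    [.swp 1 7 9 [] [(1, 4, 7), (2, 5, 9), (3, 7, 8), (6, 8, 9)], .swp (-1) 8 9 [] [(1, 4, 8), (2, 5, 7), (3, 6, 9), (7, 8, 9)], .ihx (-1) 8 1 7 9 4 [] [(2, 5, 7), (3, 6, 9)], .ihx (-1) 8 3 7 9 6 [] [(1, 4, 9), (2, 5, 7)], .swp 1 7 9 [] [(1, 7, 8), (2, 5, 9), (3, 6, 7), (4, 8, 9)]]⟩,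
  ⟨4, 4, 6, [0, 4, 2, 5],
    [(4, [.a 1, .a 3], [2, 0, 3, 1]), (2, [.a 1, .b 1 3], [2, 3, 4, 0, 1]), ((-2), [.a 1, .o 3], [2, 0, 3, 4, 1]), ((-4), [.a 3, .a 1], [2, 1, 3, 0]), ((-2), [.a 3, .b 1 3], [2, 3, 4, 0, 1]), (2, [.a 3, .o 1], [2, 1, 3, 4, 0]), ((-2), [.b 1 3, .a 1], [2, 3, 1, 4, 0]), (2, [.b 1 3, .a 3], [2, 0, 3, 4, 1]), (1, [.b 1 3, .o 1], [2, 3, 1, 4, 5, 0]), ((-1), [.b 1 3, .o 3], [2, 0, 3, 4, 5, 1]), ((-2), [.o 1, .a 3], [2, 3, 0, 4, 1]), ((-1), [.o 1, .b 1 3], [2, 3, 4, 5, 0, 1]), (1, [.o 1, .o 3], [2, 3, 0, 4, 5, 1]), (2, [.o 3, .a 1], [2, 3, 1, 4, 0]), (1, [.o 3, .b 1 3], [2, 3, 4, 5, 0, 1]), ((-1), [.o 3, .o 1], [2, 3, 1, 4, 5, 0])],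
    [.ihx (-1) 7 3 6 8 9 [] [(1, 4, 6), (5, 8, 9)], .swp (-1) 8 9 [] [(1, 4, 6), (3, 7, 9), (5, 8, 9), (6, 7, 8)], .swp 1 6 9 [] [(1, 4, 9), (3, 6, 7), (5, 8, 9), (6, 7, 8)], .ihx 1 8 9 5 6 7 [] [(1, 4, 6), (3, 7, 9)], .swp 1 7 9 [] [(1, 4, 6), (3, 7, 9), (5, 8, 9), (6, 7, 8)], .ihx 1 7 1 6 8 9 [] [(3, 5, 6), (4, 8, 9)], .swp (-1) 6 9 [] [(1, 6, 7), (3, 5, 9), (4, 8, 9), (6, 7, 8)], .swp (-1) 7 9 [] [(1, 6, 7), (3, 8, 9), (4, 6, 7), (5, 8, 9)], .swp 1 6 8 [] [(1, 8, 9), (3, 6, 7), (4, 8, 9), (5, 6, 7)], .swp 1 8 9 [] [(1, 7, 9), (3, 5, 6), (4, 8, 9), (6, 7, 8)], .ihx (-1) 8 9 4 6 7 [] [(1, 7, 9), (3, 5, 6)], .swp (-1) 7 9 [] [(1, 7, 9), (3, 5, 6), (4, 8, 9), (6, 7, 8)], .swp 2 6 8 [6] [(1, 4, 6), (3,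 7, 8), (5, 7, 8)], .swp 2 6 8 [6] [(1, 4, 8), (3, 6, 7), (5, 7, 8)], .swp (-2) 6 8 [6] [(1, 6, 7), (3, 5, 8), (4, 7, 8)], .swp (-2) 6 8 [6] [(1, 7, 8), (3, 5, 6), (4, 7, 8)], .stu (-2) 8 7 6 [] [] [(1, 4, 7), (3, 5, 6)], .swp (-2) 6 7 [6, 7] [(1, 4, 6), (3, 5, 7)], .swp 2 6 7 [6, 7] [(1, 4, 7), (3, 5, 6)], .stu 2 8 7 6 [] [] [(1, 4, 6), (3, 5, 7)], .ihx (-2) 7 3 6 8 5 [8] [(1, 4, 6)], .ihx 2 7 1 6 8 4 [8] [(3, 5, 6)]]⟩,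
  ⟨4, 4, 6, [4, 5, 2, 6],
    [(2, [.a 1, .b 0 3], [3, 1, 4, 0, 2]), ((-2), [.a 3, .b 0 1], [3, 2, 4, 0, 1]), (2, [.b 0 1, .a 3], [3, 0, 1, 4, 2]), (1, [.b 0 1, .b 0 3], [3, 4, 1, 5, 0, 2]), (1, [.b 0 1, .b 1 3], [3, 0, 4, 5, 1, 2]), ((-1), [.b 0 1, .o 3], [3, 0, 1, 4, 5, 2]), ((-2), [.b 0 3, .a 1], [3, 0, 2, 4, 1]), ((-1), [.b 0 3, .b 0 1], [3, 4, 2, 5, 0, 1]), (1, [.b 0 3, .o 1], [3, 0, 2, 4, 5, 1]), ((-1), [.b 1 3, .b 0 1], [3, 4, 2, 5, 0, 1]), ((-1), [.o 1, .b 0 3], [3, 4, 1, 5, 0, 2]), (1, [.o 3, .b 0 1], [3, 4, 2, 5, 0, 1])],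
    [.swp 1 7 9 [] [(0, 4, 7), (1, 5, 7), (3, 8, 9), (6, 8, 9)], .swp (-1) 7 8 [] [(0, 4, 8), (1, 5, 7), (3, 6, 9), (7, 8, 9)], .ihx (-1) 8 1 7 9 5 [] [(0, 4, 7), (3, 6, 9)], .swp (-1) 7 9 [] [(0, 4, 7), (1, 8, 9), (3, 6, 7), (5, 8, 9)], .swp 1 7 9 [] [(0, 4, 9), (1, 7, 8), (3, 6, 7), (5, 8, 9)], .ihx (-1) 8 0 7 9 4 [] [(1, 5, 7), (3, 6, 9)], .swp 1 7 9 [] [(0, 7, 8), (1, 5, 9), (3, 6, 7), (4, 8, 9)], .swp (-2) 7 8 [7] [(0, 4, 8), (1, 5, 7), (3, 6, 8)], .swp 2 7 8 [7] [(0, 4, 8), (1, 5, 8), (3, 6, 7)]]⟩,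
  ⟨4, 4, 6, [0, 4, 5, 6],
    [(2, [.a 1, .b 2 3], [3, 0, 4, 1, 2]), ((-2), [.a 3, .b 1 2], [3, 2, 4, 0, 1]), (2, [.b 1 2, .a 3], [3, 0, 1, 4, 2]), (1, [.b 1 2, .b 1 3], [3, 4, 1, 5, 0, 2]), (1, [.b 1 2, .b 2 3], [3, 0, 4, 5, 1, 2]), ((-1), [.b 1 2, .o 3], [3, 0, 1, 4, 5, 2]), ((-1), [.b 1 3, .b 1 2], [3, 4, 2, 5, 0, 1]), ((-2), [.b 2 3, .a 1], [3, 1, 2, 4, 0]), ((-1), [.b 2 3, .b 1 2], [3, 4, 2, 5, 0, 1]), (1, [.b 2 3, .o 1], [3, 1, 2, 4, 5, 0]), ((-1), [.o 1, .b 2 3], [3, 4, 0, 5, 1, 2]), (1, [.o 3, .b 1 2], [3, 4, 2, 5, 0, 1])],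
    [.swp 1 7 9 [] [(1, 4, 7), (2, 5, 7), (3, 8, 9), (6, 8, 9)], .ihx (-1) 8 2 7 9 5 [] [(1, 4, 7), (3, 6, 9)], .swp (-1) 7 8 [] [(1, 4, 8), (2, 5, 7), (3, 6, 9), (7, 8, 9)], .swp 1 7 9 [] [(1, 4, 9), (2, 7, 8), (3, 6, 7), (5, 8, 9)], .ihx (-1) 8 1 7 9 4 [] [(2, 5, 7), (3, 6, 9)], .swp 1 7 9 [] [(1, 7, 8), (2, 5, 9), (3, 6, 7), (4, 8, 9)], .swp (-1) 7 9 [] [(1, 8, 9), (2, 5, 7), (3, 6, 7), (4, 8, 9)], .swp (-2) 7 8 [7] [(1, 4, 7), (2, 5, 8), (3, 6, 8)], .swp 2 7 8 [7] [(1, 4, 8), (2, 5, 8), (3, 6, 7)]]⟩,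
  ⟨4, 4, 6, [4, 5, 6, 7],
    [(1, [.b 0 1, .b 2 3], [4, 0, 1, 5, 2, 3]), ((-1), [.b 0 3, .b 1 2], [4, 0, 3, 5, 1, 2]), (1, [.b 1 2, .b 0 3], [4, 1, 2, 5, 0, 3]), ((-1), [.b 2 3, .b 0 1], [4, 2, 3, 5, 0, 1])],
    [.swp (-1) 8 9 [] [(0, 4, 8), (1, 5, 8), (2, 6, 9), (3, 7, 9)], .swp 1 8 9 [] [(0, 4, 8), (1, 5, 9), (2, 6, 9), (3, 7, 8)]]⟩,
  ⟨4, 4, 6, [4, 1, 5, 6],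
    [(1, [.b 0 2, .b 2 3], [3, 0, 4, 5, 1, 2]), (1, [.b 0 3, .b 2 3], [3, 0, 4, 5, 1, 2]), ((-1), [.b 2 3, .b 0 2], [3, 4, 2, 5, 0, 1]), ((-1), [.b 2 3, .b 0 3], [3, 1, 4, 5, 0, 2])],
    [.ihx (-1) 8 3 7 9 6 [] [(0, 4, 7), (2, 5, 9)], .swp (-1) 8 9 [] [(0, 4, 7), (2, 5, 8), (3, 6, 9), (7, 8, 9)], .ihx (-1) 8 2 7 9 5 [] [(0, 4, 7), (3, 6, 9)], .swp 1 7 9 [] [(0, 4, 9), (2, 5, 7), (3, 7, 8), (6, 8, 9)], .swp 1 7 9 [] [(0, 4, 9), (2, 7, 8), (3, 6, 7), (5, 8, 9)]]⟩,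
  ⟨4, 4, 6, [0, 4, 5, 6],
    [(1, [.b 1 2, .b 2 3], [3, 0, 4, 5, 1, 2]), (1, [.b 1 3, .b 2 3], [3, 0, 4, 5, 1, 2]), ((-1), [.b 2 3, .b 1 2], [3, 4, 2, 5, 0, 1]), ((-1), [.b 2 3, .b 1 3], [3, 1, 4, 5, 0, 2])],
    [.ihx (-1) 8 3 7 9 6 [] [(1, 4, 7), (2, 5, 9)], .swp (-1) 8 9 [] [(1, 4, 7), (2, 5, 8), (3, 6, 9), (7, 8, 9)], .ihx (-1) 8 2 7 9 5 [] [(1, 4, 7), (3, 6, 9)], .swp 1 7 9 [] [(1, 4, 9), (2, 5, 7), (3, 7, 8), (6, 8, 9)], .swp 1 7 9 [] [(1, 4, 9), (2, 7, 8), (3, 6, 7), (5, 8, 9)]]⟩,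
  ⟨4, 4, 6, [0, 1, 4, 5],
    [(4, [.a 2, .a 3], [2, 0, 3, 1]), (2, [.a 2, .b 2 3], [2, 3, 4, 0, 1]), ((-2), [.a 2, .o 3], [2, 0, 3, 4, 1]), ((-4), [.a 3, .a 2], [2, 1, 3, 0]), ((-2), [.a 3, .b 2 3], [2, 3, 4, 0, 1]), (2, [.a 3, .o 2], [2, 1, 3, 4, 0]), ((-2), [.b 2 3, .a 2], [2, 3, 1, 4, 0]), (2, [.b 2 3, .a 3], [2, 0, 3, 4, 1]), (1, [.b 2 3, .o 2], [2, 3, 1, 4, 5, 0]), ((-1), [.b 2 3, .o 3], [2, 0, 3, 4, 5, 1]), ((-2), [.o 2, .a 3], [2, 3, 0, 4, 1]), ((-1), [.o 2, .b 2 3], [2, 3, 4, 5, 0, 1]), (1, [.o 2, .o 3], [2, 3, 0, 4, 5, 1]), (2, [.o 3, .a 2], [2, 3, 1, 4, 0]), (1, [.o 3, .b 2 3], [2, 3, 4, 5, 0, 1]), ((-1), [.o 3, .o 2], [2, 3, 1, 4, 5, 0])],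
    [.ihx (-1) 7 3 6 8 9 [] [(2, 4, 6), (5, 8, 9)], .swp (-1) 8 9 [] [(2, 4, 6), (3, 7, 9), (5, 8, 9), (6, 7, 8)], .ihx 1 8 9 5 6 7 [] [(2, 4, 6), (3, 7, 9)], .swp 1 6 9 [] [(2, 4, 9), (3, 6, 7), (5, 8, 9), (6, 7, 8)], .swp 1 7 9 [] [(2, 4, 6), (3, 7, 9), (5, 8, 9), (6, 7, 8)], .ihx 1 7 2 6 8 9 [] [(3, 5, 6), (4, 8, 9)], .swp (-1) 6 9 [] [(2, 6, 7), (3, 5, 9), (4, 8, 9), (6, 7, 8)], .swp (-1) 7 9 [] [(2, 6, 7), (3, 8, 9), (4, 6, 7), (5, 8, 9)], .swp 1 6 8 [] [(2, 8, 9), (3, 6, 7), (4, 8, 9), (5, 6, 7)], .swp 1 8 9 [] [(2, 7, 9), (3, 5, 6), (4, 8, 9), (6, 7, 8)], .ihx (-1) 8 9 4 6 7 [] [(2, 7, 9), (3, 5, 6)], .swp (-1) 7 9 [] [(2, 7, 9), (3, 5, 6), (4, 8, 9), (6, 7, 8)], .swp 2 6 8 [6] [(2, 4, 6), (3,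 7, 8), (5, 7, 8)], .swp 2 6 8 [6] [(2, 4, 8), (3, 6, 7), (5, 7, 8)], .swp (-2) 6 8 [6] [(2, 6, 7), (3, 5, 8), (4, 7, 8)], .swp (-2) 6 8 [6] [(2, 7, 8), (3, 5, 6), (4, 7, 8)], .stu (-2) 8 7 6 [] [] [(2, 4, 7), (3, 5, 6)], .swp (-2) 6 7 [6, 7] [(2, 4, 6), (3, 5, 7)], .swp 2 6 7 [6, 7] [(2, 4, 7), (3, 5, 6)], .stu 2 8 7 6 [] [] [(2, 4, 6), (3, 5, 7)], .ihx (-2) 7 3 6 8 5 [8] [(2, 4, 6)], .ihx 2 7 2 6 8 4 [8] [(3, 5, 6)]]⟩,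
  ⟨4, 4, 6, [4, 1, 5, 6],
    [(2, [.a 2, .b 0 3], [3, 1, 4, 0, 2]), ((-2), [.a 3, .b 0 2], [3, 2, 4, 0, 1]), (2, [.b 0 2, .a 3], [3, 0, 1, 4, 2]), (1, [.b 0 2, .b 0 3], [3, 4, 1, 5, 0, 2]), (1, [.b 0 2, .b 2 3], [3, 0, 4, 5, 1, 2]), ((-1), [.b 0 2, .o 3], [3, 0, 1, 4, 5, 2]), ((-2), [.b 0 3, .a 2], [3, 0, 2, 4, 1]), ((-1), [.b 0 3, .b 0 2], [3, 4, 2, 5, 0, 1]), (1, [.b 0 3, .o 2], [3, 0, 2, 4, 5, 1]), ((-1), [.b 2 3, .b 0 2], [3, 4, 2, 5, 0, 1]), ((-1), [.o 2, .b 0 3], [3, 4, 1, 5, 0, 2]), (1, [.o 3, .b 0 2], [3, 4, 2, 5, 0, 1])],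
    [.swp 1 7 9 [] [(0, 4, 7), (2, 5, 7), (3, 8, 9), (6, 8, 9)], .swp (-1) 7 8 [] [(0, 4, 8), (2, 5, 7), (3, 6, 9), (7, 8, 9)], .ihx (-1) 8 2 7 9 5 [] [(0, 4, 7), (3, 6, 9)], .swp (-1) 7 9 [] [(0, 4, 7), (2, 8, 9), (3, 6, 7), (5, 8, 9)], .swp 1 7 9 [] [(0, 4, 9), (2, 7, 8), (3, 6, 7), (5, 8, 9)], .ihx (-1) 8 0 7 9 4 [] [(2, 5, 7), (3, 6, 9)], .swp 1 7 9 [] [(0, 7, 8), (2, 5, 9), (3, 6, 7), (4, 8, 9)], .swp (-2) 7 8 [7] [(0, 4, 8), (2, 5, 7), (3, 6, 8)], .swp 2 7 8 [7] [(0, 4, 8), (2, 5, 8), (3, 6, 7)]]⟩,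
  ⟨4, 4, 6, [0, 4, 5, 6],
    [(2, [.a 2, .b 1 3], [3, 1, 4, 0, 2]), ((-2), [.a 3, .b 1 2], [3, 2, 4, 0, 1]), (2, [.b 1 2, .a 3], [3, 0, 1, 4, 2]), (1, [.b 1 2, .b 1 3], [3, 4, 1, 5, 0, 2]), (1, [.b 1 2, .b 2 3], [3, 0, 4, 5, 1, 2]), ((-1), [.b 1 2, .o 3], [3, 0, 1, 4, 5, 2]), ((-2), [.b 1 3, .a 2], [3, 0, 2, 4, 1]), ((-1), [.b 1 3, .b 1 2], [3, 4, 2, 5, 0, 1]), (1, [.b 1 3, .o 2], [3, 0, 2, 4, 5, 1]), ((-1), [.b 2 3, .b 1 2], [3, 4, 2, 5, 0, 1]), ((-1), [.o 2, .b 1 3], [3, 4, 1, 5, 0, 2]), (1, [.o 3, .b 1 2], [3, 4, 2, 5, 0, 1])],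
    [.swp 1 7 9 [] [(1, 4, 7), (2, 5, 7), (3, 8, 9), (6, 8, 9)], .ihx (-1) 8 2 7 9 5 [] [(1, 4, 7), (3, 6, 9)], .swp (-1) 7 8 [] [(1, 4, 8), (2, 5, 7), (3, 6, 9), (7, 8, 9)], .swp (-1) 7 9 [] [(1, 4, 7), (2, 8, 9), (3, 6, 7), (5, 8, 9)], .swp 1 7 9 [] [(1, 4, 9), (2, 7, 8), (3, 6, 7), (5, 8, 9)], .ihx (-1) 8 1 7 9 4 [] [(2, 5, 7), (3, 6, 9)], .swp 1 7 9 [] [(1, 7, 8), (2, 5, 9), (3, 6, 7), (4, 8, 9)], .swp (-2) 7 8 [7] [(1, 4, 8), (2, 5, 7), (3, 6, 8)], .swp 2 7 8 [7] [(1, 4, 8), (2, 5, 8), (3, 6, 7)]]⟩,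
  ⟨4, 4, 6, [4, 5, 6, 7],
    [(1, [.b 0 2, .b 1 3], [4, 0, 2, 5, 1, 3]), ((-1), [.b 0 3, .b 1 2], [4, 0, 3, 5, 1, 2]), (1, [.b 1 2, .b 0 3], [4, 1, 2, 5, 0, 3]), ((-1), [.b 1 3, .b 0 2], [4, 1, 3, 5, 0, 2])],
    [.swp (-1) 8 9 [] [(0, 4, 8), (1, 5, 9), (2, 6, 8), (3, 7, 9)], .swp 1 8 9 [] [(0, 4, 8), (1, 5, 9), (2, 6, 9), (3, 7, 8)]]⟩,
  ⟨4, 4, 6, [4, 5, 2, 3],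
    [(2, [.a 1, .o 0], [2, 1, 3, 4, 0]), (1, [.b 0 1, .o 0], [2, 3, 1, 4, 5, 0]), ((-2), [.o 0, .a 1], [2, 3, 0, 4, 1]), ((-1), [.o 0, .b 0 1], [2, 3, 4, 5, 0, 1]), (1, [.o 0, .o 1], [2, 3, 0, 4, 5, 1]), ((-1), [.o 1, .o 0], [2, 3, 1, 4, 5, 0])],
    [.ihx 1 7 0 6 8 9 [] [(1, 5, 6), (4, 8, 9)], .swp (-1) 6 9 [] [(0, 6, 7), (1, 5, 9), (4, 8, 9), (6, 7, 8)], .swp (-1) 7 9 [] [(0, 6, 7), (1, 8, 9), (4, 6, 7), (5, 8, 9)], .swp 1 6 8 [] [(0, 8, 9), (1, 6, 7), (4, 8, 9), (5, 6, 7)], .swp 1 8 9 [] [(0, 7, 9), (1, 5, 6), (4, 8, 9), (6, 7, 8)], .ihx (-1) 8 9 4 6 7 [] [(0, 7, 9), (1, 5, 6)], .swp (-1) 7 9 [] [(0, 7, 9), (1, 5, 6), (4, 8, 9), (6, 7, 8)], .swp (-2) 6 8 [6] [(0, 7, 8), (1, 5, 6), (4, 7, 8)]]⟩,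
  ⟨4, 4, 6, [4, 1, 5, 3],
    [(2, [.a 2, .o 0], [2, 1, 3, 4, 0]), (1, [.b 0 2, .o 0], [2, 3, 1, 4, 5, 0]), ((-2), [.o 0, .a 2], [2, 3, 0, 4, 1]), ((-1), [.o 0, .b 0 2], [2, 3, 4, 5, 0, 1]), (1, [.o 0, .o 2], [2, 3, 0, 4, 5, 1]), ((-1), [.o 2, .o 0], [2, 3, 1, 4, 5, 0])],
    [.ihx 1 7 0 6 8 9 [] [(2, 5, 6), (4, 8, 9)], .swp (-1) 6 9 [] [(0, 6, 7), (2, 5, 9), (4, 8, 9), (6, 7, 8)], .swp (-1) 7 9 [] [(0, 6, 7), (2, 8, 9), (4, 6, 7), (5, 8, 9)], .swp 1 6 8 [] [(0, 8, 9), (2, 6, 7), (4, 8, 9), (5, 6, 7)], .swp 1 8 9 [] [(0, 7, 9), (2, 5, 6), (4, 8, 9), (6, 7, 8)], .ihx (-1) 8 9 4 6 7 [] [(0, 7, 9), (2, 5, 6)], .swp (-1) 7 9 [] [(0, 7, 9), (2, 5, 6), (4, 8, 9), (6, 7, 8)], .swp (-2) 6 8 [6] [(0, 7, 8),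 (2, 5, 6), (4, 7, 8)]]⟩,
  ⟨4, 4, 6, [4, 1, 2, 5],
    [(2, [.a 3, .o 0], [2, 1, 3, 4, 0]), (1, [.b 0 3, .o 0], [2, 3, 1, 4, 5, 0]), ((-2), [.o 0, .a 3], [2, 3, 0, 4, 1]), ((-1), [.o 0, .b 0 3], [2, 3, 4, 5, 0, 1]), (1, [.o 0, .o 3], [2, 3, 0, 4, 5, 1]), ((-1), [.o 3, .o 0], [2, 3, 1, 4, 5, 0])],
    [.ihx 1 7 0 6 8 9 [] [(3, 5, 6), (4, 8, 9)], .swp (-1) 6 9 [] [(0, 6, 7), (3, 5, 9), (4, 8, 9), (6, 7, 8)], .swp (-1) 7 9 [] [(0, 6, 7), (3, 8, 9), (4, 6, 7), (5, 8, 9)], .swp 1 6 8 [] [(0, 8, 9), (3, 6, 7), (4, 8, 9), (5, 6, 7)], .swp 1 8 9 [] [(0, 7, 9), (3, 5, 6), (4, 8, 9), (6, 7, 8)], .ihx (-1) 8 9 4 6 7 [] [(0, 7, 9), (3, 5, 6)], .swp (-1) 7 9 [] [(0, 7, 9), (3, 5, 6), (4, 8, 9), (6, 7, 8)], .swp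 (-2) 6 8 [6] [(0, 7, 8), (3, 5, 6), (4, 7, 8)]]⟩,
  ⟨2, 4, 4, [0, 2, 3, 4],
    [(1, [.Y 1 2, .Y 2 3], [0, 3, 1, 2]), ((-1), [.Y 1 2, .Y 2 3, .P 1 2], [1, 3, 0, 2]), (1, [.Y 1 2, .Y 2 3, .P 1 2, .P 2 3], [2, 3, 0, 1])],
    [.ihx (-1) 5 1 2 3 4 [] []]⟩,
  ⟨4, 2, 2, [0, 4],
    [(1, [.M 2 3, .M 1 2], [1, 0]), ((-1), [.P 1 2, .M 2 3, .M 1 2], [1, 0]), (1, [.P 2 3, .P 1 2, .M 2 3, .M 1 2], [1, 0])],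
    [.ihx 1 5 1 4 2 3 [] []]⟩]

theorem cb22_ok : cb22.all Bs.ok = true := by decide +kernel

/-- Checked relations. -/
def cb23 : List Bs := [
  ⟨2, 4, 4, [2, 0, 3, 4],
    [(1, [.Y 1 2, .P 0 1, .Y 2 3], [0, 3, 1, 2]), ((-1), [.Y 1 2, .Y 2 3, .P 1 2, .P 0 1], [1, 3, 0, 2]), (1, [.Y 1 2, .Y 2 3, .P 1 2, .P 0 1, .P 2 3], [2, 3, 0, 1])],
    [.ihx (-1) 5 1 2 3 4 [] []]⟩,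
  ⟨4, 2, 2, [1, 4],
    [(1, [.M 2 3, .P 0 1, .M 1 2], [1, 0]), ((-1), [.P 0 1, .P 1 2, .M 2 3, .M 1 2], [1, 0]), (1, [.P 2 3, .P 0 1, .P 1 2, .M 2 3, .M 1 2], [1, 0])],
    [.ihx 1 5 0 4 2 3 [] []]⟩,
  ⟨2, 4, 4, [2, 3, 0, 4],
    [(1, [.Y 1 2, .P 0 1, .Y 2 3, .P 1 2], [0, 3, 1, 2]), ((-1), [.Y 1 2, .P 0 1, .Y 2 3, .P 1 2, .P 0 1], [1, 3, 0, 2]), (1, [.Y 1 2, .Y 2 3, .P 1 2, .P 0 1, .P 2 3, .P 1 2], [2, 3, 0, 1])],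
    [.ihx (-1) 5 1 2 3 4 [] []]⟩,
  ⟨4, 2, 2, [2, 4],
    [(1, [.P 1 2, .M 2 3, .P 0 1, .M 1 2], [1, 0]), ((-1), [.P 0 1, .P 1 2, .M 2 3, .P 0 1, .M 1 2], [1, 0]), (1, [.P 1 2, .P 2 3, .P 0 1, .P 1 2, .M 2 3, .M 1 2], [1, 0])],
    [.ihx 1 5 0 4 1 3 [] []]⟩,
  ⟨2, 4, 4, [2, 3, 4, 0],
    [(1, [.Y 1 2, .P 0 1, .Y 2 3, .P 1 2, .P 2 3], [0, 3, 1, 2]), ((-1), [.Y 1 2, .P 0 1, .Y 2 3, .P 1 2, .P 0 1, .P 2 3], [1, 3, 0, 2]), (1, [.Y 1 2, .P 0 1, .Y 2 3, .P 1 2, .P 0 1, .P 2 3, .P 1 2], [2, 3, 0, 1])],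
    [.ihx (-1) 5 1 2 3 4 [] []]⟩,
  ⟨4, 2, 2, [3, 4],
    [(1, [.P 2 3, .P 1 2, .M 2 3, .P 0 1, .M 1 2], [1, 0]), ((-1), [.P 2 3, .P 0 1, .P 1 2, .M 2 3, .P 0 1, .M 1 2], [1, 0]), (1, [.P 1 2, .P 2 3, .P 0 1, .P 1 2, .M 2 3, .P 0 1, .M 1 2], [1, 0])],
    [.ihx 1 5 0 4 1 2 [] []]⟩,
  ⟨2, 4, 4, [2, 3, 4, 5],
    [((-1), [.P 0 1, .Y 1 2, .P 0 1, .P 1 2, .Y 2 3], [0, 1, 2, 3]), (1, [.Y 1 2, .P 0 1, .P 1 2, .Y 2 3, .P 1 2, .P 0 1, .P 2 3, .P 1 2], [2, 3, 0, 1])],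
    []⟩,
  ⟨4, 2, 2, [4, 5],
    [((-1), [.M 2 3, .P 1 2, .P 0 1, .M 1 2, .P 0 1], [1, 0]), (1, [.P 1 2, .P 2 3, .P 0 1, .P 1 2, .M 2 3, .P 1 2, .P 0 1, .M 1 2], [0, 1])],
    []⟩,
  ⟨2, 4, 4, [2, 3, 4, 5],
    [(1, [.P 0 1, .Y 1 2, .P 0 1, .P 1 2, .Y 2 3], [0, 1, 2, 3]), (1, [.Y 1 2, .P 0 1, .P 1 2, .P 0 1, .Y 2 3, .P 1 2, .P 0 1, .P 2 3, .P 1 2], [3, 2, 0, 1])],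
    []⟩,
  ⟨4, 2, 2, [4, 5],
    [(1, [.M 2 3, .P 1 2, .P 0 1, .M 1 2, .P 0 1], [1, 0]), (1, [.P 1 2, .P 2 3, .P 0 1, .P 1 2, .M 2 3, .P 0 1, .P 1 2, .P 0 1, .M 1 2], [0, 1])],
    []⟩,
  ⟨2, 4, 4, [2, 3, 4, 5],
    [(1, [.P 0 1, .Y 1 2, .P 0 1, .P 1 2, .Y 2 3, .P 1 2], [0, 2, 1, 3]), (1, [.Y 1 2, .P 0 1, .P 1 2, .P 0 1, .Y 2 3, .P 1 2, .P 0 1, .P 2 3], [3, 1, 0, 2])],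
    []⟩,
  ⟨4, 2, 2, [4, 5],
    [(1, [.P 1 2, .M 2 3, .P 1 2, .P 0 1, .M 1 2, .P 0 1], [1, 0]), (1, [.P 2 3, .P 0 1, .P 1 2, .M 2 3, .P 0 1, .P 1 2, .P 0 1, .M 1 2], [0, 1])],
    []⟩,
  ⟨2, 4, 4, [2, 3, 4, 5],
    [(1, [.Y 1 2, .P 0 1, .P 1 2, .P 0 1, .Y 2 3, .P 1 2, .P 2 3], [3, 0, 1, 2]), (1, [.P 0 1, .Y 1 2, .P 0 1, .P 1 2, .Y 2 3, .P 1 2, .P 0 1], [1, 2, 0, 3])],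
    []⟩,
  ⟨4, 2, 2, [4, 5],
    [(1, [.P 0 1, .P 1 2, .M 2 3, .P 1 2, .P 0 1, .M 1 2, .P 0 1], [1, 0]), (1, [.P 2 3, .P 1 2, .M 2 3, .P 0 1, .P 1 2, .P 0 1, .M 1 2], [0, 1])],
    []⟩,
  ⟨2, 4, 4, [2, 3, 4, 5],
    [((-1), [.P 0 1, .Y 1 2, .P 0 1, .P 1 2, .Y 2 3, .P 1 2], [0, 2, 1, 3]), (1, [.Y 1 2, .P 0 1, .P 1 2, .Y 2 3, .P 1 2, .P 0 1, .P 2 3], [1, 3, 0, 2])],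
    []⟩,
  ⟨4, 2, 2, [4, 5],
    [((-1), [.P 1 2, .M 2 3, .P 1 2, .P 0 1, .M 1 2, .P 0 1], [1, 0]), (1, [.P 2 3, .P 0 1, .P 1 2, .M 2 3, .P 1 2, .P 0 1, .M 1 2], [0, 1])],
    []⟩,
  ⟨2, 4, 4, [2, 3, 4, 5],
    [(1, [.Y 1 2, .P 0 1, .P 1 2, .Y 2 3, .P 1 2, .P 0 1], [1, 2, 0, 3]), ((-1), [.P 0 1, .Y 1 2, .P 0 1, .P 1 2, .Y 2 3, .P 1 2, .P 2 3], [0, 3, 1, 2])],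
    []⟩,
  ⟨4, 2, 2, [4, 5],
    [(1, [.P 0 1, .P 1 2, .M 2 3, .P 1 2, .P 0 1, .M 1 2], [0, 1]), ((-1), [.P 2 3, .P 1 2, .M 2 3, .P 1 2, .P 0 1, .M 1 2, .P 0 1], [1, 0])],
    []⟩,
  ⟨2, 4, 4, [2, 3, 4, 5],
    [(1, [.Y 1 2, .P 0 1, .P 1 2, .P 0 1, .Y 2 3, .P 1 2, .P 0 1], [2, 1, 0, 3]), (1, [.P 0 1, .Y 1 2, .P 0 1, .P 1 2, .Y 2 3, .P 1 2, .P 2 3], [0, 3, 1, 2])],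
    []⟩,
  ⟨4, 2, 2, [4, 5],
    [(1, [.P 0 1, .P 1 2, .M 2 3, .P 0 1, .P 1 2, .P 0 1, .M 1 2], [0, 1]), (1, [.P 2 3, .P 1 2, .M 2 3, .P 1 2, .P 0 1, .M 1 2, .P 0 1], [1, 0])],
    []⟩,
  ⟨2, 4, 4, [2, 3, 4, 5],
    [(1, [.Y 1 2, .P 0 1, .P 1 2, .P 0 1, .Y 2 3, .P 1 2], [2, 0, 1, 3]), (1, [.P 0 1, .Y 1 2, .P 0 1, .P 1 2, .Y 2 3, .P 1 2, .P 0 1, .P 2 3], [1, 3, 0, 2])],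
    []⟩,
  ⟨4, 2, 2, [4, 5],
    [(1, [.P 1 2, .M 2 3, .P 0 1, .P 1 2, .P 0 1, .M 1 2], [0, 1]), (1, [.P 2 3, .P 0 1, .P 1 2, .M 2 3, .P 1 2, .P 0 1, .M 1 2, .P 0 1], [1, 0])],
    []⟩,
  ⟨2, 4, 4, [2, 3, 4, 5],
    [(1, [.Y 1 2, .P 0 1, .P 1 2, .Y 2 3, .P 1 2, .P 2 3], [0, 3, 1, 2]), ((-1), [.P 0 1, .Y 1 2, .P 0 1, .P 1 2, .Y 2 3, .P 1 2, .P 0 1], [1, 2, 0, 3])],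
    []⟩,
  ⟨4, 2, 2, [4, 5],
    [(1, [.P 2 3, .P 1 2, .M 2 3, .P 1 2, .P 0 1, .M 1 2], [0, 1]), ((-1), [.P 0 1, .P 1 2, .M 2 3, .P 1 2, .P 0 1, .M 1 2, .P 0 1], [1, 0])],
    []⟩,
  ⟨2, 4, 4, [2, 3, 4, 5],
    [(1, [.Y 1 2, .P 0 1, .P 1 2, .Y 2 3, .P 1 2], [0, 2, 1, 3]), ((-1), [.P 0 1, .Y 1 2, .P 0 1, .P 1 2, .Y 2 3, .P 1 2, .P 0 1, .P 2 3], [1, 3, 0, 2])],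
    []⟩,
  ⟨4, 2, 2, [4, 5],
    [(1, [.P 1 2, .M 2 3, .P 1 2, .P 0 1, .M 1 2], [0, 1]), ((-1), [.P 2 3, .P 0 1, .P 1 2, .M 2 3, .P 1 2, .P 0 1, .M 1 2, .P 0 1], [1, 0])],
    []⟩,
  ⟨2, 4, 4, [2, 3, 4, 5],
    [(1, [.Y 1 2, .P 0 1, .P 1 2, .Y 2 3], [0, 1, 2, 3]), ((-1), [.P 0 1, .Y 1 2, .P 0 1, .P 1 2, .Y 2 3, .P 1 2, .P 0 1, .P 2 3, .P 1 2], [2, 3, 0, 1])],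
    []⟩,
  ⟨4, 2, 2, [4, 5],
    [(1, [.M 2 3, .P 1 2, .P 0 1, .M 1 2], [0, 1]), ((-1), [.P 1 2, .P 2 3, .P 0 1, .P 1 2, .M 2 3, .P 1 2, .P 0 1, .M 1 2, .P 0 1], [1, 0])],
    []⟩,
  ⟨2, 4, 4, [2, 3, 4, 5],
    [(1, [.Y 1 2, .P 0 1, .P 1 2, .P 0 1, .Y 2 3], [1, 0, 2, 3]), (1, [.P 0 1, .Y 1 2, .P 0 1, .P 1 2, .Y 2 3, .P 1 2, .P 0 1, .P 2 3, .P 1 2], [2, 3, 0, 1])],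
    []⟩,
  ⟨4, 2, 2, [4, 5],
    [(1, [.M 2 3, .P 0 1, .P 1 2, .P 0 1, .M 1 2], [0, 1]), (1, [.P 1 2, .P 2 3, .P 0 1, .P 1 2, .M 2 3, .P 1 2, .P 0 1, .M 1 2, .P 0 1], [1, 0])],
    []⟩,
  ⟨2, 4, 4, [2, 3, 4, 5],
    [(1, [.P 0 1, .Y 1 2, .P 0 1, .P 1 2, .P 0 1, .Y 2 3], [1, 0, 2, 3]), (1, [.Y 1 2, .P 0 1, .P 1 2, .Y 2 3, .P 1 2, .P 0 1, .P 2 3, .P 1 2], [2, 3, 0, 1])],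
    []⟩,
  ⟨4, 2, 2, [4, 5],
    [(1, [.M 2 3, .P 0 1, .P 1 2, .P 0 1, .M 1 2, .P 0 1], [1, 0]), (1, [.P 1 2, .P 2 3, .P 0 1, .P 1 2, .M 2 3, .P 1 2, .P 0 1, .M 1 2], [0, 1])],
    []⟩]

theorem cb23_ok : cb23.all Bs.ok = true := by decide +kernel

/-- Checked relations. -/
def cb24 : List Bs := [
  ⟨2, 4, 4, [2, 3, 4, 5],
    [((-1), [.P 0 1, .Y 1 2, .P 0 1, .P 1 2, .P 0 1, .Y 2 3], [1, 0, 2, 3]), (1, [.Y 1 2, .P 0 1, .P 1 2, .P 0 1, .Y 2 3, .P 1 2, .P 0 1, .P 2 3, .P 1 2], [3, 2, 0, 1])],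
    []⟩,
  ⟨4, 2, 2, [4, 5],
    [((-1), [.M 2 3, .P 0 1, .P 1 2, .P 0 1, .M 1 2, .P 0 1], [1, 0]), (1, [.P 1 2, .P 2 3, .P 0 1, .P 1 2, .M 2 3, .P 0 1, .P 1 2, .P 0 1, .M 1 2], [0, 1])],
    []⟩,
  ⟨2, 4, 4, [2, 3, 4, 5],
    [((-1), [.P 0 1, .Y 1 2, .P 0 1, .P 1 2, .P 0 1, .Y 2 3, .P 1 2], [2, 0, 1, 3]), (1, [.Y 1 2, .P 0 1, .P 1 2, .P 0 1, .Y 2 3, .P 1 2, .P 0 1, .P 2 3], [3, 1, 0, 2])],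
    []⟩,
  ⟨4, 2, 2, [4, 5],
    [((-1), [.P 1 2, .M 2 3, .P 0 1, .P 1 2, .P 0 1, .M 1 2, .P 0 1], [1, 0]), (1, [.P 2 3, .P 0 1, .P 1 2, .M 2 3, .P 0 1, .P 1 2, .P 0 1, .M 1 2], [0, 1])],
    []⟩,
  ⟨2, 4, 4, [2, 3, 4, 5],
    [(1, [.Y 1 2, .P 0 1, .P 1 2, .P 0 1, .Y 2 3, .P 1 2, .P 2 3], [3, 0, 1, 2]), ((-1), [.P 0 1, .Y 1 2, .P 0 1, .P 1 2, .P 0 1, .Y 2 3, .P 1 2, .P 0 1], [2, 1, 0, 3])],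
    []⟩,
  ⟨4, 2, 2, [4, 5],
    [(1, [.P 2 3, .P 1 2, .M 2 3, .P 0 1, .P 1 2, .P 0 1, .M 1 2], [0, 1]), ((-1), [.P 0 1, .P 1 2, .M 2 3, .P 0 1, .P 1 2, .P 0 1, .M 1 2, .P 0 1], [1, 0])],
    []⟩,
  ⟨2, 4, 4, [2, 3, 4, 5],
    [(1, [.Y 1 2, .P 0 1, .P 1 2, .Y 2 3, .P 1 2, .P 0 1, .P 2 3], [1, 3, 0, 2]), (1, [.P 0 1, .Y 1 2, .P 0 1, .P 1 2, .P 0 1, .Y 2 3, .P 1 2], [2, 0, 1, 3])],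
    []⟩,
  ⟨4, 2, 2, [4, 5],
    [(1, [.P 1 2, .M 2 3, .P 0 1, .P 1 2, .P 0 1, .M 1 2, .P 0 1], [1, 0]), (1, [.P 2 3, .P 0 1, .P 1 2, .M 2 3, .P 1 2, .P 0 1, .M 1 2], [0, 1])],
    []⟩,
  ⟨2, 4, 4, [2, 3, 4, 5],
    [(1, [.Y 1 2, .P 0 1, .P 1 2, .Y 2 3, .P 1 2, .P 0 1], [1, 2, 0, 3]), (1, [.P 0 1, .Y 1 2, .P 0 1, .P 1 2, .P 0 1, .Y 2 3, .P 1 2, .P 2 3], [3, 0, 1, 2])],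
    []⟩,
  ⟨4, 2, 2, [4, 5],
    [(1, [.P 0 1, .P 1 2, .M 2 3, .P 1 2, .P 0 1, .M 1 2], [0, 1]), (1, [.P 2 3, .P 1 2, .M 2 3, .P 0 1, .P 1 2, .P 0 1, .M 1 2, .P 0 1], [1, 0])],
    []⟩,
  ⟨2, 4, 4, [2, 3, 4, 5],
    [(1, [.Y 1 2, .P 0 1, .P 1 2, .P 0 1, .Y 2 3, .P 1 2, .P 0 1], [2, 1, 0, 3]), ((-1), [.P 0 1, .Y 1 2, .P 0 1, .P 1 2, .P 0 1, .Y 2 3, .P 1 2, .P 2 3], [3, 0, 1, 2])],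
    []⟩,
  ⟨4, 2, 2, [4, 5],
    [(1, [.P 0 1, .P 1 2, .M 2 3, .P 0 1, .P 1 2, .P 0 1, .M 1 2], [0, 1]), ((-1), [.P 2 3, .P 1 2, .M 2 3, .P 0 1, .P 1 2, .P 0 1, .M 1 2, .P 0 1], [1, 0])],
    []⟩,
  ⟨2, 4, 4, [2, 3, 4, 5],
    [(1, [.Y 1 2, .P 0 1, .P 1 2, .P 0 1, .Y 2 3, .P 1 2], [2, 0, 1, 3]), ((-1), [.P 0 1, .Y 1 2, .P 0 1, .P 1 2, .P 0 1, .Y 2 3, .P 1 2, .P 0 1, .P 2 3], [3, 1, 0, 2])],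
    []⟩,
  ⟨4, 2, 2, [4, 5],
    [(1, [.P 1 2, .M 2 3, .P 0 1, .P 1 2, .P 0 1, .M 1 2], [0, 1]), ((-1), [.P 2 3, .P 0 1, .P 1 2, .M 2 3, .P 0 1, .P 1 2, .P 0 1, .M 1 2, .P 0 1], [1, 0])],
    []⟩,
  ⟨2, 4, 4, [2, 3, 4, 5],
    [(1, [.Y 1 2, .P 0 1, .P 1 2, .Y 2 3, .P 1 2, .P 2 3], [0, 3, 1, 2]), (1, [.P 0 1, .Y 1 2, .P 0 1, .P 1 2, .P 0 1, .Y 2 3, .P 1 2, .P 0 1], [2, 1, 0, 3])],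
    []⟩,
  ⟨4, 2, 2, [4, 5],
    [(1, [.P 2 3, .P 1 2, .M 2 3, .P 1 2, .P 0 1, .M 1 2], [0, 1]), (1, [.P 0 1, .P 1 2, .M 2 3, .P 0 1, .P 1 2, .P 0 1, .M 1 2, .P 0 1], [1, 0])],
    []⟩,
  ⟨2, 4, 4, [2, 3, 4, 5],
    [(1, [.Y 1 2, .P 0 1, .P 1 2, .Y 2 3, .P 1 2], [0, 2, 1, 3]), (1, [.P 0 1, .Y 1 2, .P 0 1, .P 1 2, .P 0 1, .Y 2 3, .P 1 2, .P 0 1, .P 2 3], [3, 1, 0, 2])],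
    []⟩,
  ⟨4, 2, 2, [4, 5],
    [(1, [.P 1 2, .M 2 3, .P 1 2, .P 0 1, .M 1 2], [0, 1]), (1, [.P 2 3, .P 0 1, .P 1 2, .M 2 3, .P 0 1, .P 1 2, .P 0 1, .M 1 2, .P 0 1], [1, 0])],
    []⟩,
  ⟨2, 4, 4, [2, 3, 4, 5],
    [(1, [.Y 1 2, .P 0 1, .P 1 2, .Y 2 3], [0, 1, 2, 3]), (1, [.P 0 1, .Y 1 2, .P 0 1, .P 1 2, .P 0 1, .Y 2 3, .P 1 2, .P 0 1, .P 2 3, .P 1 2], [3, 2, 0, 1])],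
    []⟩,
  ⟨4, 2, 2, [4, 5],
    [(1, [.M 2 3, .P 1 2, .P 0 1, .M 1 2], [0, 1]), (1, [.P 1 2, .P 2 3, .P 0 1, .P 1 2, .M 2 3, .P 0 1, .P 1 2, .P 0 1, .M 1 2, .P 0 1], [1, 0])],
    []⟩,
  ⟨2, 4, 4, [2, 3, 4, 5],
    [(1, [.Y 1 2, .P 0 1, .P 1 2, .P 0 1, .Y 2 3], [1, 0, 2, 3]), ((-1), [.P 0 1, .Y 1 2, .P 0 1, .P 1 2, .P 0 1, .Y 2 3, .P 1 2, .P 0 1, .P 2 3, .P 1 2], [3, 2, 0, 1])],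
    []⟩,
  ⟨4, 2, 2, [4, 5],
    [(1, [.M 2 3, .P 0 1, .P 1 2, .P 0 1, .M 1 2], [0, 1]), ((-1), [.P 1 2, .P 2 3, .P 0 1, .P 1 2, .M 2 3, .P 0 1, .P 1 2, .P 0 1, .M 1 2, .P 0 1], [1, 0])],
    []⟩,
  ⟨2, 2, 3, [2, 3],
    [(1, [.b 0 1, .P 0 1], [2, 1, 0]), ((-1), [.P 0 1, .b 0 1], [2, 0, 1])],
    []⟩,
  ⟨3, 2, 1, [0, 3],
    [((-1), [.M 1 2], [0]), (1, [.M 1 2, .P 0 1, .P 0 1], [0])],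
    []⟩,
  ⟨2, 3, 2, [0, 2, 3],
    [((-1), [.Y 1 2], [0, 1]), (1, [.P 0 1, .P 0 1, .Y 1 2], [0, 1])],
    []⟩,
  ⟨2, 3, 2, [2, 3, 0],
    [(1, [.Y 1 2, .P 0 1, .P 1 2], [0, 1]), (1, [.Y 1 2, .P 0 1, .P 1 2, .P 0 1], [1, 0])],
    []⟩,
  ⟨3, 2, 1, [2, 3],
    [(1, [.P 1 2, .P 0 1, .M 1 2], [0]), (1, [.P 0 1, .P 1 2, .P 0 1, .M 1 2], [0])],
    []⟩,
  ⟨2, 3, 2, [2, 0, 3],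
    [((-1), [.Y 1 2, .P 0 1], [0, 1]), (1, [.Y 1 2, .P 0 1, .P 1 2, .P 1 2], [0, 1])],
    []⟩,
  ⟨3, 2, 1, [1, 3],
    [((-1), [.P 0 1, .M 1 2], [0]), (1, [.P 1 2, .P 1 2, .P 0 1, .M 1 2], [0])],
    []⟩,
  ⟨2, 3, 2, [0, 2, 3],
    [((-1), [.Y 1 2], [0, 1]), (1, [.Y 1 2, .P 0 1, .P 0 1], [0, 1])],
    []⟩,
  ⟨3, 2, 1, [0, 3],
    [((-1), [.M 1 2], [0]), (1, [.P 0 1, .P 0 1, .M 1 2], [0])],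
    []⟩,
  ⟨3, 3, 3, [3, 4, 2],
    [(1, [.b 0 1, .P 0 1], [2, 1, 0]), ((-1), [.P 0 1, .b 0 1], [2, 0, 1])],
    []⟩]

theorem cb24_ok : cb24.all Bs.ok = true := by decide +kernel

/-- Checked relations. -/
def cb25 : List Bs := [
  ⟨3, 3, 3, [1, 3, 4],
    [(1, [.b 0 2, .P 0 1], [2, 0, 1]), ((-1), [.P 0 1, .b 1 2], [2, 0, 1])],
    []⟩,
  ⟨3, 3, 3, [3, 0, 4],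
    [((-1), [.b 1 2, .P 0 1], [2, 0, 1]), (1, [.P 0 1, .b 0 2], [2, 0, 1])],
    []⟩,
  ⟨3, 3, 3, [3, 2, 4],
    [(1, [.b 0 1, .P 1 2], [2, 0, 1]), ((-1), [.P 1 2, .b 0 2], [2, 0, 1])],
    []⟩,
  ⟨3, 3, 3, [3, 4, 1],
    [(1, [.b 0 2, .P 1 2], [2, 0, 1]), ((-1), [.P 1 2, .b 0 1], [2, 0, 1])],
    []⟩,
  ⟨3, 3, 3, [0, 3, 4],
    [(1, [.b 1 2, .P 1 2], [2, 1, 0]), ((-1), [.P 1 2, .b 1 2], [2, 0, 1])],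
    []⟩,
  ⟨4, 3, 1, [1, 0, 4],
    [(1, [.M 2 3, .P 0 1], [0]), ((-1), [.P 0 1, .M 2 3], [0])],
    []⟩,
  ⟨3, 4, 2, [1, 0, 3, 4],
    [((-1), [.Y 2 3, .P 0 1], [0, 1]), (1, [.P 0 1, .Y 2 3], [0, 1])],
    []⟩,
  ⟨4, 3, 1, [0, 1, 4],
    [((-1), [.M 2 3], [0]), (1, [.M 2 3, .P 1 2, .P 1 2], [0])],
    []⟩,
  ⟨3, 4, 2, [0, 1, 3, 4],
    [((-1), [.Y 2 3], [0, 1]), (1, [.P 1 2, .P 1 2, .Y 2 3], [0, 1])],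
    []⟩,
  ⟨4, 3, 1, [0, 4, 1],
    [((-1), [.M 2 3, .P 1 2], [0]), (1, [.M 2 3, .P 1 2, .P 0 1, .P 0 1], [0])],
    []⟩,
  ⟨3, 4, 2, [0, 2, 3, 4],
    [((-1), [.P 1 2, .Y 2 3], [0, 1]), (1, [.P 0 1, .P 0 1, .P 1 2, .Y 2 3], [0, 1])],
    []⟩,
  ⟨4, 3, 1, [4, 1, 0],
    [(1, [.M 2 3, .P 1 2, .P 0 1, .P 1 2], [0]), ((-1), [.P 0 1, .M 2 3, .P 1 2, .P 0 1], [0])],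
    []⟩,
  ⟨3, 4, 2, [2, 1, 3, 4],
    [((-1), [.P 0 1, .P 1 2, .Y 2 3, .P 0 1], [0, 1]), (1, [.P 1 2, .P 0 1, .P 1 2, .Y 2 3], [0, 1])],
    []⟩,
  ⟨3, 4, 2, [3, 4, 0, 1],
    [(1, [.Y 2 3, .P 1 2, .P 0 1, .P 2 3, .P 1 2], [0, 1]), (1, [.Y 2 3, .P 1 2, .P 0 1, .P 2 3, .P 1 2, .P 0 1], [1, 0])],
    []⟩,
  ⟨4, 3, 1, [2, 3, 4],
    [(1, [.P 1 2, .P 2 3, .P 0 1, .P 1 2, .M 2 3], [0]), (1, [.P 0 1, .P 1 2, .P 2 3, .P 0 1, .P 1 2, .M 2 3], [0])],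
    []⟩,
  ⟨3, 4, 2, [3, 0, 4, 1],
    [((-1), [.Y 2 3, .P 1 2, .P 0 1, .P 2 3], [0, 1]), (1, [.Y 2 3, .P 1 2, .P 0 1, .P 2 3, .P 1 2, .P 1 2], [0, 1])],
    []⟩,
  ⟨4, 3, 1, [1, 3, 4],
    [((-1), [.P 2 3, .P 0 1, .P 1 2, .M 2 3], [0]), (1, [.P 1 2, .P 1 2, .P 2 3, .P 0 1, .P 1 2, .M 2 3], [0])],
    []⟩,
  ⟨3, 4, 2, [3, 4, 1, 0],
    [(1, [.Y 2 3, .P 1 2, .P 0 1, .P 2 3, .P 1 2, .P 2 3], [0, 1]), ((-1), [.P 0 1, .Y 2 3, .P 1 2, .P 0 1, .P 2 3, .P 1 2], [0, 1])],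
    []⟩,
  ⟨4, 3, 1, [3, 2, 4],
    [((-1), [.P 1 2, .P 2 3, .P 0 1, .P 1 2, .M 2 3, .P 0 1], [0]), (1, [.P 2 3, .P 1 2, .P 2 3, .P 0 1, .P 1 2, .M 2 3], [0])],
    []⟩,
  ⟨3, 4, 2, [0, 3, 4, 1],
    [((-1), [.Y 2 3, .P 1 2, .P 2 3], [0, 1]), (1, [.Y 2 3, .P 1 2, .P 0 1, .P 2 3, .P 0 1], [0, 1])],
    []⟩,
  ⟨4, 3, 1, [0, 3, 4],
    [((-1), [.P 2 3, .P 1 2, .M 2 3], [0]), (1, [.P 0 1, .P 2 3, .P 0 1, .P 1 2, .M 2 3], [0])],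
    []⟩,
  ⟨3, 4, 2, [3, 0, 1, 4],
    [((-1), [.Y 2 3, .P 1 2, .P 0 1], [0, 1]), (1, [.Y 2 3, .P 1 2, .P 0 1, .P 2 3, .P 2 3], [0, 1])],
    []⟩,
  ⟨4, 3, 1, [1, 2, 4],
    [((-1), [.P 0 1, .P 1 2, .M 2 3], [0]), (1, [.P 2 3, .P 2 3, .P 0 1, .P 1 2, .M 2 3], [0])],
    []⟩,
  ⟨3, 4, 2, [0, 3, 1, 4],
    [((-1), [.Y 2 3, .P 1 2], [0, 1]), (1, [.Y 2 3, .P 1 2, .P 0 1, .P 0 1], [0, 1])],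
    []⟩,
  ⟨4, 3, 1, [0, 2, 4],
    [((-1), [.P 1 2, .M 2 3], [0]), (1, [.P 0 1, .P 0 1, .P 1 2, .M 2 3], [0])],
    []⟩,
  ⟨3, 4, 2, [3, 1, 0, 4],
    [(1, [.Y 2 3, .P 1 2, .P 0 1, .P 1 2], [0, 1]), ((-1), [.P 0 1, .Y 2 3, .P 1 2, .P 0 1], [0, 1])],
    []⟩,
  ⟨4, 3, 1, [2, 1, 4],
    [((-1), [.P 0 1, .P 1 2, .M 2 3, .P 0 1], [0]), (1, [.P 1 2, .P 0 1, .P 1 2, .M 2 3], [0])],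
    []⟩,
  ⟨3, 4, 2, [3, 0, 4, 1],
    [((-1), [.Y 2 3, .P 1 2, .P 0 1, .P 2 3], [0, 1]), (1, [.Y 2 3, .P 1 2, .P 2 3, .P 0 1], [0, 1])],
    []⟩,
  ⟨4, 3, 1, [1, 3, 4],
    [(1, [.P 0 1, .P 2 3, .P 1 2, .M 2 3], [0]), ((-1), [.P 2 3, .P 0 1, .P 1 2, .M 2 3], [0])],
    []⟩,
  ⟨3, 4, 2, [0, 3, 4, 1],
    [(1, [.Y 2 3, .P 1 2, .P 2 3], [0, 1]), (1, [.Y 2 3, .P 1 2, .P 2 3, .P 1 2], [1, 0])],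
    []⟩,
  ⟨4, 3, 1, [0, 3, 4],
    [(1, [.P 2 3, .P 1 2, .M 2 3], [0]), (1, [.P 1 2, .P 2 3, .P 1 2, .M 2 3], [0])],
    []⟩,
  ⟨3, 4, 2, [0, 3, 1, 4],
    [((-1), [.Y 2 3, .P 1 2], [0, 1]), (1, [.Y 2 3, .P 1 2, .P 2 3, .P 2 3], [0, 1])],
    []⟩]

theorem cb25_ok : cb25.all Bs.ok = true := by decide +kernel

/-- Checked relations. -/
def cb26 : List Bs := [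
  ⟨4, 3, 1, [0, 2, 4],
    [((-1), [.P 1 2, .M 2 3], [0]), (1, [.P 2 3, .P 2 3, .P 1 2, .M 2 3], [0])],
    []⟩,
  ⟨3, 4, 2, [0, 1, 3, 4],
    [((-1), [.Y 2 3], [0, 1]), (1, [.Y 2 3, .P 1 2, .P 1 2], [0, 1])],
    []⟩,
  ⟨4, 3, 1, [0, 1, 4],
    [((-1), [.M 2 3], [0]), (1, [.P 1 2, .P 1 2, .M 2 3], [0])],
    []⟩,
  ⟨4, 4, 3, [4, 5, 2, 3],
    [(1, [.b 0 1, .P 0 1], [2, 1, 0]), ((-1), [.P 0 1, .b 0 1], [2, 0, 1])],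
    []⟩,
  ⟨4, 4, 3, [1, 4, 5, 3],
    [(1, [.b 0 2, .P 0 1], [2, 0, 1]), ((-1), [.P 0 1, .b 1 2], [2, 0, 1])],
    []⟩,
  ⟨4, 4, 3, [1, 4, 2, 5],
    [(1, [.b 0 3, .P 0 1], [2, 0, 1]), ((-1), [.P 0 1, .b 1 3], [2, 0, 1])],
    []⟩,
  ⟨4, 4, 3, [4, 0, 5, 3],
    [((-1), [.b 1 2, .P 0 1], [2, 0, 1]), (1, [.P 0 1, .b 0 2], [2, 0, 1])],
    []⟩,
  ⟨4, 4, 3, [4, 0, 2, 5],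
    [((-1), [.b 1 3, .P 0 1], [2, 0, 1]), (1, [.P 0 1, .b 0 3], [2, 0, 1])],
    []⟩,
  ⟨4, 4, 3, [4, 2, 5, 3],
    [(1, [.b 0 1, .P 1 2], [2, 0, 1]), ((-1), [.P 1 2, .b 0 2], [2, 0, 1])],
    []⟩,
  ⟨4, 4, 3, [4, 5, 1, 3],
    [(1, [.b 0 2, .P 1 2], [2, 0, 1]), ((-1), [.P 1 2, .b 0 1], [2, 0, 1])],
    []⟩,
  ⟨4, 4, 3, [4, 2, 1, 5],
    [(1, [.b 0 3, .P 1 2], [2, 0, 1]), ((-1), [.P 1 2, .b 0 3], [2, 0, 1])],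
    []⟩,
  ⟨4, 4, 3, [4, 5, 3, 2],
    [(1, [.b 0 1, .P 2 3], [2, 0, 1]), ((-1), [.P 2 3, .b 0 1], [2, 0, 1])],
    []⟩,
  ⟨4, 4, 3, [4, 1, 3, 5],
    [(1, [.b 0 2, .P 2 3], [2, 0, 1]), ((-1), [.P 2 3, .b 0 3], [2, 0, 1])],
    []⟩,
  ⟨4, 4, 3, [4, 1, 5, 2],
    [(1, [.b 0 3, .P 2 3], [2, 0, 1]), ((-1), [.P 2 3, .b 0 2], [2, 0, 1])],
    []⟩,
  ⟨4, 4, 3, [0, 4, 5, 3],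
    [(1, [.b 1 2, .P 1 2], [2, 1, 0]), ((-1), [.P 1 2, .b 1 2], [2, 0, 1])],
    []⟩,
  ⟨4, 4, 3, [0, 2, 4, 5],
    [(1, [.b 1 3, .P 1 2], [2, 0, 1]), ((-1), [.P 1 2, .b 2 3], [2, 0, 1])],
    []⟩,
  ⟨4, 4, 3, [0, 4, 1, 5],
    [((-1), [.b 2 3, .P 1 2], [2, 0, 1]), (1, [.P 1 2, .b 1 3], [2, 0, 1])],
    []⟩,
  ⟨4, 4, 3, [0, 4, 3, 5],
    [(1, [.b 1 2, .P 2 3], [2, 0, 1]), ((-1), [.P 2 3, .b 1 3], [2, 0, 1])],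
    []⟩,
  ⟨4, 4, 3, [0, 4, 5, 2],
    [(1, [.b 1 3, .P 2 3], [2, 0, 1]), ((-1), [.P 2 3, .b 1 2], [2, 0, 1])],
    []⟩,
  ⟨4, 4, 3, [1, 0, 4, 5],
    [(1, [.b 2 3, .P 0 1], [2, 0, 1]), ((-1), [.P 0 1, .b 2 3], [2, 0, 1])],
    []⟩,
  ⟨4, 4, 3, [0, 1, 4, 5],
    [(1, [.b 2 3, .P 2 3], [2, 1, 0]), ((-1), [.P 2 3, .b 2 3], [2, 0, 1])],
    []⟩,
  ⟨0, 3, 8, [0, 1, 2],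
    [(2, [.E 0, .Y 0 1, .Y 1 2, .a 1], [3, 0, 4, 5, 2, 6, 1]), (1, [.E 0, .Y 0 1, .Y 1 2, .b 0 1], [3, 4, 5, 6, 2, 7, 0, 1]), (1, [.E 0, .Y 0 1, .Y 1 2, .b 1 2], [3, 0, 4, 5, 6, 7, 1, 2]), ((-1), [.E 0, .Y 0 1, .Y 1 2, .o 1], [3, 0, 4, 5, 2, 6, 7, 1]), (2, [.E 0, .Y 0 1, .Y 1 2, .P 0 1, .a 0], [3, 1, 4, 5, 2, 6, 0]), (1, [.E 0, .Y 0 1, .Y 1 2, .P 0 1, .b 0 1], [3, 4, 5, 6, 2, 7, 0, 1]), (1, [.E 0, .Y 0 1, .Y 1 2, .P 0 1, .b 0 2], [3, 1, 4, 5, 6, 7, 0, 2]), ((-1), [.E 0, .Y 0 1, .Y 1 2, .P 0 1, .o 0], [3, 1, 4, 5, 2, 6, 7, 0])],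
    [.swp 1 5 6 [3] [(0, 3, 4), (1, 5, 7), (2, 6, 7), (4, 5, 6)], .ihx (-1) 5 2 4 6 7 [3] [(0, 3, 4), (1, 6, 7)], .ihx (-1) 4 7 0 5 3 [3] [(1, 6, 7), (2, 5, 6)], .swp 1 5 7 [3] [(0, 4, 5), (1, 6, 7), (2, 5, 6), (3, 4, 7)], .swp 1 6 7 [3] [(0, 4, 7), (1, 5, 6), (2, 6, 7), (3, 4, 5)], .swp (-1) 4 5 [3] [(0, 4, 6), (1, 5, 7), (2, 6, 7), (3, 4, 5)], .ihx 1 4 7 1 5 3 [3] [(0, 5, 6), (2, 6, 7)], .swp (-1) 6 7 [3] [(0, 5, 7), (1, 3, 4), (2, 6, 7), (4, 5, 6)], .swp (-1) 5 7 [3] [(0, 6, 7), (1, 4, 7), (2, 5, 6), (3, 4, 5)], .ihx 1 6 7 2 4 5 [3] [(0, 5, 7), (1, 3, 4)], .swp (-1) 5 6 [3] [(0, 6, 7), (1, 3, 4), (2, 4, 5), (5, 6, 7)], .swp 1 5 7 [3] [(0, 5, 7), (1, 3, 4), (2, 6, 7), (4, 5, 6)], .swp (-2) 4 6 [3]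 [(0, 4, 5), (1, 6, 7), (2, 5, 6), (3, 4, 7)], .swp 2 3 7 [7] [(0, 5, 6), (1, 3, 4), (2, 4, 5), (3, 6, 7)], .swp (-2) 3 6 [3, 6] [(0, 3, 4), (1, 5, 6), (2, 4, 5)], .stu 2 7 6 3 [] [] [(0, 5, 6), (1, 3, 4), (2, 4, 5)], .swp (-2) 4 5 [6, 3] [(0, 4, 6), (1, 3, 5), (2, 4, 5)]]⟩,
  ⟨3, 9, 5, [],
    [(2, [.a 1, .M 1 2, .M 0 1, .A 0], [0, 1, 2, 3]), (1, [.b 0 1, .M 1 2, .M 0 1, .A 0], [0, 1, 2, 3, 4]), (1, [.b 1 2, .M 1 2, .M 0 1, .A 0], [0, 1, 2, 3, 4]), ((-1), [.o 1, .M 1 2, .M 0 1, .A 0], [0, 1, 2, 3, 4]), (2, [.a 0, .P 0 1, .M 1 2, .M 0 1, .A 0], [0, 1, 2, 3]), (1, [.b 0 1, .P 0 1, .M 1 2, .M 0 1, .A 0], [0, 1, 2, 3, 4]), (1, [.b 0 2, .P 0 1, .M 1 2, .M 0 1, .A 0], [0, 1, 2, 3, 4]), ((-1), [.o 0, .P 0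 1, .M 1 2, .M 0 1, .A 0], [0, 1, 2, 3, 4])],
    [.swp (-1) 3 6 [3, 6] [(0, 5, 6), (1, 3, 4), (2, 4, 5)], .stu 1 7 6 3 [] [] [(0, 3, 4), (1, 5, 6), (2, 4, 5)], .swp (-1) 4 5 [6, 3] [(0, 3, 5), (1, 4, 6), (2, 4, 5)], .swp 1 5 6 [7] [(0, 3, 4), (1, 3, 5), (2, 4, 6), (5, 6, 7)], .swp 1 4 5 [7] [(0, 3, 4), (1, 3, 5), (2, 5, 6), (4, 6, 7)], .ihx 1 6 1 5 7 3 [7] [(0, 3, 4), (2, 4, 5)], .stu 1 7 6 3 [] [] [(0, 5, 6), (1, 3, 4), (2, 4, 5)], .swp (-1) 4 5 [3, 6] [(0, 3, 4), (1, 5, 6), (2, 4, 5)], .swp (-1) 3 6 [6, 3] [(0, 5, 6), (1, 3, 4), (2, 4, 5)], .ihx (-1) 5 2 3 6 4 [7] [(0, 3, 4), (1, 6, 7)], .swp 1 5 6 [7] [(0, 3, 5), (1, 3, 4), (2, 4, 6), (5, 6, 7)], .ihx 1 6 0 5 7 3 [7] [(1, 3, 4), (2, 4, 5)], .ihx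 (-1) 5 2 3 6 4 [7] [(0, 6, 7), (1, 3, 4)]]⟩,
  ⟨0, 3, 8, [0, 1, 2],
    [(2, [.E 0, .Y 0 1, .Y 1 2, .P 1 2, .a 2], [3, 0, 4, 5, 1, 6, 2]), (1, [.E 0, .Y 0 1, .Y 1 2, .P 1 2, .b 0 2], [3, 4, 5, 6, 1, 7, 0, 2]), (1, [.E 0, .Y 0 1, .Y 1 2, .P 1 2, .b 1 2], [3, 0, 4, 5, 6, 7, 1, 2]), ((-1), [.E 0, .Y 0 1, .Y 1 2, .P 1 2, .o 2], [3, 0, 4, 5, 1, 6, 7, 2]), (2, [.E 0, .Y 0 1, .Y 1 2, .P 0 1, .P 1 2, .a 0], [3, 2, 4, 5, 1, 6, 0]), (1, [.E 0, .Y 0 1, .Y 1 2, .P 0 1, .P 1 2, .b 0 1], [3, 2, 4, 5, 6, 7, 0, 1]), (1, [.E 0, .Y 0 1, .Y 1 2, .P 0 1, .P 1 2, .b 0 2], [3, 4, 5, 6, 1, 7, 0, 2]), ((-1), [.E 0, .Y 0 1, .Y 1 2, .P 0 1, .P 1 2, .o 0], [3, 2, 4, 5, 1, 6, 7, 0])],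
    [.ihx (-1) 5 1 4 6 7 [3] [(0, 3, 4), (2, 6, 7)], .ihx (-1) 4 7 0 5 3 [3] [(1, 5, 6), (2, 6, 7)], .swp 1 5 6 [3] [(0, 3, 4), (1, 6, 7), (2, 5, 7), (4, 5, 6)], .swp 1 5 7 [3] [(0, 4, 5), (1, 5, 6), (2, 6, 7), (3, 4, 7)], .swp 1 6 7 [3] [(0, 4, 7), (1, 6, 7), (2, 5, 6), (3, 4, 5)], .swp (-1) 4 5 [3] [(0, 4, 6), (1, 6, 7), (2, 5, 7), (3, 4, 5)], .swp (-1) 6 7 [3] [(0, 5, 7), (1, 6, 7), (2, 3, 4), (4, 5, 6)], .ihx 1 4 2 3 5 7 [3] [(0, 5, 6), (1, 6, 7)], .swp (-1) 5 7 [3] [(0, 6, 7), (1, 5, 6), (2, 4, 7), (3, 4, 5)], .swp (-2) 4 6 [3] [(0, 4, 5), (1, 5, 6), (2, 6, 7), (3, 4, 7)], .swp 2 3 7 [7] [(0, 5, 6), (1, 4, 5), (2, 3, 4), (3, 6, 7)], .ihx 1 6 7 1 4 5 [3] [(0, 5, 7), (2, 3, 4)], .swp (-1) 5 6 [3]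 [(0, 6, 7), (1, 4, 5), (2, 3, 4), (5, 6, 7)], .swp 1 5 7 [3] [(0, 5, 7), (1, 6, 7), (2, 3, 4), (4, 5, 6)], .swp (-2) 3 6 [3, 6] [(0, 3, 4), (1, 4, 5), (2, 5, 6)], .stu 2 7 6 3 [] [] [(0, 5, 6), (1, 4, 5), (2, 3, 4)], .swp (-2) 4 5 [6, 3] [(0, 4, 6), (1, 4, 5), (2, 3, 5)]]⟩,
  ⟨3, 9, 5, [],
    [(2, [.a 2, .P 1 2, .M 1 2, .M 0 1, .A 0], [0, 1, 2, 3]), (1, [.b 0 2, .P 1 2, .M 1 2, .M 0 1, .A 0], [0, 1, 2, 3, 4]), (1, [.b 1 2, .P 1 2, .M 1 2, .M 0 1, .A 0], [0, 1, 2, 3, 4]), ((-1), [.o 2, .P 1 2, .M 1 2, .M 0 1, .A 0], [0, 1, 2, 3, 4]), (2, [.a 0, .P 1 2, .P 0 1, .M 1 2, .M 0 1, .A 0], [0, 1, 2, 3]), (1, [.b 0 1, .P 1 2, .P 0 1, .M 1 2, .M 0 1, .A 0], [0, 1, 2, 3, 4]), (1, [.b 0 2, .P 1 2, .P 0 1, .M 1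 2, .M 0 1, .A 0], [0, 1, 2, 3, 4]), ((-1), [.o 0, .P 1 2, .P 0 1, .M 1 2, .M 0 1, .A 0], [0, 1, 2, 3, 4])],
    [.ihx (-1) 5 1 3 6 4 [7] [(0, 3, 4), (2, 6, 7)], .swp (-1) 3 6 [6, 3] [(0, 5, 6), (1, 4, 5), (2, 3, 4)], .swp (-1) 4 5 [3, 6] [(0, 3, 4), (1, 4, 5), (2, 5, 6)], .stu 1 7 6 3 [] [] [(0, 5, 6), (1, 4, 5), (2, 3, 4)], .ihx 1 6 2 5 7 3 [7] [(0, 3, 4), (1, 4, 5)], .swp 1 5 6 [7] [(0, 3, 4), (1, 4, 6), (2, 3, 5), (5, 6, 7)], .stu 1 7 6 3 [] [] [(0, 3, 4), (1, 4, 5), (2, 5, 6)], .swp (-1) 4 5 [6, 3] [(0, 3, 5), (1, 4, 5), (2, 4, 6)], .swp (-1) 3 6 [3, 6] [(0, 5, 6), (1, 4, 5), (2, 3, 4)], .ihx 1 4 0 3 6 7 [7] [(1, 5, 6), (2, 3, 5)], .swp 1 4 5 [7] [(0, 4, 6), (1, 5, 6), (2, 3, 5), (3, 4, 7)], .swp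 (-1) 3 5 [7] [(0, 4, 7), (1, 5, 6), (2, 3, 5), (3, 4, 6)], .swp (-1) 4 6 [7] [(0, 6, 7), (1, 3, 4), (2, 3, 5), (4, 5, 6)], .swp 1 5 6 [7] [(0, 5, 6), (1, 4, 5), (2, 3, 4), (3, 6, 7)], .swp 1 3 5 [7] [(0, 6, 7), (1, 3, 4), (2, 3, 5), (4, 5, 6)], .ihx 1 4 1 3 5 6 [7] [(0, 6, 7), (2, 3, 5)], .swp (-1) 4 5 [7] [(0, 6, 7), (1, 5, 6), (2, 3, 4), (3, 4, 5)]]⟩,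
  ⟨0, 3, 8, [0, 1, 2],
    [(2, [.E 0, .Y 0 1, .Y 1 2, .P 1 2, .P 0 1, .a 2], [3, 1, 4, 5, 0, 6, 2]), (1, [.E 0, .Y 0 1, .Y 1 2, .P 1 2, .P 0 1, .b 0 2], [3, 1, 4, 5, 6, 7, 0, 2]), (1, [.E 0, .Y 0 1, .Y 1 2, .P 1 2, .P 0 1, .b 1 2], [3, 4, 5, 6, 0, 7, 1, 2]), ((-1), [.E 0, .Y 0 1, .Y 1 2, .P 1 2, .P 0 1, .o 2], [3, 1, 4, 5, 0, 6, 7, 2]), (2, [.E 0, .Y 0 1, .Y 1 2, .P 0 1, .P 1 2, .P 0 1, .a 1], [3, 2, 4, 5, 0, 6, 1]), (1, [.E 0, .Y 0 1, .Y 1 2, .P 0 1, .P 1 2, .P 0 1, .b 0 1], [3, 2, 4, 5, 6, 7, 0, 1]), (1, [.E 0, .Y 0 1, .Y 1 2, .P 0 1, .P 1 2, .P 0 1, .b 1 2], [3, 4, 5, 6, 0, 7, 1, 2]), ((-1), [.E 0, .Y 0 1, .Y 1 2, .P 0 1, .P 1 2, .P 0 1, .o 1], [3, 2, 4, 5, 0, 6, 7, 1])],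
    [.ihx (-1) 5 0 4 6 7 [3] [(1, 3, 4), (2, 6, 7)], .swp (-1) 5 6 [3] [(0, 4, 5), (1, 6, 7), (2, 3, 4), (5, 6, 7)], .ihx 1 6 7 0 4 5 [3] [(1, 5, 7), (2, 3, 4)], .ihx (-1) 4 7 1 5 3 [3] [(0, 5, 6), (2, 6, 7)], .swp (-2) 4 6 [3] [(0, 5, 6), (1, 4, 5), (2, 6, 7), (3, 4, 7)], .swp 2 3 7 [7] [(0, 4, 5), (1, 5, 6), (2, 3, 4), (3, 6, 7)], .ihx 1 4 2 3 6 7 [3] [(0, 5, 6), (1, 5, 7)], .swp 1 4 7 [3] [(0, 5, 6), (1, 4, 5), (2, 6, 7), (3, 4, 7)], .swp (-1) 5 6 [3] [(0, 5, 6), (1, 6, 7), (2, 4, 7), (3, 4, 5)], .swp 1 5 6 [3] [(0, 6, 7), (1, 3, 4), (2, 5, 7), (4, 5, 6)], .swp (-2) 3 6 [3, 6] [(0, 4, 5), (1, 3, 4), (2, 5, 6)], .stu 2 7 6 3 [] [] [(0, 4, 5), (1, 5, 6), (2, 3, 4)], .swp (-2) 4 5 [6, 3] [(0, 4, 5),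 (1, 4, 6), (2, 3, 5)]]⟩,
  ⟨3, 9, 5, [],
    [(2, [.a 2, .P 0 1, .P 1 2, .M 1 2, .M 0 1, .A 0], [0, 1, 2, 3]), (1, [.b 0 2, .P 0 1, .P 1 2, .M 1 2, .M 0 1, .A 0], [0, 1, 2, 3, 4]), (1, [.b 1 2, .P 0 1, .P 1 2, .M 1 2, .M 0 1, .A 0], [0, 1, 2, 3, 4]), ((-1), [.o 2, .P 0 1, .P 1 2, .M 1 2, .M 0 1, .A 0], [0, 1, 2, 3, 4]), (2, [.a 1, .P 0 1, .P 1 2, .P 0 1, .M 1 2, .M 0 1, .A 0], [0, 1, 2, 3]), (1, [.b 0 1, .P 0 1, .P 1 2, .P 0 1, .M 1 2, .M 0 1, .A 0], [0, 1, 2, 3, 4]), (1, [.b 1 2, .P 0 1, .P 1 2, .P 0 1, .M 1 2, .M 0 1, .A 0], [0, 1, 2, 3, 4]), ((-1), [.o 1, .P 0 1, .P 1 2, .P 0 1, .M 1 2, .M 0 1, .A 0], [0, 1, 2, 3, 4])],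
    [.swp (-1) 4 5 [3, 6] [(0, 4, 5), (1, 3, 4), (2, 5, 6)], .swp (-1) 3 6 [6, 3] [(0, 4, 5), (1, 5, 6), (2, 3, 4)], .stu 1 7 6 3 [] [] [(0, 4, 5), (1, 5, 6), (2, 3, 4)], .swp 1 4 5 [7] [(0, 3, 4), (1, 3, 5), (2, 6, 7), (4, 5, 6)], .ihx 1 4 0 3 5 6 [7] [(1, 6, 7), (2, 3, 5)], .ihx (-1) 5 6 0 3 4 [7] [(1, 3, 4), (2, 6, 7)], .swp (-1) 4 5 [6, 3] [(0, 4, 5), (1, 3, 5), (2, 4, 6)], .stu 1 7 6 3 [] [] [(0, 4, 5), (1, 3, 4), (2, 5, 6)], .swp (-1) 3 6 [3, 6] [(0, 4, 5), (1, 5, 6), (2, 3, 4)], .swp 1 5 6 [7] [(0, 4, 6), (1, 3, 4), (2, 3, 5), (5, 6, 7)], .ihx 1 6 2 5 7 3 [7] [(0, 4, 5), (1, 3, 4)], .swp 1 4 5 [7] [(0, 4, 5), (1, 5, 6), (2, 3, 4), (3, 6, 7)], .swp 1 4 6 [7] [(0, 5, 6), (1, 3, 4), (2, 3, 5), (4,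 6, 7)], .ihx 1 6 7 1 3 4 [7] [(0, 4, 5), (2, 3, 5)], .swp (-1) 4 5 [7] [(0, 5, 6), (1, 6, 7), (2, 3, 4), (3, 4, 5)]]⟩]

theorem cb26_ok : cb26.all Bs.ok = true := by decide +kernel

end Pool.Agent.SWW54
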