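import Mathlib
import Pool.Agent.SWW54.Fam
import Pool.Agent.SWW54.RelB1
import Pool.Agent.SWW54.RelB2

/-!
# The table of all local relations and of the families
-/

set_option autoImplicit false

namespace Pool.Agent.SWW54

open Pool.Agent.Jac70 Pool.Agent.SWT85

/-- The table. -/
def tbB : List (List Ln) := [cb0.map Bs.ln, cb1.map Bs.ln, cb2.map Bs.ln, cb3.map Bs.ln, cb4.map Bs.ln, cb5.map Bs.ln, cb6.map Bs.ln, cb7.map Bs.ln, cb8.map Bs.ln, cb9.map Bs.ln, cb10.map Bs.ln, cb11.map Bs.ln, cb12.map Bs.ln, cb13.map Bs.ln, cb14.map Bs.ln, cb15.map Bs.ln, cb16.map Bs.ln, cb17.map Bs.ln, cb18.map Bs.ln, cb19.map Bs.ln, cb20.map Bs.ln, cb21.map Bs.ln, cb22.map Bs.ln, cb23.map Bs.ln, cb24.map Bs.ln, cb25.map Bs.ln, cb26.map Bs.ln, fmL]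

variable {H : Type} [DecidableEq H]

theorem tbB_spec : ∀ l ∈ tbB, Env H l := by
  intro l hl
  unfold tbB at hl
  simp only [List.mem_cons, List.not_mem_nil, or_false] at hl
  rcases hl with rfl | rfl | rfl | rfl | rfl | rfl | rfl | rfl | rfl | rfl | rfl | rfl | rfl | rfl | rfl | rfl | rfl | rfl | rfl | rfl | rfl | rfl | rfl | rfl | rfl | rfl | rfl | rfl
  · exact env_base cb0_ok
  · exact env_base cb1_ok
  · exact env_base cb2_ok
  · exact env_base cb3_ok
  · exact env_base cb4_ok
  · exact env_base cb5_ok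
  · exact env_base cb6_ok
  · exact env_base cb7_ok
  · exact env_base cb8_ok
  · exact env_base cb9_ok
  · exact env_base cb10_ok
  · exact env_base cb11_ok
  · exact env_base cb12_ok
  · exact env_base cb13_ok
  · exact env_base cb14_ok
  · exact env_base cb15_ok
  · exact env_base cb16_ok
  · exact env_base cb17_ok
  · exact env_base cb18_ok
  · exact env_base cb19_ok
  · exact env_base cb20_ok
  · exact env_base cb21_ok
  · exact env_base cb22_ok
  · exact env_base cb23_ok
  · exact env_base cb24_ok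
  · exact env_base cb25_ok
  · exact env_base cb26_ok
  · exact env_fmL

/-! ### Lines for formal sums -/

/-- The packed formal sum. -/
def pkS (S : List (ℤ × List Lt)) : List T3 := S.map fun y => (y.1, y.2.length, ew y.2)

/-- The certificate of a line. -/
structure Ct : Type where
  m : ℤ
  n : ℕ
  ss : List Su

/-- The check of a line for a formal sum. -/
def ctOk (k k' : ℕ) (S : List (ℤ × List Lt)) (c : Ct) : Bool :=
  (S.all fun y => decide (tyc y.2 k = some k')) &&
    stepG (gtt tbB) ⟨k, k', mal 6 ((pkS S).map fun z => [z])⟩ c.m c.n c.ss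

theorem ct_spec {k k' : ℕ} {S : List (ℤ × List Lt)} {c : Ct} (h : ctOk k k' S c = true) :
    ∀ p u : List Lt, tyc p 0 = some k → tyu u k' = some 9 →
      sm (fun w => ev H (p ++ w ++ u)) S ∈ Submodule.torsion ℤ (A H) := by
  unfold ctOk at h
  rw [Bool.and_eq_true] at h
  obtain ⟨h1, h2⟩ := h
  intro p u hp hu
  have h3 := (stepG_spec (H := H) (gtt_spec tbB_spec) h2).2 p u hp hu
  rw [vl_mal, vls_single] at h3
  have e : un (pkS S) = S := by
    unfold un pkS
    rw [List.map_map]
    refine (List.map_congr_left fun y hy => ?_).trans (List.map_id _)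
    rw [List.all_eq_true] at h1
    have h4 := h1 y hy
    rw [decide_eq_true_eq] at h4
    show (y.1, dw y.2.length (ew y.2)) = y
    rw [(dw_ew (mem_allL_of h4)).1]
  unfold vl at h3
  rwa [e] at h3

end Pool.Agent.SWW54
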