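import Mathlib
import Pool.Agent.SWW54.Tab
import Pool.Agent.SWL57.Ex

/-!
# The relations hold
-/

set_option autoImplicit false

namespace Pool.Agent.SWW54

open Pool.Agent.Jac70 hiding rels
open Pool.Agent.SWT85
open Pool.Agent.SWL57 (Rl rels rels0 rels1 rels2 rels3 rels4 rels5 relsE xr xr0 ms RT AllR)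

/-- The check of a list of relations. -/
def r1Ok : List Rl → List Ct → Bool
  | [], _ => true
  | _ :: _, [] => false
  | R :: l, c :: m => ctOk R.k R.k' (xr R) c && r1Ok l m

theorem r1Ok_spec (H : Type) [DecidableEq H] {l : List Rl} {m : List Ct} (h : r1Ok l m = true) :
    ∀ R ∈ l, RT H R.k R.k' (xr R) := by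
  induction l generalizing m with
  | nil => exact fun R hR => absurd hR (List.not_mem_nil)
  | cons R l ih =>
    cases m with
    | nil => exact absurd h (by simp [r1Ok])
    | cons c m =>
      unfold r1Ok at h
      rw [Bool.and_eq_true] at h
      intro R' hR'
      rcases List.mem_cons.1 hR' with rfl | hR'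
      · exact fun p u hp hu => ct_spec h.1 p u hp (tyu_of_tyc hu)
      · exact ih h.2 R' hR'

/-- Certificates. -/
def r1_c0 : List Ct := [
  ⟨1, 1, [⟨1, 384, 0, 0, 0, 0⟩]⟩,
  ⟨1, 1, [⟨1, 386, 0, 0, 0, 0⟩]⟩,
  ⟨1, 1, [⟨1, 388, 0, 0, 0, 0⟩]⟩,
  ⟨1, 1, [⟨1, 390, 0, 0, 0, 0⟩]⟩,
  ⟨1, 1, [⟨1, 391, 0, 0, 0, 0⟩]⟩,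
  ⟨1, 1, [⟨1, 393, 0, 0, 0, 0⟩]⟩,
  ⟨1, 1, [⟨1, 395, 0, 0, 0, 0⟩]⟩,
  ⟨1, 1, [⟨(-1), 387, 0, 0, 0, 0⟩]⟩,
  ⟨1, 1, [⟨1, 865, 0, 0, 0, 0⟩]⟩,
  ⟨1, 1, [⟨(-1), 8, 0, 0, 0, 0⟩]⟩,
  ⟨1, 1, [⟨1, 397, 0, 0, 0, 0⟩]⟩,
  ⟨1, 2, [⟨(-1), 6, 0, 0, 0, 0⟩, ⟨1, 398, 0, 0, 0, 0⟩]⟩,
  ⟨1, 1, [⟨1, 399, 0, 0, 0, 0⟩]⟩,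
  ⟨1, 1, [⟨1, 398, 0, 0, 0, 0⟩]⟩,
  ⟨1, 1, [⟨1, 400, 0, 0, 0, 0⟩]⟩,
  ⟨1, 1, [⟨1, 402, 0, 0, 0, 0⟩]⟩,
  ⟨1, 1, [⟨1, 404, 0, 0, 0, 0⟩]⟩,
  ⟨1, 2, [⟨1, 406, 0, 0, 0, 0⟩, ⟨1, 869, 0, 0, 2, 207105⟩]⟩,
  ⟨1, 1, [⟨1, 408, 0, 0, 0, 0⟩]⟩,
  ⟨1, 1, [⟨1, 410, 0, 0, 0, 0⟩]⟩,
  ⟨1, 1, [⟨1, 412, 0, 0, 0, 0⟩]⟩,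
  ⟨1, 2, [⟨1, 414, 0, 0, 0, 0⟩, ⟨(-1), 868, 1, 202, 0, 0⟩]⟩,
  ⟨1, 1, [⟨(-1), 243, 0, 0, 0, 0⟩]⟩,
  ⟨1, 1, [⟨1, 416, 0, 0, 0, 0⟩]⟩,
  ⟨1, 2, [⟨1, 418, 0, 0, 0, 0⟩, ⟨(-1), 868, 0, 0, 0, 0⟩]⟩,
  ⟨1, 1, [⟨1, 419, 0, 0, 0, 0⟩]⟩,
  ⟨1, 1, [⟨1, 421, 0, 0, 0, 0⟩]⟩,
  ⟨1, 1, [⟨1, 423, 0, 0, 0, 0⟩]⟩,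
  ⟨1, 1, [⟨1, 425, 0, 0, 0, 0⟩]⟩,
  ⟨1, 1, [⟨1, 427, 0, 0, 0, 0⟩]⟩,
  ⟨1, 1, [⟨1, 429, 0, 0, 0, 0⟩]⟩,
  ⟨1, 1, [⟨1, 431, 0, 0, 0, 0⟩]⟩,
  ⟨1, 1, [⟨1, 433, 0, 0, 0, 0⟩]⟩,
  ⟨1, 1, [⟨1, 435, 0, 0, 0, 0⟩]⟩,
  ⟨1, 1, [⟨1, 437, 0, 0, 0, 0⟩]⟩,
  ⟨1, 1, [⟨1, 439, 0, 0, 0, 0⟩]⟩,
  ⟨1, 2, [⟨1, 441, 0, 0, 0, 0⟩, ⟨1, 439, 0, 0, 0, 0⟩]⟩,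
  ⟨1, 1, [⟨1, 443, 0, 0, 0, 0⟩]⟩,
  ⟨1, 2, [⟨1, 445, 0, 0, 0, 0⟩, ⟨1, 868, 0, 0, 3, 144966922⟩]⟩,
  ⟨1, 1, [⟨1, 447, 0, 0, 0, 0⟩]⟩,
  ⟨1, 1, [⟨1, 449, 0, 0, 0, 0⟩]⟩,
  ⟨1, 2, [⟨1, 451, 0, 0, 0, 0⟩, ⟨1, 449, 0, 0, 0, 0⟩]⟩,
  ⟨1, 1, [⟨1, 453, 0, 0, 0, 0⟩]⟩,
  ⟨1, 2, [⟨1, 455, 0, 0, 0, 0⟩, ⟨1, 868, 0, 0, 2, 141569⟩]⟩,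
  ⟨1, 1, [⟨1, 411, 0, 0, 0, 0⟩]⟩,
  ⟨1, 1, [⟨(-1), 413, 0, 0, 0, 0⟩]⟩,
  ⟨1, 2, [⟨1, 62, 0, 0, 0, 0⟩, ⟨(-1), 413, 0, 0, 0, 0⟩]⟩,
  ⟨1, 2, [⟨1, 457, 0, 0, 0, 0⟩, ⟨1, 869, 1, 138, 0, 0⟩]⟩,
  ⟨1, 1, [⟨(-1), 261, 0, 0, 0, 0⟩]⟩,
  ⟨1, 1, [⟨1, 866, 0, 0, 0, 0⟩]⟩,
  ⟨1, 1, [⟨1, 459, 0, 0, 0, 0⟩]⟩,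
  ⟨1, 1, [⟨1, 460, 0, 0, 0, 0⟩]⟩,
  ⟨1, 1, [⟨1, 461, 0, 0, 0, 0⟩]⟩,
  ⟨1, 2, [⟨(-1), 29, 0, 0, 0, 0⟩, ⟨1, 462, 0, 0, 0, 0⟩]⟩,
  ⟨1, 2, [⟨1, 463, 0, 0, 0, 0⟩, ⟨1, 464, 0, 0, 0, 0⟩]⟩,
  ⟨1, 1, [⟨(-1), 462, 0, 0, 0, 0⟩]⟩,
  ⟨1, 2, [⟨(-1), 37, 0, 0, 0, 0⟩, ⟨1, 465, 0, 0, 0, 0⟩]⟩,
  ⟨1, 2, [⟨1, 466, 0, 0, 0, 0⟩, ⟨1, 467, 0, 0, 0, 0⟩]⟩,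
  ⟨1, 1, [⟨1, 465, 0, 0, 0, 0⟩]⟩,
  ⟨1, 2, [⟨(-1), 60, 0, 0, 0, 0⟩, ⟨1, 468, 0, 0, 0, 0⟩]⟩]

theorem r1_t0 : r1Ok rels0 r1_c0 = true := by decide +kernel

/-- Certificates. -/
def r1_c1 : List Ct := [
  ⟨1, 2, [⟨1, 469, 0, 0, 0, 0⟩, ⟨1, 470, 0, 0, 0, 0⟩]⟩,
  ⟨1, 1, [⟨1, 468, 0, 0, 0, 0⟩]⟩,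
  ⟨1, 2, [⟨(-1), 25, 0, 0, 0, 0⟩, ⟨(-1), 274, 0, 0, 0, 0⟩, ⟨(-1), 250, 0, 0, 0, 0⟩]⟩,
  ⟨1, 2, [⟨1, 471, 0, 0, 0, 0⟩, ⟨(-1), 259, 0, 0, 0, 0⟩]⟩,
  ⟨1, 2, [⟨1, 472, 0, 0, 0, 0⟩, ⟨(-1), 259, 0, 0, 0, 0⟩]⟩,
  ⟨1, 1, [⟨(-1), 274, 0, 0, 0, 0⟩]⟩,
  ⟨1, 1, [⟨(-1), 250, 0, 0, 0, 0⟩]⟩,
  ⟨1, 1, [⟨(-1), 259, 0, 0, 0, 0⟩]⟩,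
  ⟨1, 1, [⟨1, 473, 0, 0, 0, 0⟩]⟩,
  ⟨1, 2, [⟨1, 475, 0, 0, 0, 0⟩, ⟨1, 476, 0, 0, 0, 0⟩]⟩,
  ⟨1, 1, [⟨1, 479, 0, 0, 0, 0⟩]⟩,
  ⟨1, 1, [⟨(-1), 476, 0, 0, 0, 0⟩]⟩,
  ⟨1, 2, [⟨1, 481, 0, 0, 0, 0⟩, ⟨1, 476, 0, 0, 0, 0⟩]⟩,
  ⟨1, 1, [⟨1, 483, 0, 0, 0, 0⟩]⟩,
  ⟨1, 1, [⟨1, 485, 0, 0, 0, 0⟩]⟩,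
  ⟨1, 2, [⟨1, 487, 0, 0, 0, 0⟩, ⟨1, 872, 0, 0, 3, 221522177⟩]⟩,
  ⟨1, 1, [⟨1, 489, 0, 0, 0, 0⟩]⟩,
  ⟨1, 2, [⟨1, 491, 0, 0, 0, 0⟩, ⟨1, 492, 0, 0, 0, 0⟩]⟩,
  ⟨1, 1, [⟨1, 495, 0, 0, 0, 0⟩]⟩,
  ⟨1, 1, [⟨(-1), 492, 0, 0, 0, 0⟩]⟩,
  ⟨1, 2, [⟨1, 497, 0, 0, 0, 0⟩, ⟨1, 492, 0, 0, 0, 0⟩]⟩,
  ⟨1, 1, [⟨1, 499, 0, 0, 0, 0⟩]⟩,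
  ⟨1, 2, [⟨1, 501, 0, 0, 0, 0⟩, ⟨(-1), 869, 2, 216330, 0, 0⟩]⟩,
  ⟨1, 1, [⟨1, 503, 0, 0, 0, 0⟩]⟩,
  ⟨1, 1, [⟨1, 505, 0, 0, 0, 0⟩]⟩,
  ⟨1, 2, [⟨1, 507, 0, 0, 0, 0⟩, ⟨1, 508, 0, 0, 0, 0⟩]⟩,
  ⟨1, 1, [⟨1, 511, 0, 0, 0, 0⟩]⟩,
  ⟨1, 1, [⟨(-1), 508, 0, 0, 0, 0⟩]⟩,
  ⟨1, 2, [⟨1, 513, 0, 0, 0, 0⟩, ⟨1, 508, 0, 0, 0, 0⟩]⟩,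
  ⟨1, 1, [⟨1, 515, 0, 0, 0, 0⟩]⟩,
  ⟨1, 2, [⟨1, 517, 0, 0, 0, 0⟩, ⟨(-1), 870, 1, 211, 0, 0⟩]⟩,
  ⟨1, 1, [⟨(-1), 271, 0, 0, 0, 0⟩]⟩,
  ⟨1, 1, [⟨1, 519, 0, 0, 0, 0⟩]⟩,
  ⟨1, 2, [⟨1, 521, 0, 0, 0, 0⟩, ⟨(-1), 870, 0, 0, 0, 0⟩]⟩,
  ⟨1, 2, [⟨1, 522, 0, 0, 0, 0⟩, ⟨1, 869, 1, 266, 0, 0⟩]⟩,
  ⟨1, 1, [⟨1, 524, 0, 0, 0, 0⟩]⟩,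
  ⟨1, 2, [⟨1, 526, 0, 0, 0, 0⟩, ⟨1, 870, 1, 257, 0, 0⟩]⟩,
  ⟨1, 2, [⟨1, 528, 0, 0, 0, 0⟩, ⟨1, 869, 2, 263434, 0, 0⟩]⟩,
  ⟨1, 1, [⟨1, 530, 0, 0, 0, 0⟩]⟩,
  ⟨1, 1, [⟨1, 532, 0, 0, 0, 0⟩]⟩,
  ⟨1, 1, [⟨1, 534, 0, 0, 0, 0⟩]⟩,
  ⟨1, 1, [⟨1, 536, 0, 0, 0, 0⟩]⟩,
  ⟨1, 1, [⟨1, 538, 0, 0, 0, 0⟩]⟩,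
  ⟨1, 1, [⟨1, 540, 0, 0, 0, 0⟩]⟩,
  ⟨1, 1, [⟨1, 542, 0, 0, 0, 0⟩]⟩,
  ⟨1, 1, [⟨1, 544, 0, 0, 0, 0⟩]⟩,
  ⟨1, 1, [⟨1, 546, 0, 0, 0, 0⟩]⟩,
  ⟨1, 1, [⟨1, 548, 0, 0, 0, 0⟩]⟩,
  ⟨1, 1, [⟨1, 550, 0, 0, 0, 0⟩]⟩,
  ⟨1, 1, [⟨1, 552, 0, 0, 0, 0⟩]⟩,
  ⟨1, 1, [⟨1, 554, 0, 0, 0, 0⟩]⟩,
  ⟨1, 1, [⟨1, 556, 0, 0, 0, 0⟩]⟩,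
  ⟨1, 1, [⟨1, 558, 0, 0, 0, 0⟩]⟩,
  ⟨1, 1, [⟨1, 560, 0, 0, 0, 0⟩]⟩,
  ⟨1, 1, [⟨1, 562, 0, 0, 0, 0⟩]⟩,
  ⟨1, 1, [⟨1, 564, 0, 0, 0, 0⟩]⟩,
  ⟨1, 1, [⟨1, 566, 0, 0, 0, 0⟩]⟩,
  ⟨1, 1, [⟨1, 568, 0, 0, 0, 0⟩]⟩,
  ⟨1, 1, [⟨1, 570, 0, 0, 0, 0⟩]⟩,
  ⟨1, 1, [⟨1, 572, 0, 0, 0, 0⟩]⟩]

theorem r1_t1 : r1Ok rels1 r1_c1 = true := by decide +kernel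

/-- Certificates. -/
def r1_c2 : List Ct := [
  ⟨1, 1, [⟨1, 574, 0, 0, 0, 0⟩]⟩,
  ⟨1, 1, [⟨1, 576, 0, 0, 0, 0⟩]⟩,
  ⟨1, 1, [⟨1, 578, 0, 0, 0, 0⟩]⟩,
  ⟨1, 1, [⟨1, 580, 0, 0, 0, 0⟩]⟩,
  ⟨1, 1, [⟨1, 582, 0, 0, 0, 0⟩]⟩,
  ⟨1, 1, [⟨1, 584, 0, 0, 0, 0⟩]⟩,
  ⟨1, 1, [⟨1, 586, 0, 0, 0, 0⟩]⟩,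
  ⟨1, 1, [⟨1, 588, 0, 0, 0, 0⟩]⟩,
  ⟨1, 1, [⟨1, 590, 0, 0, 0, 0⟩]⟩,
  ⟨1, 1, [⟨1, 592, 0, 0, 0, 0⟩]⟩,
  ⟨1, 1, [⟨1, 594, 0, 0, 0, 0⟩]⟩,
  ⟨1, 1, [⟨1, 596, 0, 0, 0, 0⟩]⟩,
  ⟨1, 2, [⟨1, 598, 0, 0, 0, 0⟩, ⟨1, 599, 0, 0, 0, 0⟩]⟩,
  ⟨1, 1, [⟨1, 602, 0, 0, 0, 0⟩]⟩,
  ⟨1, 1, [⟨1, 599, 0, 0, 0, 0⟩]⟩,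
  ⟨1, 2, [⟨1, 604, 0, 0, 0, 0⟩, ⟨1, 599, 0, 0, 0, 0⟩]⟩,
  ⟨1, 1, [⟨1, 606, 0, 0, 0, 0⟩]⟩,
  ⟨1, 2, [⟨1, 608, 0, 0, 0, 0⟩, ⟨1, 602, 0, 0, 0, 0⟩, ⟨1, 606, 0, 0, 0, 0⟩]⟩,
  ⟨1, 1, [⟨1, 610, 0, 0, 0, 0⟩]⟩,
  ⟨1, 2, [⟨1, 612, 0, 0, 0, 0⟩, ⟨1, 870, 0, 0, 5, 161914094374154⟩]⟩,
  ⟨1, 2, [⟨1, 614, 0, 0, 0, 0⟩, ⟨1, 615, 0, 0, 0, 0⟩]⟩,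
  ⟨1, 1, [⟨1, 618, 0, 0, 0, 0⟩]⟩,
  ⟨1, 1, [⟨1, 615, 0, 0, 0, 0⟩]⟩,
  ⟨1, 2, [⟨1, 620, 0, 0, 0, 0⟩, ⟨1, 615, 0, 0, 0, 0⟩]⟩,
  ⟨1, 1, [⟨1, 622, 0, 0, 0, 0⟩]⟩,
  ⟨1, 2, [⟨1, 624, 0, 0, 0, 0⟩, ⟨1, 618, 0, 0, 0, 0⟩, ⟨1, 622, 0, 0, 0, 0⟩]⟩,
  ⟨1, 1, [⟨1, 626, 0, 0, 0, 0⟩]⟩,
  ⟨1, 2, [⟨1, 628, 0, 0, 0, 0⟩, ⟨1, 870, 0, 0, 4, 158119232787⟩]⟩,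
  ⟨1, 2, [⟨1, 630, 0, 0, 0, 0⟩, ⟨1, 631, 0, 0, 0, 0⟩]⟩,
  ⟨1, 1, [⟨1, 634, 0, 0, 0, 0⟩]⟩,
  ⟨1, 1, [⟨1, 631, 0, 0, 0, 0⟩]⟩,
  ⟨1, 2, [⟨1, 636, 0, 0, 0, 0⟩, ⟨1, 631, 0, 0, 0, 0⟩]⟩,
  ⟨1, 1, [⟨1, 638, 0, 0, 0, 0⟩]⟩,
  ⟨1, 2, [⟨1, 640, 0, 0, 0, 0⟩, ⟨1, 634, 0, 0, 0, 0⟩, ⟨1, 638, 0, 0, 0, 0⟩]⟩,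
  ⟨1, 1, [⟨1, 642, 0, 0, 0, 0⟩]⟩,
  ⟨1, 2, [⟨1, 644, 0, 0, 0, 0⟩, ⟨1, 870, 0, 0, 3, 154413313⟩]⟩,
  ⟨1, 2, [⟨1, 646, 0, 0, 0, 0⟩, ⟨1, 647, 0, 0, 0, 0⟩]⟩,
  ⟨1, 1, [⟨1, 650, 0, 0, 0, 0⟩]⟩,
  ⟨1, 1, [⟨1, 647, 0, 0, 0, 0⟩]⟩,
  ⟨1, 2, [⟨1, 652, 0, 0, 0, 0⟩, ⟨1, 647, 0, 0, 0, 0⟩]⟩,
  ⟨1, 1, [⟨1, 654, 0, 0, 0, 0⟩]⟩,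
  ⟨1, 2, [⟨1, 656, 0, 0, 0, 0⟩, ⟨1, 650, 0, 0, 0, 0⟩, ⟨1, 654, 0, 0, 0, 0⟩]⟩,
  ⟨1, 2, [⟨1, 658, 0, 0, 0, 0⟩, ⟨1, 871, 3, 154413331, 0, 0⟩]⟩,
  ⟨1, 1, [⟨1, 660, 0, 0, 0, 0⟩]⟩,
  ⟨1, 2, [⟨1, 662, 0, 0, 0, 0⟩, ⟨1, 663, 0, 0, 0, 0⟩]⟩,
  ⟨1, 1, [⟨1, 666, 0, 0, 0, 0⟩]⟩,
  ⟨1, 1, [⟨1, 663, 0, 0, 0, 0⟩]⟩,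
  ⟨1, 2, [⟨1, 668, 0, 0, 0, 0⟩, ⟨1, 663, 0, 0, 0, 0⟩]⟩,
  ⟨1, 1, [⟨1, 670, 0, 0, 0, 0⟩]⟩,
  ⟨1, 2, [⟨1, 672, 0, 0, 0, 0⟩, ⟨1, 666, 0, 0, 0, 0⟩, ⟨1, 670, 0, 0, 0, 0⟩]⟩,
  ⟨1, 2, [⟨1, 674, 0, 0, 0, 0⟩, ⟨1, 871, 2, 150794, 0, 0⟩]⟩,
  ⟨1, 1, [⟨1, 676, 0, 0, 0, 0⟩]⟩,
  ⟨1, 2, [⟨1, 509, 0, 0, 0, 0⟩, ⟨1, 510, 0, 0, 0, 0⟩]⟩,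
  ⟨1, 1, [⟨(-1), 512, 0, 0, 0, 0⟩]⟩,
  ⟨1, 1, [⟨1, 510, 0, 0, 0, 0⟩]⟩,
  ⟨1, 2, [⟨1, 514, 0, 0, 0, 0⟩, ⟨1, 510, 0, 0, 0, 0⟩]⟩,
  ⟨1, 1, [⟨(-1), 516, 0, 0, 0, 0⟩]⟩,
  ⟨1, 2, [⟨1, 208, 0, 0, 0, 0⟩, ⟨(-1), 512, 0, 0, 0, 0⟩, ⟨(-1), 516, 0, 0, 0, 0⟩]⟩,
  ⟨1, 2, [⟨1, 678, 0, 0, 0, 0⟩, ⟨1, 872, 1, 147, 0, 0⟩]⟩,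
  ⟨1, 1, [⟨(-1), 319, 0, 0, 0, 0⟩]⟩]

theorem r1_t2 : r1Ok rels2 r1_c2 = true := by decide +kernel

/-- Certificates. -/
def r1_c3 : List Ct := [
  ⟨1, 1, [⟨1, 867, 0, 0, 0, 0⟩]⟩,
  ⟨1, 2, [⟨1, 680, 0, 0, 0, 0⟩, ⟨1, 681, 0, 0, 0, 0⟩]⟩,
  ⟨1, 2, [⟨1, 682, 0, 0, 0, 0⟩, ⟨1, 683, 0, 0, 0, 0⟩]⟩,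
  ⟨1, 2, [⟨1, 684, 0, 0, 0, 0⟩, ⟨1, 685, 0, 0, 0, 0⟩]⟩,
  ⟨1, 2, [⟨1, 686, 0, 0, 0, 0⟩, ⟨(-1), 683, 0, 0, 0, 0⟩]⟩,
  ⟨1, 2, [⟨1, 687, 0, 0, 0, 0⟩, ⟨(-1), 681, 0, 0, 0, 0⟩]⟩,
  ⟨1, 2, [⟨1, 688, 0, 0, 0, 0⟩, ⟨1, 685, 0, 0, 0, 0⟩]⟩,
  ⟨1, 2, [⟨1, 689, 0, 0, 0, 0⟩, ⟨(-1), 685, 0, 0, 0, 0⟩]⟩,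
  ⟨1, 2, [⟨1, 690, 0, 0, 0, 0⟩, ⟨(-1), 681, 0, 0, 0, 0⟩]⟩,
  ⟨1, 2, [⟨1, 691, 0, 0, 0, 0⟩, ⟨1, 683, 0, 0, 0, 0⟩]⟩,
  ⟨1, 2, [⟨1, 692, 0, 0, 0, 0⟩, ⟨(-1), 685, 0, 0, 0, 0⟩]⟩,
  ⟨1, 2, [⟨1, 693, 0, 0, 0, 0⟩, ⟨(-1), 683, 0, 0, 0, 0⟩]⟩,
  ⟨1, 2, [⟨1, 694, 0, 0, 0, 0⟩, ⟨1, 681, 0, 0, 0, 0⟩]⟩,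
  ⟨1, 2, [⟨(-1), 99, 0, 0, 0, 0⟩, ⟨1, 695, 0, 0, 0, 0⟩, ⟨1, 696, 0, 0, 0, 0⟩]⟩,
  ⟨1, 3, [⟨1, 697, 0, 0, 0, 0⟩, ⟨1, 698, 0, 0, 0, 0⟩, ⟨1, 699, 0, 0, 0, 0⟩, ⟨1, 700, 0, 0, 0, 0⟩]⟩,
  ⟨1, 1, [⟨(-1), 695, 0, 0, 0, 0⟩]⟩,
  ⟨1, 1, [⟨(-1), 696, 0, 0, 0, 0⟩]⟩,
  ⟨1, 2, [⟨(-1), 113, 0, 0, 0, 0⟩, ⟨1, 701, 0, 0, 0, 0⟩, ⟨1, 702, 0, 0, 0, 0⟩]⟩,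
  ⟨1, 3, [⟨1, 703, 0, 0, 0, 0⟩, ⟨1, 704, 0, 0, 0, 0⟩, ⟨1, 705, 0, 0, 0, 0⟩, ⟨1, 706, 0, 0, 0, 0⟩]⟩,
  ⟨1, 1, [⟨1, 701, 0, 0, 0, 0⟩]⟩,
  ⟨1, 1, [⟨(-1), 702, 0, 0, 0, 0⟩]⟩,
  ⟨1, 2, [⟨(-1), 127, 0, 0, 0, 0⟩, ⟨1, 707, 0, 0, 0, 0⟩, ⟨1, 708, 0, 0, 0, 0⟩]⟩,
  ⟨1, 3, [⟨1, 709, 0, 0, 0, 0⟩, ⟨1, 710, 0, 0, 0, 0⟩, ⟨1, 711, 0, 0, 0, 0⟩, ⟨1, 712, 0, 0, 0, 0⟩]⟩,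
  ⟨1, 1, [⟨1, 707, 0, 0, 0, 0⟩]⟩,
  ⟨1, 1, [⟨1, 708, 0, 0, 0, 0⟩]⟩,
  ⟨1, 2, [⟨(-1), 160, 0, 0, 0, 0⟩, ⟨1, 713, 0, 0, 0, 0⟩, ⟨1, 714, 0, 0, 0, 0⟩]⟩,
  ⟨1, 3, [⟨1, 715, 0, 0, 0, 0⟩, ⟨1, 716, 0, 0, 0, 0⟩, ⟨1, 717, 0, 0, 0, 0⟩, ⟨1, 718, 0, 0, 0, 0⟩]⟩,
  ⟨1, 1, [⟨1, 713, 0, 0, 0, 0⟩]⟩,
  ⟨1, 1, [⟨(-1), 714, 0, 0, 0, 0⟩]⟩,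
  ⟨1, 2, [⟨(-1), 173, 0, 0, 0, 0⟩, ⟨1, 719, 0, 0, 0, 0⟩, ⟨1, 720, 0, 0, 0, 0⟩]⟩,
  ⟨1, 3, [⟨1, 721, 0, 0, 0, 0⟩, ⟨1, 722, 0, 0, 0, 0⟩, ⟨1, 723, 0, 0, 0, 0⟩, ⟨1, 724, 0, 0, 0, 0⟩]⟩,
  ⟨1, 1, [⟨1, 719, 0, 0, 0, 0⟩]⟩,
  ⟨1, 1, [⟨1, 720, 0, 0, 0, 0⟩]⟩,
  ⟨1, 2, [⟨(-1), 205, 0, 0, 0, 0⟩, ⟨1, 725, 0, 0, 0, 0⟩, ⟨1, 726, 0, 0, 0, 0⟩]⟩,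
  ⟨1, 3, [⟨1, 727, 0, 0, 0, 0⟩, ⟨1, 728, 0, 0, 0, 0⟩, ⟨1, 729, 0, 0, 0, 0⟩, ⟨1, 730, 0, 0, 0, 0⟩]⟩,
  ⟨1, 1, [⟨1, 725, 0, 0, 0, 0⟩]⟩,
  ⟨1, 1, [⟨1, 726, 0, 0, 0, 0⟩]⟩,
  ⟨1, 1, [⟨1, 685, 0, 0, 0, 0⟩]⟩,
  ⟨1, 1, [⟨1, 683, 0, 0, 0, 0⟩]⟩,
  ⟨1, 1, [⟨1, 681, 0, 0, 0, 0⟩]⟩,
  ⟨1, 3, [⟨(-1), 92, 0, 0, 0, 0⟩, ⟨(-1), 328, 0, 0, 0, 0⟩, ⟨(-1), 292, 0, 0, 0, 0⟩, ⟨(-1), 296, 0, 0, 0, 0⟩]⟩,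
  ⟨1, 2, [⟨1, 731, 0, 0, 0, 0⟩, ⟨(-1), 303, 0, 0, 0, 0⟩, ⟨(-1), 307, 0, 0, 0, 0⟩]⟩,
  ⟨1, 2, [⟨1, 732, 0, 0, 0, 0⟩, ⟨(-1), 303, 0, 0, 0, 0⟩, ⟨(-1), 317, 0, 0, 0, 0⟩]⟩,
  ⟨1, 2, [⟨1, 733, 0, 0, 0, 0⟩, ⟨(-1), 307, 0, 0, 0, 0⟩, ⟨(-1), 317, 0, 0, 0, 0⟩]⟩,
  ⟨1, 1, [⟨(-1), 328, 0, 0, 0, 0⟩]⟩,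
  ⟨1, 1, [⟨(-1), 292, 0, 0, 0, 0⟩]⟩,
  ⟨1, 1, [⟨(-1), 296, 0, 0, 0, 0⟩]⟩,
  ⟨1, 1, [⟨(-1), 303, 0, 0, 0, 0⟩]⟩,
  ⟨1, 1, [⟨(-1), 307, 0, 0, 0, 0⟩]⟩,
  ⟨1, 1, [⟨(-1), 317, 0, 0, 0, 0⟩]⟩,
  ⟨1, 1, [⟨1, 734, 0, 0, 0, 0⟩]⟩,
  ⟨1, 1, [⟨1, 736, 0, 0, 0, 0⟩]⟩,
  ⟨1, 1, [⟨1, 738, 0, 0, 0, 0⟩]⟩,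
  ⟨1, 1, [⟨1, 740, 0, 0, 0, 0⟩]⟩,
  ⟨1, 1, [⟨1, 742, 0, 0, 0, 0⟩]⟩,
  ⟨1, 1, [⟨1, 744, 0, 0, 0, 0⟩]⟩,
  ⟨1, 1, [⟨1, 746, 0, 0, 0, 0⟩]⟩,
  ⟨1, 1, [⟨1, 748, 0, 0, 0, 0⟩]⟩,
  ⟨1, 1, [⟨1, 750, 0, 0, 0, 0⟩]⟩,
  ⟨1, 1, [⟨1, 752, 0, 0, 0, 0⟩]⟩]

theorem r1_t3 : r1Ok rels3 r1_c3 = true := by decide +kernel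

/-- Certificates. -/
def r1_c4 : List Ct := [
  ⟨1, 1, [⟨1, 754, 0, 0, 0, 0⟩]⟩,
  ⟨1, 1, [⟨1, 756, 0, 0, 0, 0⟩]⟩,
  ⟨1, 1, [⟨1, 758, 0, 0, 0, 0⟩]⟩,
  ⟨1, 1, [⟨1, 760, 0, 0, 0, 0⟩]⟩,
  ⟨1, 1, [⟨1, 762, 0, 0, 0, 0⟩]⟩,
  ⟨1, 1, [⟨1, 764, 0, 0, 0, 0⟩]⟩,
  ⟨1, 1, [⟨1, 766, 0, 0, 0, 0⟩]⟩,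
  ⟨1, 1, [⟨1, 768, 0, 0, 0, 0⟩]⟩,
  ⟨1, 1, [⟨1, 770, 0, 0, 0, 0⟩]⟩,
  ⟨1, 1, [⟨1, 772, 0, 0, 0, 0⟩]⟩,
  ⟨1, 1, [⟨1, 774, 0, 0, 0, 0⟩]⟩,
  ⟨1, 1, [⟨1, 776, 0, 0, 0, 0⟩]⟩,
  ⟨1, 1, [⟨1, 778, 0, 0, 0, 0⟩]⟩,
  ⟨1, 1, [⟨1, 780, 0, 0, 0, 0⟩]⟩,
  ⟨1, 1, [⟨1, 782, 0, 0, 0, 0⟩]⟩,
  ⟨1, 1, [⟨1, 784, 0, 0, 0, 0⟩]⟩,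
  ⟨1, 1, [⟨1, 786, 0, 0, 0, 0⟩]⟩,
  ⟨1, 1, [⟨1, 788, 0, 0, 0, 0⟩]⟩,
  ⟨1, 2, [⟨(-1), 239, 0, 0, 0, 0⟩, ⟨1, 868, 1, 257, 0, 0⟩]⟩,
  ⟨1, 1, [⟨1, 790, 0, 0, 0, 0⟩]⟩,
  ⟨1, 2, [⟨(-1), 10, 0, 0, 0, 0⟩, ⟨1, 790, 0, 0, 0, 0⟩]⟩,
  ⟨1, 2, [⟨(-1), 11, 0, 0, 0, 0⟩, ⟨1, 790, 0, 0, 0, 0⟩]⟩,
  ⟨1, 1, [⟨1, 389, 0, 0, 0, 0⟩]⟩,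
  ⟨1, 0, []⟩,
  ⟨1, 1, [⟨1, 791, 0, 0, 0, 0⟩]⟩,
  ⟨1, 1, [⟨1, 793, 0, 0, 0, 0⟩]⟩,
  ⟨1, 1, [⟨1, 795, 0, 0, 0, 0⟩]⟩,
  ⟨1, 1, [⟨1, 797, 0, 0, 0, 0⟩]⟩,
  ⟨1, 0, []⟩,
  ⟨1, 0, []⟩,
  ⟨1, 1, [⟨1, 417, 0, 0, 0, 0⟩]⟩,
  ⟨1, 2, [⟨(-1), 249, 0, 0, 0, 0⟩, ⟨1, 869, 1, 257, 0, 0⟩]⟩,
  ⟨1, 1, [⟨1, 263, 0, 0, 0, 0⟩]⟩,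
  ⟨1, 2, [⟨(-1), 31, 0, 0, 0, 0⟩, ⟨1, 799, 0, 0, 0, 0⟩, ⟨1, 800, 0, 0, 0, 0⟩]⟩,
  ⟨1, 2, [⟨(-1), 63, 0, 0, 0, 0⟩, ⟨1, 802, 0, 0, 0, 0⟩, ⟨1, 803, 0, 0, 0, 0⟩]⟩,
  ⟨1, 2, [⟨(-1), 32, 0, 0, 0, 0⟩, ⟨1, 799, 0, 0, 0, 0⟩, ⟨(-1), 801, 0, 0, 0, 0⟩]⟩,
  ⟨1, 2, [⟨(-1), 64, 0, 0, 0, 0⟩, ⟨1, 802, 0, 0, 0, 0⟩, ⟨1, 804, 0, 0, 0, 0⟩]⟩,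
  ⟨1, 2, [⟨(-1), 33, 0, 0, 0, 0⟩, ⟨1, 800, 0, 0, 0, 0⟩, ⟨(-1), 801, 0, 0, 0, 0⟩]⟩,
  ⟨1, 2, [⟨(-1), 65, 0, 0, 0, 0⟩, ⟨1, 803, 0, 0, 0, 0⟩, ⟨1, 804, 0, 0, 0, 0⟩]⟩,
  ⟨1, 1, [⟨1, 799, 0, 0, 0, 0⟩]⟩,
  ⟨1, 1, [⟨1, 802, 0, 0, 0, 0⟩]⟩,
  ⟨1, 1, [⟨1, 800, 0, 0, 0, 0⟩]⟩,
  ⟨1, 1, [⟨1, 803, 0, 0, 0, 0⟩]⟩,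
  ⟨1, 1, [⟨(-1), 801, 0, 0, 0, 0⟩]⟩,
  ⟨1, 1, [⟨1, 804, 0, 0, 0, 0⟩]⟩,
  ⟨1, 1, [⟨1, 805, 0, 0, 0, 0⟩]⟩,
  ⟨1, 0, []⟩,
  ⟨1, 0, []⟩,
  ⟨1, 1, [⟨1, 807, 0, 0, 0, 0⟩]⟩,
  ⟨1, 1, [⟨1, 809, 0, 0, 0, 0⟩]⟩,
  ⟨1, 1, [⟨1, 811, 0, 0, 0, 0⟩]⟩,
  ⟨1, 1, [⟨1, 813, 0, 0, 0, 0⟩]⟩,
  ⟨1, 1, [⟨1, 815, 0, 0, 0, 0⟩]⟩,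
  ⟨1, 1, [⟨1, 817, 0, 0, 0, 0⟩]⟩,
  ⟨1, 1, [⟨1, 819, 0, 0, 0, 0⟩]⟩,
  ⟨1, 0, []⟩,
  ⟨1, 1, [⟨1, 821, 0, 0, 0, 0⟩]⟩,
  ⟨1, 1, [⟨1, 823, 0, 0, 0, 0⟩]⟩,
  ⟨1, 1, [⟨1, 825, 0, 0, 0, 0⟩]⟩,
  ⟨1, 0, []⟩]

theorem r1_t4 : r1Ok rels4 r1_c4 = true := by decide +kernel

/-- Certificates. -/
def r1_c5 : List Ct := [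
  ⟨1, 1, [⟨1, 827, 0, 0, 0, 0⟩]⟩,
  ⟨1, 1, [⟨1, 829, 0, 0, 0, 0⟩]⟩,
  ⟨1, 1, [⟨1, 831, 0, 0, 0, 0⟩]⟩,
  ⟨1, 0, []⟩,
  ⟨1, 1, [⟨1, 833, 0, 0, 0, 0⟩]⟩,
  ⟨1, 0, []⟩,
  ⟨1, 1, [⟨(-1), 806, 0, 0, 0, 0⟩]⟩,
  ⟨1, 0, []⟩,
  ⟨1, 1, [⟨1, 520, 0, 0, 0, 0⟩]⟩,
  ⟨1, 2, [⟨(-1), 291, 0, 0, 0, 0⟩, ⟨1, 871, 1, 257, 0, 0⟩]⟩,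
  ⟨1, 1, [⟨1, 305, 0, 0, 0, 0⟩]⟩,
  ⟨1, 1, [⟨1, 321, 0, 0, 0, 0⟩]⟩,
  ⟨1, 3, [⟨(-1), 103, 0, 0, 0, 0⟩, ⟨1, 835, 0, 0, 0, 0⟩, ⟨1, 836, 0, 0, 0, 0⟩, ⟨1, 837, 0, 0, 0, 0⟩]⟩,
  ⟨1, 3, [⟨(-1), 162, 0, 0, 0, 0⟩, ⟨1, 840, 0, 0, 0, 0⟩, ⟨1, 841, 0, 0, 0, 0⟩, ⟨1, 842, 0, 0, 0, 0⟩]⟩,
  ⟨1, 3, [⟨(-1), 210, 0, 0, 0, 0⟩, ⟨1, 843, 0, 0, 0, 0⟩, ⟨1, 844, 0, 0, 0, 0⟩, ⟨1, 845, 0, 0, 0, 0⟩]⟩,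
  ⟨1, 3, [⟨(-1), 104, 0, 0, 0, 0⟩, ⟨1, 835, 0, 0, 0, 0⟩, ⟨(-1), 838, 0, 0, 0, 0⟩, ⟨(-1), 839, 0, 0, 0, 0⟩]⟩,
  ⟨1, 3, [⟨(-1), 163, 0, 0, 0, 0⟩, ⟨1, 840, 0, 0, 0, 0⟩, ⟨1, 846, 0, 0, 0, 0⟩, ⟨1, 847, 0, 0, 0, 0⟩]⟩,
  ⟨1, 3, [⟨(-1), 211, 0, 0, 0, 0⟩, ⟨1, 843, 0, 0, 0, 0⟩, ⟨1, 849, 0, 0, 0, 0⟩, ⟨1, 850, 0, 0, 0, 0⟩]⟩,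
  ⟨1, 3, [⟨(-1), 105, 0, 0, 0, 0⟩, ⟨1, 836, 0, 0, 0, 0⟩, ⟨(-1), 838, 0, 0, 0, 0⟩, ⟨1, 851, 0, 0, 0, 0⟩]⟩,
  ⟨1, 3, [⟨(-1), 164, 0, 0, 0, 0⟩, ⟨1, 841, 0, 0, 0, 0⟩, ⟨1, 846, 0, 0, 0, 0⟩, ⟨(-1), 848, 0, 0, 0, 0⟩]⟩,
  ⟨1, 3, [⟨(-1), 212, 0, 0, 0, 0⟩, ⟨1, 844, 0, 0, 0, 0⟩, ⟨1, 849, 0, 0, 0, 0⟩, ⟨1, 852, 0, 0, 0, 0⟩]⟩,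
  ⟨1, 3, [⟨(-1), 106, 0, 0, 0, 0⟩, ⟨1, 837, 0, 0, 0, 0⟩, ⟨(-1), 839, 0, 0, 0, 0⟩, ⟨1, 851, 0, 0, 0, 0⟩]⟩,
  ⟨1, 3, [⟨(-1), 165, 0, 0, 0, 0⟩, ⟨1, 842, 0, 0, 0, 0⟩, ⟨1, 847, 0, 0, 0, 0⟩, ⟨(-1), 848, 0, 0, 0, 0⟩]⟩,
  ⟨1, 3, [⟨(-1), 213, 0, 0, 0, 0⟩, ⟨1, 845, 0, 0, 0, 0⟩, ⟨1, 850, 0, 0, 0, 0⟩, ⟨1, 852, 0, 0, 0, 0⟩]⟩,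
  ⟨1, 1, [⟨1, 835, 0, 0, 0, 0⟩]⟩,
  ⟨1, 1, [⟨1, 840, 0, 0, 0, 0⟩]⟩,
  ⟨1, 1, [⟨1, 843, 0, 0, 0, 0⟩]⟩,
  ⟨1, 1, [⟨1, 836, 0, 0, 0, 0⟩]⟩,
  ⟨1, 1, [⟨1, 841, 0, 0, 0, 0⟩]⟩,
  ⟨1, 1, [⟨1, 844, 0, 0, 0, 0⟩]⟩,
  ⟨1, 1, [⟨1, 837, 0, 0, 0, 0⟩]⟩,
  ⟨1, 1, [⟨1, 842, 0, 0, 0, 0⟩]⟩,
  ⟨1, 1, [⟨1, 845, 0, 0, 0, 0⟩]⟩,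
  ⟨1, 1, [⟨(-1), 838, 0, 0, 0, 0⟩]⟩,
  ⟨1, 1, [⟨1, 846, 0, 0, 0, 0⟩]⟩,
  ⟨1, 1, [⟨1, 849, 0, 0, 0, 0⟩]⟩,
  ⟨1, 1, [⟨(-1), 839, 0, 0, 0, 0⟩]⟩,
  ⟨1, 1, [⟨1, 847, 0, 0, 0, 0⟩]⟩,
  ⟨1, 1, [⟨1, 850, 0, 0, 0, 0⟩]⟩,
  ⟨1, 1, [⟨1, 851, 0, 0, 0, 0⟩]⟩,
  ⟨1, 1, [⟨(-1), 848, 0, 0, 0, 0⟩]⟩,
  ⟨1, 1, [⟨1, 852, 0, 0, 0, 0⟩]⟩]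

theorem r1_t5 : r1Ok rels5 r1_c5 = true := by decide +kernel

theorem r1_all (H : Type) [DecidableEq H] : ∀ R ∈ rels, RT H R.k R.k' (xr R) := by
  intro R hR
  unfold rels at hR
  simp only [List.mem_append] at hR
  rcases hR with h | h | h | h | h | h
  · exact r1Ok_spec H r1_t0 R h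
  · exact r1Ok_spec H r1_t1 R h
  · exact r1Ok_spec H r1_t2 R h
  · exact r1Ok_spec H r1_t3 R h
  · exact r1Ok_spec H r1_t4 R h
  · exact r1Ok_spec H r1_t5 R h

end Pool.Agent.SWW54
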