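import Mathlib
import Pool.Agent.SWW54.Tab
import Pool.Agent.SWL57.Ex

/-!
# The mirror images of the relations hold
-/

set_option autoImplicit false

namespace Pool.Agent.SWW54

open Pool.Agent.Jac70 hiding rels
open Pool.Agent.SWT85
open Pool.Agent.SWL57 (Rl rels rels0 rels1 rels2 rels3 rels4 rels5 relsE xr xr0 ms RT AllR)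

/-- The check of a list of relations. -/
def r2Ok : List Rl → List Ct → Bool
  | [], _ => true
  | _ :: _, [] => false
  | R :: l, c :: m => ctOk R.k' R.k (ms (xr R)) c && r2Ok l m

theorem r2Ok_spec (H : Type) [DecidableEq H] {l : List Rl} {m : List Ct} (h : r2Ok l m = true) :
    ∀ R ∈ l, RT H R.k' R.k (ms (xr R)) := by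
  induction l generalizing m with
  | nil => exact fun R hR => absurd hR (List.not_mem_nil)
  | cons R l ih =>
    cases m with
    | nil => exact absurd h (by simp [r2Ok])
    | cons c m =>
      unfold r2Ok at h
      rw [Bool.and_eq_true] at h
      intro R' hR'
      rcases List.mem_cons.1 hR' with rfl | hR'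
      · exact fun p u hp hu => ct_spec h.1 p u hp (tyu_of_tyc hu)
      · exact ih h.2 R' hR'

/-- Certificates. -/
def r2_c0 : List Ct := [
  ⟨1, 1, [⟨1, 385, 0, 0, 0, 0⟩]⟩,
  ⟨1, 1, [⟨1, 387, 0, 0, 0, 0⟩]⟩,
  ⟨1, 1, [⟨1, 389, 0, 0, 0, 0⟩]⟩,
  ⟨1, 1, [⟨1, 390, 0, 0, 0, 0⟩]⟩,
  ⟨1, 1, [⟨1, 392, 0, 0, 0, 0⟩]⟩,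
  ⟨1, 1, [⟨1, 394, 0, 0, 0, 0⟩]⟩,
  ⟨1, 1, [⟨1, 396, 0, 0, 0, 0⟩]⟩,
  ⟨1, 1, [⟨(-1), 386, 0, 0, 0, 0⟩]⟩,
  ⟨1, 1, [⟨1, 865, 0, 0, 0, 0⟩]⟩,
  ⟨1, 1, [⟨1, 8, 0, 0, 0, 0⟩]⟩,
  ⟨1, 1, [⟨(-1), 397, 0, 0, 0, 0⟩]⟩,
  ⟨1, 2, [⟨1, 6, 0, 0, 0, 0⟩, ⟨(-1), 398, 0, 0, 0, 0⟩]⟩,
  ⟨1, 1, [⟨(-1), 399, 0, 0, 0, 0⟩]⟩,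
  ⟨1, 1, [⟨(-1), 398, 0, 0, 0, 0⟩]⟩,
  ⟨1, 1, [⟨1, 401, 0, 0, 0, 0⟩]⟩,
  ⟨1, 1, [⟨1, 403, 0, 0, 0, 0⟩]⟩,
  ⟨1, 1, [⟨1, 405, 0, 0, 0, 0⟩]⟩,
  ⟨1, 2, [⟨1, 407, 0, 0, 0, 0⟩, ⟨1, 869, 2, 263306, 0, 0⟩]⟩,
  ⟨1, 1, [⟨1, 409, 0, 0, 0, 0⟩]⟩,
  ⟨1, 1, [⟨1, 411, 0, 0, 0, 0⟩]⟩,
  ⟨1, 1, [⟨1, 413, 0, 0, 0, 0⟩]⟩,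
  ⟨1, 2, [⟨1, 415, 0, 0, 0, 0⟩, ⟨(-1), 868, 0, 0, 1, 138⟩]⟩,
  ⟨1, 1, [⟨1, 261, 0, 0, 0, 0⟩]⟩,
  ⟨1, 1, [⟨1, 417, 0, 0, 0, 0⟩]⟩,
  ⟨1, 2, [⟨1, 418, 0, 0, 0, 0⟩, ⟨(-1), 868, 0, 0, 0, 0⟩]⟩,
  ⟨1, 1, [⟨1, 420, 0, 0, 0, 0⟩]⟩,
  ⟨1, 1, [⟨1, 422, 0, 0, 0, 0⟩]⟩,
  ⟨1, 1, [⟨1, 424, 0, 0, 0, 0⟩]⟩,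
  ⟨1, 1, [⟨1, 426, 0, 0, 0, 0⟩]⟩,
  ⟨1, 1, [⟨1, 428, 0, 0, 0, 0⟩]⟩,
  ⟨1, 1, [⟨1, 430, 0, 0, 0, 0⟩]⟩,
  ⟨1, 1, [⟨1, 432, 0, 0, 0, 0⟩]⟩,
  ⟨1, 1, [⟨1, 434, 0, 0, 0, 0⟩]⟩,
  ⟨1, 1, [⟨1, 436, 0, 0, 0, 0⟩]⟩,
  ⟨1, 1, [⟨1, 438, 0, 0, 0, 0⟩]⟩,
  ⟨1, 1, [⟨1, 440, 0, 0, 0, 0⟩]⟩,
  ⟨1, 2, [⟨1, 442, 0, 0, 0, 0⟩, ⟨1, 440, 0, 0, 0, 0⟩]⟩,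
  ⟨1, 1, [⟨1, 444, 0, 0, 0, 0⟩]⟩,
  ⟨1, 2, [⟨1, 446, 0, 0, 0, 0⟩, ⟨1, 868, 3, 279184586, 0, 0⟩]⟩,
  ⟨1, 1, [⟨1, 448, 0, 0, 0, 0⟩]⟩,
  ⟨1, 1, [⟨1, 450, 0, 0, 0, 0⟩]⟩,
  ⟨1, 2, [⟨1, 452, 0, 0, 0, 0⟩, ⟨1, 450, 0, 0, 0, 0⟩]⟩,
  ⟨1, 1, [⟨1, 454, 0, 0, 0, 0⟩]⟩,
  ⟨1, 2, [⟨1, 456, 0, 0, 0, 0⟩, ⟨1, 868, 2, 263370, 0, 0⟩]⟩,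
  ⟨1, 1, [⟨1, 410, 0, 0, 0, 0⟩]⟩,
  ⟨1, 1, [⟨(-1), 412, 0, 0, 0, 0⟩]⟩,
  ⟨1, 2, [⟨(-1), 20, 0, 0, 0, 0⟩, ⟨(-1), 412, 0, 0, 0, 0⟩]⟩,
  ⟨1, 2, [⟨1, 458, 0, 0, 0, 0⟩, ⟨1, 869, 0, 0, 1, 202⟩]⟩,
  ⟨1, 1, [⟨1, 243, 0, 0, 0, 0⟩]⟩,
  ⟨1, 1, [⟨1, 866, 0, 0, 0, 0⟩]⟩,
  ⟨1, 1, [⟨(-1), 459, 0, 0, 0, 0⟩]⟩,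
  ⟨1, 1, [⟨(-1), 460, 0, 0, 0, 0⟩]⟩,
  ⟨1, 1, [⟨(-1), 461, 0, 0, 0, 0⟩]⟩,
  ⟨1, 2, [⟨1, 29, 0, 0, 0, 0⟩, ⟨(-1), 462, 0, 0, 0, 0⟩]⟩,
  ⟨1, 2, [⟨(-1), 463, 0, 0, 0, 0⟩, ⟨(-1), 464, 0, 0, 0, 0⟩]⟩,
  ⟨1, 1, [⟨1, 462, 0, 0, 0, 0⟩]⟩,
  ⟨1, 2, [⟨1, 37, 0, 0, 0, 0⟩, ⟨(-1), 465, 0, 0, 0, 0⟩]⟩,
  ⟨1, 2, [⟨(-1), 466, 0, 0, 0, 0⟩, ⟨(-1), 467, 0, 0, 0, 0⟩]⟩,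
  ⟨1, 1, [⟨(-1), 465, 0, 0, 0, 0⟩]⟩,
  ⟨1, 2, [⟨1, 60, 0, 0, 0, 0⟩, ⟨(-1), 468, 0, 0, 0, 0⟩]⟩]

theorem r2_t0 : r2Ok rels0 r2_c0 = true := by decide +kernel

/-- Certificates. -/
def r2_c1 : List Ct := [
  ⟨1, 2, [⟨(-1), 469, 0, 0, 0, 0⟩, ⟨(-1), 470, 0, 0, 0, 0⟩]⟩,
  ⟨1, 1, [⟨(-1), 468, 0, 0, 0, 0⟩]⟩,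
  ⟨1, 2, [⟨1, 25, 0, 0, 0, 0⟩, ⟨1, 274, 0, 0, 0, 0⟩, ⟨1, 250, 0, 0, 0, 0⟩]⟩,
  ⟨1, 2, [⟨(-1), 471, 0, 0, 0, 0⟩, ⟨1, 259, 0, 0, 0, 0⟩]⟩,
  ⟨1, 2, [⟨(-1), 472, 0, 0, 0, 0⟩, ⟨1, 259, 0, 0, 0, 0⟩]⟩,
  ⟨1, 1, [⟨1, 274, 0, 0, 0, 0⟩]⟩,
  ⟨1, 1, [⟨1, 250, 0, 0, 0, 0⟩]⟩,
  ⟨1, 1, [⟨1, 259, 0, 0, 0, 0⟩]⟩,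
  ⟨1, 1, [⟨1, 474, 0, 0, 0, 0⟩]⟩,
  ⟨1, 2, [⟨1, 477, 0, 0, 0, 0⟩, ⟨1, 478, 0, 0, 0, 0⟩]⟩,
  ⟨1, 1, [⟨1, 480, 0, 0, 0, 0⟩]⟩,
  ⟨1, 1, [⟨(-1), 478, 0, 0, 0, 0⟩]⟩,
  ⟨1, 2, [⟨1, 482, 0, 0, 0, 0⟩, ⟨1, 478, 0, 0, 0, 0⟩]⟩,
  ⟨1, 1, [⟨1, 484, 0, 0, 0, 0⟩]⟩,
  ⟨1, 1, [⟨1, 486, 0, 0, 0, 0⟩]⟩,
  ⟨1, 2, [⟨1, 488, 0, 0, 0, 0⟩, ⟨1, 872, 3, 269756563, 0, 0⟩]⟩,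
  ⟨1, 1, [⟨1, 490, 0, 0, 0, 0⟩]⟩,
  ⟨1, 2, [⟨1, 493, 0, 0, 0, 0⟩, ⟨1, 494, 0, 0, 0, 0⟩]⟩,
  ⟨1, 1, [⟨1, 496, 0, 0, 0, 0⟩]⟩,
  ⟨1, 1, [⟨(-1), 494, 0, 0, 0, 0⟩]⟩,
  ⟨1, 2, [⟨1, 498, 0, 0, 0, 0⟩, ⟨1, 494, 0, 0, 0, 0⟩]⟩,
  ⟨1, 1, [⟨1, 500, 0, 0, 0, 0⟩]⟩,
  ⟨1, 2, [⟨1, 502, 0, 0, 0, 0⟩, ⟨(-1), 869, 0, 0, 2, 272531⟩]⟩,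
  ⟨1, 1, [⟨1, 504, 0, 0, 0, 0⟩]⟩,
  ⟨1, 1, [⟨1, 506, 0, 0, 0, 0⟩]⟩,
  ⟨1, 2, [⟨1, 509, 0, 0, 0, 0⟩, ⟨1, 510, 0, 0, 0, 0⟩]⟩,
  ⟨1, 1, [⟨1, 512, 0, 0, 0, 0⟩]⟩,
  ⟨1, 1, [⟨(-1), 510, 0, 0, 0, 0⟩]⟩,
  ⟨1, 2, [⟨1, 514, 0, 0, 0, 0⟩, ⟨1, 510, 0, 0, 0, 0⟩]⟩,
  ⟨1, 1, [⟨1, 516, 0, 0, 0, 0⟩]⟩,
  ⟨1, 2, [⟨1, 518, 0, 0, 0, 0⟩, ⟨(-1), 870, 0, 0, 1, 147⟩]⟩,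
  ⟨1, 1, [⟨1, 319, 0, 0, 0, 0⟩]⟩,
  ⟨1, 1, [⟨1, 520, 0, 0, 0, 0⟩]⟩,
  ⟨1, 2, [⟨1, 521, 0, 0, 0, 0⟩, ⟨(-1), 870, 0, 0, 0, 0⟩]⟩,
  ⟨1, 2, [⟨1, 523, 0, 0, 0, 0⟩, ⟨1, 869, 0, 0, 1, 266⟩]⟩,
  ⟨1, 1, [⟨1, 525, 0, 0, 0, 0⟩]⟩,
  ⟨1, 2, [⟨1, 527, 0, 0, 0, 0⟩, ⟨1, 870, 0, 0, 1, 257⟩]⟩,
  ⟨1, 2, [⟨1, 529, 0, 0, 0, 0⟩, ⟨1, 869, 0, 0, 2, 272641⟩]⟩,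
  ⟨1, 1, [⟨1, 531, 0, 0, 0, 0⟩]⟩,
  ⟨1, 1, [⟨1, 533, 0, 0, 0, 0⟩]⟩,
  ⟨1, 1, [⟨1, 535, 0, 0, 0, 0⟩]⟩,
  ⟨1, 1, [⟨1, 537, 0, 0, 0, 0⟩]⟩,
  ⟨1, 1, [⟨1, 539, 0, 0, 0, 0⟩]⟩,
  ⟨1, 1, [⟨1, 541, 0, 0, 0, 0⟩]⟩,
  ⟨1, 1, [⟨1, 543, 0, 0, 0, 0⟩]⟩,
  ⟨1, 1, [⟨1, 545, 0, 0, 0, 0⟩]⟩,
  ⟨1, 1, [⟨1, 547, 0, 0, 0, 0⟩]⟩,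
  ⟨1, 1, [⟨1, 549, 0, 0, 0, 0⟩]⟩,
  ⟨1, 1, [⟨1, 551, 0, 0, 0, 0⟩]⟩,
  ⟨1, 1, [⟨1, 553, 0, 0, 0, 0⟩]⟩,
  ⟨1, 1, [⟨1, 555, 0, 0, 0, 0⟩]⟩,
  ⟨1, 1, [⟨1, 557, 0, 0, 0, 0⟩]⟩,
  ⟨1, 1, [⟨1, 559, 0, 0, 0, 0⟩]⟩,
  ⟨1, 1, [⟨1, 561, 0, 0, 0, 0⟩]⟩,
  ⟨1, 1, [⟨1, 563, 0, 0, 0, 0⟩]⟩,
  ⟨1, 1, [⟨1, 565, 0, 0, 0, 0⟩]⟩,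
  ⟨1, 1, [⟨1, 567, 0, 0, 0, 0⟩]⟩,
  ⟨1, 1, [⟨1, 569, 0, 0, 0, 0⟩]⟩,
  ⟨1, 1, [⟨1, 571, 0, 0, 0, 0⟩]⟩,
  ⟨1, 1, [⟨1, 573, 0, 0, 0, 0⟩]⟩]

theorem r2_t1 : r2Ok rels1 r2_c1 = true := by decide +kernel

/-- Certificates. -/
def r2_c2 : List Ct := [
  ⟨1, 1, [⟨1, 575, 0, 0, 0, 0⟩]⟩,
  ⟨1, 1, [⟨1, 577, 0, 0, 0, 0⟩]⟩,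
  ⟨1, 1, [⟨1, 579, 0, 0, 0, 0⟩]⟩,
  ⟨1, 1, [⟨1, 581, 0, 0, 0, 0⟩]⟩,
  ⟨1, 1, [⟨1, 583, 0, 0, 0, 0⟩]⟩,
  ⟨1, 1, [⟨1, 585, 0, 0, 0, 0⟩]⟩,
  ⟨1, 1, [⟨1, 587, 0, 0, 0, 0⟩]⟩,
  ⟨1, 1, [⟨1, 589, 0, 0, 0, 0⟩]⟩,
  ⟨1, 1, [⟨1, 591, 0, 0, 0, 0⟩]⟩,
  ⟨1, 1, [⟨1, 593, 0, 0, 0, 0⟩]⟩,
  ⟨1, 1, [⟨1, 595, 0, 0, 0, 0⟩]⟩,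
  ⟨1, 1, [⟨1, 597, 0, 0, 0, 0⟩]⟩,
  ⟨1, 2, [⟨1, 600, 0, 0, 0, 0⟩, ⟨1, 601, 0, 0, 0, 0⟩]⟩,
  ⟨1, 1, [⟨1, 603, 0, 0, 0, 0⟩]⟩,
  ⟨1, 1, [⟨1, 601, 0, 0, 0, 0⟩]⟩,
  ⟨1, 2, [⟨1, 605, 0, 0, 0, 0⟩, ⟨1, 601, 0, 0, 0, 0⟩]⟩,
  ⟨1, 1, [⟨1, 607, 0, 0, 0, 0⟩]⟩,
  ⟨1, 2, [⟨1, 609, 0, 0, 0, 0⟩, ⟨1, 603, 0, 0, 0, 0⟩, ⟨1, 607, 0, 0, 0, 0⟩]⟩,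
  ⟨1, 1, [⟨1, 611, 0, 0, 0, 0⟩]⟩,
  ⟨1, 2, [⟨1, 613, 0, 0, 0, 0⟩, ⟨1, 870, 5, 292765641746643, 0, 0⟩]⟩,
  ⟨1, 2, [⟨1, 616, 0, 0, 0, 0⟩, ⟨1, 617, 0, 0, 0, 0⟩]⟩,
  ⟨1, 1, [⟨1, 619, 0, 0, 0, 0⟩]⟩,
  ⟨1, 1, [⟨1, 617, 0, 0, 0, 0⟩]⟩,
  ⟨1, 2, [⟨1, 621, 0, 0, 0, 0⟩, ⟨1, 617, 0, 0, 0, 0⟩]⟩,
  ⟨1, 1, [⟨1, 623, 0, 0, 0, 0⟩]⟩,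
  ⟨1, 2, [⟨1, 625, 0, 0, 0, 0⟩, ⟨1, 619, 0, 0, 0, 0⟩, ⟨1, 623, 0, 0, 0, 0⟩]⟩,
  ⟨1, 1, [⟨1, 627, 0, 0, 0, 0⟩]⟩,
  ⟨1, 2, [⟨1, 629, 0, 0, 0, 0⟩, ⟨1, 870, 4, 295548758227, 0, 0⟩]⟩,
  ⟨1, 2, [⟨1, 632, 0, 0, 0, 0⟩, ⟨1, 633, 0, 0, 0, 0⟩]⟩,
  ⟨1, 1, [⟨1, 635, 0, 0, 0, 0⟩]⟩,
  ⟨1, 1, [⟨1, 633, 0, 0, 0, 0⟩]⟩,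
  ⟨1, 2, [⟨1, 637, 0, 0, 0, 0⟩, ⟨1, 633, 0, 0, 0, 0⟩]⟩,
  ⟨1, 1, [⟨1, 639, 0, 0, 0, 0⟩]⟩,
  ⟨1, 2, [⟨1, 641, 0, 0, 0, 0⟩, ⟨1, 635, 0, 0, 0, 0⟩, ⟨1, 639, 0, 0, 0, 0⟩]⟩,
  ⟨1, 1, [⟨1, 643, 0, 0, 0, 0⟩]⟩,
  ⟨1, 2, [⟨1, 645, 0, 0, 0, 0⟩, ⟨1, 870, 3, 269756627, 0, 0⟩]⟩,
  ⟨1, 2, [⟨1, 648, 0, 0, 0, 0⟩, ⟨1, 649, 0, 0, 0, 0⟩]⟩,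
  ⟨1, 1, [⟨1, 651, 0, 0, 0, 0⟩]⟩,
  ⟨1, 1, [⟨1, 649, 0, 0, 0, 0⟩]⟩,
  ⟨1, 2, [⟨1, 653, 0, 0, 0, 0⟩, ⟨1, 649, 0, 0, 0, 0⟩]⟩,
  ⟨1, 1, [⟨1, 655, 0, 0, 0, 0⟩]⟩,
  ⟨1, 2, [⟨1, 657, 0, 0, 0, 0⟩, ⟨1, 651, 0, 0, 0, 0⟩, ⟨1, 655, 0, 0, 0, 0⟩]⟩,
  ⟨1, 2, [⟨1, 659, 0, 0, 0, 0⟩, ⟨1, 871, 0, 0, 3, 288630995⟩]⟩,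
  ⟨1, 1, [⟨1, 661, 0, 0, 0, 0⟩]⟩,
  ⟨1, 2, [⟨1, 664, 0, 0, 0, 0⟩, ⟨1, 665, 0, 0, 0, 0⟩]⟩,
  ⟨1, 1, [⟨1, 667, 0, 0, 0, 0⟩]⟩,
  ⟨1, 1, [⟨1, 665, 0, 0, 0, 0⟩]⟩,
  ⟨1, 2, [⟨1, 669, 0, 0, 0, 0⟩, ⟨1, 665, 0, 0, 0, 0⟩]⟩,
  ⟨1, 1, [⟨1, 671, 0, 0, 0, 0⟩]⟩,
  ⟨1, 2, [⟨1, 673, 0, 0, 0, 0⟩, ⟨1, 667, 0, 0, 0, 0⟩, ⟨1, 671, 0, 0, 0, 0⟩]⟩,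
  ⟨1, 2, [⟨1, 675, 0, 0, 0, 0⟩, ⟨1, 871, 0, 0, 2, 272595⟩]⟩,
  ⟨1, 1, [⟨1, 677, 0, 0, 0, 0⟩]⟩,
  ⟨1, 2, [⟨1, 507, 0, 0, 0, 0⟩, ⟨1, 508, 0, 0, 0, 0⟩]⟩,
  ⟨1, 1, [⟨(-1), 511, 0, 0, 0, 0⟩]⟩,
  ⟨1, 1, [⟨1, 508, 0, 0, 0, 0⟩]⟩,
  ⟨1, 2, [⟨1, 513, 0, 0, 0, 0⟩, ⟨1, 508, 0, 0, 0, 0⟩]⟩,
  ⟨1, 1, [⟨(-1), 515, 0, 0, 0, 0⟩]⟩,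
  ⟨1, 2, [⟨(-1), 83, 0, 0, 0, 0⟩, ⟨(-1), 511, 0, 0, 0, 0⟩, ⟨(-1), 515, 0, 0, 0, 0⟩]⟩,
  ⟨1, 2, [⟨1, 679, 0, 0, 0, 0⟩, ⟨1, 872, 0, 0, 1, 211⟩]⟩,
  ⟨1, 1, [⟨1, 271, 0, 0, 0, 0⟩]⟩]

theorem r2_t2 : r2Ok rels2 r2_c2 = true := by decide +kernel

/-- Certificates. -/
def r2_c3 : List Ct := [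
  ⟨1, 1, [⟨1, 867, 0, 0, 0, 0⟩]⟩,
  ⟨1, 2, [⟨(-1), 680, 0, 0, 0, 0⟩, ⟨(-1), 681, 0, 0, 0, 0⟩]⟩,
  ⟨1, 2, [⟨(-1), 682, 0, 0, 0, 0⟩, ⟨(-1), 683, 0, 0, 0, 0⟩]⟩,
  ⟨1, 2, [⟨(-1), 684, 0, 0, 0, 0⟩, ⟨(-1), 685, 0, 0, 0, 0⟩]⟩,
  ⟨1, 2, [⟨(-1), 686, 0, 0, 0, 0⟩, ⟨1, 683, 0, 0, 0, 0⟩]⟩,
  ⟨1, 2, [⟨(-1), 687, 0, 0, 0, 0⟩, ⟨1, 681, 0, 0, 0, 0⟩]⟩,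
  ⟨1, 2, [⟨(-1), 688, 0, 0, 0, 0⟩, ⟨(-1), 685, 0, 0, 0, 0⟩]⟩,
  ⟨1, 2, [⟨(-1), 689, 0, 0, 0, 0⟩, ⟨1, 685, 0, 0, 0, 0⟩]⟩,
  ⟨1, 2, [⟨(-1), 690, 0, 0, 0, 0⟩, ⟨1, 681, 0, 0, 0, 0⟩]⟩,
  ⟨1, 2, [⟨(-1), 691, 0, 0, 0, 0⟩, ⟨(-1), 683, 0, 0, 0, 0⟩]⟩,
  ⟨1, 2, [⟨(-1), 692, 0, 0, 0, 0⟩, ⟨1, 685, 0, 0, 0, 0⟩]⟩,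
  ⟨1, 2, [⟨(-1), 693, 0, 0, 0, 0⟩, ⟨1, 683, 0, 0, 0, 0⟩]⟩,
  ⟨1, 2, [⟨(-1), 694, 0, 0, 0, 0⟩, ⟨(-1), 681, 0, 0, 0, 0⟩]⟩,
  ⟨1, 2, [⟨1, 99, 0, 0, 0, 0⟩, ⟨(-1), 695, 0, 0, 0, 0⟩, ⟨(-1), 696, 0, 0, 0, 0⟩]⟩,
  ⟨1, 3, [⟨(-1), 697, 0, 0, 0, 0⟩, ⟨(-1), 698, 0, 0, 0, 0⟩, ⟨(-1), 699, 0, 0, 0, 0⟩, ⟨(-1), 700, 0, 0, 0, 0⟩]⟩,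
  ⟨1, 1, [⟨1, 695, 0, 0, 0, 0⟩]⟩,
  ⟨1, 1, [⟨1, 696, 0, 0, 0, 0⟩]⟩,
  ⟨1, 2, [⟨1, 113, 0, 0, 0, 0⟩, ⟨(-1), 701, 0, 0, 0, 0⟩, ⟨(-1), 702, 0, 0, 0, 0⟩]⟩,
  ⟨1, 3, [⟨(-1), 703, 0, 0, 0, 0⟩, ⟨(-1), 704, 0, 0, 0, 0⟩, ⟨(-1), 705, 0, 0, 0, 0⟩, ⟨(-1), 706, 0, 0, 0, 0⟩]⟩,
  ⟨1, 1, [⟨(-1), 701, 0, 0, 0, 0⟩]⟩,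
  ⟨1, 1, [⟨1, 702, 0, 0, 0, 0⟩]⟩,
  ⟨1, 2, [⟨1, 127, 0, 0, 0, 0⟩, ⟨(-1), 707, 0, 0, 0, 0⟩, ⟨(-1), 708, 0, 0, 0, 0⟩]⟩,
  ⟨1, 3, [⟨(-1), 709, 0, 0, 0, 0⟩, ⟨(-1), 710, 0, 0, 0, 0⟩, ⟨(-1), 711, 0, 0, 0, 0⟩, ⟨(-1), 712, 0, 0, 0, 0⟩]⟩,
  ⟨1, 1, [⟨(-1), 707, 0, 0, 0, 0⟩]⟩,
  ⟨1, 1, [⟨(-1), 708, 0, 0, 0, 0⟩]⟩,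
  ⟨1, 2, [⟨1, 160, 0, 0, 0, 0⟩, ⟨(-1), 713, 0, 0, 0, 0⟩, ⟨(-1), 714, 0, 0, 0, 0⟩]⟩,
  ⟨1, 3, [⟨(-1), 715, 0, 0, 0, 0⟩, ⟨(-1), 716, 0, 0, 0, 0⟩, ⟨(-1), 717, 0, 0, 0, 0⟩, ⟨(-1), 718, 0, 0, 0, 0⟩]⟩,
  ⟨1, 1, [⟨(-1), 713, 0, 0, 0, 0⟩]⟩,
  ⟨1, 1, [⟨1, 714, 0, 0, 0, 0⟩]⟩,
  ⟨1, 2, [⟨1, 173, 0, 0, 0, 0⟩, ⟨(-1), 719, 0, 0, 0, 0⟩, ⟨(-1), 720, 0, 0, 0, 0⟩]⟩,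
  ⟨1, 3, [⟨(-1), 721, 0, 0, 0, 0⟩, ⟨(-1), 722, 0, 0, 0, 0⟩, ⟨(-1), 723, 0, 0, 0, 0⟩, ⟨(-1), 724, 0, 0, 0, 0⟩]⟩,
  ⟨1, 1, [⟨(-1), 719, 0, 0, 0, 0⟩]⟩,
  ⟨1, 1, [⟨(-1), 720, 0, 0, 0, 0⟩]⟩,
  ⟨1, 2, [⟨1, 205, 0, 0, 0, 0⟩, ⟨(-1), 725, 0, 0, 0, 0⟩, ⟨(-1), 726, 0, 0, 0, 0⟩]⟩,
  ⟨1, 3, [⟨(-1), 727, 0, 0, 0, 0⟩, ⟨(-1), 728, 0, 0, 0, 0⟩, ⟨(-1), 729, 0, 0, 0, 0⟩, ⟨(-1), 730, 0, 0, 0, 0⟩]⟩,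
  ⟨1, 1, [⟨(-1), 725, 0, 0, 0, 0⟩]⟩,
  ⟨1, 1, [⟨(-1), 726, 0, 0, 0, 0⟩]⟩,
  ⟨1, 1, [⟨(-1), 685, 0, 0, 0, 0⟩]⟩,
  ⟨1, 1, [⟨(-1), 683, 0, 0, 0, 0⟩]⟩,
  ⟨1, 1, [⟨(-1), 681, 0, 0, 0, 0⟩]⟩,
  ⟨1, 3, [⟨1, 92, 0, 0, 0, 0⟩, ⟨1, 328, 0, 0, 0, 0⟩, ⟨1, 292, 0, 0, 0, 0⟩, ⟨1, 296, 0, 0, 0, 0⟩]⟩,
  ⟨1, 2, [⟨(-1), 731, 0, 0, 0, 0⟩, ⟨1, 303, 0, 0, 0, 0⟩, ⟨1, 307, 0, 0, 0, 0⟩]⟩,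
  ⟨1, 2, [⟨(-1), 732, 0, 0, 0, 0⟩, ⟨1, 303, 0, 0, 0, 0⟩, ⟨1, 317, 0, 0, 0, 0⟩]⟩,
  ⟨1, 2, [⟨(-1), 733, 0, 0, 0, 0⟩, ⟨1, 307, 0, 0, 0, 0⟩, ⟨1, 317, 0, 0, 0, 0⟩]⟩,
  ⟨1, 1, [⟨1, 328, 0, 0, 0, 0⟩]⟩,
  ⟨1, 1, [⟨1, 292, 0, 0, 0, 0⟩]⟩,
  ⟨1, 1, [⟨1, 296, 0, 0, 0, 0⟩]⟩,
  ⟨1, 1, [⟨1, 303, 0, 0, 0, 0⟩]⟩,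
  ⟨1, 1, [⟨1, 307, 0, 0, 0, 0⟩]⟩,
  ⟨1, 1, [⟨1, 317, 0, 0, 0, 0⟩]⟩,
  ⟨1, 1, [⟨1, 735, 0, 0, 0, 0⟩]⟩,
  ⟨1, 1, [⟨1, 737, 0, 0, 0, 0⟩]⟩,
  ⟨1, 1, [⟨1, 739, 0, 0, 0, 0⟩]⟩,
  ⟨1, 1, [⟨1, 741, 0, 0, 0, 0⟩]⟩,
  ⟨1, 1, [⟨1, 743, 0, 0, 0, 0⟩]⟩,
  ⟨1, 1, [⟨1, 745, 0, 0, 0, 0⟩]⟩,
  ⟨1, 1, [⟨1, 747, 0, 0, 0, 0⟩]⟩,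
  ⟨1, 1, [⟨1, 749, 0, 0, 0, 0⟩]⟩,
  ⟨1, 1, [⟨1, 751, 0, 0, 0, 0⟩]⟩,
  ⟨1, 1, [⟨1, 753, 0, 0, 0, 0⟩]⟩]

theorem r2_t3 : r2Ok rels3 r2_c3 = true := by decide +kernel

/-- Certificates. -/
def r2_c4 : List Ct := [
  ⟨1, 1, [⟨1, 755, 0, 0, 0, 0⟩]⟩,
  ⟨1, 1, [⟨1, 757, 0, 0, 0, 0⟩]⟩,
  ⟨1, 1, [⟨1, 759, 0, 0, 0, 0⟩]⟩,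
  ⟨1, 1, [⟨1, 761, 0, 0, 0, 0⟩]⟩,
  ⟨1, 1, [⟨1, 763, 0, 0, 0, 0⟩]⟩,
  ⟨1, 1, [⟨1, 765, 0, 0, 0, 0⟩]⟩,
  ⟨1, 1, [⟨1, 767, 0, 0, 0, 0⟩]⟩,
  ⟨1, 1, [⟨1, 769, 0, 0, 0, 0⟩]⟩,
  ⟨1, 1, [⟨1, 771, 0, 0, 0, 0⟩]⟩,
  ⟨1, 1, [⟨1, 773, 0, 0, 0, 0⟩]⟩,
  ⟨1, 1, [⟨1, 775, 0, 0, 0, 0⟩]⟩,
  ⟨1, 1, [⟨1, 777, 0, 0, 0, 0⟩]⟩,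
  ⟨1, 1, [⟨1, 779, 0, 0, 0, 0⟩]⟩,
  ⟨1, 1, [⟨1, 781, 0, 0, 0, 0⟩]⟩,
  ⟨1, 1, [⟨1, 783, 0, 0, 0, 0⟩]⟩,
  ⟨1, 1, [⟨1, 785, 0, 0, 0, 0⟩]⟩,
  ⟨1, 1, [⟨1, 787, 0, 0, 0, 0⟩]⟩,
  ⟨1, 1, [⟨1, 789, 0, 0, 0, 0⟩]⟩,
  ⟨1, 2, [⟨(-1), 238, 0, 0, 0, 0⟩, ⟨1, 868, 0, 0, 1, 257⟩]⟩,
  ⟨1, 1, [⟨(-1), 790, 0, 0, 0, 0⟩]⟩,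
  ⟨1, 2, [⟨1, 11, 0, 0, 0, 0⟩, ⟨(-1), 790, 0, 0, 0, 0⟩]⟩,
  ⟨1, 2, [⟨1, 10, 0, 0, 0, 0⟩, ⟨(-1), 790, 0, 0, 0, 0⟩]⟩,
  ⟨1, 1, [⟨1, 388, 0, 0, 0, 0⟩]⟩,
  ⟨1, 0, []⟩,
  ⟨1, 1, [⟨1, 792, 0, 0, 0, 0⟩]⟩,
  ⟨1, 1, [⟨1, 794, 0, 0, 0, 0⟩]⟩,
  ⟨1, 1, [⟨1, 796, 0, 0, 0, 0⟩]⟩,
  ⟨1, 1, [⟨1, 798, 0, 0, 0, 0⟩]⟩,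
  ⟨1, 0, []⟩,
  ⟨1, 0, []⟩,
  ⟨1, 1, [⟨1, 416, 0, 0, 0, 0⟩]⟩,
  ⟨1, 2, [⟨(-1), 248, 0, 0, 0, 0⟩, ⟨1, 869, 0, 0, 1, 257⟩]⟩,
  ⟨1, 1, [⟨(-1), 263, 0, 0, 0, 0⟩]⟩,
  ⟨1, 2, [⟨1, 32, 0, 0, 0, 0⟩, ⟨(-1), 799, 0, 0, 0, 0⟩, ⟨1, 801, 0, 0, 0, 0⟩]⟩,
  ⟨1, 2, [⟨1, 63, 0, 0, 0, 0⟩, ⟨(-1), 802, 0, 0, 0, 0⟩, ⟨(-1), 803, 0, 0, 0, 0⟩]⟩,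
  ⟨1, 2, [⟨1, 31, 0, 0, 0, 0⟩, ⟨(-1), 799, 0, 0, 0, 0⟩, ⟨(-1), 800, 0, 0, 0, 0⟩]⟩,
  ⟨1, 2, [⟨1, 65, 0, 0, 0, 0⟩, ⟨(-1), 803, 0, 0, 0, 0⟩, ⟨(-1), 804, 0, 0, 0, 0⟩]⟩,
  ⟨1, 2, [⟨1, 33, 0, 0, 0, 0⟩, ⟨(-1), 800, 0, 0, 0, 0⟩, ⟨1, 801, 0, 0, 0, 0⟩]⟩,
  ⟨1, 2, [⟨1, 64, 0, 0, 0, 0⟩, ⟨(-1), 802, 0, 0, 0, 0⟩, ⟨(-1), 804, 0, 0, 0, 0⟩]⟩,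
  ⟨1, 1, [⟨(-1), 799, 0, 0, 0, 0⟩]⟩,
  ⟨1, 1, [⟨(-1), 803, 0, 0, 0, 0⟩]⟩,
  ⟨1, 1, [⟨1, 801, 0, 0, 0, 0⟩]⟩,
  ⟨1, 1, [⟨(-1), 802, 0, 0, 0, 0⟩]⟩,
  ⟨1, 1, [⟨(-1), 800, 0, 0, 0, 0⟩]⟩,
  ⟨1, 1, [⟨(-1), 804, 0, 0, 0, 0⟩]⟩,
  ⟨1, 1, [⟨1, 806, 0, 0, 0, 0⟩]⟩,
  ⟨1, 0, []⟩,
  ⟨1, 0, []⟩,
  ⟨1, 1, [⟨1, 808, 0, 0, 0, 0⟩]⟩,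
  ⟨1, 1, [⟨1, 810, 0, 0, 0, 0⟩]⟩,
  ⟨1, 1, [⟨1, 812, 0, 0, 0, 0⟩]⟩,
  ⟨1, 1, [⟨1, 814, 0, 0, 0, 0⟩]⟩,
  ⟨1, 1, [⟨1, 816, 0, 0, 0, 0⟩]⟩,
  ⟨1, 1, [⟨1, 818, 0, 0, 0, 0⟩]⟩,
  ⟨1, 1, [⟨1, 820, 0, 0, 0, 0⟩]⟩,
  ⟨1, 0, []⟩,
  ⟨1, 1, [⟨1, 822, 0, 0, 0, 0⟩]⟩,
  ⟨1, 1, [⟨1, 824, 0, 0, 0, 0⟩]⟩,
  ⟨1, 1, [⟨1, 826, 0, 0, 0, 0⟩]⟩,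
  ⟨1, 0, []⟩]

theorem r2_t4 : r2Ok rels4 r2_c4 = true := by decide +kernel

/-- Certificates. -/
def r2_c5 : List Ct := [
  ⟨1, 1, [⟨1, 828, 0, 0, 0, 0⟩]⟩,
  ⟨1, 1, [⟨1, 830, 0, 0, 0, 0⟩]⟩,
  ⟨1, 1, [⟨1, 832, 0, 0, 0, 0⟩]⟩,
  ⟨1, 0, []⟩,
  ⟨1, 1, [⟨1, 834, 0, 0, 0, 0⟩]⟩,
  ⟨1, 0, []⟩,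
  ⟨1, 1, [⟨(-1), 805, 0, 0, 0, 0⟩]⟩,
  ⟨1, 0, []⟩,
  ⟨1, 1, [⟨1, 519, 0, 0, 0, 0⟩]⟩,
  ⟨1, 2, [⟨(-1), 290, 0, 0, 0, 0⟩, ⟨1, 871, 0, 0, 1, 257⟩]⟩,
  ⟨1, 1, [⟨(-1), 305, 0, 0, 0, 0⟩]⟩,
  ⟨1, 1, [⟨(-1), 321, 0, 0, 0, 0⟩]⟩,
  ⟨1, 3, [⟨1, 104, 0, 0, 0, 0⟩, ⟨(-1), 835, 0, 0, 0, 0⟩, ⟨1, 838, 0, 0, 0, 0⟩, ⟨1, 839, 0, 0, 0, 0⟩]⟩,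
  ⟨1, 3, [⟨1, 162, 0, 0, 0, 0⟩, ⟨(-1), 840, 0, 0, 0, 0⟩, ⟨(-1), 841, 0, 0, 0, 0⟩, ⟨(-1), 842, 0, 0, 0, 0⟩]⟩,
  ⟨1, 3, [⟨1, 210, 0, 0, 0, 0⟩, ⟨(-1), 843, 0, 0, 0, 0⟩, ⟨(-1), 844, 0, 0, 0, 0⟩, ⟨(-1), 845, 0, 0, 0, 0⟩]⟩,
  ⟨1, 3, [⟨1, 103, 0, 0, 0, 0⟩, ⟨(-1), 835, 0, 0, 0, 0⟩, ⟨(-1), 836, 0, 0, 0, 0⟩, ⟨(-1), 837, 0, 0, 0, 0⟩]⟩,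
  ⟨1, 3, [⟨1, 164, 0, 0, 0, 0⟩, ⟨(-1), 841, 0, 0, 0, 0⟩, ⟨(-1), 846, 0, 0, 0, 0⟩, ⟨1, 848, 0, 0, 0, 0⟩]⟩,
  ⟨1, 3, [⟨1, 211, 0, 0, 0, 0⟩, ⟨(-1), 843, 0, 0, 0, 0⟩, ⟨(-1), 849, 0, 0, 0, 0⟩, ⟨(-1), 850, 0, 0, 0, 0⟩]⟩,
  ⟨1, 3, [⟨1, 105, 0, 0, 0, 0⟩, ⟨(-1), 836, 0, 0, 0, 0⟩, ⟨1, 838, 0, 0, 0, 0⟩, ⟨(-1), 851, 0, 0, 0, 0⟩]⟩,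
  ⟨1, 3, [⟨1, 163, 0, 0, 0, 0⟩, ⟨(-1), 840, 0, 0, 0, 0⟩, ⟨(-1), 846, 0, 0, 0, 0⟩, ⟨(-1), 847, 0, 0, 0, 0⟩]⟩,
  ⟨1, 3, [⟨1, 213, 0, 0, 0, 0⟩, ⟨(-1), 845, 0, 0, 0, 0⟩, ⟨(-1), 850, 0, 0, 0, 0⟩, ⟨(-1), 852, 0, 0, 0, 0⟩]⟩,
  ⟨1, 3, [⟨1, 106, 0, 0, 0, 0⟩, ⟨(-1), 837, 0, 0, 0, 0⟩, ⟨1, 839, 0, 0, 0, 0⟩, ⟨(-1), 851, 0, 0, 0, 0⟩]⟩,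
  ⟨1, 3, [⟨1, 165, 0, 0, 0, 0⟩, ⟨(-1), 842, 0, 0, 0, 0⟩, ⟨(-1), 847, 0, 0, 0, 0⟩, ⟨1, 848, 0, 0, 0, 0⟩]⟩,
  ⟨1, 3, [⟨1, 212, 0, 0, 0, 0⟩, ⟨(-1), 844, 0, 0, 0, 0⟩, ⟨(-1), 849, 0, 0, 0, 0⟩, ⟨(-1), 852, 0, 0, 0, 0⟩]⟩,
  ⟨1, 1, [⟨(-1), 835, 0, 0, 0, 0⟩]⟩,
  ⟨1, 1, [⟨(-1), 841, 0, 0, 0, 0⟩]⟩,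
  ⟨1, 1, [⟨(-1), 843, 0, 0, 0, 0⟩]⟩,
  ⟨1, 1, [⟨1, 838, 0, 0, 0, 0⟩]⟩,
  ⟨1, 1, [⟨(-1), 840, 0, 0, 0, 0⟩]⟩,
  ⟨1, 1, [⟨(-1), 845, 0, 0, 0, 0⟩]⟩,
  ⟨1, 1, [⟨1, 839, 0, 0, 0, 0⟩]⟩,
  ⟨1, 1, [⟨(-1), 842, 0, 0, 0, 0⟩]⟩,
  ⟨1, 1, [⟨(-1), 844, 0, 0, 0, 0⟩]⟩,
  ⟨1, 1, [⟨(-1), 836, 0, 0, 0, 0⟩]⟩,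
  ⟨1, 1, [⟨(-1), 846, 0, 0, 0, 0⟩]⟩,
  ⟨1, 1, [⟨(-1), 850, 0, 0, 0, 0⟩]⟩,
  ⟨1, 1, [⟨(-1), 837, 0, 0, 0, 0⟩]⟩,
  ⟨1, 1, [⟨1, 848, 0, 0, 0, 0⟩]⟩,
  ⟨1, 1, [⟨(-1), 849, 0, 0, 0, 0⟩]⟩,
  ⟨1, 1, [⟨(-1), 851, 0, 0, 0, 0⟩]⟩,
  ⟨1, 1, [⟨(-1), 847, 0, 0, 0, 0⟩]⟩,
  ⟨1, 1, [⟨(-1), 852, 0, 0, 0, 0⟩]⟩]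

theorem r2_t5 : r2Ok rels5 r2_c5 = true := by decide +kernel

theorem r2_all (H : Type) [DecidableEq H] : ∀ R ∈ rels, RT H R.k' R.k (ms (xr R)) := by
  intro R hR
  unfold rels at hR
  simp only [List.mem_append] at hR
  rcases hR with h | h | h | h | h | h
  · exact r2Ok_spec H r2_t0 R h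
  · exact r2Ok_spec H r2_t1 R h
  · exact r2Ok_spec H r2_t2 R h
  · exact r2Ok_spec H r2_t3 R h
  · exact r2Ok_spec H r2_t4 R h
  · exact r2Ok_spec H r2_t5 R h

end Pool.Agent.SWW54
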