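import Mathlib
import Pool.Agent.SWW54.AllA
import Pool.Agent.SWW54.AllB

/-!
# All relations hold
-/

set_option autoImplicit false

namespace Pool.Agent.SWW54

open Pool.Agent.Jac70 Pool.Agent.SWT85
open Pool.Agent.SWL57 (Rl relsE relsE0 xr xr0 ms RT AllR)

/-- The check of a list of relations. -/
def r3Ok : List Rl → List Ct → Bool
  | [], _ => true
  | _ :: _, [] => false
  | R :: l, c :: m => ctOk 0 R.k' (xr0 R) c && r3Ok l m

theorem r3Ok_spec (H : Type) [DecidableEq H] {l : List Rl} {m : List Ct} (h : r3Ok l m = true) :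
    ∀ R ∈ l, RT H 0 R.k' (xr0 R) := by
  induction l generalizing m with
  | nil => exact fun R hR => absurd hR (List.not_mem_nil)
  | cons R l ih =>
    cases m with
    | nil => exact absurd h (by simp [r3Ok])
    | cons c m =>
      unfold r3Ok at h
      rw [Bool.and_eq_true] at h
      intro R' hR'
      rcases List.mem_cons.1 hR' with rfl | hR'
      · exact fun p u hp hu => ct_spec h.1 p u hp (tyu_of_tyc hu)
      · exact ih h.2 R' hR'

/-- Certificates. -/
def r3_c : List Ct := [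
  ⟨1, 1, [⟨1, 853, 0, 0, 0, 0⟩]⟩,
  ⟨1, 1, [⟨1, 855, 0, 0, 0, 0⟩]⟩,
  ⟨1, 1, [⟨1, 857, 0, 0, 0, 0⟩]⟩]

theorem r3_t : r3Ok relsE r3_c = true := by decide +kernel

/-- The check of a list of relations. -/
def r4Ok : List Rl → List Ct → Bool
  | [], _ => true
  | _ :: _, [] => false
  | R :: l, c :: m => ctOk R.k' 9 (ms (xr0 R)) c && r4Ok l m

theorem r4Ok_spec (H : Type) [DecidableEq H] {l : List Rl} {m : List Ct} (h : r4Ok l m = true) :
    ∀ R ∈ l, RT H R.k' 9 (ms (xr0 R)) := by
  induction l generalizing m with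
  | nil => exact fun R hR => absurd hR (List.not_mem_nil)
  | cons R l ih =>
    cases m with
    | nil => exact absurd h (by simp [r4Ok])
    | cons c m =>
      unfold r4Ok at h
      rw [Bool.and_eq_true] at h
      intro R' hR'
      rcases List.mem_cons.1 hR' with rfl | hR'
      · exact fun p u hp hu => ct_spec h.1 p u hp (tyu_of_tyc hu)
      · exact ih h.2 R' hR'

/-- Certificates. -/
def r4_c : List Ct := [
  ⟨1, 1, [⟨1, 854, 0, 0, 0, 0⟩]⟩,
  ⟨1, 1, [⟨1, 856, 0, 0, 0, 0⟩]⟩,
  ⟨1, 1, [⟨1, 858, 0, 0, 0, 0⟩]⟩]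

theorem r4_t : r4Ok relsE r4_c = true := by decide +kernel

/-- All relations hold. -/
theorem allR (H : Type) [DecidableEq H] : AllR H :=
  ⟨r1_all H, r2_all H, r3Ok_spec H r3_t, r4Ok_spec H r4_t⟩

end Pool.Agent.SWW54
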